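import Mathlib
import Pool.Agent.R691.Mip.Top

set_option autoImplicit false
set_option linter.unusedSectionVars false

/-! # Interfaces: the modular isomorphism problem for `D_3(G) = 1`, `p = 2` -/

namespace Pool.Agent.T2H54.Mip2

open Matrix Pool.Agent.R691.Mip

section defs
variable {n m : ℕ} (B : Fin m → Matrix (Fin n) (Fin n) (ZMod 2))

/-- the polar form `β` on `V = F_2^n` (the commutator form); `q v = bil B v v` -/
def be (v w : Fin n → ZMod 2) : Fin m → ZMod 2 := bil B v w + bil B w v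

lemma be_add_left (v v' w : Fin n → ZMod 2) : be B (v + v') w = be B v w + be B v' w := by
  simp only [be, bil_add_left, bil_add_right]; abel

lemma be_add_right (v w w' : Fin n → ZMod 2) : be B v (w + w') = be B v w + be B v w' := by
  simp only [be, bil_add_left, bil_add_right]; abel

lemma be_comm (v w : Fin n → ZMod 2) : be B v w = be B w v := by
  simp only [be]; abel

@[simp] lemma be_zero_left (w : Fin n → ZMod 2) : be B 0 w = 0 := by simp [be]
@[simp] lemma be_zero_right (w : Fin n → ZMod 2) : be B w 0 = 0 := by simp [be]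

lemma add_self2 {k : ℕ} (v : Fin k → ZMod 2) : v + v = 0 := by
  funext i; exact CharTwo.add_self_eq_zero _

@[simp] lemma be_self (w : Fin n → ZMod 2) : be B w w = 0 := by
  simp only [be]; exact add_self2 _

variable (F : Type*) [Field F] [Algebra (ZMod 2) F]

/-- the quadratic map over `F` -/
def qF (y : Fin n → F) : Fin m → F := bil (BF B F) y y

/-- the polar form over `F` -/
def beF : (Fin n → F) →ₗ[F] (Fin n → F) →ₗ[F] (Fin m → F) :=
  LinearMap.mk₂ F (fun y z => bil (BF B F) y z + bil (BF B F) z y)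
    (by intro a b c; simp only [bil_add_left, bil_add_right]; abel)
    (by intro a b c; simp only [bil_smul_left, bil_smul_right, smul_add])
    (by intro a b c; simp only [bil_add_left, bil_add_right]; abel)
    (by intro a b c; simp only [bil_smul_left, bil_smul_right, smul_add])

lemma beF_apply (y z : Fin n → F) :
    beF B F y z = bil (BF B F) y z + bil (BF B F) z y := rfl

lemma beF_comm (y z : Fin n → F) : beF B F y z = beF B F z y := by
  simp only [beF_apply]; abel

lemma qF_add (y z : Fin n → F) : qF B F (y + z) = qF B F y + qF B F z + beF B F y z := by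
  simp only [beF_apply, qF, bil_add_left, bil_add_right]; abel

lemma qF_smul (c : F) (y : Fin n → F) : qF B F (c • y) = c ^ 2 • qF B F y := by
  simp only [qF, bil_smul_left, bil_smul_right, smul_smul, pow_two]

@[simp] lemma qF_zero : qF B F 0 = 0 := by simp [qF]

lemma qF_vx (v : Fin n → ZMod 2) : qF B F (vx F v) = vx F (bil B v v) := bil_vx B F v v

lemma beF_vx (v w : Fin n → ZMod 2) : beF B F (vx F v) (vx F w) = vx F (be B v w) := by
  rw [beF_apply, bil_vx, bil_vx, be, vx_add]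

variable {F} in
/-- closed subsets of `V` with respect to a family of functionals `e j s` -/
def ClosedE (e : Fin n → (Fin n → ZMod 2) → (Fin n → F) →ₗ[F] F) (Y : Set (Fin n → ZMod 2)) :
    Prop := ∀ v ∈ Y, ∀ j s, e j s (vx F v) ≠ 0 → v + s ∈ Y

/-- The data extracted from an isomorphism of group algebras. -/
structure Data where
  M : Matrix (Fin n) (Fin n) F
  hM : IsUnit M.det
  D : (Fin n → F) →ₗ[F] (Fin n → F)
  hD : ∀ z : Fin n → ZMod 2, D (M *ᵥ vx F z) = frv 2 (M *ᵥ vx F z)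
  Θ : (Fin m → F) →ₗ[F] (Fin m → F)
  hΘ : Function.Injective Θ
  a : (Fin n → ZMod 2) → (Fin n → F) →ₗ[F] F
  a0 : a 0 = 0
  D1 : ∀ y, D y = y + ∑ s, a s y • vx F s
  D2 : ∀ y, qF B F (D y) = Θ (qF B F y)
  K : (Fin m → F) →ₗ[F] (Fin m → F)
  D3 : ∀ y, ∑ s, (a s y) ^ 2 • vx F (bil B s s) = K (qF B F y)
  e : Fin n → (Fin n → ZMod 2) → (Fin n → F) →ₗ[F] F
  E1a : ∀ s, (∀ w, ∃ y, be B s y ≠ 0 ∧ be B s y ≠ w) → ∀ j, e j s = 0
  E1b : ∀ s w, w ≠ 0 → (∀ y, be B s y = 0 ∨ be B s y = w) →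
    ∀ j, ∃ lam : (Fin m → F) →ₗ[F] F, ∀ y, e j s y • beF B F (vx F s) y = lam (qF B F y) • vx F w
  E2 : ∀ Y : Set (Fin n → ZMod 2), ClosedE e Y → ∀ s, (∀ v ∈ Y, ∀ v' ∈ Y, v + v' ≠ s) →
    ∀ v ∈ Y, a s (vx F v) = 0
  E3 : ∀ L : AddSubgroup (Fin n → ZMod 2), (∀ j, ∀ s, s ∉ L → e j s = 0) → ∀ s, s ∉ L → a s = 0
  E4 : ∀ Y : AddSubgroup (Fin n → ZMod 2), ClosedE e (Y : Set (Fin n → ZMod 2)) → ∀ l : Fin m,
    (∀ j, ∀ t ∈ Y, (∃ v ∈ Y, be B t v l ≠ 0) →
      ∃ c : F, ∀ v ∈ Y, e j t (vx F v) = c * algebraMap (ZMod 2) F (be B t v l)) →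
    ∀ v ∈ Y, ∀ v' ∈ Y, beF B F (D (vx F v)) (D (vx F v')) l = beF B F (vx F v) (vx F v') l

variable {F} in
/-- the conclusion of the linear algebra part -/
def Iso2 (M : Matrix (Fin n) (Fin n) F) : Prop :=
  ∃ ψ : (Fin n → ZMod 2) ≃+ (Fin n → ZMod 2), ∀ c : (Fin n → ZMod 2) → ZMod 2,
    ∑ z, c z • bil B z z = 0 → ∑ z, c z • qF B F (M *ᵥ vx F (ψ z)) = 0

/-- nondegeneracy: the values of `q` span -/
def Nd : Prop := ∀ c : Fin m → ZMod 2, (∀ v, c ⬝ᵥ bil B v v = 0) → c = 0

end defs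

section alg
variable {n m : ℕ} (B : Fin m → Matrix (Fin n) (Fin n) (ZMod 2))
  (F : Type*) [Field F] [CharP F 2] [Algebra (ZMod 2) F] (H : Type*) [Group H]

/-- a normalised group basis `H` of the group algebra of `Heis B` -/
structure HS where
  u : H →* MonoidAlgebra F (Heis B)
  haug : ∀ h, aug F _ (u h) = 1
  hspan : Submodule.span F (Set.range u) = ⊤
  hcard : Nat.card H = Nat.card (Heis B)

variable {B F H}

/-- first coordinates of `h` -/
noncomputable def HS.P (d : HS B F H) (h : H) : Fin n → F := cP B F (d.u h)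
/-- second coordinates of `h` -/
noncomputable def HS.T (d : HS B F H) (h : H) : Fin m → F := cT B F (d.u h)

variable (B F) in
/-- the image in the group algebra of `V`, as a function -/
noncomputable def cV : MonoidAlgebra F (Heis B) →ₗ[F] ((Fin n → ZMod 2) → F) :=
  lin (fun g => Pi.single g.v 1)

/-- the convolution on functions on `V` -/
def conv (c d : (Fin n → ZMod 2) → F) : (Fin n → ZMod 2) → F := fun x => ∑ v, c v * d (x + v)

/-- the coefficients of the image of `h` in the group algebra of `V` -/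
noncomputable def HS.cc (d : HS B F H) (h : H) : (Fin n → ZMod 2) → F := cV B F (d.u h)

/-- Output of the counting package (P1). -/
structure HC (d : HS B F H) where
  inj : ∀ h, d.P h = 0 → d.T h = 0 → h = 1
  M : Matrix (Fin n) (Fin n) F
  hM : IsUnit M.det
  hM1 : ∀ z : Fin n → ZMod 2, ∃ h, d.P h = M *ᵥ vx F z
  z : H → (Fin n → ZMod 2)
  hz : ∀ h, d.P h = M *ᵥ vx F (z h)
  MU : Matrix (Fin m) (Fin m) F
  hMU : IsUnit MU.det
  hMU1 : ∀ z : Fin m → ZMod 2, ∃ h, d.P h = 0 ∧ d.T h = MU *ᵥ vx F z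
  hMU2 : ∀ h, d.P h = 0 → ∃ z : Fin m → ZMod 2, d.T h = MU *ᵥ vx F z
  hU : ∀ h, d.P h = 0 → d.T h ∈ Submodule.span (ZMod 2) {t | ∃ a : H, t = qF B F (d.P a)}

end alg

end Pool.Agent.T2H54.Mip2
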