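import Mathlib
import Pool.Agent.T2H54.Mip2.Defs

set_option autoImplicit false
set_option linter.unusedSectionVars false

/-! # Linear algebra, part 1: the pencil -/

namespace Pool.Agent.T2H54.Mip2

open Matrix Pool.Agent.R691.Mip

section LA1
variable {n m : ℕ} {B : Fin m → Matrix (Fin n) (Fin n) (ZMod 2)}
  {F : Type*} [Field F] [CharP F 2] [Algebra (ZMod 2) F]

variable (B) in
/-- `f` belongs to the pencil of `q` -/
def InQ (f : (Fin n → F) → F) : Prop :=
  ∃ lam : (Fin m → F) →ₗ[F] F, ∀ y, f y = lam (qF B F y)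

variable (B) in
/-- `f` is a linear function of `q` -/
def InQW (f : (Fin n → F) → (Fin m → F)) : Prop :=
  ∃ A : (Fin m → F) →ₗ[F] (Fin m → F), ∀ y, f y = A (qF B F y)

omit [CharP F 2] in
lemma InQ.zero : InQ B (fun _ : Fin n → F => (0 : F)) := ⟨0, fun _ => rfl⟩

omit [CharP F 2] in
lemma InQ.add {f g : (Fin n → F) → F} (hf : InQ B f) (hg : InQ B g) :
    InQ B (fun y => f y + g y) := by
  obtain ⟨a, ha⟩ := hf
  obtain ⟨b, hb⟩ := hg
  exact ⟨a + b, fun y => by beta_reduce; rw [ha, hb]; rfl⟩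

omit [CharP F 2] in
lemma InQ.smul {f : (Fin n → F) → F} (c : F) (hf : InQ B f) :
    InQ B (fun y => c * f y) := by
  obtain ⟨a, ha⟩ := hf
  exact ⟨c • a, fun y => by beta_reduce; rw [ha]; rfl⟩

omit [CharP F 2] in
lemma InQ.congr {f g : (Fin n → F) → F} (hf : InQ B f) (h : ∀ y, g y = f y) : InQ B g := by
  have : g = f := funext h
  rwa [this]

omit [CharP F 2] in
lemma InQ.sum {ι : Type*} (s : Finset ι) {f : ι → (Fin n → F) → F}
    (hf : ∀ i ∈ s, InQ B (f i)) : InQ B (fun y => ∑ i ∈ s, f i y) := by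
  classical
  induction s using Finset.induction_on with
  | empty => simpa using InQ.zero
  | insert a s ha ih =>
    simp_rw [Finset.sum_insert ha]
    exact (hf a (Finset.mem_insert_self _ _)).add
      (ih fun i hi => hf i (Finset.mem_insert_of_mem hi))

omit [CharP F 2] in
lemma InQW.zero : InQW B (fun _ : Fin n → F => (0 : Fin m → F)) := ⟨0, fun _ => rfl⟩

omit [CharP F 2] in
lemma InQW.add {f g : (Fin n → F) → (Fin m → F)} (hf : InQW B f) (hg : InQW B g) :
    InQW B (fun y => f y + g y) := by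
  obtain ⟨a, ha⟩ := hf
  obtain ⟨b, hb⟩ := hg
  exact ⟨a + b, fun y => by beta_reduce; rw [ha, hb]; rfl⟩

omit [CharP F 2] in
lemma InQW.congr {f g : (Fin n → F) → (Fin m → F)} (hf : InQW B f) (h : ∀ y, g y = f y) :
    InQW B g := by
  have : g = f := funext h
  rwa [this]

omit [CharP F 2] in
lemma InQW.sum {ι : Type*} (s : Finset ι) {f : ι → (Fin n → F) → (Fin m → F)}
    (hf : ∀ i ∈ s, InQW B (f i)) : InQW B (fun y => ∑ i ∈ s, f i y) := by
  classical
  induction s using Finset.induction_on with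
  | empty => simpa using InQW.zero
  | insert a s ha ih =>
    simp_rw [Finset.sum_insert ha]
    exact (hf a (Finset.mem_insert_self _ _)).add
      (ih fun i hi => hf i (Finset.mem_insert_of_mem hi))

omit [CharP F 2] in
lemma InQ.vec {f : (Fin n → F) → F} (hf : InQ B f) (u : Fin m → F) :
    InQW B (fun y => f y • u) := by
  obtain ⟨a, ha⟩ := hf
  exact ⟨a.smulRight u, fun y => by beta_reduce; rw [ha]; rfl⟩

omit [CharP F 2] in
lemma InQW.self : InQW B (fun y => qF B F y) := ⟨LinearMap.id, fun _ => rfl⟩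

omit [CharP F 2] in
lemma InQW.map {f : (Fin n → F) → (Fin m → F)} (hf : InQW B f)
    (lam : (Fin m → F) →ₗ[F] F) : InQ B (fun y => lam (f y)) := by
  obtain ⟨a, ha⟩ := hf
  exact ⟨lam ∘ₗ a, fun y => by beta_reduce; rw [ha]; rfl⟩

omit [CharP F 2] in
lemma InQ.comp {f : (Fin n → F) → F} (hf : InQ B f) {D : (Fin n → F) → (Fin n → F)}
    {Θ : (Fin m → F) →ₗ[F] (Fin m → F)} (hD : ∀ y, qF B F (D y) = Θ (qF B F y)) :
    InQ B (fun y => f (D y)) := by
  obtain ⟨a, ha⟩ := hf
  exact ⟨a ∘ₗ Θ, fun y => by beta_reduce; rw [ha, hD]; rfl⟩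

lemma two0LA : (2 : F) = 0 := CharTwo.two_eq_zero

lemma add_selfLA {k : ℕ} (v : Fin k → F) : v + v = 0 := by
  funext i; exact CharTwo.add_self_eq_zero _

@[simp] lemma beF_selfLA (y : Fin n → F) : beF B F y y = 0 := by
  rw [beF_apply]; exact add_selfLA _

omit [CharP F 2] in
lemma qF_sumLA {ι : Type*} (s : Finset ι) (f : ι → Fin n → F)
    (h : ∀ i ∈ s, ∀ j ∈ s, i ≠ j → beF B F (f i) (f j) = 0) :
    qF B F (∑ i ∈ s, f i) = ∑ i ∈ s, qF B F (f i) := by
  classical
  induction s using Finset.induction_on with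
  | empty => simp
  | insert a s ha ih =>
    have h1 : beF B F (f a) (∑ i ∈ s, f i) = 0 := by
      rw [map_sum]
      apply Finset.sum_eq_zero
      intro i hi
      exact h a (Finset.mem_insert_self _ _) i (Finset.mem_insert_of_mem hi)
        (fun hh => ha (hh ▸ hi))
    rw [Finset.sum_insert ha, Finset.sum_insert ha, qF_add, ih, h1, add_zero]
    intro i hi j hj hij
    exact h i (Finset.mem_insert_of_mem hi) j (Finset.mem_insert_of_mem hj) hij

/-- polarisation of a product in the pencil -/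
lemma InQ.polar {a b : (Fin n → F) →ₗ[F] F} (h : InQ B (fun y => a y * b y)) :
    ∃ lam : (Fin m → F) →ₗ[F] F, (∀ y, a y * b y = lam (qF B F y)) ∧
      ∀ y z, a y * b z + b y * a z = lam (beF B F y z) := by
  obtain ⟨lam, hl⟩ := h
  refine ⟨lam, hl, fun y z => ?_⟩
  have hl' : ∀ y, a y * b y = lam (qF B F y) := hl
  have h1 := hl' (y + z)
  rw [qF_add, map_add, map_add, map_add, map_add, ← hl', ← hl'] at h1
  linear_combination h1

lemma sq_addLA (a b : F) : (a + b) ^ 2 = a ^ 2 + b ^ 2 := CharTwo.add_sq a b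

variable (B F) in
/-- functionals whose square lies in the pencil -/
def NN : Submodule F ((Fin n → F) →ₗ[F] F) where
  carrier := {b | InQ B (fun y => (b y) ^ 2)}
  zero_mem' := by simpa using (InQ.zero (B := B) (F := F))
  add_mem' := by
    intro a b ha hb
    exact (InQ.add ha hb).congr fun y => by
      rw [LinearMap.add_apply, sq_addLA]
  smul_mem' := by
    intro c a ha
    exact (InQ.smul (c ^ 2) ha).congr fun y => by
      rw [LinearMap.smul_apply, smul_eq_mul, mul_pow]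

lemma mem_NN (b : (Fin n → F) →ₗ[F] F) : b ∈ NN B F ↔ InQ B (fun y => (b y) ^ 2) := Iff.rfl

/-! ### rational functionals -/

omit [CharP F 2] in
lemma lin_extLA {X : Type*} [AddCommGroup X] [Module F X] {f g : (Fin n → F) →ₗ[F] X}
    (h : ∀ v : Fin n → ZMod 2, f (vx F v) = g (vx F v)) : f = g := by
  apply LinearMap.ext_on (s := Set.range (vx F : (Fin n → ZMod 2) → (Fin n → F)))
  · exact span_vx
  · rintro _ ⟨v, rfl⟩
    exact h v

variable (B F) in
/-- the `l`-th coordinate of `β(s, ·)` -/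
def bb (l : Fin m) (s : Fin n → ZMod 2) : (Fin n → F) →ₗ[F] F :=
  (LinearMap.proj l : (Fin m → F) →ₗ[F] F) ∘ₗ beF B F (vx F s)

omit [CharP F 2] in
lemma bb_apply (l : Fin m) (s : Fin n → ZMod 2) (y : Fin n → F) :
    bb B F l s y = beF B F (vx F s) y l := rfl

omit [CharP F 2] in
lemma bb_vx (l : Fin m) (s v : Fin n → ZMod 2) :
    bb B F l s (vx F v) = algebraMap (ZMod 2) F (be B s v l) := by
  rw [bb_apply, beF_vx]; rfl

omit [CharP F 2] in
lemma bb_add (l : Fin m) (s t : Fin n → ZMod 2) : bb B F l (s + t) = bb B F l s + bb B F l t := by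
  apply LinearMap.ext
  intro y
  simp [bb, vx_add]

omit [CharP F 2] in
lemma bb_comm (l : Fin m) (s v : Fin n → ZMod 2) :
    bb B F l s (vx F v) = bb B F l v (vx F s) := by
  rw [bb_vx, bb_vx, be_comm]

@[simp] lemma bb_self (l : Fin m) (s : Fin n → ZMod 2) : bb B F l s (vx F s) = 0 := by
  rw [bb_apply, beF_selfLA]; rfl

variable (B) in
/-- elements `s` with `β(s, V) ⊆ {0, w}` -/
def Lw (w : Fin m → ZMod 2) : AddSubgroup (Fin n → ZMod 2) where
  carrier := {s | ∀ y, be B s y = 0 ∨ be B s y = w}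
  zero_mem' := fun y => Or.inl (be_zero_left B y)
  add_mem' := by
    intro a b ha hb y
    rw [be_add_left]
    rcases ha y with h1 | h1 <;> rcases hb y with h2 | h2 <;> rw [h1, h2]
    · left; simp
    · right; simp
    · right; simp
    · left; exact add_self2 w
  neg_mem' := by
    intro a ha y
    have : -a = a := by funext i; simp [CharTwo.neg_eq]
    rw [this]; exact ha y

lemma mem_Lw {w : Fin m → ZMod 2} {s : Fin n → ZMod 2} :
    s ∈ Lw B w ↔ ∀ y, be B s y = 0 ∨ be B s y = w := Iff.rfl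

variable (B) in
/-- the radical -/
def R0 : AddSubgroup (Fin n → ZMod 2) := Lw B 0

lemma mem_R0 {s : Fin n → ZMod 2} : s ∈ R0 B ↔ ∀ y, be B s y = 0 := by
  rw [R0, mem_Lw]; simp

lemma R0_le (w : Fin m → ZMod 2) : R0 B ≤ Lw B w := fun s hs y => Or.inl (mem_R0.1 hs y)

lemma Lw_eq {w : Fin m → ZMod 2} {s t : Fin n → ZMod 2} (hs : s ∈ Lw B w)
    (h : be B s t ≠ 0) : be B s t = w := (hs t).resolve_left h

lemma Lw_comm {w w' : Fin m → ZMod 2} {s t : Fin n → ZMod 2} (hs : s ∈ Lw B w)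
    (ht : t ∈ Lw B w') (h : w ≠ w') : be B s t = 0 := by
  by_contra hne
  apply h
  rw [← Lw_eq hs hne, be_comm]
  exact Lw_eq ht (by rwa [be_comm])

lemma Lw_inter {w w' : Fin m → ZMod 2} {s : Fin n → ZMod 2} (hs : s ∈ Lw B w)
    (hs' : s ∈ Lw B w') (h : w ≠ w') : s ∈ R0 B := by
  rw [mem_R0]
  intro y
  by_contra hne
  exact h ((Lw_eq hs hne).symm.trans (Lw_eq hs' hne))

lemma exists_coordLA {m : ℕ} {w : Fin m → ZMod 2} (hw : w ≠ 0) : ∃ l, w l = 1 := by
  by_contra hcon
  push Not at hcon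
  apply hw
  funext l
  have := hcon l
  generalize w l = c at this
  fin_cases c
  · rfl
  · exact absurd rfl this

omit [CharP F 2] in
lemma beF_of_Lw {w : Fin m → ZMod 2} {l : Fin m} (hl : w l = 1) {s : Fin n → ZMod 2}
    (hs : s ∈ Lw B w) (y : Fin n → F) : beF B F (vx F s) y = bb B F l s y • vx F w := by
  have h : beF B F (vx F s) = (bb B F l s).smulRight (vx F w) := by
    apply lin_extLA
    intro v
    rw [beF_vx, LinearMap.smulRight_apply, bb_vx]
    rcases hs v with h | h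
    · rw [h]; simp
    · rw [h, hl]; simp
  rw [h]; rfl

omit [CharP F 2] in
lemma bb_eq_zero_of_R0 (l : Fin m) {s : Fin n → ZMod 2} (hs : s ∈ R0 B) : bb B F l s = 0 := by
  apply lin_extLA
  intro v
  rw [bb_vx, mem_R0.1 hs v]; simp

omit [CharP F 2] in
lemma bb_one {w : Fin m → ZMod 2} {l : Fin m} (hl : w l = 1) {s t : Fin n → ZMod 2}
    (hs : s ∈ Lw B w) (h : be B s t ≠ 0) : bb B F l s (vx F t) = 1 := by
  rw [bb_vx, Lw_eq hs h, hl, map_one]

omit [CharP F 2] in
lemma bb_zero {l : Fin m} {s t : Fin n → ZMod 2} (h : be B s t = 0) :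
    bb B F l s (vx F t) = 0 := by
  rw [bb_vx, h]; simp

omit [CharP F 2] in
lemma bb_coord {w : Fin m → ZMod 2} {l l' : Fin m} (hl : w l = 1) (hl' : w l' = 1)
    {s : Fin n → ZMod 2} (hs : s ∈ Lw B w) : bb B F l s = bb B F l' s := by
  apply lin_extLA
  intro v
  rw [bb_vx, bb_vx]
  rcases hs v with h | h
  · rw [h]; simp
  · rw [h, hl, hl']

/-! ### the conditions on functionals -/

section star
variable {w : Fin m → ZMod 2} {l : Fin m} (hl : w l = 1) {s : Fin n → ZMod 2}
  (hs : s ∈ Lw B w) {a : (Fin n → F) →ₗ[F] F} (ha : InQ B (fun y => a y * bb B F l s y))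
include ha

lemma star0 {t : Fin n → ZMod 2} (ht : t ∈ R0 B) (y : Fin n → F) :
    a (vx F t) * bb B F l s y + bb B F l s (vx F t) * a y = 0 := by
  obtain ⟨lam, -, h⟩ := ha.polar
  rw [h]
  have : beF B F (vx F t) y = 0 := by
    have h1 : beF B F (vx F t) = 0 := by
      apply lin_extLA
      intro v
      rw [beF_vx, mem_R0.1 ht v]; simp
    rw [h1]; rfl
  rw [this, map_zero]

lemma star1 {t : Fin n → ZMod 2} {w' : Fin m → ZMod 2} {l' : Fin m} (hl' : w' l' = 1)
    (ht : t ∈ Lw B w') : ∃ c : F, ∀ y,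
    a (vx F t) * bb B F l s y + bb B F l s (vx F t) * a y = c * bb B F l' t y := by
  obtain ⟨lam, -, h⟩ := ha.polar
  refine ⟨lam (vx F w'), fun y => ?_⟩
  rw [h, beF_of_Lw hl' ht, map_smul, smul_eq_mul, mul_comm]

include hl hs

/-- a functional in `𝔞_s` vanishes on the radical -/
lemma A1 (hs0 : s ∉ R0 B) {t : Fin n → ZMod 2} (ht : t ∈ R0 B) : a (vx F t) = 0 := by
  rw [mem_R0] at hs0
  push Not at hs0
  obtain ⟨y, hy⟩ := hs0
  have h := star0 ha ht (vx F y)
  rw [bb_one hl hs hy, bb_zero (by rw [be_comm]; exact mem_R0.1 ht s), zero_mul, mul_one,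
    add_zero] at h
  exact h

lemma A2 {t : Fin n → ZMod 2} (ht : t ∈ Lw B w) (hst : be B s t ≠ 0) (y : Fin n → F) :
    a y = a (vx F t) * bb B F l s y + a (vx F s) * bb B F l t y := by
  obtain ⟨c, hc⟩ := star1 ha hl ht
  have h1 := hc (vx F s)
  rw [bb_self, mul_zero, zero_add, bb_one hl hs hst, one_mul, bb_one hl ht (by rwa [be_comm]),
    mul_one] at h1
  have h2 := hc y
  rw [bb_one hl hs hst, one_mul, ← h1] at h2
  linear_combination h2 - a (vx F t) * bb B F l s y * two0LA (F := F)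

variable (B) in
/-- `L^w` is a plane (modulo the radical) spanned by `s, t` -/
def Pl (w : Fin m → ZMod 2) (s t : Fin n → ZMod 2) : Prop :=
  ∀ r ∈ Lw B w, be B r s = 0 → be B r t = 0 → r ∈ R0 B

lemma A3 {t : Fin n → ZMod 2} (ht : t ∈ Lw B w) (hst : be B s t ≠ 0) (hp : ¬ Pl B w s t) :
    a (vx F s) = 0 := by
  unfold Pl at hp
  push Not at hp
  obtain ⟨r, hr, hrs, hrt, hr0⟩ := hp
  have hst' : be B s (t + r) ≠ 0 := by rw [be_add_right, be_comm B s r, hrs, add_zero]; exact hst
  have key : ∀ y, a (vx F r) * bb B F l s y + a (vx F s) * bb B F l r y = 0 := by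
    intro y
    have h1 := A2 hl hs ha ht hst y
    have h2 := A2 hl hs ha (add_mem ht hr) hst' y
    rw [vx_add, map_add, bb_add, LinearMap.add_apply] at h2
    linear_combination h1 - h2
  have h1 : a (vx F r) = 0 := by
    have := key (vx F t)
    rwa [bb_one hl hs hst, bb_zero hrt, mul_one, mul_zero, add_zero] at this
  rw [mem_R0] at hr0
  push Not at hr0
  obtain ⟨y, hy⟩ := hr0
  have := key (vx F y)
  rwa [h1, zero_mul, zero_add, bb_one hl hr hy, mul_one] at this

end star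

end LA1

end Pool.Agent.T2H54.Mip2
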