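import Mathlib
import Pool.Agent.T2H54.Mip2.LA1

set_option autoImplicit false
set_option linter.unusedSectionVars false
set_option linter.unusedVariables false

/-! # Linear algebra, part 2: free and non-free values `w` -/

namespace Pool.Agent.T2H54.Mip2

open Matrix Pool.Agent.R691.Mip

section LA2
variable {n m : ℕ} {B : Fin m → Matrix (Fin n) (Fin n) (ZMod 2)}
  {F : Type*} [Field F] [CharP F 2] [Algebra (ZMod 2) F]

variable (B F) in
/-- elements of `L^w` whose character has its square in the pencil -/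
def Bw (w : Fin m → ZMod 2) : AddSubgroup (Fin n → ZMod 2) where
  carrier := {v | v ∈ Lw B w ∧ ∀ l, w l = 1 → bb B F l v ∈ NN B F}
  zero_mem' := ⟨zero_mem _, fun l _ => by
    rw [bb_eq_zero_of_R0 l (zero_mem _)]; exact zero_mem _⟩
  add_mem' := by
    rintro a b ⟨ha, ha'⟩ ⟨hb, hb'⟩
    exact ⟨add_mem ha hb, fun l hl => by rw [bb_add]; exact add_mem (ha' l hl) (hb' l hl)⟩
  neg_mem' := by
    rintro a ⟨ha, ha'⟩
    have : -a = a := by funext i; simp [CharTwo.neg_eq]
    rw [this]; exact ⟨ha, ha'⟩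

lemma Bw_le (w : Fin m → ZMod 2) : Bw B F w ≤ Lw B w := fun _ h => h.1

lemma mem_Bw {w : Fin m → ZMod 2} {l : Fin m} (hl : w l = 1) {v : Fin n → ZMod 2}
    (hv : v ∈ Lw B w) (h : bb B F l v ∈ NN B F) : v ∈ Bw B F w :=
  ⟨hv, fun l' hl' => by rw [bb_coord hl' hl hv]; exact h⟩

lemma R0_le_Bw (w : Fin m → ZMod 2) : R0 B ≤ Bw B F w := fun s hs =>
  ⟨R0_le w hs, fun l _ => by rw [bb_eq_zero_of_R0 l hs]; exact zero_mem _⟩

variable (B F) in
/-- all products of characters of `L^w` lie in the pencil -/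
def Bad (w : Fin m → ZMod 2) : Prop :=
  ∀ x ∈ Lw B w, ∀ y ∈ Lw B w, ∀ l, w l = 1 → InQ B (fun z => bb B F l x z * bb B F l y z)

variable (B F) in
/-- free values -/
def Free (w : Fin m → ZMod 2) : Prop :=
  w ≠ 0 ∧ (∃ x ∈ Bw B F w, ∃ y ∈ Bw B F w, be B x y ≠ 0) ∧ ¬ Bad B F w

/-- products of combinations -/
lemma prod_comb {bs bt a a' : (Fin n → F) →ₗ[F] F} (h1 : InQ B (fun y => (bs y) ^ 2))
    (h2 : InQ B (fun y => (bt y) ^ 2)) (h12 : InQ B (fun y => bs y * bt y)) {α β α' β' : F}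
    (ha : ∀ y, a y = α * bs y + β * bt y) (ha' : ∀ y, a' y = α' * bs y + β' * bt y) :
    InQ B (fun y => a y * a' y) :=
  (((h1.smul (α * α')).add (h2.smul (β * β'))).add (h12.smul (α * β' + α' * β))).congr
    fun y => by rw [ha, ha']; ring

lemma pl_decomp {w : Fin m → ZMod 2} {l : Fin m} (hl : w l = 1) {s t : Fin n → ZMod 2}
    (hs : s ∈ Lw B w) (ht : t ∈ Lw B w) (hst : be B s t ≠ 0) (hp : Pl B w s t)
    {x : Fin n → ZMod 2} (hx : x ∈ Lw B w) (y : Fin n → F) :
    bb B F l x y = bb B F l x (vx F t) * bb B F l s y + bb B F l x (vx F s) * bb B F l t y := by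
  have hts : be B t s = w := by rw [be_comm]; exact Lw_eq hs hst
  have hst1 : be B s t = w := Lw_eq hs hst
  have key : ∀ r ∈ Lw B w, be B r s = 0 → be B r t = 0 → bb B F l r = 0 := fun r hr h1 h2 =>
    bb_eq_zero_of_R0 l (hp r hr h1 h2)
  rcases hx t with h1 | h1 <;> rcases hx s with h2 | h2
  · rw [bb_vx, bb_vx, h1, h2, key x hx h2 h1]; simp
  · have h3 := key (x + t) (add_mem hx ht) (by rw [be_add_left, h2, hts, add_self2])
      (by rw [be_add_left, h1, be_self, add_zero])
    rw [bb_add] at h3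
    have h4 : bb B F l x y + bb B F l t y = 0 := LinearMap.congr_fun h3 y
    rw [bb_vx, bb_vx, h1, h2, hl]
    simp only [Pi.zero_apply, map_zero, map_one, zero_mul, one_mul, zero_add]
    linear_combination h4 - bb B F l t y * two0LA (F := F)
  · have h3 := key (x + s) (add_mem hx hs) (by rw [be_add_left, h2, be_self, add_zero])
      (by rw [be_add_left, h1, hst1, add_self2])
    rw [bb_add] at h3
    have h4 : bb B F l x y + bb B F l s y = 0 := LinearMap.congr_fun h3 y
    rw [bb_vx, bb_vx, h1, h2, hl]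
    simp only [Pi.zero_apply, map_zero, map_one, zero_mul, one_mul, add_zero]
    linear_combination h4 - bb B F l s y * two0LA (F := F)
  · have h3 := key (x + s + t) (add_mem (add_mem hx hs) ht)
      (by rw [be_add_left, be_add_left, h2, be_self, add_zero, hts, add_self2])
      (by rw [be_add_left, be_add_left, h1, be_self, add_zero, hst1, add_self2])
    rw [bb_add, bb_add] at h3
    have h4 : bb B F l x y + bb B F l s y + bb B F l t y = 0 := LinearMap.congr_fun h3 y
    rw [bb_vx, bb_vx, h1, h2, hl]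
    simp only [map_one, one_mul]
    linear_combination h4 - (bb B F l s y + bb B F l t y) * two0LA (F := F)

lemma mul_self_InQ {b : (Fin n → F) →ₗ[F] F} (h : b ∈ NN B F) :
    InQ B (fun y => b y * b y) := by
  have := (mem_NN b).1 h
  exact this.congr fun y => by rw [pow_two]

lemma NN_of_mul_self {b : (Fin n → F) →ₗ[F] F} (h : InQ B (fun y => b y * b y)) :
    b ∈ NN B F := by
  rw [mem_NN]
  exact h.congr fun y => by rw [pow_two]

/-- noncommuting elements of `B^w`, `w` free: `𝔞_s ⊆ F b_s` -/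
lemma Fr1 {w : Fin m → ZMod 2} (hw : Free B F w) {l : Fin m} (hl : w l = 1)
    {s y : Fin n → ZMod 2} (hs : s ∈ Bw B F w) (hy : y ∈ Bw B F w) (hsy : be B s y ≠ 0)
    {a : (Fin n → F) →ₗ[F] F} (ha : InQ B (fun z => a z * bb B F l s z)) : a (vx F s) = 0 := by
  by_contra h0
  have hp : Pl B w s y := by
    by_contra hp
    exact h0 (A3 hl (Bw_le w hs) ha (Bw_le w hy) hsy hp)
  have hA := A2 hl (Bw_le w hs) ha (Bw_le w hy) hsy
  have h1 := hs.2 l hl
  have h2 := hy.2 l hl
  have h12 : InQ B (fun z => bb B F l s z * bb B F l y z) := by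
    refine ((ha.add ((mul_self_InQ h1).smul (a (vx F y)))).smul (a (vx F s))⁻¹).congr
      fun z => ?_
    rw [hA z]
    field_simp
    linear_combination -(a (vx F y) * bb B F l s z ^ 2) * two0LA (F := F)
  apply hw.2.2
  intro x hx x' hx' l' hl'
  rw [bb_coord hl' hl hx, bb_coord hl' hl hx']
  exact prod_comb h1 h2 h12 (pl_decomp hl (Bw_le w hs) (Bw_le w hy) hsy hp hx)
    (pl_decomp hl (Bw_le w hs) (Bw_le w hy) hsy hp hx')

end LA2

section data
variable {n m : ℕ} {B : Fin m → Matrix (Fin n) (Fin n) (ZMod 2)}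
  {F : Type*} [Field F] [CharP F 2] [Algebra (ZMod 2) F] (d : Data B F)

lemma Data.e_inQ {w : Fin m → ZMod 2} {l : Fin m} (hl : w l = 1) {s : Fin n → ZMod 2}
    (hs : s ∈ Lw B w) (j : Fin n) : InQ B (fun y => d.e j s y * bb B F l s y) := by
  have hw : w ≠ 0 := by rintro rfl; simp at hl
  obtain ⟨lam, h⟩ := d.E1b s w hw hs j
  refine ⟨lam, fun y => ?_⟩
  have h1 := congrFun (h y) l
  have h2 : (vx F w) l = 1 := by simp [vx, hl]
  rw [Pi.smul_apply, Pi.smul_apply, h2, smul_eq_mul, smul_eq_mul, mul_one] at h1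
  exact h1

lemma Data.e_Lw {s : Fin n → ZMod 2} {j : Fin n} (h : d.e j s ≠ 0) : ∃ w, s ∈ Lw B w := by
  by_contra hcon
  push Not at hcon
  apply h
  apply d.E1a
  intro w
  have h1 := hcon w
  rw [mem_Lw] at h1
  push Not at h1
  exact h1

/-- an element of the support not commuting with an element of `L^w` lies in `L^w` -/
lemma Data.e_mem {w : Fin m → ZMod 2} {s v : Fin n → ZMod 2} {j : Fin n} (h : d.e j s ≠ 0)
    (hv : v ∈ Lw B w) (hsv : be B s v ≠ 0) : s ∈ Lw B w := by
  obtain ⟨w', hw'⟩ := d.e_Lw h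
  have h1 : be B s v = w' := Lw_eq hw' hsv
  have h2 : be B v s = w := Lw_eq hv (by rwa [be_comm])
  rw [be_comm, h1] at h2
  rwa [← h2]

variable {w : Fin m → ZMod 2} (hw : Free B F w)
include hw

/-- 6.3 -/
lemma Data.Fr2 {s v : Fin n → ZMod 2} {j : Fin n} (h : d.e j s ≠ 0) (hv : v ∈ Bw B F w)
    (hsv : be B s v ≠ 0) : s ∈ Bw B F w := by
  have hs := d.e_mem h (Bw_le w hv) hsv
  obtain ⟨l, hl⟩ := exists_coordLA hw.1
  have ha := d.e_inQ hl hs j
  have hA := A2 hl hs ha (Bw_le w hv) hsv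
  by_cases hp : Pl B w s v
  · obtain ⟨x, hx, y, hy, hxy⟩ := hw.2.1
    have hdx := pl_decomp (F := F) hl hs (Bw_le w hv) hsv hp (Bw_le w hx)
    have hdy := pl_decomp (F := F) hl hs (Bw_le w hv) hsv hp (Bw_le w hy)
    have main : ∀ z ∈ Bw B F w, be B z v ≠ 0 → bb B F l s ∈ NN B F := by
      intro z hz hzv
      have hdz := pl_decomp (F := F) hl hs (Bw_le w hv) hsv hp (Bw_le w hz)
      have h1 : bb B F l s = bb B F l z + bb B F l z (vx F s) • bb B F l v := by
        apply LinearMap.ext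
        intro y
        rw [LinearMap.add_apply, LinearMap.smul_apply, smul_eq_mul, hdz y,
          bb_one hl (Bw_le w hz) hzv]
        linear_combination -(bb B F l z (vx F s) * bb B F l v y) * two0LA (F := F)
      rw [h1]
      exact add_mem (hz.2 l hl) (Submodule.smul_mem _ _ (hv.2 l hl))
    by_cases h1 : be B x v = 0
    · by_cases h2 : be B y v = 0
      · exfalso
        have h3 := hdx (vx F y)
        rw [bb_one hl (Bw_le w hx) hxy, bb_zero h1, zero_mul, zero_add, bb_comm l v y,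
          bb_zero h2, mul_zero] at h3
        exact one_ne_zero h3
      · exact mem_Bw hl hs (main y hy h2)
    · exact mem_Bw hl hs (main x hx h1)
  · have h0 := A3 hl hs ha (Bw_le w hv) hsv hp
    have h1 : d.e j s (vx F v) ≠ 0 := by
      intro h2
      apply h
      apply LinearMap.ext
      intro y
      rw [hA y, h0, h2]; simp
    apply mem_Bw hl hs
    rw [mem_NN]
    refine (ha.smul (d.e j s (vx F v))⁻¹).congr fun y => ?_
    rw [hA y, h0]
    field_simp
    ring

/-- `B^w` is closed -/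
lemma Data.Fr3 : ClosedE d.e (Bw B F w : Set (Fin n → ZMod 2)) := by
  obtain ⟨l, hl⟩ := exists_coordLA hw.1
  intro v hv j s hes
  have he : d.e j s ≠ 0 := by intro h; rw [h] at hes; exact hes rfl
  apply add_mem hv
  by_cases hs0 : s ∈ R0 B
  · exact R0_le_Bw w hs0
  by_cases hc : ∃ v' ∈ Bw B F w, be B s v' ≠ 0
  · obtain ⟨v', hv', h1⟩ := hc
    exact d.Fr2 hw he hv' h1
  exfalso
  push Not at hc
  obtain ⟨w', hs⟩ := d.e_Lw he
  have hw' : w' ≠ 0 := by rintro rfl; exact hs0 hs
  obtain ⟨l', hl'⟩ := exists_coordLA hw'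
  have ha := d.e_inQ hl' hs j
  -- nonradical elements
  have key : ∀ x ∈ Bw B F w, ∀ y ∈ Bw B F w, be B x y ≠ 0 → d.e j s (vx F x) = 0 := by
    intro x hx y hy hxy
    obtain ⟨c, h1⟩ := star1 ha hl (Bw_le w hx)
    have h2 := h1 (vx F y)
    rw [bb_zero (hc y hy), mul_zero, bb_zero (hc x hx), zero_mul, add_zero,
      bb_one hl (Bw_le w hx) hxy, mul_one] at h2
    rw [mem_R0] at hs0
    push Not at hs0
    obtain ⟨z, hz⟩ := hs0
    have h3 := h1 (vx F z)
    rwa [← h2, zero_mul, bb_zero (hc x hx), zero_mul, add_zero, bb_one hl' hs hz, mul_one] at h3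
  obtain ⟨x, hx, y, hy, hxy⟩ := hw.2.1
  by_cases h1 : ∃ z ∈ Bw B F w, be B v z ≠ 0
  · obtain ⟨z, hz, h2⟩ := h1
    exact hes (key v hv z hz h2)
  · push Not at h1
    have h2 := key x hx y hy hxy
    have h3 := key (v + x) (add_mem hv hx) y hy (by rw [be_add_left, h1 y hy, zero_add]; exact hxy)
    rw [vx_add, map_add, h2, add_zero] at h3
    exact hes h3

omit hw in
variable (B F w) in
/-- the orthogonal of `B^w` -/
def Cw : AddSubgroup (Fin n → ZMod 2) where
  carrier := {v | ∀ x ∈ Bw B F w, be B v x = 0}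
  zero_mem' := fun x _ => be_zero_left B x
  add_mem' := by
    intro a b ha hb x hx
    rw [be_add_left, ha x hx, hb x hx, add_zero]
  neg_mem' := by
    intro a ha x hx
    have : -a = a := by funext i; simp [CharTwo.neg_eq]
    rw [this]; exact ha x hx

/-- `B^w⊥` is closed -/
lemma Data.Fr4 : ClosedE d.e (Cw B F w : Set (Fin n → ZMod 2)) := by
  obtain ⟨l, hl⟩ := exists_coordLA hw.1
  intro v hv j s hes
  have he : d.e j s ≠ 0 := by intro h; rw [h] at hes; exact hes rfl
  apply add_mem hv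
  intro x hx
  by_contra hsx
  have hs := d.Fr2 hw he hx hsx
  have hA := A2 hl (Bw_le w hs) (d.e_inQ hl (Bw_le w hs) j) (Bw_le w hx) hsx (vx F v)
  apply hes
  rw [hA, bb_zero (by rw [be_comm]; exact hv s hs), bb_zero (by rw [be_comm]; exact hv x hx)]
  simp

omit hw in
lemma Data.E2' {Y : AddSubgroup (Fin n → ZMod 2)} (hY : ClosedE d.e (Y : Set (Fin n → ZMod 2)))
    {s : Fin n → ZMod 2} (hs : s ∉ Y) {v : Fin n → ZMod 2} (hv : v ∈ Y) :
    d.a s (vx F v) = 0 :=
  d.E2 Y hY s (fun v hv v' hv' h => hs (h ▸ add_mem hv hv')) v hv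

omit hw in
lemma exists_factorLA {X Y : Type*} [AddCommGroup X] [Module (ZMod 2) X] [AddCommGroup Y]
    [Module (ZMod 2) Y] (φ : (Fin n → ZMod 2) →ₗ[ZMod 2] X) (f : (Fin n → ZMod 2) →ₗ[ZMod 2] Y)
    (h : ∀ v, φ v = 0 → f v = 0) : ∃ ψ : X →ₗ[ZMod 2] Y, ∀ v, f v = ψ (φ v) := by
  obtain ⟨g, hg⟩ := LinearMap.exists_leftInverse_of_injective (φ.ker.liftQ φ le_rfl)
    (by rw [Submodule.ker_liftQ_eq_bot _ _ _ le_rfl])
  have hle : φ.ker ≤ f.ker := fun v hv => LinearMap.mem_ker.2 (h v (LinearMap.mem_ker.1 hv))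
  refine ⟨(φ.ker.liftQ f hle) ∘ₗ g, fun v => ?_⟩
  have h1 := LinearMap.congr_fun hg (Submodule.Quotient.mk v)
  rw [LinearMap.comp_apply, Submodule.liftQ_apply, LinearMap.id_apply] at h1
  rw [LinearMap.comp_apply, h1, Submodule.liftQ_apply]

/-- F3: functionals of elements not orthogonal to `B^w` have squares in the pencil -/
lemma Data.Fr6 {t : Fin n → ZMod 2} (ht : t ∉ Cw B F w) : d.a t ∈ NN B F := by
  classical
  obtain ⟨l, hl⟩ := exists_coordLA hw.1
  let φ : (Fin n → ZMod 2) →ₗ[ZMod 2] (Bw B F w → ZMod 2) :=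
    AddMonoidHom.toZModLinearMap 2
      { toFun := fun v x => be B v x l
        map_zero' := by funext x; simp
        map_add' := fun a b => by funext x; rw [be_add_left]; rfl }
  let f : (Fin n → ZMod 2) →ₗ[ZMod 2] F :=
    AddMonoidHom.toZModLinearMap 2
      { toFun := fun v => d.a t (vx F v)
        map_zero' := by simp
        map_add' := fun a b => by rw [vx_add, map_add] }
  obtain ⟨ψ, hψ⟩ := exists_factorLA φ f (by
    intro v hv
    apply d.E2' (d.Fr4 hw) ht
    intro x hx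
    have h1 : be B v x l = 0 := congrFun hv ⟨x, hx⟩
    by_contra hne
    rw [be_comm] at hne h1
    rw [Lw_eq (Bw_le w hx) hne, hl] at h1
    exact one_ne_zero h1)
  have : d.a t = ∑ x : Bw B F w, ψ (Pi.single x 1) • bb B F l (x : Fin n → ZMod 2) := by
    apply lin_extLA
    intro v
    have h1 : d.a t (vx F v) = ψ (φ v) := hψ v
    have h2 : φ v = ∑ x : Bw B F w, (be B v x l) • (Pi.single x (1 : ZMod 2)) := by
      funext x
      rw [Finset.sum_apply, Finset.sum_eq_single x]
      · simp [φ]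
      · intro y _ hy; simp [hy.symm]
      · intro h; exact absurd (Finset.mem_univ _) h
    rw [h1, h2, map_sum, LinearMap.sum_apply]
    refine Finset.sum_congr rfl fun x _ => ?_
    rw [map_smul, LinearMap.smul_apply, bb_vx, be_comm, smul_eq_mul, mul_comm, Algebra.smul_def]
  rw [this]
  exact Submodule.sum_mem _ fun x _ => Submodule.smul_mem _ _ (x.2.2 l hl)

/-- T3 -/
lemma Data.Fr7 {v v' : Fin n → ZMod 2} (hv : v ∈ Bw B F w) (hv' : v' ∈ Bw B F w) :
    beF B F (d.D (vx F v)) (d.D (vx F v')) = beF B F (vx F v) (vx F v') := by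
  funext l
  apply d.E4 (Bw B F w) (d.Fr3 hw) l _ v hv v' hv'
  rintro j t ht ⟨y, hy, hty⟩
  have h1 : be B t y ≠ 0 := fun h => hty (by rw [h]; rfl)
  have hl : w l = 1 := by
    rw [← Lw_eq (Bw_le w ht) h1]
    generalize be B t y l = c at hty
    fin_cases c
    · exact absurd rfl hty
    · rfl
  have h2 := Fr1 hw hl ht hy h1 (d.e_inQ hl (Bw_le w ht) j)
  refine ⟨d.e j t (vx F y), fun v hv => ?_⟩
  rw [A2 hl (Bw_le w ht) (d.e_inQ hl (Bw_le w ht) j) (Bw_le w hy) h1 (vx F v), h2, zero_mul,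
    add_zero, bb_vx]

omit hw in
/-- the subgroup generated by the support -/
def Data.L : AddSubgroup (Fin n → ZMod 2) := AddSubgroup.closure {s | ∃ j, d.e j s ≠ 0}

omit hw in
lemma Data.a_L {s : Fin n → ZMod 2} (h : d.a s ≠ 0) : s ∈ d.L := by
  by_contra hs
  apply h
  apply d.E3 d.L _ s hs
  intro j t ht
  by_contra hne
  exact ht (AddSubgroup.subset_closure ⟨j, hne⟩)

/-- F5 -/
lemma Data.Fr8 {r : Fin n → ZMod 2} (hr : r ∈ Bw B F w) (hr' : r ∈ Cw B F w)
    {t : Fin n → ZMod 2} (ht : t ∈ d.L) : be B r t = 0 := by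
  induction ht using AddSubgroup.closure_induction with
  | mem s hs =>
    obtain ⟨j, hj⟩ := hs
    by_contra hne
    have h1 := d.Fr2 hw hj hr (by rwa [be_comm])
    exact hne (hr' s h1)
  | zero => exact be_zero_right B r
  | add x y _ _ hx hy => rw [be_add_right, hx, hy, add_zero]
  | neg x _ hx =>
    have : -x = x := by funext i; simp [CharTwo.neg_eq]
    rw [this]; exact hx

end data

end Pool.Agent.T2H54.Mip2
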