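import Mathlib
import Pool.Agent.T2H54.Mip2.LA2

set_option autoImplicit false
set_option linter.unusedSectionVars false
set_option linter.unusedVariables false

/-! # Linear algebra, part 3: planes -/

namespace Pool.Agent.T2H54.Mip2

open Matrix Pool.Agent.R691.Mip

section quad
variable {n m : ℕ} {B : Fin m → Matrix (Fin n) (Fin n) (ZMod 2)}
  {F : Type*} [Field F] [CharP F 2] [Algebra (ZMod 2) F]

/-- a quadratic map vanishing on the rational points vanishes -/
lemma quad_extLA {X : Type*} [AddCommGroup X] [Module F X]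
    (Q : (Fin n → F) →ₗ[F] (Fin n → F) →ₗ[F] X)
    (h : ∀ v : Fin n → ZMod 2, Q (vx F v) (vx F v) = 0) (y : Fin n → F) : Q y y = 0 := by
  have h1 : Q + Q.flip = 0 := by
    apply lin_extLA
    intro v
    apply lin_extLA
    intro v'
    have h2 := h (v + v')
    rw [vx_add] at h2
    simp only [map_add, LinearMap.add_apply, h, zero_add, add_zero] at h2
    simpa [add_comm] using h2
  have h3 : ∀ y z, Q y z + Q z y = 0 := by
    intro y z
    have := LinearMap.congr_fun (LinearMap.congr_fun h1 y) z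
    simpa using this
  have hy : y ∈ Submodule.span F (Set.range (vx F : (Fin n → ZMod 2) → (Fin n → F))) := by
    rw [span_vx]; trivial
  induction hy using Submodule.span_induction with
  | mem x hx => obtain ⟨v, rfl⟩ := hx; exact h v
  | zero => simp
  | add x y _ _ hx hy =>
    simp only [map_add, LinearMap.add_apply, hx, hy, zero_add, add_zero]
    exact h3 y x
  | smul c x _ hx => simp only [map_smul, LinearMap.smul_apply, hx, smul_zero]

/-- rationality of the pencil -/
lemma rat_pencil (l1 l2 l3 l4 : Fin m) (x1 x2 x3 x4 : Fin n → ZMod 2) (c c' : F)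
    (h : InQ B (fun y => c * (bb B F l1 x1 y * bb B F l2 x2 y) +
      c' * (bb B F l3 x3 y * bb B F l4 x4 y))) (τ : F →ₗ[ZMod 2] ZMod 2) :
    InQ B (fun y => algebraMap (ZMod 2) F (τ c) * (bb B F l1 x1 y * bb B F l2 x2 y) +
      algebraMap (ZMod 2) F (τ c') * (bb B F l3 x3 y * bb B F l4 x4 y)) := by
  obtain ⟨lam, hl⟩ := h
  let mu : (Fin m → F) →ₗ[F] F :=
    ∑ l, algebraMap (ZMod 2) F (τ (lam (Pi.single l 1))) • (LinearMap.proj l)
  refine ⟨mu, ?_⟩
  let Q : (Fin n → F) →ₗ[F] (Fin n → F) →ₗ[F] F :=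
    algebraMap (ZMod 2) F (τ c) • (LinearMap.mk₂ F (fun y z => bb B F l1 x1 y * bb B F l2 x2 z)
        (by intro a b c; simp [add_mul]) (by intro a b c; simp [mul_assoc])
        (by intro a b c; simp [mul_add]) (by intro a b c; simp; ring)) +
    algebraMap (ZMod 2) F (τ c') • (LinearMap.mk₂ F (fun y z => bb B F l3 x3 y * bb B F l4 x4 z)
        (by intro a b c; simp [add_mul]) (by intro a b c; simp [mul_assoc])
        (by intro a b c; simp [mul_add]) (by intro a b c; simp; ring)) +
    LinearMap.mk₂ F (fun y z => mu (bil (BF B F) y z))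
        (by intro a b c; rw [bil_add_left, map_add]) (by intro a b c; rw [bil_smul_left, map_smul])
        (by intro a b c; rw [bil_add_right, map_add])
        (by intro a b c; rw [bil_smul_right, map_smul])
  have hQ : ∀ y, Q y y = algebraMap (ZMod 2) F (τ c) * (bb B F l1 x1 y * bb B F l2 x2 y) +
      algebraMap (ZMod 2) F (τ c') * (bb B F l3 x3 y * bb B F l4 x4 y) + mu (qF B F y) := by
    intro y
    simp only [Q, LinearMap.add_apply, LinearMap.smul_apply, LinearMap.mk₂_apply, smul_eq_mul, qF]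
  have h0 := quad_extLA Q (by
    intro v
    rw [hQ]
    have h1 := hl (vx F v)
    beta_reduce at h1
    rw [qF_vx] at h1
    rw [qF_vx, bb_vx, bb_vx, bb_vx, bb_vx]
    rw [bb_vx, bb_vx, bb_vx, bb_vx] at h1
    have h2 := congrArg τ h1
    have h3 : lam (vx F (bil B v v)) = ∑ l, (bil B v v l) • lam (Pi.single l 1) := by
      rw [LinearMap.pi_apply_eq_sum_univ lam]
      refine Finset.sum_congr rfl fun l _ => ?_
      have h4 : (fun j => if l = j then (1 : F) else 0) = Pi.single l (1 : F) := by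
        funext k; simp [Pi.single_apply, eq_comm]
      rw [h4, Algebra.smul_def (bil B v v l)]; rfl
    rw [h3, map_sum, map_add, ← map_mul, ← map_mul, mul_comm c, mul_comm c', ← Algebra.smul_def,
      ← Algebra.smul_def, map_smul, map_smul] at h2
    have h5 : mu (vx F (bil B v v)) =
        algebraMap (ZMod 2) F (∑ l, τ (bil B v v l • lam (Pi.single l 1))) := by
      rw [map_sum, LinearMap.sum_apply]
      refine Finset.sum_congr rfl fun l _ => ?_
      rw [map_smul, LinearMap.smul_apply, LinearMap.proj_apply, smul_eq_mul, smul_eq_mul, map_mul,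
        mul_comm]; rfl
    rw [h5, ← h2, ← map_mul, ← map_mul, ← map_mul, ← map_mul, ← map_add, ← map_add, smul_eq_mul,
      smul_eq_mul]
    have : ∀ a : ZMod 2, a + a = 0 := fun a => CharTwo.add_self_eq_zero a
    rw [mul_comm (τ c), mul_comm (τ c'), this, map_zero])
  intro y
  have h1 := h0 y
  rw [hQ] at h1
  linear_combination h1 - mu (qF B F y) * two0LA (F := F)

/-- consequence: one of three rational forms is in the pencil -/
lemma rat_cases (l1 l2 l3 l4 : Fin m) (x1 x2 x3 x4 : Fin n → ZMod 2) (c c' : F)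
    (h : InQ B (fun y => c * (bb B F l1 x1 y * bb B F l2 x2 y) +
      c' * (bb B F l3 x3 y * bb B F l4 x4 y))) (hc : c ≠ 0 ∨ c' ≠ 0) :
    InQ B (fun y => bb B F l1 x1 y * bb B F l2 x2 y) ∨
    InQ B (fun y => bb B F l3 x3 y * bb B F l4 x4 y) ∨
    InQ B (fun y => bb B F l1 x1 y * bb B F l2 x2 y + bb B F l3 x3 y * bb B F l4 x4 y) := by
  have h2 : ∀ a : ZMod 2, a = 0 ∨ a = 1 := by decide
  obtain ⟨τ, hτ⟩ : ∃ τ : F →ₗ[ZMod 2] ZMod 2, τ c ≠ 0 ∨ τ c' ≠ 0 := by
    by_contra hcon
    push Not at hcon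
    rcases hc with hc | hc
    · exact hc ((Module.forall_dual_apply_eq_zero_iff (ZMod 2) c).1 fun τ => (hcon τ).1)
    · exact hc ((Module.forall_dual_apply_eq_zero_iff (ZMod 2) c').1 fun τ => (hcon τ).2)
  have h3 := rat_pencil l1 l2 l3 l4 x1 x2 x3 x4 c c' h τ
  rcases h2 (τ c) with h4 | h4 <;> rcases h2 (τ c') with h5 | h5
  · rw [h4, h5] at hτ; simp at hτ
  · right; left; rw [h4, h5] at h3; simpa using h3
  · left; rw [h4, h5] at h3; simpa using h3
  · right; right; rw [h4, h5] at h3; simpa using h3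

end quad

section plane
variable {n m : ℕ} {B : Fin m → Matrix (Fin n) (Fin n) (ZMod 2)}
  {F : Type*} [Field F] [CharP F 2] [Algebra (ZMod 2) F] (d : Data B F)

/-- `D` is surjective -/
lemma Data.D_surj : Function.Surjective d.D := by
  have h1 : LinearMap.toMatrix' d.D * d.M = fr 2 d.M := by
    ext i j
    have h2 := congrFun (d.hD (Pi.single j 1)) i
    have h3 : vx F (Pi.single j 1 : Fin n → ZMod 2) = Pi.single j (1 : F) := by
      funext i
      by_cases hi : i = j
      · subst hi; simp [vx]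
      · simp [vx, hi]
    rw [h3, mulVec_single_one] at h2
    have h4 : d.D (d.M.col j) i = (LinearMap.toMatrix' d.D *ᵥ d.M.col j) i := by
      rw [← Matrix.toLin'_apply, Matrix.toLin'_toMatrix']
    rw [h4] at h2
    exact h2
  have h5 : (fr 2 d.M).det = d.M.det ^ 2 := by
    have : fr 2 d.M = (frobenius F 2).mapMatrix d.M := by
      ext i j; simp [frobenius_def]
    rw [this, ← RingHom.map_det, frobenius_def]
  have h6 : IsUnit (LinearMap.toMatrix' d.D).det := by
    have h7 := congrArg Matrix.det h1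
    rw [det_mul, h5] at h7
    have h8 := d.hM.ne_zero
    rw [isUnit_iff_ne_zero]
    intro h0
    rw [h0, zero_mul] at h7
    exact h8 (pow_eq_zero_iff (two_ne_zero) |>.1 h7.symm)
  have h9 : Function.Surjective (LinearMap.toMatrix' d.D).mulVec := by
    rw [Matrix.mulVec_surjective_iff_isUnit, Matrix.isUnit_iff_isUnit_det]
    exact h6
  intro y
  obtain ⟨x, hx⟩ := h9 y
  refine ⟨x, ?_⟩
  rw [← hx, ← Matrix.toLin'_apply, Matrix.toLin'_toMatrix']

variable (B) in
/-- the orthogonal of `L^w` -/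
def Vw (w : Fin m → ZMod 2) : AddSubgroup (Fin n → ZMod 2) where
  carrier := {v | ∀ x ∈ Lw B w, be B v x = 0}
  zero_mem' := fun x _ => be_zero_left B x
  add_mem' := by
    intro a b ha hb x hx
    rw [be_add_left, ha x hx, hb x hx, add_zero]
  neg_mem' := by
    intro a ha x hx
    have : -a = a := by funext i; simp [CharTwo.neg_eq]
    rw [this]; exact ha x hx

section
variable {w : Fin m → ZMod 2} {l : Fin m} (hl : w l = 1) {s t : Fin n → ZMod 2}
  (hs : s ∈ Lw B w) (ht : t ∈ Lw B w) (hst : be B s t ≠ 0) (hp : Pl B w s t)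
include hl hs ht hst hp

/-- `L^w` is closed if it is a plane -/
lemma Data.Pl_closed : ClosedE d.e (Lw B w : Set (Fin n → ZMod 2)) := by
  intro v hv j x hes
  have he : d.e j x ≠ 0 := by intro h; rw [h] at hes; exact hes rfl
  apply add_mem hv
  obtain ⟨w', hx⟩ := d.e_Lw he
  by_cases hww : w = w'
  · rw [hww]; exact hx
  by_cases hx0 : x ∈ R0 B
  · exact R0_le w hx0
  exfalso
  have hw' : w' ≠ 0 := by rintro rfl; exact hx0 hx
  obtain ⟨l', hl'⟩ := exists_coordLA hw'
  have ha := d.e_inQ hl' hx j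
  have hv0 : v ∉ R0 B := fun h => hes (A1 hl' hx ha hx0 h)
  obtain ⟨c, h1⟩ := star1 ha hl hv
  have hxv : be B x v = 0 := Lw_comm hx hv (Ne.symm hww)
  have h2 : ∃ z ∈ Lw B w, be B v z ≠ 0 := by
    by_contra hcon
    push Not at hcon
    exact hv0 (hp v hv (hcon s hs) (hcon t ht))
  obtain ⟨z, hz, hvz⟩ := h2
  have h3 := h1 (vx F z)
  rw [bb_zero (Lw_comm hx hz (Ne.symm hww)), mul_zero, bb_zero hxv, zero_mul, add_zero,
    bb_one hl hv hvz, mul_one] at h3
  rw [mem_R0] at hx0
  push Not at hx0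
  obtain ⟨y, hy⟩ := hx0
  have h4 := h1 (vx F y)
  rw [← h3, zero_mul, bb_zero hxv, zero_mul, add_zero, bb_one hl' hx hy, mul_one] at h4
  exact hes h4

omit hp hst ht hs in
lemma Data.Vw_closed : ClosedE d.e (Vw B w : Set (Fin n → ZMod 2)) := by
  intro v hv j x hes
  have he : d.e j x ≠ 0 := by intro h; rw [h] at hes; exact hes rfl
  apply add_mem hv
  intro y hy
  by_contra hxy
  have hx := d.e_mem he hy hxy
  have hA := A2 hl hx (d.e_inQ hl hx j) hy hxy (vx F v)
  apply hes
  rw [hA, bb_zero (by rw [be_comm]; exact hv x hx), bb_zero (by rw [be_comm]; exact hv y hy)]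
  simp

lemma decompV (v : Fin n → ZMod 2) : ∃ x ∈ Lw B w, ∃ y ∈ Vw B w, v = x + y ∧
    vx F x = bb B F l t (vx F v) • vx F s + bb B F l s (vx F v) • vx F t := by
  have hts : be B t s = w := by rw [be_comm]; exact Lw_eq hs hst
  have hst1 : be B s t = w := Lw_eq hs hst
  have key : ∀ x ∈ Lw B w, be B x s = be B v s → be B x t = be B v t →
      v + x ∈ Vw B w := by
    intro x hx h1 h2 z hz
    have h3 : be B (v + x) s = 0 := by rw [be_add_left, h1, add_self2]
    have h4 : be B (v + x) t = 0 := by rw [be_add_left, h2, add_self2]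
    by_contra hne
    have h5 := pl_decomp (F := F) hl hs ht hst hp hz (vx F (v + x))
    have e1 : bb B F l s (vx F (v + x)) = 0 := bb_zero (by rw [be_comm]; exact h3)
    have e2 : bb B F l t (vx F (v + x)) = 0 := bb_zero (by rw [be_comm]; exact h4)
    rw [bb_one hl hz (by rwa [be_comm]), e1, e2, mul_zero, mul_zero, add_zero] at h5
    exact one_ne_zero h5
  have h22 : ∀ x : Fin n → ZMod 2, v = x + (v + x) := by
    intro x
    rw [add_comm v x, ← add_assoc, add_self2, zero_add]
  rcases hs v with h1 | h1 <;> rcases ht v with h2 | h2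
  · refine ⟨0, zero_mem _, v + 0, key 0 (zero_mem _) ?_ ?_, h22 0, ?_⟩
    · rw [be_zero_left, be_comm, h1]
    · rw [be_zero_left, be_comm, h2]
    · rw [bb_vx, bb_vx, h1, h2]; simp
  · refine ⟨s, hs, v + s, key s hs ?_ ?_, h22 s, ?_⟩
    · rw [be_self, be_comm, h1]
    · rw [hst1, be_comm, h2]
    · rw [bb_vx, bb_vx, h1, h2, hl]; simp
  · refine ⟨t, ht, v + t, key t ht ?_ ?_, h22 t, ?_⟩
    · rw [hts, be_comm, h1]
    · rw [be_self, be_comm, h2]
    · rw [bb_vx, bb_vx, h1, h2, hl]; simp
  · refine ⟨s + t, add_mem hs ht, v + (s + t), key (s + t) (add_mem hs ht) ?_ ?_, h22 _, ?_⟩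
    · rw [be_add_left, be_self, zero_add, hts, be_comm, h1]
    · rw [be_add_left, be_self, add_zero, hst1, be_comm, h2]
    · rw [bb_vx, bb_vx, h1, h2, hl, vx_add]; simp

/-- functionals vanishing on `V'` -/
lemma van_V {a : (Fin n → F) →ₗ[F] F} (h : ∀ v ∈ Vw B w, a (vx F v) = 0) (y : Fin n → F) :
    a y = a (vx F t) * bb B F l s y + a (vx F s) * bb B F l t y := by
  have : a = a (vx F t) • bb B F l s + a (vx F s) • bb B F l t := by
    apply lin_extLA
    intro v
    obtain ⟨x, hx, z, hz, hv, hx'⟩ := decompV (F := F) hl hs ht hst hp v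
    have h1 : a (vx F v) = a (vx F x) := by
      rw [hv, vx_add, map_add, h z hz, add_zero]
    rw [h1, hx', map_add, map_smul, map_smul]
    simp only [LinearMap.add_apply, LinearMap.smul_apply, smul_eq_mul]
    ring
  conv_lhs => rw [this]
  simp only [LinearMap.add_apply, LinearMap.smul_apply, smul_eq_mul]

lemma Data.supp {r : Fin n → ZMod 2} (h : d.a r ≠ 0) : r ∈ Lw B w ∨ r ∈ Vw B w := by
  by_contra hcon
  push Not at hcon
  apply h
  apply lin_extLA
  intro v
  obtain ⟨x, hx, z, hz, hv, -⟩ := decompV (F := F) hl hs ht hst hp v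
  rw [hv, vx_add, map_add, d.E2' (d.Pl_closed hl hs ht hst hp) hcon.1 hx,
    d.E2' (d.Vw_closed hl) hcon.2 hz]
  simp

omit hl in
lemma not_Vw {r : Fin n → ZMod 2} (hr : r ∈ Lw B w) (hr0 : r ∉ R0 B) : r ∉ Vw B w := by
  intro h
  exact hr0 (hp r hr (h s hs) (h t ht))

lemma Data.a_plane {r : Fin n → ZMod 2} (hr : r ∈ Lw B w) (hr0 : r ∉ R0 B) (y : Fin n → F) :
    d.a r y = d.a r (vx F t) * bb B F l s y + d.a r (vx F s) * bb B F l t y := by
  apply van_V hl hs ht hst hp
  intro v hv
  exact d.E2' (d.Vw_closed hl) (not_Vw hs ht hst hp hr hr0) hv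

end

open Classical in
/-- the sum of the functionals over a coset of the radical -/
noncomputable def Data.al (x : Fin n → ZMod 2) : (Fin n → F) →ₗ[F] F :=
  ∑ r ∈ Finset.univ.filter (fun r => r + x ∈ R0 B), d.a r

lemma mem_of_coset {w : Fin m → ZMod 2} {r x : Fin n → ZMod 2} (hx : x ∈ Lw B w)
    (h : r + x ∈ R0 B) : r ∈ Lw B w := by
  have : r = (r + x) + x := by rw [add_assoc, add_self2, add_zero]
  rw [this]
  exact add_mem (R0_le w h) hx

lemma not_R0_of_coset {r x : Fin n → ZMod 2} (hx : x ∉ R0 B)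
    (h : r + x ∈ R0 B) : r ∉ R0 B := by
  intro hr
  apply hx
  have : x = r + (r + x) := by rw [← add_assoc, add_self2, zero_add]
  rw [this]
  exact add_mem hr h

lemma be_coset {r x y : Fin n → ZMod 2} (h : r + x ∈ R0 B) : be B r y = be B x y := by
  have h1 := mem_R0.1 h y
  rw [be_add_left] at h1
  have h2 : be B r y + be B x y + be B x y = be B x y := by rw [h1, zero_add]
  rwa [add_assoc, add_self2, add_zero] at h2

lemma bb_coset {r x : Fin n → ZMod 2} (l : Fin m) (h : r + x ∈ R0 B) :
    bb B F l r = bb B F l x := by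
  apply lin_extLA
  intro v
  rw [bb_vx, bb_vx, be_coset h]

lemma nR0 {s t : Fin n → ZMod 2} (hst : be B s t ≠ 0) : s ∉ R0 B :=
  fun h => hst (mem_R0.1 h t)

section
variable {w : Fin m → ZMod 2} {l : Fin m} (hl : w l = 1) {s t : Fin n → ZMod 2}
  (hs : s ∈ Lw B w) (ht : t ∈ Lw B w) (hst : be B s t ≠ 0) (hp : Pl B w s t)
include hl hs ht hst hp

lemma Data.al_plane {x : Fin n → ZMod 2} (hx : x ∈ Lw B w) (hx0 : x ∉ R0 B) (y : Fin n → F) :
    d.al x y = d.al x (vx F t) * bb B F l s y + d.al x (vx F s) * bb B F l t y := by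
  classical
  apply van_V hl hs ht hst hp
  intro v hv
  rw [Data.al, LinearMap.sum_apply]
  apply Finset.sum_eq_zero
  intro r hr
  rw [Finset.mem_filter] at hr
  exact d.E2' (d.Vw_closed hl) (not_Vw hs ht hst hp (mem_of_coset hx hr.2)
    (not_R0_of_coset hx0 hr.2)) hv

/-- closedness of `{0, s} + R0` -/
lemma Data.coset_van (h : ∀ j, ∀ x ∈ Lw B w, x ∉ R0 B → x + s ∉ R0 B → d.e j x (vx F s) = 0)
    {x : Fin n → ZMod 2} (hx : x ∉ R0 B) (hxs : x + s ∉ R0 B) : d.a x (vx F s) = 0 := by
  let Y : AddSubgroup (Fin n → ZMod 2) :=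
    { carrier := {v | v ∈ R0 B ∨ v + s ∈ R0 B}
      zero_mem' := Or.inl (zero_mem _)
      add_mem' := by
        rintro a b (ha | ha) (hb | hb)
        · left; exact add_mem ha hb
        · right; rw [add_assoc]; exact add_mem ha hb
        · right; rw [add_right_comm]; exact add_mem ha hb
        · left
          have : a + b = (a + s) + (b + s) := by
            rw [add_add_add_comm, add_self2, add_zero]
          rw [this]; exact add_mem ha hb
      neg_mem' := by
        intro a ha
        have : -a = a := by funext i; simp [CharTwo.neg_eq]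
        rw [this]; exact ha }
  have hY : ClosedE d.e (Y : Set (Fin n → ZMod 2)) := by
    intro v hv j x hes
    have he : d.e j x ≠ 0 := by intro h; rw [h] at hes; exact hes rfl
    apply add_mem hv
    by_cases hx0 : x ∈ R0 B
    · exact Or.inl hx0
    by_cases hxs : x + s ∈ R0 B
    · exact Or.inr hxs
    exfalso
    have hvL : v ∈ Lw B w := by
      rcases hv with hv | hv
      · exact R0_le w hv
      · exact mem_of_coset hs hv
    have hxL : x ∈ Lw B w := by
      have h1 := d.Pl_closed hl hs ht hst hp v hvL j x hes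
      have : x = v + (v + x) := by rw [← add_assoc, add_self2, zero_add]
      rw [this]
      exact add_mem hvL h1
    have ha := d.e_inQ hl hxL j
    rcases hv with hv | hv
    · exact hes (A1 hl hxL ha hx0 hv)
    · apply hes
      have h2 : vx F v = vx F (v + s) + vx F s := by
        rw [← vx_add, add_assoc, add_self2, add_zero]
      rw [h2, map_add, A1 hl hxL ha hx0 hv, zero_add]
      exact h j x hxL hx0 hxs
  exact d.E2' hY (s := x) (by rintro (h1 | h1); exacts [hx h1, hxs h1]) (v := s)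
    (Or.inr (by rw [add_self2]; exact zero_mem _))

end

end plane

end Pool.Agent.T2H54.Mip2
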