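import Mathlib
import Pool.Agent.T2H54.Mip2.LA3

set_option autoImplicit false
set_option linter.unusedSectionVars false
set_option linter.unusedVariables false

/-! # Linear algebra, part 4: the plane types -/

namespace Pool.Agent.T2H54.Mip2

open Matrix Pool.Agent.R691.Mip

section plane4
variable {n m : ℕ} {B : Fin m → Matrix (Fin n) (Fin n) (ZMod 2)}
  {F : Type*} [Field F] [CharP F 2] [Algebra (ZMod 2) F]

lemma pl_symm {w : Fin m → ZMod 2} {s t : Fin n → ZMod 2} (h : Pl B w s t) : Pl B w t s :=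
  fun r hr h1 h2 => h r hr h2 h1

lemma pl_third {w : Fin m → ZMod 2} {s t : Fin n → ZMod 2} (h : Pl B w s t) :
    Pl B w (s + t) s := by
  intro r hr h1 h2
  apply h r hr h2
  rw [be_add_right, h2, zero_add] at h1
  exact h1

lemma pl_add3 (s t : Fin n → ZMod 2) : s + t + s = t := by
  rw [add_right_comm, add_self2, zero_add]

variable (B F) in
/-- the product of the characters of `x` and `y` lies in the pencil -/
def PR (l : Fin m) (x y : Fin n → ZMod 2) : Prop :=
  InQ B (fun z => bb B F l x z * bb B F l y z)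

lemma PR.symm {l : Fin m} {x y : Fin n → ZMod 2} (h : PR B F l x y) : PR B F l y x :=
  InQ.congr h fun z => mul_comm _ _

lemma PR.add_right {l : Fin m} {x y y' : Fin n → ZMod 2} (h : PR B F l x y)
    (h' : PR B F l x y') : PR B F l x (y + y') :=
  (InQ.add h h').congr fun z => by rw [bb_add, LinearMap.add_apply]; ring

lemma PR.sq {l : Fin m} {x : Fin n → ZMod 2} (h : PR B F l x x) :
    InQ B (fun y => (bb B F l x y) ^ 2) := h.congr fun z => by rw [pow_two]

/-- a nonzero multiple -/
lemma pl_ne {f : (Fin n → F) → F} {c : F} (h : InQ B (fun y => c * f y)) (hc : c ≠ 0) :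
    InQ B f := by
  refine (h.smul c⁻¹).congr fun y => ?_
  rw [← mul_assoc, inv_mul_cancel₀ hc, one_mul]

lemma Data.NF1 (d : Data B F) {w : Fin m → ZMod 2} (hw : w ≠ 0) (hF : ¬ Free B F w)
    {s t : Fin n → ZMod 2} (hs : s ∈ Lw B w) (ht : t ∈ Lw B w) (hst : be B s t ≠ 0)
    (hes : ∃ j, d.e j s ≠ 0) (het : ∃ j, d.e j t ≠ 0) : Pl B w s t := by
  by_contra hp
  obtain ⟨l, hl⟩ := exists_coordLA hw
  have key : ∀ s t : Fin n → ZMod 2, s ∈ Lw B w → t ∈ Lw B w → be B s t ≠ 0 →
      (∃ j, d.e j s ≠ 0) → ¬ Pl B w s t → s ∈ Bw B F w := by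
    rintro s t hs ht hst ⟨j, hj⟩ hp
    have ha := d.e_inQ hl hs j
    have h0 := A3 hl hs ha ht hst hp
    have hA := A2 hl hs ha ht hst
    have h1 : d.e j s (vx F t) ≠ 0 := by
      intro h1
      apply hj
      apply LinearMap.ext
      intro y
      rw [hA y, h0, h1]; simp
    apply mem_Bw hl hs
    apply NN_of_mul_self
    apply pl_ne (c := d.e j s (vx F t)) _ h1
    refine ha.congr fun y => ?_
    rw [hA y, h0]; ring
  have hs' := key s t hs ht hst hes hp
  have hts : be B t s ≠ 0 := by rwa [be_comm]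
  have ht' := key t s ht hs hts het (fun h => hp (pl_symm h))
  have hbad : Bad B F w := by
    by_contra hb
    exact hF ⟨hw, ⟨s, hs', t, ht', hst⟩, hb⟩
  have h2 := A3 hl hs (a := bb B F l t) (hbad t ht s hs l hl) ht hst hp
  rw [bb_one hl ht hts] at h2
  exact one_ne_zero h2

section
variable {w : Fin m → ZMod 2} {l : Fin m} (hl : w l = 1) {s t : Fin n → ZMod 2}
  (hs : s ∈ Lw B w) (ht : t ∈ Lw B w) (hst : be B s t ≠ 0) (hp : Pl B w s t)
include hs ht hst hp

/-- the cosets of the radical in the plane -/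
lemma pl_coset {x : Fin n → ZMod 2} (hx : x ∈ Lw B w) (hx0 : x ∉ R0 B) :
    (x + s ∈ R0 B ∧ be B x s = 0 ∧ be B x t = w) ∨
    (x + t ∈ R0 B ∧ be B x s = w ∧ be B x t = 0) ∨
    (x + (s + t) ∈ R0 B ∧ be B x s = w ∧ be B x t = w) := by
  have hts : be B t s = w := by rw [be_comm]; exact Lw_eq hs hst
  have hst1 : be B s t = w := Lw_eq hs hst
  rcases hx s with h1 | h1 <;> rcases hx t with h2 | h2
  · exact absurd (hp x hx h1 h2) hx0
  · left
    refine ⟨hp _ (add_mem hx hs) ?_ ?_, h1, h2⟩
    · rw [be_add_left, h1, be_self, add_zero]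
    · rw [be_add_left, h2, hst1, add_self2]
  · right; left
    refine ⟨hp _ (add_mem hx ht) ?_ ?_, h1, h2⟩
    · rw [be_add_left, h1, hts, add_self2]
    · rw [be_add_left, h2, be_self, add_zero]
  · right; right
    refine ⟨hp _ (add_mem hx (add_mem hs ht)) ?_ ?_, h1, h2⟩
    · rw [be_add_left, be_add_left, h1, be_self, zero_add, hts, add_self2]
    · rw [be_add_left, be_add_left, h2, be_self, add_zero, hst1, add_self2]

include hl

/-- closedness at `s`, generic step -/
lemma Data.pl_al_van (d : Data B F)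
    (h : ∀ j, ∀ x ∈ Lw B w, x ∉ R0 B → x + s ∉ R0 B → d.e j x (vx F s) = 0)
    {z : Fin n → ZMod 2} (hz : z ∉ R0 B) (hzs : z + s ∉ R0 B) : d.al z (vx F s) = 0 := by
  classical
  rw [Data.al, LinearMap.sum_apply]
  apply Finset.sum_eq_zero
  intro r hr
  rw [Finset.mem_filter] at hr
  apply d.coset_van hl hs ht hst hp h (not_R0_of_coset hz hr.2)
  intro h1
  apply hzs
  have : z + s = (r + z) + (r + s) := by
    rw [add_add_add_comm, add_self2, zero_add]
  rw [this]
  exact add_mem hr.2 h1

lemma Data.pl_type1 (d : Data B F) (hr : PR B F l s t) (h1 : ¬ PR B F l s s)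
    (h2 : ¬ PR B F l t t) (h3 : ¬ PR B F l (s + t) (s + t)) :
    InQ B (fun y => d.al s y * d.al t y + d.al s y * d.al (s + t) y +
      d.al t y * d.al (s + t) y) := by
  have key : ∀ s t : Fin n → ZMod 2, s ∈ Lw B w → t ∈ Lw B w → be B s t ≠ 0 → Pl B w s t →
      PR B F l s t → ¬ PR B F l s s → ¬ PR B F l t t → ¬ PR B F l (s + t) (s + t) →
      ∀ j, ∀ x ∈ Lw B w, x ∉ R0 B → x + s ∉ R0 B → d.e j x (vx F s) = 0 := by
    intro s t hs ht hst hp hr h1 h2 h3 j x hx hx0 hxs
    have hw : w ≠ 0 := by rintro rfl; simp at hl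
    have ha := d.e_inQ hl hx j
    rcases pl_coset hs ht hst hp hx hx0 with h | ⟨h, hxs', -⟩ | ⟨h, hxs', -⟩
    · exact absurd h.1 hxs
    · have hA := A2 hl hx ha hs (by rw [hxs']; exact hw)
      rw [bb_coset l h] at hA ha
      by_contra hne
      apply h2
      apply pl_ne (c := d.e j x (vx F s)) _ hne
      refine (ha.add (InQ.smul (d.e j x (vx F x)) hr)).congr fun y => ?_
      rw [hA y]
      linear_combination -(d.e j x (vx F x) * bb B F l s y * bb B F l t y) * two0LA (F := F)
    · have hA := A2 hl hx ha hs (by rw [hxs']; exact hw)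
      rw [bb_coset l h] at hA ha
      by_contra hne
      have h4 : InQ B (fun y => d.e j x (vx F s) *
          (bb B F l (s + t) y * bb B F l (s + t) y) + d.e j x (vx F x) *
          (bb B F l s y * bb B F l s y)) := by
        refine (ha.add (InQ.smul (d.e j x (vx F x)) hr)).congr fun y => ?_
        rw [hA y, bb_add, LinearMap.add_apply]
        linear_combination -(d.e j x (vx F x) * bb B F l s y * bb B F l t y) * two0LA (F := F)
      rcases rat_cases _ _ _ _ _ _ _ _ _ _ h4 (Or.inl hne) with h5 | h5 | h5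
      · exact h3 h5
      · exact h1 h5
      · apply h2
        refine h5.congr fun y => ?_
        rw [bb_add, LinearMap.add_apply]
        linear_combination -(bb B F l s y * bb B F l t y + bb B F l s y ^ 2) * two0LA (F := F)
  have hts : be B t s ≠ 0 := by rwa [be_comm]
  have c1 := key s t hs ht hst hp hr h1 h2 h3
  have c2 := key t s ht hs hts (pl_symm hp) hr.symm h2 h1 (by rwa [add_comm])
  have s0 : s ∉ R0 B := nR0 hst
  have t0 : t ∉ R0 B := nR0 hts
  have u0 : s + t ∉ R0 B := nR0 (t := s) (by rw [be_add_left, be_self, zero_add]; exact hts)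
  have e1 : d.al t (vx F s) = 0 :=
    d.pl_al_van hl hs ht hst hp c1 t0 (by rwa [add_comm])
  have e2 : d.al (s + t) (vx F s) = 0 :=
    d.pl_al_van hl hs ht hst hp c1 u0 (by rwa [pl_add3])
  have e3 : d.al s (vx F t) = 0 :=
    d.pl_al_van hl ht hs hts (pl_symm hp) c2 s0 u0
  have e4 : d.al (s + t) (vx F t) = 0 :=
    d.pl_al_van hl ht hs hts (pl_symm hp) c2 u0 (by rwa [add_assoc, add_self2, add_zero])
  refine (InQ.smul (d.al s (vx F s) * d.al t (vx F t)) hr).congr fun y => ?_
  rw [d.al_plane hl hs ht hst hp hs s0, d.al_plane hl hs ht hst hp ht t0,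
    d.al_plane hl hs ht hst hp (add_mem hs ht) u0, e1, e2, e3, e4]
  ring

lemma Data.pl_type2 (d : Data B F) (hr : PR B F l s t) (h1 : PR B F l s s)
    (h2 : ¬ PR B F l t t) :
    InQ B (fun y => d.al s y * d.al t y + d.al s y * d.al (s + t) y +
      d.al t y * d.al (s + t) y) := by
  have hw : w ≠ 0 := by rintro rfl; simp at hl
  have c1 : ∀ j, ∀ x ∈ Lw B w, x ∉ R0 B → x + s ∉ R0 B → d.e j x (vx F s) = 0 := by
    intro j x hx hx0 hxs
    have ha := d.e_inQ hl hx j
    rcases pl_coset hs ht hst hp hx hx0 with h | ⟨h, hxs', -⟩ | ⟨h, hxs', -⟩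
    · exact absurd h.1 hxs
    · have hA := A2 hl hx ha hs (by rw [hxs']; exact hw)
      rw [bb_coset l h] at hA ha
      by_contra hne
      apply h2
      apply pl_ne (c := d.e j x (vx F s)) _ hne
      refine (ha.add (InQ.smul (d.e j x (vx F x)) hr)).congr fun y => ?_
      rw [hA y]
      linear_combination -(d.e j x (vx F x) * bb B F l s y * bb B F l t y) * two0LA (F := F)
    · have hA := A2 hl hx ha hs (by rw [hxs']; exact hw)
      rw [bb_coset l h] at hA ha
      by_contra hne
      apply h2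
      apply pl_ne (c := d.e j x (vx F s)) _ hne
      refine ((ha.add (InQ.smul (d.e j x (vx F x)) hr)).add
        (InQ.smul (d.e j x (vx F x) + d.e j x (vx F s)) h1)).congr fun y => ?_
      rw [hA y, bb_add, LinearMap.add_apply]
      linear_combination -(d.e j x (vx F x) * bb B F l s y * bb B F l t y +
        d.e j x (vx F x) * bb B F l s y ^ 2 + d.e j x (vx F s) * bb B F l s y ^ 2 +
        d.e j x (vx F s) * bb B F l s y * bb B F l t y) * two0LA (F := F)
  have hts : be B t s ≠ 0 := by rwa [be_comm]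
  have s0 : s ∉ R0 B := nR0 hst
  have t0 : t ∉ R0 B := nR0 hts
  have u0 : s + t ∉ R0 B := nR0 (t := s) (by rw [be_add_left, be_self, zero_add]; exact hts)
  have e1 : d.al t (vx F s) = 0 :=
    d.pl_al_van hl hs ht hst hp c1 t0 (by rwa [add_comm])
  have e2 : d.al (s + t) (vx F s) = 0 :=
    d.pl_al_van hl hs ht hst hp c1 u0 (by rwa [pl_add3])
  have hst' := h1.sq
  refine ((InQ.smul (d.al s (vx F s) * (d.al t (vx F t) + d.al (s + t) (vx F t))) hr).add
    (InQ.smul (d.al s (vx F t) * (d.al t (vx F t) + d.al (s + t) (vx F t)) +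
      d.al t (vx F t) * d.al (s + t) (vx F t)) hst')).congr fun y => ?_
  rw [d.al_plane hl hs ht hst hp hs s0, d.al_plane hl hs ht hst hp ht t0,
    d.al_plane hl hs ht hst hp (add_mem hs ht) u0, e1, e2]
  ring

/-- the sum of `a_r b_s(r)` -/
lemma Data.pl_sum (d : Data B F) (y : Fin n → F) :
    ∑ r, d.a r y * bb B F l s (vx F r) = d.al t y + d.al (s + t) y := by
  classical
  have hw : w ≠ 0 := by rintro rfl; simp at hl
  have hts : be B t s = w := by rw [be_comm]; exact Lw_eq hs hst
  rw [Data.al, Data.al, LinearMap.sum_apply, LinearMap.sum_apply, Finset.sum_filter,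
    Finset.sum_filter, ← Finset.sum_add_distrib]
  refine Finset.sum_congr rfl fun r _ => ?_
  by_cases ha : d.a r = 0
  · rw [ha]; simp
  have ne1 : r + t ∈ R0 B → be B r s = w := fun h => by rw [be_coset h, hts]
  have ne2 : r + (s + t) ∈ R0 B → be B r s = w := fun h => by
    rw [be_coset h, be_add_left, be_self, zero_add, hts]
  have ne3 : r + t ∈ R0 B → r + (s + t) ∈ R0 B → False := by
    intro h1 h2
    have h3 : s ∈ R0 B := by
      have : s = (r + t) + (r + (s + t)) := by
        rw [add_add_add_comm, add_self2, zero_add, add_comm s t, ← add_assoc, add_self2, zero_add]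
      rw [this]
      exact add_mem h1 h2
    exact nR0 hst h3
  have zero_case : be B r s = 0 → d.a r y * bb B F l s (vx F r) =
      (if r + t ∈ R0 B then d.a r y else 0) + if r + (s + t) ∈ R0 B then d.a r y else 0 := by
    intro h
    rw [if_neg, if_neg, bb_zero (by rw [be_comm]; exact h), mul_zero, add_zero]
    · intro h'; exact hw ((ne2 h').symm.trans h)
    · intro h'; exact hw ((ne1 h').symm.trans h)
  rcases d.supp hl hs ht hst hp ha with hr | hr
  · by_cases hr0 : r ∈ R0 B
    · exact zero_case (mem_R0.1 hr0 s)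
    rcases pl_coset hs ht hst hp hr hr0 with h | ⟨h, hxs', -⟩ | ⟨h, hxs', -⟩
    · exact zero_case h.2.1
    · rw [if_pos h, if_neg (fun h' => ne3 h h'), bb_one hl hs (by rw [be_comm, hxs']; exact hw)]
      ring
    · rw [if_pos h, if_neg (fun h' => ne3 h' h), bb_one hl hs (by rw [be_comm, hxs']; exact hw)]
      ring
  · exact zero_case (hr s hs)

lemma Data.pl_bD (d : Data B F) (y : Fin n → F) :
    bb B F l s (d.D y) = bb B F l s y + d.al t y + d.al (s + t) y := by
  rw [d.D1, map_add, map_sum, add_assoc, ← d.pl_sum hl hs ht hst hp y]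
  congr 1
  refine Finset.sum_congr rfl fun r _ => ?_
  rw [map_smul, smul_eq_mul]

/-- the sum of `a_r^2 b_t(r) b_u(r)` -/
lemma Data.pl_sum2 (d : Data B F) (y : Fin n → F) :
    ∑ r, d.a r y ^ 2 * (bb B F l t (vx F r) * bb B F l (s + t) (vx F r)) = d.al s y ^ 2 := by
  classical
  have hw : w ≠ 0 := by rintro rfl; simp at hl
  have hst1 : be B s t = w := Lw_eq hs hst
  have hts : be B t s = w := by rw [be_comm]; exact hst1
  have hsq : ∀ (Z : Finset (Fin n → ZMod 2)) (f : (Fin n → ZMod 2) → F),
      (∑ r ∈ Z, f r) ^ 2 = ∑ r ∈ Z, f r ^ 2 := by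
    intro Z f
    have := map_sum (frobenius F 2) f Z
    simp only [frobenius_def] at this
    exact this
  rw [Data.al, LinearMap.sum_apply, hsq, Finset.sum_filter]
  refine Finset.sum_congr rfl fun r _ => ?_
  by_cases ha : d.a r = 0
  · rw [ha]; simp
  have n1 : be B r s = w → ¬ r + s ∈ R0 B := by
    intro h1 h2
    have := be_coset h2 (y := s)
    rw [be_self, h1] at this
    exact hw this
  have n2 : be B r t = 0 → ¬ r + s ∈ R0 B := by
    intro h1 h2
    have := be_coset h2 (y := t)
    rw [hst1, h1] at this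
    exact hw this.symm
  rcases d.supp hl hs ht hst hp ha with hr | hr
  · by_cases hr0 : r ∈ R0 B
    · rw [if_neg (n2 (mem_R0.1 hr0 t)), bb_zero (by rw [be_comm]; exact mem_R0.1 hr0 t)]
      ring
    rcases pl_coset hs ht hst hp hr hr0 with h | ⟨h, h1, h2⟩ | ⟨h, h1, h2⟩
    · rw [if_pos h.1, bb_one hl ht (by rw [be_comm, h.2.2]; exact hw),
        bb_one hl (add_mem hs ht)
          (by rw [be_comm, be_add_right, h.2.1, h.2.2, zero_add]; exact hw)]
      ring
    · rw [if_neg (n1 h1), bb_zero (by rw [be_comm]; exact h2)]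
      ring
    · rw [if_neg (n1 h1), bb_zero (l := l) (s := s + t)
        (by rw [be_comm, be_add_right, h1, h2, add_self2])]
      ring
  · rw [if_neg (n2 (hr t ht)), bb_zero (by rw [be_comm]; exact hr t ht)]
    ring

lemma Data.pl_type3 (d : Data B F) (hr : PR B F l t (s + t)) (h1 : PR B F l s s)
    (h2 : ¬ PR B F l t t) :
    InQ B (fun y => d.al s y * d.al t y + d.al s y * d.al (s + t) y +
      d.al t y * d.al (s + t) y) := by
  have hw : w ≠ 0 := by rintro rfl; simp at hl
  have hts : be B t s ≠ 0 := by rwa [be_comm]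
  have s0 : s ∉ R0 B := nR0 hst
  have t0 : t ∉ R0 B := nR0 hts
  have u0 : s + t ∉ R0 B := nR0 (t := s) (by rw [be_add_left, be_self, zero_add]; exact hts)
  have hr' : InQ B (fun y => bb B F l s y * bb B F l t y + bb B F l t y ^ 2) :=
    hr.congr fun y => by rw [bb_add, LinearMap.add_apply]; ring
  have As := d.al_plane hl hs ht hst hp hs s0
  have At := d.al_plane hl hs ht hst hp ht t0
  have Au := d.al_plane hl hs ht hst hp (add_mem hs ht) u0
  -- a multiple of `b_t ^ 2`
  have hbt : ∀ c : F, InQ B (fun y => c * bb B F l t y ^ 2) → c = 0 := by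
    intro c hc
    by_contra hne
    apply h2
    exact (pl_ne hc hne).congr fun y => by ring
  have hss := h1.sq
  have Ds := d.pl_bD hl hs ht hst hp
  have Dt : ∀ y, bb B F l t (d.D y) = bb B F l t y + d.al s y + d.al (s + t) y := by
    intro y
    rw [d.pl_bD hl ht hs hts (pl_symm hp), add_comm t s]
  obtain ⟨α, β, hDs⟩ : ∃ α β : F, ∀ y, bb B F l s (d.D y) = α * bb B F l s y +
      β * bb B F l t y :=
    ⟨1 + d.al t (vx F t) + d.al (s + t) (vx F t), d.al t (vx F s) + d.al (s + t) (vx F s),
      fun y => by rw [Ds, At, Au]; ring⟩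
  obtain ⟨x, z, hDt⟩ : ∃ x z : F, ∀ y, bb B F l t (d.D y) = x * bb B F l s y +
      z * bb B F l t y :=
    ⟨d.al s (vx F t) + d.al (s + t) (vx F t), 1 + d.al s (vx F s) + d.al (s + t) (vx F s),
      fun y => by rw [Dt, As, Au]; ring⟩
  -- step 1
  have hβ : β = 0 := by
    have h3 := hss.comp d.D2
    have h4 : β ^ 2 = 0 := hbt _ <| (h3.add (hss.smul (α ^ 2))).congr fun y => by
      rw [hDs y]
      linear_combination -(α ^ 2 * bb B F l s y ^ 2 +
        α * β * bb B F l s y * bb B F l t y) * two0LA (F := F)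
    exact pow_eq_zero_iff (two_ne_zero) |>.1 h4
  subst hβ
  simp only [zero_mul, add_zero] at hDs
  have hα : α ≠ 0 := by
    rintro rfl
    obtain ⟨y, hy⟩ := d.D_surj (vx F t)
    have h3 := hDs y
    rw [hy, bb_one hl hs hst, zero_mul] at h3
    exact one_ne_zero h3
  -- step 2
  have hz : z = α := by
    have h3 := hr'.comp d.D2
    have h4 : z ^ 2 + z * α = 0 := hbt _ <|
      ((h3.add (hr'.smul (z * α))).add (hss.smul (x * (x + α)))).congr fun y => by
      rw [hDs y, hDt y]
      linear_combination -(x * (x + α) * bb B F l s y ^ 2 + x * z * bb B F l s y * bb B F l t y +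
        z * α * bb B F l s y * bb B F l t y) * two0LA (F := F)
    have h5 : z * (z + α) = 0 := by linear_combination h4
    rcases mul_eq_zero.1 h5 with h6 | h6
    · exfalso
      subst h6
      obtain ⟨y, hy⟩ := d.D_surj (vx F s)
      have h7 := hDs y
      have h8 := hDt y
      rw [hy, bb_self] at h7
      rw [hy, bb_one hl ht hts, zero_mul, add_zero] at h8
      rcases mul_eq_zero.1 h7.symm with h9 | h9
      · exact hα h9
      · rw [h9, mul_zero] at h8; exact one_ne_zero h8
    · linear_combination h6 - α * two0LA (F := F)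
  subst hz
  -- step 3
  obtain ⟨lam, hlam⟩ := hr
  have h3 : InQ B (fun y => d.al s y ^ 2) := by
    refine ⟨lam ∘ₗ d.K, fun y => ?_⟩
    rw [LinearMap.comp_apply, ← d.D3, map_sum]
    beta_reduce
    rw [← d.pl_sum2 hl hs ht hst hp]
    refine Finset.sum_congr rfl fun r _ => ?_
    rw [map_smul, smul_eq_mul, ← qF_vx]
    congr 1
    exact hlam (vx F r)
  have h4 : d.al s (vx F s) = 0 := by
    have h5 : d.al s (vx F s) ^ 2 = 0 := hbt _ <|
      (h3.add (hss.smul (d.al s (vx F t) ^ 2))).congr fun y => by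
      rw [As y]
      linear_combination -(d.al s (vx F t) ^ 2 * bb B F l s y ^ 2 +
        d.al s (vx F t) * d.al s (vx F s) * bb B F l s y * bb B F l t y) * two0LA (F := F)
    exact pow_eq_zero_iff (two_ne_zero) |>.1 h5
  have As' : ∀ y, d.al s y = d.al s (vx F t) * bb B F l s y := fun y => by
    rw [As y, h4, zero_mul, add_zero]
  generalize d.al s (vx F t) = c at As'
  have Au' : ∀ y, d.al (s + t) y = (c + x) * bb B F l s y + (z + 1) * bb B F l t y := by
    intro y
    have h5 := (Dt y).symm.trans (hDt y)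
    rw [As' y] at h5
    linear_combination h5 - (bb B F l t y + c * bb B F l s y) * two0LA (F := F)
  have At' : ∀ y, d.al t y = (c + x + z + 1) * bb B F l s y + (z + 1) * bb B F l t y := by
    intro y
    have h5 := (Ds y).symm.trans (hDs y)
    rw [Au' y] at h5
    linear_combination h5 - (bb B F l s y + (c + x) * bb B F l s y +
      (z + 1) * bb B F l t y) * two0LA (F := F)
  refine ((hss.smul (c * (z + 1) + (c + x + z + 1) * (c + x))).add
    (hr'.smul ((z + 1) ^ 2))).congr fun y => ?_
  rw [As' y, At' y, Au' y]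
  linear_combination (c * (c + x) * bb B F l s y ^ 2 +
    c * (z + 1) * bb B F l s y * bb B F l t y +
    (c + x) * (z + 1) * bb B F l s y * bb B F l t y) * two0LA (F := F)

theorem Data.plane_main (d : Data B F) (hF : ¬ Free B F w)
    (hes : ∃ j, d.e j s ≠ 0) (het : ∃ j, d.e j t ≠ 0) :
    InQ B (fun y => d.al s y * d.al t y + d.al s y * d.al (s + t) y +
      d.al t y * d.al (s + t) y) := by
  have hw : w ≠ 0 := by rintro rfl; simp at hl
  have hts : be B t s ≠ 0 := by rwa [be_comm]
  have s0 : s ∉ R0 B := nR0 hst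
  have t0 : t ∉ R0 B := nR0 hts
  have u0 : s + t ∉ R0 B := nR0 (t := s) (by rw [be_add_left, be_self, zero_add]; exact hts)
  have hu := add_mem hs ht
  by_cases hb : Bad B F w
  · have h1 : InQ B (fun y => (bb B F l s y) ^ 2) := PR.sq (hb s hs s hs l hl)
    have h2 : InQ B (fun y => (bb B F l t y) ^ 2) := PR.sq (hb t ht t ht l hl)
    have h3 : InQ B (fun y => bb B F l s y * bb B F l t y) := hb s hs t ht l hl
    have As := d.al_plane hl hs ht hst hp hs s0
    have At := d.al_plane hl hs ht hst hp ht t0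
    have Au := d.al_plane hl hs ht hst hp hu u0
    exact ((prod_comb h1 h2 h3 As At).add (prod_comb h1 h2 h3 As Au)).add
      (prod_comb h1 h2 h3 At Au)
  have hcomm : ∀ x ∈ Lw B w, ∀ y ∈ Lw B w, PR B F l x x → PR B F l y y → be B x y = 0 := by
    intro x hx y hy h1 h2
    by_contra hne
    exact hF ⟨hw, ⟨x, mem_Bw hl hx (NN_of_mul_self h1), y, mem_Bw hl hy (NN_of_mul_self h2), hne⟩,
      hb⟩
  have key : ∀ s t : Fin n → ZMod 2, s ∈ Lw B w → t ∈ Lw B w → be B s t ≠ 0 →
      (∃ j, d.e j s ≠ 0) → PR B F l s s ∨ PR B F l s t ∨ PR B F l s (s + t) := by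
    rintro s t hs ht hst ⟨j, hj⟩
    have ha := d.e_inQ hl hs j
    have hA := A2 hl hs ha ht hst
    have h1 : InQ B (fun y => d.e j s (vx F t) * (bb B F l s y * bb B F l s y) +
        d.e j s (vx F s) * (bb B F l s y * bb B F l t y)) :=
      ha.congr fun y => by rw [hA y]; ring
    rcases rat_cases _ _ _ _ _ _ _ _ _ _ h1 (by
      by_contra hcon
      push Not at hcon
      apply hj
      apply LinearMap.ext
      intro y
      rw [hA y, hcon.1, hcon.2]; simp) with h5 | h5 | h5
    · exact Or.inl h5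
    · exact Or.inr (Or.inl h5)
    · exact Or.inr (Or.inr (h5.congr fun y => by rw [bb_add, LinearMap.add_apply]; ring))
  have ks := key s t hs ht hst hes
  have kt := key t s ht hs hts het
  have hus : be B (s + t) s ≠ 0 := by rw [be_add_left, be_self, zero_add]; exact hts
  -- permuted conclusions
  have perm1 : InQ B (fun y => d.al t y * d.al s y + d.al t y * d.al (t + s) y +
      d.al s y * d.al (t + s) y) → InQ B (fun y => d.al s y * d.al t y +
      d.al s y * d.al (s + t) y + d.al t y * d.al (s + t) y) := fun h =>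
    h.congr fun y => by rw [add_comm t s]; ring
  have perm2 : InQ B (fun y => d.al (s + t) y * d.al s y +
      d.al (s + t) y * d.al (s + t + s) y + d.al s y * d.al (s + t + s) y) →
      InQ B (fun y => d.al s y * d.al t y +
      d.al s y * d.al (s + t) y + d.al t y * d.al (s + t) y) := fun h =>
    h.congr fun y => by rw [pl_add3]; ring
  by_cases hps : PR B F l s s
  · have hpt : ¬ PR B F l t t := fun h => hst (hcomm s hs t ht hps h)
    by_cases hr : PR B F l s t
    · exact d.pl_type2 hl hs ht hst hp hr hps hpt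
    · rcases kt with h | h | h
      · exact absurd h hpt
      · exact absurd h.symm hr
      · exact d.pl_type3 hl hs ht hst hp (by rwa [add_comm t s] at h) hps hpt
  by_cases hpt : PR B F l t t
  · by_cases hr : PR B F l s t
    · exact perm1 (d.pl_type2 hl ht hs hts (pl_symm hp) hr.symm hpt hps)
    · rcases ks with h | h | h
      · exact absurd h hps
      · exact absurd h hr
      · exact perm1 (d.pl_type3 hl ht hs hts (pl_symm hp) (by rwa [add_comm t s]) hpt hps)
  by_cases hpu : PR B F l (s + t) (s + t)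
  · by_cases hr : PR B F l s t
    · exact perm2 (d.pl_type3 hl hu hs hus (pl_third hp) (by rwa [pl_add3]) hpu hps)
    · rcases ks with h | h | h
      · exact absurd h hps
      · exact absurd h hr
      · exact perm2 (d.pl_type2 hl hu hs hus (pl_third hp) h.symm hpu hps)
  by_cases hr : PR B F l s t
  · exact d.pl_type1 hl hs ht hst hp hr hps hpt hpu
  rcases ks with h | h | h
  · exact absurd h hps
  · exact absurd h hr
  rcases kt with h' | h' | h'
  · exact absurd h' hpt
  · exact absurd h'.symm hr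
  exfalso
  apply hpu
  rw [add_comm t s] at h'
  exact h.symm.add_right h'.symm

open Classical in
theorem Data.plane_q (d : Data B F) (hF : ¬ Free B F w)
    (hes : ∃ j, d.e j s ≠ 0) (het : ∃ j, d.e j t ≠ 0) :
    InQW B (fun y => qF B F (∑ r ∈ Finset.univ.filter (fun r => r ∈ Lw B w ∧ r ∉ R0 B),
        d.a r y • vx F r) +
      ∑ r ∈ Finset.univ.filter (fun r => r ∈ Lw B w ∧ r ∉ R0 B),
        (d.a r y) ^ 2 • vx F (bil B r r)) := by
  have hw : w ≠ 0 := by rintro rfl; simp at hl
  have hst1 : be B s t = w := Lw_eq hs hst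
  have hts1 : be B t s = w := by rw [be_comm]; exact hst1
  have hts : be B t s ≠ 0 := by rwa [be_comm]
  have s0 : s ∉ R0 B := nR0 hst
  have t0 : t ∉ R0 B := nR0 hts
  have u0 : s + t ∉ R0 B := nR0 (t := s) (by rw [be_add_left, be_self, zero_add]; exact hts)
  have hu := add_mem hs ht
  have hZ : Finset.univ.filter (fun r => r ∈ Lw B w ∧ r ∉ R0 B) =
      (Finset.univ.filter (fun r => r + s ∈ R0 B) ∪ Finset.univ.filter (fun r => r + t ∈ R0 B)) ∪
      Finset.univ.filter (fun r => r + (s + t) ∈ R0 B) := by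
    ext r
    simp only [Finset.mem_filter, Finset.mem_univ, true_and, Finset.mem_union]
    constructor
    · rintro ⟨h1, h2⟩
      rcases pl_coset hs ht hst hp h1 h2 with h | h | h
      · exact Or.inl (Or.inl h.1)
      · exact Or.inl (Or.inr h.1)
      · exact Or.inr h.1
    · rintro ((h | h) | h)
      · exact ⟨mem_of_coset hs h, not_R0_of_coset s0 h⟩
      · exact ⟨mem_of_coset ht h, not_R0_of_coset t0 h⟩
      · exact ⟨mem_of_coset hu h, not_R0_of_coset u0 h⟩
  have dis1 : Disjoint (Finset.univ.filter (fun r => r + s ∈ R0 B))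
      (Finset.univ.filter (fun r => r + t ∈ R0 B)) := by
    rw [Finset.disjoint_filter]
    intro r _ h1 h2
    have h3 := be_coset h1 (y := s)
    rw [be_coset h2, be_self, hts1] at h3
    exact hw h3
  have dis2 : Disjoint (Finset.univ.filter (fun r => r + s ∈ R0 B) ∪
      Finset.univ.filter (fun r => r + t ∈ R0 B))
      (Finset.univ.filter (fun r => r + (s + t) ∈ R0 B)) := by
    rw [Finset.disjoint_union_left, Finset.disjoint_filter, Finset.disjoint_filter]
    constructor
    · intro r _ h1 h2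
      have h3 := be_coset h1 (y := s)
      rw [be_coset h2, be_self, be_add_left, be_self, zero_add, hts1] at h3
      exact hw h3
    · intro r _ h1 h2
      have h3 := be_coset h1 (y := t)
      rw [be_coset h2, be_self, be_add_left, be_self, add_zero, hst1] at h3
      exact hw h3
  have hsum : ∀ {X : Type _} [AddCommMonoid X] (f : (Fin n → ZMod 2) → X),
      ∑ r ∈ Finset.univ.filter (fun r => r ∈ Lw B w ∧ r ∉ R0 B), f r =
      ∑ r ∈ Finset.univ.filter (fun r => r + s ∈ R0 B), f r +
      ∑ r ∈ Finset.univ.filter (fun r => r + t ∈ R0 B), f r +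
      ∑ r ∈ Finset.univ.filter (fun r => r + (s + t) ∈ R0 B), f r := by
    intro X _ f
    rw [hZ, Finset.sum_union dis2, Finset.sum_union dis1]
  have hq : ∀ (x : Fin n → ZMod 2) (y : Fin n → F),
      qF B F (∑ r ∈ Finset.univ.filter (fun r => r + x ∈ R0 B), d.a r y • vx F r) =
      ∑ r ∈ Finset.univ.filter (fun r => r + x ∈ R0 B), (d.a r y) ^ 2 • vx F (bil B r r) := by
    intro x y
    rw [qF_sumLA]
    · refine Finset.sum_congr rfl fun r _ => ?_
      rw [qF_smul, qF_vx]
    · intro i hi j hj _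
      rw [Finset.mem_filter] at hi hj
      have h1 : be B i j = 0 := by
        rw [be_coset hi.2, be_comm, be_coset hj.2, be_self]
      rw [map_smul, map_smul, LinearMap.smul_apply, beF_vx, h1]
      simp
  have hb : ∀ (x x' : Fin n → ZMod 2), be B x x' = w → ∀ y : Fin n → F,
      beF B F (∑ r ∈ Finset.univ.filter (fun r => r + x ∈ R0 B), d.a r y • vx F r)
        (∑ r ∈ Finset.univ.filter (fun r => r + x' ∈ R0 B), d.a r y • vx F r) =
      (d.al x y * d.al x' y) • vx F w := by
    intro x x' hxx y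
    rw [Data.al, Data.al, LinearMap.sum_apply, LinearMap.sum_apply, Finset.sum_mul_sum,
      map_sum (beF B F), LinearMap.sum_apply, Finset.sum_smul]
    refine Finset.sum_congr rfl fun r hr => ?_
    rw [map_sum, Finset.sum_smul]
    refine Finset.sum_congr rfl fun r' hr' => ?_
    rw [Finset.mem_filter] at hr hr'
    have h1 : be B r r' = w := by
      rw [be_coset hr.2, be_comm, be_coset hr'.2, be_comm, hxx]
    rw [map_smul, map_smul, LinearMap.smul_apply, beF_vx, h1, smul_smul, mul_comm]
  have hmain := (d.plane_main hl hs ht hst hp hF hes het).vec (vx F w)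
  refine hmain.congr fun y => ?_
  beta_reduce
  rw [hsum, hsum, qF_add, qF_add, hq, hq, hq, map_add, LinearMap.add_apply, hb s t hst1,
    hb s (s + t) (by rw [be_add_right, be_self, zero_add, hst1]),
    hb t (s + t) (by rw [be_add_right, be_self, add_zero, hts1])]
  have e2 : ∀ A : Fin m → F, A + A = 0 := add_selfLA
  generalize (∑ r ∈ Finset.univ.filter (fun r => r + s ∈ R0 B),
    (d.a r y) ^ 2 • vx F (bil B r r)) = X1
  generalize (∑ r ∈ Finset.univ.filter (fun r => r + t ∈ R0 B),
    (d.a r y) ^ 2 • vx F (bil B r r)) = X2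
  generalize (∑ r ∈ Finset.univ.filter (fun r => r + (s + t) ∈ R0 B),
    (d.a r y) ^ 2 • vx F (bil B r r)) = X3
  rw [add_smul, add_smul]
  generalize (d.al s y * d.al t y) • vx F w = Y1
  generalize (d.al s y * d.al (s + t) y) • vx F w = Y2
  generalize (d.al t y * d.al (s + t) y) • vx F w = Y3
  have h1 : X1 + X2 + Y1 + X3 + (Y2 + Y3) + (X1 + X2 + X3) =
      Y1 + Y2 + Y3 + ((X1 + X1) + (X2 + X2) + (X3 + X3)) := by abel
  rw [h1, e2 X1, e2 X2, e2 X3]; simp

end

end plane4

end Pool.Agent.T2H54.Mip2
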