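import Mathlib
import Pool.Agent.T2H54.Mip2.LA3

set_option autoImplicit false
set_option linter.unusedSectionVars false
set_option linter.unusedVariables false

/-! # Linear algebra, part 5: hyperbolic families and projections -/

namespace Pool.Agent.T2H54.Mip2

open Matrix Pool.Agent.R691.Mip

section hyp
variable {n m : ℕ} (B : Fin m → Matrix (Fin n) (Fin n) (ZMod 2))
  (F : Type*) [Field F] [CharP F 2] [Algebra (ZMod 2) F]

/-- orthogonal hyperbolic pairs of free elements -/
structure Hyp where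
  k : ℕ
  s : Fin k → (Fin n → ZMod 2)
  t : Fin k → (Fin n → ZMod 2)
  w : Fin k → (Fin m → ZMod 2)
  hF : ∀ i, Free B F (w i)
  hs : ∀ i, s i ∈ Bw B F (w i)
  ht : ∀ i, t i ∈ Bw B F (w i)
  hst : ∀ i j, be B (s i) (t j) = if i = j then w i else 0
  hss : ∀ i j, be B (s i) (s j) = 0
  htt : ∀ i j, be B (t i) (t j) = 0

variable {B F}

/-- maximality -/
def Hyp.Max (h : Hyp B F) : Prop := ∀ w, Free B F w → ∀ x ∈ Bw B F w, ∀ y ∈ Bw B F w,
  (∀ i, be B x (h.s i) = 0 ∧ be B x (h.t i) = 0) →
  (∀ i, be B y (h.s i) = 0 ∧ be B y (h.t i) = 0) → be B x y = 0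

lemma Hyp.card_le (h : Hyp B F) : h.k ≤ Fintype.card (Fin n → ZMod 2) := by
  have h1 : Function.Injective h.s := by
    intro i j hij
    by_contra hne
    have h2 := h.hst i i
    rw [hij, h.hst j i, if_neg (Ne.symm hne), if_pos rfl] at h2
    exact (h.hF i).1 h2.symm
  simpa using Fintype.card_le_of_injective _ h1

lemma exists_hyp_aux (N : ℕ) : ∀ h : Hyp B F, Fintype.card (Fin n → ZMod 2) - h.k ≤ N →
    ∃ h' : Hyp B F, h'.Max := by
  induction N with
  | zero =>
    intro h hN
    by_contra hcon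
    push Not at hcon
    have h1 := hcon h
    unfold Hyp.Max at h1
    push Not at h1
    obtain ⟨w, hw, x, hx, y, hy, hx1, hy1, hxy⟩ := h1
    have := Hyp.card_le (⟨h.k + 1, Fin.cons x h.s, Fin.cons y h.t, Fin.cons w h.w,
      Fin.cases hw h.hF, Fin.cases hx h.hs, Fin.cases hy h.ht, by
        intro i j
        refine Fin.cases ?_ (fun i => ?_) i <;> refine Fin.cases ?_ (fun j => ?_) j
        · simpa using Lw_eq (Bw_le w hx) hxy
        · simpa [(Fin.succ_ne_zero j).symm] using (hx1 j).2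
        · simpa [Fin.succ_ne_zero i, be_comm] using (hy1 i).1
        · simpa using h.hst i j, by
        intro i j
        refine Fin.cases ?_ (fun i => ?_) i <;> refine Fin.cases ?_ (fun j => ?_) j
        · simp
        · simpa using (hx1 j).1
        · simpa [be_comm] using (hx1 i).1
        · simpa using h.hss i j, by
        intro i j
        refine Fin.cases ?_ (fun i => ?_) i <;> refine Fin.cases ?_ (fun j => ?_) j
        · simp
        · simpa using (hy1 j).2
        · simpa [be_comm] using (hy1 i).2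
        · simpa using h.htt i j⟩ : Hyp B F)
    have h2 := h.card_le
    simp only at this
    omega
  | succ N ih =>
    intro h hN
    by_cases hcon : h.Max
    · exact ⟨h, hcon⟩
    have h1 := hcon
    unfold Hyp.Max at h1
    push Not at h1
    obtain ⟨w, hw, x, hx, y, hy, hx1, hy1, hxy⟩ := h1
    apply ih (⟨h.k + 1, Fin.cons x h.s, Fin.cons y h.t, Fin.cons w h.w,
      Fin.cases hw h.hF, Fin.cases hx h.hs, Fin.cases hy h.ht, by
        intro i j
        refine Fin.cases ?_ (fun i => ?_) i <;> refine Fin.cases ?_ (fun j => ?_) j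
        · simpa using Lw_eq (Bw_le w hx) hxy
        · simpa [(Fin.succ_ne_zero j).symm] using (hx1 j).2
        · simpa [Fin.succ_ne_zero i, be_comm] using (hy1 i).1
        · simpa using h.hst i j, by
        intro i j
        refine Fin.cases ?_ (fun i => ?_) i <;> refine Fin.cases ?_ (fun j => ?_) j
        · simp
        · simpa using (hx1 j).1
        · simpa [be_comm] using (hx1 i).1
        · simpa using h.hss i j, by
        intro i j
        refine Fin.cases ?_ (fun i => ?_) i <;> refine Fin.cases ?_ (fun j => ?_) j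
        · simp
        · simpa using (hy1 j).2
        · simpa [be_comm] using (hy1 i).2
        · simpa using h.htt i j⟩ : Hyp B F)
    simp only
    omega

variable (B F) in
lemma exists_hyp : ∃ h : Hyp B F, h.Max :=
  exists_hyp_aux _ ⟨0, Fin.elim0, Fin.elim0, Fin.elim0, fun i => i.elim0, fun i => i.elim0,
    fun i => i.elim0, fun i => i.elim0, fun i => i.elim0, fun i => i.elim0⟩ le_rfl

end hyp

section proj
variable {n m : ℕ} {B : Fin m → Matrix (Fin n) (Fin n) (ZMod 2)}
  {F : Type*} [Field F] [CharP F 2] [Algebra (ZMod 2) F] (h : Hyp B F)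

namespace Hyp

/-- a coordinate where `w i` is one -/
noncomputable def l (i : Fin h.k) : Fin m := (exists_coordLA (h.hF i).1).choose

lemma hl (i : Fin h.k) : h.w i (h.l i) = 1 := (exists_coordLA (h.hF i).1).choose_spec

/-- coordinates -/
noncomputable def x (i : Fin h.k) : (Fin n → F) →ₗ[F] F := bb B F (h.l i) (h.t i)
/-- coordinates -/
noncomputable def x' (i : Fin h.k) : (Fin n → F) →ₗ[F] F := bb B F (h.l i) (h.s i)

lemma hx (i : Fin h.k) (y : Fin n → F) : beF B F (vx F (h.t i)) y = h.x i y • vx F (h.w i) :=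
  beF_of_Lw (h.hl i) (Bw_le _ (h.ht i)) y

lemma hx' (i : Fin h.k) (y : Fin n → F) : beF B F (vx F (h.s i)) y = h.x' i y • vx F (h.w i) :=
  beF_of_Lw (h.hl i) (Bw_le _ (h.hs i)) y

lemma x_NN (i : Fin h.k) : h.x i ∈ NN B F := (h.ht i).2 _ (h.hl i)
lemma x'_NN (i : Fin h.k) : h.x' i ∈ NN B F := (h.hs i).2 _ (h.hl i)

lemma x_s (i j : Fin h.k) : h.x i (vx F (h.s j)) = if i = j then 1 else 0 := by
  rw [x, bb_vx, be_comm, h.hst]
  by_cases hij : i = j
  · subst hij; simp [h.hl]
  · rw [if_neg (Ne.symm hij), if_neg hij]; simp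

lemma x_t (i j : Fin h.k) : h.x i (vx F (h.t j)) = 0 := by
  rw [x, bb_vx, h.htt]; simp

lemma x'_t (i j : Fin h.k) : h.x' i (vx F (h.t j)) = if i = j then 1 else 0 := by
  rw [x', bb_vx, h.hst]
  by_cases hij : i = j
  · subst hij; simp [h.hl]
  · rw [if_neg hij, if_neg hij]; simp

lemma x'_s (i j : Fin h.k) : h.x' i (vx F (h.s j)) = 0 := by
  rw [x', bb_vx, h.hss]; simp

/-- the projection to the span of the hyperbolic pairs -/
noncomputable def pS : (Fin n → F) →ₗ[F] (Fin n → F) :=
  ∑ i, ((h.x i).smulRight (vx F (h.s i)) + (h.x' i).smulRight (vx F (h.t i)))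

lemma pS_apply (y : Fin n → F) :
    h.pS y = ∑ i, (h.x i y • vx F (h.s i) + h.x' i y • vx F (h.t i)) := by
  rw [pS, LinearMap.sum_apply]; rfl

/-- the complementary projection -/
noncomputable def p2 : (Fin n → F) →ₗ[F] (Fin n → F) := LinearMap.id + h.pS

lemma p2_apply (y : Fin n → F) : h.p2 y = y + h.pS y := rfl

lemma pS_add_p2 (y : Fin n → F) : h.pS y + h.p2 y = y := by
  rw [p2_apply, add_comm y, ← add_assoc, add_selfLA, zero_add]

lemma x_pS (i : Fin h.k) (y : Fin n → F) : h.x i (h.pS y) = h.x i y := by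
  rw [pS_apply, map_sum, Finset.sum_eq_single i]
  · rw [map_add, map_smul, map_smul, x_s, x_t, if_pos rfl]; simp
  · intro j _ hj
    rw [map_add, map_smul, map_smul, x_s, x_t, if_neg (Ne.symm hj)]; simp
  · intro hi; exact absurd (Finset.mem_univ _) hi

lemma x'_pS (i : Fin h.k) (y : Fin n → F) : h.x' i (h.pS y) = h.x' i y := by
  rw [pS_apply, map_sum, Finset.sum_eq_single i]
  · rw [map_add, map_smul, map_smul, x'_s, x'_t, if_pos rfl]; simp
  · intro j _ hj
    rw [map_add, map_smul, map_smul, x'_s, x'_t, if_neg (Ne.symm hj)]; simp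
  · intro hi; exact absurd (Finset.mem_univ _) hi

lemma x_p2 (i : Fin h.k) (y : Fin n → F) : h.x i (h.p2 y) = 0 := by
  rw [p2_apply, map_add, x_pS]; exact CharTwo.add_self_eq_zero _

lemma x'_p2 (i : Fin h.k) (y : Fin n → F) : h.x' i (h.p2 y) = 0 := by
  rw [p2_apply, map_add, x'_pS]; exact CharTwo.add_self_eq_zero _

lemma pS_pS (y : Fin n → F) : h.pS (h.pS y) = h.pS y := by
  rw [pS_apply, pS_apply h y]
  refine Finset.sum_congr rfl fun i _ => ?_
  rw [← pS_apply, x_pS, x'_pS]

lemma pS_p2 (y : Fin n → F) : h.pS (h.p2 y) = 0 := by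
  rw [pS_apply]
  apply Finset.sum_eq_zero
  intro i _
  rw [x_p2, x'_p2]; simp

lemma p2_pS (y : Fin n → F) : h.p2 (h.pS y) = 0 := by
  rw [p2_apply, pS_pS]; exact add_selfLA _

lemma p2_p2 (y : Fin n → F) : h.p2 (h.p2 y) = h.p2 y := by
  rw [p2_apply, pS_p2, add_zero]

lemma pS_s (i : Fin h.k) : h.pS (vx F (h.s i)) = vx F (h.s i) := by
  rw [pS_apply, Finset.sum_eq_single i]
  · rw [x_s, x'_s, if_pos rfl]; simp
  · intro j _ hj
    rw [x_s, x'_s, if_neg hj]; simp
  · intro hi; exact absurd (Finset.mem_univ _) hi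

lemma pS_t (i : Fin h.k) : h.pS (vx F (h.t i)) = vx F (h.t i) := by
  rw [pS_apply, Finset.sum_eq_single i]
  · rw [x_t, x'_t, if_pos rfl]; simp
  · intro j _ hj
    rw [x_t, x'_t, if_neg hj]; simp
  · intro hi; exact absurd (Finset.mem_univ _) hi

lemma orth (y z : Fin n → F) : beF B F (h.pS y) (h.p2 z) = 0 := by
  rw [pS_apply, map_sum, LinearMap.sum_apply]
  apply Finset.sum_eq_zero
  intro i _
  rw [map_add, map_smul, map_smul, LinearMap.add_apply, LinearMap.smul_apply,
    LinearMap.smul_apply, hx', hx, x_p2, x'_p2]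
  simp

lemma orth' (y z : Fin n → F) : beF B F (h.p2 y) (h.pS z) = 0 := by
  rw [beF_comm, orth]

lemma qF_split (y : Fin n → F) : qF B F y = qF B F (h.pS y) + qF B F (h.p2 y) := by
  conv_lhs => rw [← h.pS_add_p2 y, qF_add, orth, add_zero]

/-- `y` in the range of `p2`, `z` arbitrary -/
lemma be_p2 (y z : Fin n → F) : beF B F (h.p2 y) z = beF B F (h.p2 y) (h.p2 z) := by
  conv_lhs => rw [← h.pS_add_p2 z, map_add, orth', zero_add]

lemma be_pS (y z : Fin n → F) : beF B F (h.pS y) z = beF B F (h.pS y) (h.pS z) := by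
  conv_lhs => rw [← h.pS_add_p2 z, map_add, orth, add_zero]

/-- the rational projection -/
noncomputable def r2 (v : Fin n → ZMod 2) : Fin n → ZMod 2 :=
  v + ∑ i, ((be B (h.t i) v (h.l i)) • h.s i + (be B (h.s i) v (h.l i)) • h.t i)

lemma vx_sum {ι : Type*} (s : Finset ι) (f : ι → Fin n → ZMod 2) :
    vx F (∑ i ∈ s, f i) = ∑ i ∈ s, vx F (f i) := by
  classical
  induction s using Finset.induction_on with
  | empty => simp
  | insert a s ha ih => rw [Finset.sum_insert ha, Finset.sum_insert ha, vx_add, ih]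

lemma p2_vx (v : Fin n → ZMod 2) : h.p2 (vx F v) = vx F (h.r2 v) := by
  rw [p2_apply, r2, vx_add, vx_sum, pS_apply]
  congr 1
  refine Finset.sum_congr rfl fun i _ => ?_
  rw [vx_add, vx_smul, vx_smul, x, x', bb_vx, bb_vx, algebraMap_smul, algebraMap_smul]

end Hyp

end proj

end Pool.Agent.T2H54.Mip2
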