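import Mathlib
import Pool.Agent.T2H54.Mip2.LA5

set_option autoImplicit false
set_option linter.unusedSectionVars false
set_option linter.unusedVariables false

/-! # Linear algebra, part 5b: the free part -/

namespace Pool.Agent.T2H54.Mip2

open Matrix Pool.Agent.R691.Mip

section free
variable {n m : ℕ} {B : Fin m → Matrix (Fin n) (Fin n) (ZMod 2)}
  {F : Type*} [Field F] [CharP F 2] [Algebra (ZMod 2) F]

variable (B F) in
/-- the span of `B^w` -/
def TW (w : Fin m → ZMod 2) : Submodule F (Fin n → F) :=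
  Submodule.span F {y | ∃ v ∈ Bw B F w, y = vx F v}

variable (B F) in
/-- the span of the radicals of `B^w`, `w` free -/
def RF : Submodule F (Fin n → F) :=
  Submodule.span F {y | ∃ w, Free B F w ∧ ∃ v ∈ Bw B F w, v ∈ Cw B F w ∧ y = vx F v}

variable (B F) in
/-- the span of all `B^w`, `w` free -/
def TF : Submodule F (Fin n → F) :=
  Submodule.span F {y | ∃ w, Free B F w ∧ ∃ v ∈ Bw B F w, y = vx F v}

lemma TW_le {w : Fin m → ZMod 2} (hw : Free B F w) : TW B F w ≤ TF B F := by
  rw [TW, Submodule.span_le]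
  rintro _ ⟨v, hv, rfl⟩
  exact Submodule.subset_span ⟨w, hw, v, hv, rfl⟩

lemma RF_le : RF B F ≤ TF B F := by
  rw [RF, Submodule.span_le]
  rintro _ ⟨w, hw, v, hv, -, rfl⟩
  exact Submodule.subset_span ⟨w, hw, v, hv, rfl⟩

/-- bilinear identities on spans -/
lemma span_bil {X : Type*} [AddCommGroup X] [Module F X] {S T : Set (Fin n → F)}
    (Q : (Fin n → F) →ₗ[F] (Fin n → F) →ₗ[F] X) (h : ∀ x ∈ S, ∀ y ∈ T, Q x y = 0)
    {x y : Fin n → F} (hx : x ∈ Submodule.span F S) (hy : y ∈ Submodule.span F T) :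
    Q x y = 0 := by
  have h1 : ∀ x ∈ S, Q x y = 0 := by
    intro x hx
    induction hy using Submodule.span_induction with
    | mem y hy => exact h x hx y hy
    | zero => simp
    | add y z _ _ hy hz => rw [map_add, hy, hz, add_zero]
    | smul c y _ hy => rw [map_smul, hy, smul_zero]
  induction hx using Submodule.span_induction with
  | mem x hx => exact h1 x hx
  | zero => simp
  | add x z _ _ hx hz => rw [map_add, LinearMap.add_apply, hx, hz, add_zero]
  | smul c x _ hx => rw [map_smul, LinearMap.smul_apply, hx, smul_zero]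

/-- T1 -/
lemma RF_TF {r x : Fin n → F} (hr : r ∈ RF B F) (hx : x ∈ TF B F) : beF B F r x = 0 := by
  refine span_bil (beF B F) ?_ hr hx
  rintro _ ⟨w, hw, v, hv, hv', rfl⟩ _ ⟨w', hw', v', hv1, rfl⟩
  rw [beF_vx]
  by_cases hww : w = w'
  · subst hww; rw [hv' v' hv1, vx_zero]
  · rw [Lw_comm (Bw_le w hv) (Bw_le w' hv1) hww, vx_zero]

/-- functionals given by elements of `RF` -/
lemma RF_NN {r : Fin n → F} (hr : r ∈ RF B F) (l : Fin m) :
    (LinearMap.proj l : (Fin m → F) →ₗ[F] F) ∘ₗ beF B F r ∈ NN B F := by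
  induction hr using Submodule.span_induction with
  | mem x hx =>
    obtain ⟨w, hw, v, hv, -, rfl⟩ := hx
    change bb B F l v ∈ NN B F
    by_cases hl : w l = 1
    · exact hv.2 l hl
    · have : bb B F l v = 0 := by
        apply lin_extLA
        intro z
        rw [bb_vx]
        rcases (Bw_le w hv) z with h | h
        · rw [h]; simp
        · rw [h]
          have h0 : w l = 0 := by
            generalize w l = c at hl
            fin_cases c
            · rfl
            · exact absurd rfl hl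
          rw [h0]; simp
      rw [this]; exact zero_mem _
  | zero =>
    have : (LinearMap.proj l : (Fin m → F) →ₗ[F] F) ∘ₗ beF B F 0 = 0 := by
      rw [map_zero, LinearMap.comp_zero]
    rw [this]; exact zero_mem _
  | add x y _ _ hx hy => rw [map_add, LinearMap.comp_add]; exact add_mem hx hy
  | smul c x _ hx => rw [map_smul, LinearMap.comp_smul]; exact Submodule.smul_mem _ _ hx

variable (d : Data B F)

/-- T7 -/
lemma Data.polar (y z : Fin n → F) : beF B F (d.D y) (d.D z) = d.Θ (beF B F y z) := by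
  have h1 := d.D2 (y + z)
  rw [map_add, qF_add, qF_add, map_add, map_add, ← d.D2, ← d.D2] at h1
  exact add_left_cancel h1

lemma Data.D_add (y : Fin n → F) : d.D y + y = ∑ s, d.a s y • vx F s := by
  rw [d.D1, add_right_comm, add_selfLA, zero_add]

/-- T2 -/
lemma Data.D_TW {w : Fin m → ZMod 2} (hw : Free B F w) {y : Fin n → F} (hy : y ∈ TW B F w) :
    d.D y ∈ TW B F w := by
  induction hy using Submodule.span_induction with
  | mem x hx =>
    obtain ⟨v, hv, rfl⟩ := hx
    have h0 : ∀ t ∈ Bw B F w, vx F t ∈ TW B F w := fun t ht =>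
      Submodule.subset_span ⟨t, ht, rfl⟩
    rw [d.D1]
    apply add_mem (h0 v hv)
    apply Submodule.sum_mem
    intro t _
    by_cases ht : t ∈ Bw B F w
    · exact Submodule.smul_mem _ _ (h0 t ht)
    · rw [d.E2' (d.Fr3 hw) ht hv, zero_smul]; exact zero_mem _
  | zero => rw [map_zero]; exact zero_mem _
  | add x y _ _ hx hy => rw [map_add]; exact add_mem hx hy
  | smul c x _ hx => rw [map_smul]; exact Submodule.smul_mem _ _ hx

lemma Data.D_TF {y : Fin n → F} (hy : y ∈ TF B F) : d.D y ∈ TF B F := by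
  induction hy using Submodule.span_induction with
  | mem x hx =>
    obtain ⟨w, hw, v, hv, rfl⟩ := hx
    exact TW_le hw (d.D_TW hw (Submodule.subset_span ⟨v, hv, rfl⟩))
  | zero => rw [map_zero]; exact zero_mem _
  | add x y _ _ hx hy => rw [map_add]; exact add_mem hx hy
  | smul c x _ hx => rw [map_smul]; exact Submodule.smul_mem _ _ hx

lemma TW_comm {w w' : Fin m → ZMod 2} (h : w ≠ w') {x y : Fin n → F} (hx : x ∈ TW B F w)
    (hy : y ∈ TW B F w') : beF B F x y = 0 := by
  refine span_bil (beF B F) ?_ hx hy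
  rintro _ ⟨v, hv, rfl⟩ _ ⟨v', hv', rfl⟩
  rw [beF_vx, Lw_comm (Bw_le w hv) (Bw_le w' hv') h, vx_zero]

/-- T3 -/
lemma Data.D_iso {x y : Fin n → F} (hx : x ∈ TF B F) (hy : y ∈ TF B F) :
    beF B F (d.D x) (d.D y) = beF B F x y := by
  have h := span_bil ((beF B F).compl₁₂ d.D d.D + beF B F) (S := {y | ∃ w, Free B F w ∧
      ∃ v ∈ Bw B F w, y = vx F v}) (T := {y | ∃ w, Free B F w ∧ ∃ v ∈ Bw B F w, y = vx F v}) ?_
      hx hy
  · rw [LinearMap.add_apply, LinearMap.add_apply, LinearMap.compl₁₂_apply] at h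
    have h2 : beF B F (d.D x) (d.D y) = (beF B F (d.D x) (d.D y) + beF B F x y) +
        beF B F x y := by rw [add_assoc, add_selfLA, add_zero]
    rw [h2, h, zero_add]
  · rintro _ ⟨w, hw, v, hv, rfl⟩ _ ⟨w', hw', v', hv', rfl⟩
    rw [LinearMap.add_apply, LinearMap.add_apply, LinearMap.compl₁₂_apply]
    by_cases hww : w = w'
    · subst hww
      rw [d.Fr7 hw hv hv']
      exact add_selfLA _
    · rw [TW_comm hww (d.D_TW hw (Submodule.subset_span ⟨v, hv, rfl⟩))
        (d.D_TW hw' (Submodule.subset_span ⟨v', hv', rfl⟩)),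
        TW_comm hww (Submodule.subset_span ⟨v, hv, rfl⟩)
        (Submodule.subset_span ⟨v', hv', rfl⟩), add_zero]

/-- T4 -/
lemma Data.RF_D {r : Fin n → F} (hr : r ∈ RF B F) (y : Fin n → F) :
    beF B F r (d.D y + y) = 0 := by
  rw [d.D_add, map_sum]
  apply Finset.sum_eq_zero
  intro t _
  rw [map_smul]
  by_cases ht : d.a t = 0
  · rw [ht]; simp
  have htL := d.a_L ht
  have : beF B F r (vx F t) = 0 := by
    induction hr using Submodule.span_induction with
    | mem x hx =>
      obtain ⟨w, hw, v, hv, hv', rfl⟩ := hx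
      rw [beF_vx, d.Fr8 hw hv hv' htL, vx_zero]
    | zero => simp
    | add x z _ _ hx hz => rw [map_add, LinearMap.add_apply, hx, hz, add_zero]
    | smul c x _ hx => rw [map_smul, LinearMap.smul_apply, hx, smul_zero]
  rw [this, smul_zero]

variable {h : Hyp B F} (hM : h.Max)

lemma Hyp.pS_TF (h : Hyp B F) (y : Fin n → F) : h.pS y ∈ TF B F := by
  rw [h.pS_apply]
  apply Submodule.sum_mem
  intro i _
  exact add_mem (Submodule.smul_mem _ _ (Submodule.subset_span ⟨_, h.hF i, _, h.hs i, rfl⟩))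
    (Submodule.smul_mem _ _ (Submodule.subset_span ⟨_, h.hF i, _, h.ht i, rfl⟩))

lemma be_of_vx {v z : Fin n → ZMod 2} (h : beF B F (vx F v) (vx F z) = 0) : be B v z = 0 := by
  rw [beF_vx] at h
  apply vx_injective (F := F)
  rw [h, vx_zero]

/-- `p2` maps `B^w` into its radical -/
lemma Hyp.r2_mem (hM : h.Max) {w : Fin m → ZMod 2} (hw : Free B F w) {v : Fin n → ZMod 2}
    (hv : v ∈ Bw B F w) : h.r2 v ∈ Bw B F w ∧ h.r2 v ∈ Cw B F w := by
  have h1 : h.r2 v ∈ Bw B F w := by
    rw [Hyp.r2]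
    apply add_mem hv
    apply sum_mem
    intro i _
    have hsm : ∀ (c : ZMod 2) (u : Fin n → ZMod 2), u ∈ Bw B F w → c • u ∈ Bw B F w := by
      intro c u hu
      have h2 : c = 0 ∨ c = 1 := by revert c; decide
      rcases h2 with h2 | h2
      · rw [h2, zero_smul]; exact zero_mem _
      · rw [h2, one_smul]; exact hu
    by_cases hww : h.w i = w
    · exact add_mem (hsm _ _ (hww ▸ h.hs i)) (hsm _ _ (hww ▸ h.ht i))
    · rw [Lw_comm (Bw_le _ (h.ht i)) (Bw_le _ hv) hww, Lw_comm (Bw_le _ (h.hs i)) (Bw_le _ hv) hww]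
      simp
  have horth : ∀ u : Fin n → ZMod 2, ∀ i, be B (h.r2 u) (h.s i) = 0 ∧
      be B (h.r2 u) (h.t i) = 0 := by
    intro u i
    constructor
    · apply be_of_vx (F := F)
      rw [← h.p2_vx, ← h.pS_s i, h.orth']
    · apply be_of_vx (F := F)
      rw [← h.p2_vx, ← h.pS_t i, h.orth']
  refine ⟨h1, fun x hx => ?_⟩
  have hx1 : h.r2 x ∈ Bw B F w := by
    rw [Hyp.r2]
    apply add_mem hx
    apply sum_mem
    intro i _
    have hsm : ∀ (c : ZMod 2) (u : Fin n → ZMod 2), u ∈ Bw B F w → c • u ∈ Bw B F w := by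
      intro c u hu
      have h2 : c = 0 ∨ c = 1 := by revert c; decide
      rcases h2 with h2 | h2
      · rw [h2, zero_smul]; exact zero_mem _
      · rw [h2, one_smul]; exact hu
    by_cases hww : h.w i = w
    · exact add_mem (hsm _ _ (hww ▸ h.hs i)) (hsm _ _ (hww ▸ h.ht i))
    · rw [Lw_comm (Bw_le _ (h.ht i)) (Bw_le _ hx) hww, Lw_comm (Bw_le _ (h.hs i)) (Bw_le _ hx) hww]
      simp
  have h2 := hM w hw _ h1 _ hx1 (horth v) (horth x)
  apply be_of_vx (F := F)
  rw [← h.p2_vx, h.be_p2, h.p2_vx, h.p2_vx, beF_vx, h2, vx_zero]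

/-- T6 -/
lemma Hyp.p2_TF (hM : h.Max) {y : Fin n → F} (hy : y ∈ TF B F) : h.p2 y ∈ RF B F := by
  induction hy using Submodule.span_induction with
  | mem x hx =>
    obtain ⟨w, hw, v, hv, rfl⟩ := hx
    obtain ⟨h1, h2⟩ := Hyp.r2_mem hM hw hv
    rw [h.p2_vx]
    exact Submodule.subset_span ⟨w, hw, _, h1, h2, rfl⟩
  | zero => rw [map_zero]; exact zero_mem _
  | add x y _ _ hx hy => rw [map_add]; exact add_mem hx hy
  | smul c x _ hx => rw [map_smul]; exact Submodule.smul_mem _ _ hx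

/-- the block isometry -/
noncomputable def Data.g (h : Hyp B F) : (Fin n → F) →ₗ[F] (Fin n → F) :=
  h.pS ∘ₗ d.D ∘ₗ h.pS + h.p2

lemma Data.g_apply (h : Hyp B F) (y : Fin n → F) : d.g h y = h.pS (d.D (h.pS y)) + h.p2 y := rfl

lemma Data.g_iso (hM : h.Max) (y z : Fin n → F) :
    beF B F (d.g h y) (d.g h z) = beF B F y z := by
  have h1 : beF B F (h.pS (d.D (h.pS y))) (h.pS (d.D (h.pS z))) =
      beF B F (h.pS y) (h.pS z) := by
    rw [← d.D_iso (h.pS_TF y) (h.pS_TF z)]
    have hy := d.D_TF (h.pS_TF y)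
    have hz := d.D_TF (h.pS_TF z)
    have h2 : beF B F (h.p2 (d.D (h.pS y))) (h.p2 (d.D (h.pS z))) = 0 :=
      RF_TF (Hyp.p2_TF hM hy) (RF_le (Hyp.p2_TF hM hz))
    conv_rhs => rw [← h.pS_add_p2 (d.D (h.pS y)), ← h.pS_add_p2 (d.D (h.pS z))]
    simp only [map_add, LinearMap.add_apply]
    rw [h.orth, h.orth', h2, add_zero, add_zero, add_zero]
  rw [d.g_apply, d.g_apply]
  conv_rhs => rw [← h.pS_add_p2 y, ← h.pS_add_p2 z]
  simp only [map_add, LinearMap.add_apply]
  rw [h.orth, h.orth', h.orth, h.orth', h1]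

lemma Data.g_fix (h : Hyp B F) {y : Fin n → F} (h1 : ∀ i, h.x i y = 0) (h2 : ∀ i, h.x' i y = 0) :
    d.g h y = y := by
  have h3 : h.pS y = 0 := by
    rw [h.pS_apply]
    apply Finset.sum_eq_zero
    intro i _
    rw [h1, h2]; simp
  rw [d.g_apply, h3, map_zero, map_zero, zero_add, h.p2_apply, h3, add_zero]

lemma Data.g_block (h : Hyp B F) {w : Fin m → ZMod 2} (hw : Free B F w) {v : Fin n → ZMod 2}
    (hv : v ∈ Bw B F w) (hv' : h.pS (vx F v) = vx F v) : d.g h (vx F v) ∈
    Submodule.span F {y | ∃ j, h.w j = w ∧ (y = vx F (h.s j) ∨ y = vx F (h.t j))} := by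
  have h1 : h.p2 (vx F v) = 0 := by rw [← hv', h.p2_pS]
  rw [d.g_apply, h1, add_zero, hv']
  have h2 := d.D_TW hw (Submodule.subset_span ⟨v, hv, rfl⟩ : vx F v ∈ TW B F w)
  generalize d.D (vx F v) = z at h2 ⊢
  induction h2 using Submodule.span_induction with
  | mem x hx =>
    obtain ⟨u, hu, rfl⟩ := hx
    rw [h.pS_apply]
    apply Submodule.sum_mem
    intro i _
    by_cases hww : h.w i = w
    · exact add_mem (Submodule.smul_mem _ _ (Submodule.subset_span ⟨i, hww, Or.inl rfl⟩))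
        (Submodule.smul_mem _ _ (Submodule.subset_span ⟨i, hww, Or.inr rfl⟩))
    · rw [Hyp.x, Hyp.x', bb_zero (Lw_comm (Bw_le _ (h.ht i)) (Bw_le _ hu) hww),
        bb_zero (Lw_comm (Bw_le _ (h.hs i)) (Bw_le _ hu) hww)]
      simp
  | zero => rw [map_zero]; exact zero_mem _
  | add x y _ _ hx hy => rw [map_add]; exact add_mem hx hy
  | smul c x _ hx => rw [map_smul]; exact Submodule.smul_mem _ _ hx

lemma Data.g_inj (hM : h.Max) : Function.Injective (d.g h) := by
  rw [injective_iff_map_eq_zero]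
  intro y hy
  have h1 : ∀ z, beF B F y z = 0 := by
    intro z
    rw [← d.g_iso hM, hy]; simp
  have h2 : ∀ i, h.x i y = 0 := by
    intro i
    have h3 := h.hx i y
    rw [beF_comm, h1] at h3
    have h4 := congrFun h3 (h.l i)
    rw [Pi.smul_apply, Pi.zero_apply] at h4
    have h5 : vx F (h.w i) (h.l i) = 1 := by simp [vx, h.hl]
    rw [h5, smul_eq_mul, mul_one] at h4
    exact h4.symm
  have h2' : ∀ i, h.x' i y = 0 := by
    intro i
    have h3 := h.hx' i y
    rw [beF_comm, h1] at h3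
    have h4 := congrFun h3 (h.l i)
    rw [Pi.smul_apply, Pi.zero_apply] at h4
    have h5 : vx F (h.w i) (h.l i) = 1 := by simp [vx, h.hl]
    rw [h5, smul_eq_mul, mul_one] at h4
    exact h4.symm
  rw [← d.g_fix h h2 h2', hy]

end free

end Pool.Agent.T2H54.Mip2
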