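import Mathlib
import Pool.Agent.T2H54.Mip2.LA4
import Pool.Agent.T2H54.Mip2.LA5b

set_option autoImplicit false
set_option linter.unusedSectionVars false
set_option linter.unusedVariables false

/-! # Linear algebra, part 7: the non-free part -/

namespace Pool.Agent.T2H54.Mip2

open Matrix Pool.Agent.R691.Mip

section la7
variable {n m : ℕ} {B : Fin m → Matrix (Fin n) (Fin n) (ZMod 2)}
  {F : Type*} [Field F] [CharP F 2] [Algebra (ZMod 2) F] (d : Data B F)

/-- the support of the derivations -/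
def Data.Sup (s : Fin n → ZMod 2) : Prop := ∃ j, d.e j s ≠ 0

/-- non-free values with a non-commuting pair in the support -/
def Data.NF (w : Fin m → ZMod 2) : Prop :=
  w ≠ 0 ∧ ¬ Free B F w ∧ ∃ s ∈ Lw B w, ∃ t ∈ Lw B w, be B s t ≠ 0 ∧ d.Sup s ∧ d.Sup t

lemma Data.Sup_L {s : Fin n → ZMod 2} (hs : d.Sup s) : s ∈ d.L :=
  AddSubgroup.subset_closure hs

lemma Hyp.r2_add (h : Hyp B F) (a b : Fin n → ZMod 2) : h.r2 (a + b) = h.r2 a + h.r2 b := by
  apply vx_injective (F := F)
  rw [vx_add, ← h.p2_vx, ← h.p2_vx, ← h.p2_vx, vx_add, map_add]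

lemma Hyp.r2_zero (h : Hyp B F) : h.r2 0 = 0 := by
  apply vx_injective (F := F)
  rw [← h.p2_vx, vx_zero, map_zero]

lemma Hyp.be_r2 (h : Hyp B F) (a b : Fin n → ZMod 2) :
    be B (h.r2 a) b = be B (h.r2 a) (h.r2 b) := by
  apply vx_injective (F := F)
  rw [← beF_vx, ← beF_vx, ← h.p2_vx, ← h.p2_vx, h.be_p2]

/-- elements commuting with the hyperbolic pairs -/
lemma Hyp.r2_eq (h : Hyp B F) {t : Fin n → ZMod 2}
    (ht : ∀ i, be B (h.s i) t = 0 ∧ be B (h.t i) t = 0) : h.r2 t = t := by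
  rw [Hyp.r2, Finset.sum_eq_zero, add_zero]
  intro i _
  rw [(ht i).1, (ht i).2]
  simp

lemma Hyp.r2_of_not_free (h : Hyp B F) {w : Fin m → ZMod 2} (hF : ¬ Free B F w)
    {t : Fin n → ZMod 2} (ht : t ∈ Lw B w) : h.r2 t = t := by
  apply h.r2_eq
  intro i
  have hne : h.w i ≠ w := by
    intro hw
    exact hF (hw ▸ h.hF i)
  exact ⟨Lw_comm (Bw_le _ (h.hs i)) ht hne, Lw_comm (Bw_le _ (h.ht i)) ht hne⟩

lemma Data.Sup_Bw {w : Fin m → ZMod 2} (hw : Free B F w) {s s' : Fin n → ZMod 2}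
    (hs : s ∈ Lw B w) (hs' : s' ∈ Lw B w) (hss : be B s s' ≠ 0) (he : d.Sup s)
    (he' : d.Sup s') : s ∈ Bw B F w := by
  obtain ⟨j, hj⟩ := he
  obtain ⟨j', hj'⟩ := he'
  by_cases h1 : ∃ v ∈ Bw B F w, be B s v ≠ 0
  · obtain ⟨v, hv, hsv⟩ := h1
    exact d.Fr2 hw hj hv hsv
  by_cases h2 : ∃ v ∈ Bw B F w, be B s' v ≠ 0
  · obtain ⟨v, hv, hsv⟩ := h2
    exact d.Fr2 hw hj (d.Fr2 hw hj' hv hsv) hss
  push Not at h1 h2
  obtain ⟨l, hl⟩ := exists_coordLA hw.1
  obtain ⟨x, hx, y, hy, hxy⟩ := hw.2.1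
  have hp : ¬ Pl B w s s' := by
    intro hp
    apply nR0 hxy
    exact hp x (Bw_le w hx) (by rw [be_comm]; exact h1 x hx) (by rw [be_comm]; exact h2 x hx)
  have ha := d.e_inQ hl hs j
  have h0 := A3 hl hs ha hs' hss hp
  have hA := A2 hl hs ha hs' hss
  have h3 : d.e j s (vx F s') ≠ 0 := by
    intro h2
    apply hj
    apply LinearMap.ext
    intro y
    rw [hA y, h0, h2]; simp
  apply mem_Bw hl hs
  rw [mem_NN]
  refine (ha.smul (d.e j s (vx F s'))⁻¹).congr fun y => ?_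
  rw [hA y, h0]
  field_simp
  ring

variable {h : Hyp B F} (hM : h.Max)

include hM in
/-- (c) -/
lemma Data.c_comm {s : Fin n → ZMod 2} (hs : d.Sup s)
    (hn : ∀ w, d.NF w → s ∈ Lw B w → s ∈ R0 B) {s' : Fin n → ZMod 2} (hs' : d.Sup s') :
    be B (h.r2 s) (h.r2 s') = 0 := by
  rw [← h.be_r2]
  obtain ⟨j, hj⟩ := hs
  by_cases h1 : ∀ i, be B (h.s i) s = 0 ∧ be B (h.t i) s = 0
  · rw [h.r2_eq h1]
    by_contra hne
    obtain ⟨w, hw⟩ := d.e_Lw hj
    obtain ⟨j', hj'⟩ := hs'
    obtain ⟨w', hw'⟩ := d.e_Lw hj'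
    have hww : w = w' := by
      have e1 := Lw_eq hw hne
      have hne' : be B s' s ≠ 0 := by rwa [be_comm]
      have e2 := Lw_eq hw' hne'
      rw [← e1, ← e2, be_comm]
    subst hww
    have hw0 : w ≠ 0 := by
      intro h0
      apply hne
      rw [Lw_eq hw hne, h0]
    by_cases hF : Free B F w
    · have h2 := d.Sup_Bw hF hw hw' hne ⟨j, hj⟩ ⟨j', hj'⟩
      have h3 := Hyp.r2_mem hM hF h2
      rw [h.r2_eq h1] at h3
      exact hne (d.Fr8 hF h2 h3.2 (d.Sup_L ⟨j', hj'⟩))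
    · have h2 : d.NF w := ⟨hw0, hF, s, hw, s', hw', hne, ⟨j, hj⟩, ⟨j', hj'⟩⟩
      exact nR0 hne (hn w h2 hw)
  · push Not at h1
    obtain ⟨i, hi⟩ := h1
    have h2 : s ∈ Bw B F (h.w i) := by
      by_cases h3 : be B (h.s i) s = 0
      · exact d.Fr2 (h.hF i) hj (h.ht i) (by rw [be_comm]; exact hi h3)
      · exact d.Fr2 (h.hF i) hj (h.hs i) (by rwa [be_comm])
    have h3 := Hyp.r2_mem hM (h.hF i) h2
    exact d.Fr8 (h.hF i) h3.1 h3.2 (d.Sup_L hs')

include hM in
lemma Data.c_comm' {s : Fin n → ZMod 2} (hs : d.Sup s)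
    (hn : ∀ w, d.NF w → s ∈ Lw B w → s ∈ R0 B) {t' : Fin n → ZMod 2} (ht' : t' ∈ d.L) :
    be B (h.r2 s) (h.r2 t') = 0 := by
  induction ht' using AddSubgroup.closure_induction with
  | mem s' hs' => exact d.c_comm hM hs hn hs'
  | zero => rw [h.r2_zero]; exact be_zero_right B _
  | add x y _ _ hx hy => rw [h.r2_add, be_add_right, hx, hy, add_zero]
  | neg x _ hx =>
    have : -x = x := by funext i; simp [CharTwo.neg_eq]
    rw [this]; exact hx

include hM in
/-- (d) -/
lemma Data.d_comm {t t' : Fin n → ZMod 2} (ht : t ∈ d.L) (ht' : t' ∈ d.L)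
    (hV : ∀ w, d.NF w → t' ∈ Vw B w) : be B (h.r2 t) (h.r2 t') = 0 := by
  induction ht using AddSubgroup.closure_induction with
  | mem s hs =>
    by_cases hc : ∀ w, d.NF w → s ∈ Lw B w → s ∈ R0 B
    · exact d.c_comm' hM hs hc ht'
    · push Not at hc
      obtain ⟨w, hw, hsw, hs0⟩ := hc
      rw [← h.be_r2, h.r2_of_not_free hw.2.1 hsw, be_comm]
      exact hV w hw s hsw
  | zero => rw [h.r2_zero]; exact be_zero_left B _
  | add x y _ _ hx hy => rw [h.r2_add, be_add_left, hx, hy, add_zero]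
  | neg x _ hx =>
    have : -x = x := by funext i; simp [CharTwo.neg_eq]
    rw [this]; exact hx

open Classical in
/-- the value attached to an element -/
noncomputable def Data.cls (t : Fin n → ZMod 2) : Fin m → ZMod 2 :=
  if hc : ∃ w, d.NF w ∧ t ∈ Lw B w ∧ t ∉ R0 B then hc.choose else 0

lemma Data.cls_spec {t : Fin n → ZMod 2} (ht : d.cls t ≠ 0) :
    d.NF (d.cls t) ∧ t ∈ Lw B (d.cls t) ∧ t ∉ R0 B := by
  unfold Data.cls at ht ⊢
  split_ifs at ht ⊢ with hc
  · exact hc.choose_spec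
  · exact absurd rfl ht

lemma Data.cls_eq {w : Fin m → ZMod 2} (hw : d.NF w) {t : Fin n → ZMod 2} (ht : t ∈ Lw B w)
    (ht0 : t ∉ R0 B) : d.cls t = w := by
  have hc : ∃ w, d.NF w ∧ t ∈ Lw B w ∧ t ∉ R0 B := ⟨w, hw, ht, ht0⟩
  unfold Data.cls
  rw [dif_pos hc]
  by_contra hne
  exact ht0 (Lw_inter hc.choose_spec.2.1 ht hne)

lemma Data.cls_zero {t : Fin n → ZMod 2} (ht : d.cls t = 0) {w : Fin m → ZMod 2}
    (hw : d.NF w) (htw : t ∈ Lw B w) : t ∈ R0 B := by
  by_contra ht0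
  rw [d.cls_eq hw htw ht0] at ht
  exact hw.1 ht

lemma Data.NF_Vw {t : Fin n → ZMod 2} (ha : d.a t ≠ 0) (ht : d.cls t = 0)
    (w : Fin m → ZMod 2) (hw : d.NF w) : t ∈ Vw B w := by
  obtain ⟨hw0, hF, s, hs, s', hs', hss, he, he'⟩ := id hw
  obtain ⟨l, hl⟩ := exists_coordLA hw0
  have hp := d.NF1 hw0 hF hs hs' hss he he'
  rcases d.supp hl hs hs' hss hp ha with h1 | h1
  · have h2 := d.cls_zero ht hw h1
    intro x _
    exact mem_R0.1 h2 x
  · exact h1

include hM in
lemma Data.cross {t t' : Fin n → ZMod 2} (hc : d.cls t ≠ d.cls t' ∨ (d.cls t = 0 ∧ d.cls t' = 0))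
    (z : Fin n → F) : beF B F (d.a t z • h.p2 (vx F t)) (d.a t' z • h.p2 (vx F t')) = 0 := by
  by_cases ha : d.a t = 0
  · rw [ha]; simp
  by_cases ha' : d.a t' = 0
  · rw [ha']; simp
  have key : be B (h.r2 t) (h.r2 t') = 0 := by
    by_cases h2 : d.cls t' = 0
    · exact d.d_comm hM (d.a_L ha) (d.a_L ha') (d.NF_Vw ha' h2)
    by_cases h1 : d.cls t = 0
    · rw [be_comm]
      exact d.d_comm hM (d.a_L ha') (d.a_L ha) (d.NF_Vw ha h1)
    have h3 := d.cls_spec h1
    have h4 := d.cls_spec h2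
    rw [h.r2_of_not_free h3.1.2.1 h3.2.1, h.r2_of_not_free h4.1.2.1 h4.2.1]
    apply Lw_comm h3.2.1 h4.2.1
    rcases hc with hc | hc
    · exact hc
    · exact absurd hc.1 h1
  rw [map_smul, map_smul, LinearMap.smul_apply, h.p2_vx, h.p2_vx, beF_vx, key, vx_zero, smul_zero,
    smul_zero]

lemma Data.g_part (h : Hyp B F) : InQW B (fun z => ∑ t, (d.a t z) ^ 2 • qF B F (h.p2 (vx F t))) := by
  have h1 : InQW B (fun z => ∑ t, (d.a t z) ^ 2 • qF B F (h.pS (vx F t))) := by
    apply InQW.sum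
    intro t _
    by_cases h0 : h.pS (vx F t) = 0
    · rw [h0]
      exact InQW.zero.congr fun y => by rw [qF_zero, smul_zero]
    · apply InQ.vec
      obtain ⟨i, hi⟩ : ∃ i, t ∉ Cw B F (h.w i) := by
        by_contra hcon
        push Not at hcon
        apply h0
        rw [h.pS_apply]
        apply Finset.sum_eq_zero
        intro i _
        have e1 : h.x i (vx F t) = 0 := by
          rw [Hyp.x]; exact bb_zero (by rw [be_comm]; exact hcon i _ (h.ht i))
        have e2 : h.x' i (vx F t) = 0 := by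
          rw [Hyp.x']; exact bb_zero (by rw [be_comm]; exact hcon i _ (h.hs i))
        rw [e1, e2]; simp
      exact d.Fr6 (h.hF i) hi
  have h2 : InQW B (fun z => ∑ t, (d.a t z) ^ 2 • qF B F (vx F t)) := by
    refine ⟨d.K, fun y => ?_⟩
    rw [← d.D3 y]
    refine Finset.sum_congr rfl fun t _ => ?_
    rw [qF_vx]
  refine (h1.add h2).congr fun z => ?_
  rw [← Finset.sum_add_distrib]
  refine Finset.sum_congr rfl fun t _ => ?_
  rw [← smul_add]
  congr 1
  rw [h.qF_split (vx F t), ← add_assoc, add_selfLA, zero_add]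

open Classical in
include hM in
theorem Data.G2' : InQW B (fun z => qF B F (h.p2 (d.D z + z))) := by
  have hX : ∀ z, h.p2 (d.D z + z) = ∑ w : Fin m → ZMod 2,
      ∑ t ∈ Finset.univ.filter (fun t => d.cls t = w), d.a t z • h.p2 (vx F t) := by
    intro z
    rw [Finset.sum_fiberwise, d.D_add, map_sum]
    refine Finset.sum_congr rfl fun t _ => ?_
    rw [map_smul]
  have hq : ∀ z, qF B F (h.p2 (d.D z + z)) = ∑ w : Fin m → ZMod 2,
      qF B F (∑ t ∈ Finset.univ.filter (fun t => d.cls t = w), d.a t z • h.p2 (vx F t)) := by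
    intro z
    rw [hX, qF_sumLA]
    intro w _ w' _ hww
    rw [map_sum (beF B F), LinearMap.sum_apply]
    apply Finset.sum_eq_zero
    intro t ht
    rw [map_sum]
    apply Finset.sum_eq_zero
    intro t' ht'
    rw [Finset.mem_filter] at ht ht'
    apply d.cross hM
    left
    rw [ht.2, ht'.2]
    exact hww
  have hG : ∀ w : Fin m → ZMod 2, InQW B (fun z =>
      qF B F (∑ t ∈ Finset.univ.filter (fun t => d.cls t = w), d.a t z • h.p2 (vx F t)) +
      ∑ t ∈ Finset.univ.filter (fun t => d.cls t = w), (d.a t z) ^ 2 • qF B F (h.p2 (vx F t))) := by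
    intro w
    by_cases hw0 : w = 0
    · subst hw0
      refine InQW.zero.congr fun z => ?_
      rw [qF_sumLA]
      · simp only [qF_smul]
        exact add_selfLA _
      · intro t ht t' ht' _
        rw [Finset.mem_filter] at ht ht'
        exact d.cross hM (Or.inr ⟨ht.2, ht'.2⟩) z
    by_cases hw : d.NF w
    · obtain ⟨-, hF, s, hs, s', hs', hss, he, he'⟩ := id hw
      obtain ⟨l, hl⟩ := exists_coordLA hw0
      have hp := d.NF1 hw0 hF hs hs' hss he he'
      have hfil : Finset.univ.filter (fun t => d.cls t = w) =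
          Finset.univ.filter (fun r => r ∈ Lw B w ∧ r ∉ R0 B) := by
        ext t
        simp only [Finset.mem_filter, Finset.mem_univ, true_and]
        constructor
        · intro ht
          have h1 := d.cls_spec (t := t) (by rw [ht]; exact hw0)
          rw [ht] at h1
          exact h1.2
        · rintro ⟨h1, h2⟩
          exact d.cls_eq hw h1 h2
      refine (Data.plane_q hl hs hs' hss hp d hF he he').congr fun z => ?_
      rw [hfil]
      have hp2 : ∀ t ∈ Finset.univ.filter (fun r => r ∈ Lw B w ∧ r ∉ R0 B),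
          h.p2 (vx F t) = vx F t := by
        intro t ht
        rw [Finset.mem_filter] at ht
        rw [h.p2_vx, h.r2_of_not_free hF ht.2.1]
      congr 1
      · congr 1
        refine Finset.sum_congr rfl fun t ht => ?_
        rw [hp2 t ht]
      · refine Finset.sum_congr rfl fun t ht => ?_
        rw [hp2 t ht, qF_vx]
    · have hemp : Finset.univ.filter (fun t => d.cls t = w) = ∅ := by
        rw [Finset.filter_eq_empty_iff]
        intro t _ ht
        have h1 := d.cls_spec (t := t) (by rw [ht]; exact hw0)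
        rw [ht] at h1
        exact hw h1.1
      rw [hemp]
      refine InQW.zero.congr fun z => ?_
      simp
  refine ((InQW.sum Finset.univ (fun w _ => hG w)).add (d.g_part h)).congr fun z => ?_
  rw [Finset.sum_add_distrib, ← hq, Finset.sum_fiberwise, add_assoc, add_selfLA, add_zero]

end la7

end Pool.Agent.T2H54.Mip2
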