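import Mathlib
import Pool.Agent.T2H54.Mip2.LA5b

set_option autoImplicit false
set_option linter.unusedSectionVars false
set_option linter.unusedVariables false

/-! # Linear algebra, part 6: assembly of the path -/

namespace Pool.Agent.T2H54.Mip2

open Matrix Pool.Agent.R691.Mip

section asm
variable {n m : ℕ} {B : Fin m → Matrix (Fin n) (Fin n) (ZMod 2)}
  {F : Type*} [Field F] [CharP F 2] [Algebra (ZMod 2) F]

/-- sums of elements of `RF` with coefficients in `NN` -/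
lemma InQW_RF {k : ℕ} (c c' : Fin k → (Fin n → F) →ₗ[F] F) (hc : ∀ i, c i ∈ NN B F)
    (hc' : ∀ i, c' i ∈ NN B F) (a b : Fin k → Fin n → F) (ha : ∀ i, a i ∈ RF B F)
    (hb : ∀ i, b i ∈ RF B F) :
    InQW B (fun z => qF B F (∑ i, (c i z • a i + c' i z • b i))) := by
  have h1 : ∀ {x y : Fin n → F}, x ∈ RF B F → y ∈ RF B F → beF B F x y = 0 :=
    fun hx hy => RF_TF hx (RF_le hy)
  have hm : ∀ i z, c i z • a i + c' i z • b i ∈ RF B F := fun i z =>
    add_mem (Submodule.smul_mem _ _ (ha i)) (Submodule.smul_mem _ _ (hb i))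
  have h2 : ∀ z, qF B F (∑ i, (c i z • a i + c' i z • b i)) =
      ∑ i, ((c i z) ^ 2 • qF B F (a i) + (c' i z) ^ 2 • qF B F (b i)) := by
    intro z
    rw [qF_sumLA]
    · refine Finset.sum_congr rfl fun i _ => ?_
      rw [qF_add, qF_smul, qF_smul, map_smul, map_smul, LinearMap.smul_apply, h1 (ha i) (hb i),
        smul_zero, smul_zero, add_zero]
    · intro i _ j _ _
      exact h1 (hm i z) (hm j z)
  refine InQW.congr ?_ h2
  exact InQW.sum _ fun i _ => InQW.add (InQ.vec ((mem_NN _).1 (hc i)) _)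
    (InQ.vec ((mem_NN _).1 (hc' i)) _)

lemma InQW_RF' (h : Hyp B F) (R : (Fin n → F) →ₗ[F] (Fin n → F))
    (hs : ∀ i, R (vx F (h.s i)) ∈ RF B F) (ht : ∀ i, R (vx F (h.t i)) ∈ RF B F)
    (hR : ∀ z, R (h.pS z) = R z) : InQW B (fun z => qF B F (R z)) := by
  refine (InQW_RF h.x h.x' h.x_NN h.x'_NN _ _ hs ht).congr fun z => ?_
  rw [← hR z, h.pS_apply, map_sum]
  congr 1
  refine Finset.sum_congr rfl fun i _ => ?_
  rw [map_add, map_smul, map_smul]

variable (d : Data B F) {h : Hyp B F} (hM : h.Max)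

/-- the inverse of `g` -/
noncomputable def Data.gi (hM : h.Max) : (Fin n → F) →ₗ[F] (Fin n → F) :=
  (LinearEquiv.ofInjectiveEndo (d.g h) (d.g_inj hM)).symm.toLinearMap

lemma Data.g_gi (z : Fin n → F) : d.g h (d.gi hM z) = z := by
  have := (LinearEquiv.ofInjectiveEndo (d.g h) (d.g_inj hM)).apply_symm_apply z
  rwa [LinearEquiv.coe_ofInjectiveEndo] at this

lemma Data.gi_g (z : Fin n → F) : d.gi hM (d.g h z) = z := by
  apply d.g_inj hM
  rw [d.g_gi]

lemma Data.g_p2 (z : Fin n → F) : d.g h (h.p2 z) = h.p2 z :=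
  d.g_fix h (fun i => h.x_p2 i z) (fun i => h.x'_p2 i z)

lemma Data.gi_p2 (z : Fin n → F) : d.gi hM (h.p2 z) = h.p2 z := by
  apply d.g_inj hM
  rw [d.g_gi, d.g_p2]

lemma Data.g_pS (z : Fin n → F) : d.g h (h.pS z) = h.pS (d.g h z) := by
  rw [d.g_apply, d.g_apply, h.p2_pS, h.pS_pS, map_add, h.pS_p2, h.pS_pS]

lemma Data.gi_pS (z : Fin n → F) : d.gi hM (h.pS z) = h.pS (d.gi hM z) := by
  apply d.g_inj hM
  rw [d.g_gi, d.g_pS, d.g_gi]

lemma Data.pS_D_gi (z : Fin n → F) : h.pS (d.D (d.gi hM (h.pS z))) = h.pS z := by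
  have h1 := d.g_gi hM (h.pS z)
  rw [d.gi_pS hM] at h1 ⊢
  rw [d.g_apply, h.pS_pS, h.p2_pS, add_zero] at h1
  exact h1

/-- `ρ` -/
noncomputable def Data.rho : (Fin n → F) →ₗ[F] (Fin n → F) :=
  h.p2 ∘ₗ d.D ∘ₗ d.gi hM ∘ₗ h.pS

lemma Data.rho_apply (z : Fin n → F) : d.rho hM z = h.p2 (d.D (d.gi hM (h.pS z))) := rfl

/-- `κ` -/
noncomputable def Data.kap (h : Hyp B F) : (Fin n → F) →ₗ[F] (Fin n → F) :=
  h.pS ∘ₗ d.D ∘ₗ h.p2

lemma Data.kap_apply (z : Fin n → F) : d.kap h z = h.pS (d.D (h.p2 z)) := rfl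

/-- `δ₂` -/
noncomputable def Data.de (h : Hyp B F) : (Fin n → F) →ₗ[F] (Fin n → F) :=
  h.p2 ∘ₗ d.D ∘ₗ h.p2 + h.p2

lemma Data.de_apply (z : Fin n → F) : d.de h z = h.p2 (d.D (h.p2 z)) + h.p2 z := rfl

lemma Data.de_p2 (z : Fin n → F) : h.p2 (d.de h z) = d.de h z := by
  rw [d.de_apply, map_add, h.p2_p2, h.p2_p2]

lemma Data.de_eq (z : Fin n → F) : d.de h z = h.p2 (d.D (h.p2 z) + h.p2 z) := by
  rw [d.de_apply, map_add, h.p2_p2]

lemma Data.rho_RF (z : Fin n → F) : d.rho hM z ∈ RF B F := by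
  rw [d.rho_apply]
  apply Hyp.p2_TF hM
  apply d.D_TF
  rw [d.gi_pS]
  exact h.pS_TF _

lemma Data.rho_p2 (z : Fin n → F) : h.p2 (d.rho hM z) = d.rho hM z := by
  rw [d.rho_apply, h.p2_p2]

lemma Data.rho_pS (z : Fin n → F) : d.rho hM (h.pS z) = d.rho hM z := by
  rw [d.rho_apply, d.rho_apply, h.pS_pS]

/-- elements of `RF` in the range of `p2` are orthogonal to `δ₂` -/
lemma Data.rf_de {r : Fin n → F} (hr : r ∈ RF B F) (hr2 : h.p2 r = r) (z : Fin n → F) :
    beF B F r (d.de h z) = 0 := by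
  rw [d.de_eq, ← hr2, ← h.be_p2, hr2]
  exact d.RF_D hr _

lemma Data.rf_kap {r : Fin n → F} (hr2 : h.p2 r = r) (z : Fin n → F) :
    beF B F r (d.kap h z) = 0 := by
  rw [d.kap_apply, ← hr2, h.orth']

/-- F6 -/
lemma Data.F6 (z y : Fin n → F) : beF B F (h.pS z) (d.kap h y) = beF B F (d.rho hM z) y := by
  have h1 := d.polar (d.gi hM (h.pS z)) (h.p2 y)
  rw [d.gi_pS, h.orth, map_zero, ← d.gi_pS hM] at h1
  have h2 : d.D (d.gi hM (h.pS z)) = h.pS z + d.rho hM z := by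
    rw [d.rho_apply]
    conv_lhs => rw [← h.pS_add_p2 (d.D (d.gi hM (h.pS z)))]
    rw [d.pS_D_gi]
  have h3 : d.D (h.p2 y) = d.kap h y + (h.p2 y + d.de h y) := by
    rw [d.kap_apply, d.de_apply, ← add_assoc (h.p2 y), add_comm (h.p2 y), add_assoc _ (h.p2 y),
      add_selfLA, add_zero, h.pS_add_p2]
  rw [h2, h3] at h1
  have h4 : beF B F (h.pS z) (d.de h y) = 0 := by
    rw [← d.de_p2, h.orth]
  simp only [map_add, LinearMap.add_apply] at h1
  rw [h.orth, h4, d.rf_kap (d.rho_p2 hM z),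
    d.rf_de (d.rho_RF hM z) (d.rho_p2 hM z)] at h1
  have h5 : beF B F (d.rho hM z) (h.p2 y) = beF B F (d.rho hM z) y := by
    rw [← d.rho_p2 hM z, ← h.be_p2]
  rw [h5] at h1
  simp only [add_zero, zero_add] at h1
  have h6 : beF B F (h.pS z) (d.kap h y) = (beF B F (h.pS z) (d.kap h y) +
      beF B F (d.rho hM z) y) + beF B F (d.rho hM z) y := by
    rw [add_assoc, add_selfLA, add_zero]
  rw [h6, h1, zero_add]

include hM in
lemma Data.x_kap (i : Fin h.k) : h.x i ∘ₗ d.kap h ∈ NN B F := by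
  have : h.x i ∘ₗ d.kap h =
      (LinearMap.proj (h.l i) : (Fin m → F) →ₗ[F] F) ∘ₗ beF B F (d.rho hM (vx F (h.t i))) := by
    apply LinearMap.ext
    intro z
    change h.x i (d.kap h z) = beF B F (d.rho hM (vx F (h.t i))) z (h.l i)
    rw [← d.F6 hM, h.pS_t, h.hx, Pi.smul_apply]
    have h5 : vx F (h.w i) (h.l i) = 1 := by simp [vx, h.hl]
    rw [h5, smul_eq_mul, mul_one]
  rw [this]
  exact RF_NN (d.rho_RF hM _) _

include hM in
lemma Data.x'_kap (i : Fin h.k) : h.x' i ∘ₗ d.kap h ∈ NN B F := by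
  have : h.x' i ∘ₗ d.kap h =
      (LinearMap.proj (h.l i) : (Fin m → F) →ₗ[F] F) ∘ₗ beF B F (d.rho hM (vx F (h.s i))) := by
    apply LinearMap.ext
    intro z
    change h.x' i (d.kap h z) = beF B F (d.rho hM (vx F (h.s i))) z (h.l i)
    rw [← d.F6 hM, h.pS_s, h.hx', Pi.smul_apply]
    have h5 : vx F (h.w i) (h.l i) = 1 := by simp [vx, h.hl]
    rw [h5, smul_eq_mul, mul_one]
  rw [this]
  exact RF_NN (d.rho_RF hM _) _

/-- `μ` -/
noncomputable def Data.mu : (Fin n → F) →ₗ[F] (Fin n → F) :=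
  ∑ i, (h.x' i ∘ₗ d.kap h).smulRight (d.rho hM (vx F (h.t i)))

lemma Data.mu_apply (z : Fin n → F) :
    d.mu hM z = ∑ i, h.x' i (d.kap h z) • d.rho hM (vx F (h.t i)) := by
  rw [Data.mu, LinearMap.sum_apply]; rfl

lemma Data.mu_RF (z : Fin n → F) : d.mu hM z ∈ RF B F := by
  rw [d.mu_apply]
  exact Submodule.sum_mem _ fun i _ => Submodule.smul_mem _ _ (d.rho_RF hM _)

lemma Data.mu_p2 (z : Fin n → F) : h.p2 (d.mu hM z) = d.mu hM z := by
  rw [d.mu_apply, map_sum]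
  refine Finset.sum_congr rfl fun i _ => ?_
  rw [map_smul, d.rho_p2]

/-- G4 -/
lemma Data.G4 : InQW B (fun z => qF B F (d.mu hM z)) := by
  refine (InQW_RF (fun i => h.x' i ∘ₗ d.kap h) (fun i => 0) (fun i => d.x'_kap hM i)
    (fun i => zero_mem _) (fun i => d.rho hM (vx F (h.t i))) (fun i => 0)
    (fun i => d.rho_RF hM _) (fun i => zero_mem _)).congr fun z => ?_
  rw [d.mu_apply]
  congr 1
  refine Finset.sum_congr rfl fun i _ => ?_
  rw [LinearMap.zero_apply, zero_smul, add_zero]; rfl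

/-- G3 -/
lemma Data.G3 : InQW B (fun z => qF B F (d.rho hM z)) :=
  InQW_RF' h (d.rho hM) (fun i => d.rho_RF hM _) (fun i => d.rho_RF hM _)
    (fun z => d.rho_pS hM z)

/-- G5 -/
lemma Data.G5 : InQW B (fun z => beF B F z (d.mu hM z) + qF B F (d.kap h z)) := by
  have h1 : ∀ z, beF B F z (d.mu hM z) =
      ∑ i, (h.x i (d.kap h z) * h.x' i (d.kap h z)) • vx F (h.w i) := by
    intro z
    rw [d.mu_apply, map_sum]
    refine Finset.sum_congr rfl fun i _ => ?_
    rw [map_smul, beF_comm, ← d.F6 hM, h.pS_t, h.hx, smul_smul, mul_comm]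
  have h2 : ∀ z, qF B F (d.kap h z) =
      ∑ i, ((h.x i (d.kap h z)) ^ 2 • qF B F (vx F (h.s i)) +
        (h.x' i (d.kap h z)) ^ 2 • qF B F (vx F (h.t i)) +
        (h.x i (d.kap h z) * h.x' i (d.kap h z)) • vx F (h.w i)) := by
    intro z
    have h3 : d.kap h z = ∑ i, (h.x i (d.kap h z) • vx F (h.s i) +
        h.x' i (d.kap h z) • vx F (h.t i)) := by
      rw [← h.pS_apply, d.kap_apply, h.pS_pS]
    conv_lhs => rw [h3]
    rw [qF_sumLA]
    · refine Finset.sum_congr rfl fun i _ => ?_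
      rw [qF_add, qF_smul, qF_smul, map_smul, map_smul, LinearMap.smul_apply, h.hx', h.x'_t,
        if_pos rfl, one_smul, smul_smul, mul_comm]
    · intro i _ j _ hij
      have e1 : beF B F (vx F (h.s i)) (vx F (h.s j)) = 0 := by rw [beF_vx, h.hss, vx_zero]
      have e2 : beF B F (vx F (h.t i)) (vx F (h.t j)) = 0 := by rw [beF_vx, h.htt, vx_zero]
      have e3 : beF B F (vx F (h.s i)) (vx F (h.t j)) = 0 := by
        rw [beF_vx, h.hst, if_neg hij, vx_zero]
      have e4 : beF B F (vx F (h.t i)) (vx F (h.s j)) = 0 := by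
        rw [beF_vx, be_comm, h.hst, if_neg (Ne.symm hij), vx_zero]
      simp only [map_add, map_smul, LinearMap.add_apply, LinearMap.smul_apply, e1, e2, e3, e4]
      simp
  have h4 : ∀ z, beF B F z (d.mu hM z) + qF B F (d.kap h z) =
      ∑ i, ((h.x i (d.kap h z)) ^ 2 • qF B F (vx F (h.s i)) +
        (h.x' i (d.kap h z)) ^ 2 • qF B F (vx F (h.t i))) := by
    intro z
    rw [h1, h2, Finset.sum_add_distrib (f := fun i => _ + _), add_comm, add_assoc, add_selfLA,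
      add_zero]
  refine InQW.congr ?_ h4
  exact InQW.sum _ fun i _ => InQW.add (InQ.vec ((mem_NN _).1 (d.x_kap hM i)) _)
    (InQ.vec ((mem_NN _).1 (d.x'_kap hM i)) _)

include hM in
/-- G2 from G2' -/
lemma Data.G2 (hG2 : InQW B (fun z => qF B F (h.p2 (d.D z + z)))) :
    InQW B (fun z => qF B F (d.de h z)) := by
  let R : (Fin n → F) →ₗ[F] (Fin n → F) := h.p2 ∘ₗ d.D ∘ₗ h.pS
  have hR : ∀ z, R z = h.p2 (d.D (h.pS z)) := fun z => rfl
  have hRF : ∀ z, R z ∈ RF B F := fun z => Hyp.p2_TF hM (d.D_TF (h.pS_TF z))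
  have h1 : InQW B (fun z => qF B F (R z)) :=
    InQW_RF' h R (fun i => hRF _) (fun i => hRF _) (fun z => by rw [hR, hR, h.pS_pS])
  refine (hG2.add h1).congr fun z => ?_
  have h2 : d.de h z = h.p2 (d.D z + z) + R z := by
    have h3 : d.D (h.p2 z) = d.D z + d.D (h.pS z) := by rw [h.p2_apply, map_add]
    have h4 : h.p2 (h.p2 z) = h.p2 z := h.p2_p2 z
    rw [d.de_apply, hR, h3, map_add, map_add]
    abel
  have h5 : beF B F (h.p2 (d.D z + z)) (R z) = 0 := by
    rw [beF_comm]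
    have h6 : h.p2 (R z) = R z := by rw [hR, h.p2_p2]
    rw [← h6, ← h.be_p2, h6]
    exact d.RF_D (hRF z) z
  rw [h2, qF_add, h5, add_zero]

lemma Data.gi_iso (y z : Fin n → F) : beF B F (d.gi hM y) (d.gi hM z) = beF B F y z := by
  rw [← d.g_iso hM, d.g_gi, d.g_gi]

/-- `q ∘ g⁻¹` -/
lemma Data.qgi : InQW B (fun z => qF B F (d.gi hM z)) := by
  let Φ : (Fin n → F) →+ (Fin m → F) := AddMonoidHom.mk' (fun y => qF B F (d.gi hM y) + qF B F y)
    (by
      intro a b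
      rw [map_add, qF_add, qF_add, d.gi_iso]
      have : ∀ p q r s t : Fin m → F, p + q + r + (s + t + r) = p + s + (q + t) := by
        intro p q r s t
        have := add_selfLA r
        calc p + q + r + (s + t + r) = p + s + (q + t) + (r + r) := by abel
          _ = _ := by rw [this, add_zero]
      exact this _ _ _ _ _)
  have hΦ : ∀ y, Φ y = qF B F (d.gi hM y) + qF B F y := fun y => rfl
  have hΦs : ∀ (c : F) y, Φ (c • y) = c ^ 2 • Φ y := by
    intro c y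
    rw [hΦ, hΦ, map_smul, qF_smul, qF_smul, smul_add]
  have h0 : ∀ z, Φ z = ∑ i, ((h.x i z) ^ 2 • Φ (vx F (h.s i)) +
      (h.x' i z) ^ 2 • Φ (vx F (h.t i))) := by
    intro z
    have h1 : Φ z = Φ (h.pS z) := by
      have h2 : Φ (h.p2 z) = 0 := by rw [hΦ, d.gi_p2, add_selfLA]
      conv_lhs => rw [← h.pS_add_p2 z]
      rw [map_add, h2, add_zero]
    rw [h1, h.pS_apply, map_sum]
    refine Finset.sum_congr rfl fun i _ => ?_
    rw [map_add, hΦs, hΦs]
  have h1 : InQW B (fun z => Φ z) := by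
    refine InQW.congr ?_ h0
    exact InQW.sum _ fun i _ => InQW.add (InQ.vec ((mem_NN _).1 (h.x_NN i)) _)
      (InQ.vec ((mem_NN _).1 (h.x'_NN i)) _)
  refine (h1.add InQW.self).congr fun z => ?_
  rw [hΦ, add_assoc, add_selfLA, add_zero]

lemma Data.Dgi (z : Fin n → F) :
    d.D (d.gi hM z) = (h.pS z + d.kap h z) + (d.rho hM z + (h.p2 z + d.de h z)) := by
  have h1 : d.D (d.gi hM z) = d.D (d.gi hM (h.pS z)) + d.D (h.p2 z) := by
    conv_lhs => rw [← h.pS_add_p2 z]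
    rw [map_add, map_add, d.gi_p2]
  have h2 : d.D (d.gi hM (h.pS z)) = h.pS z + d.rho hM z := by
    rw [d.rho_apply]
    conv_lhs => rw [← h.pS_add_p2 (d.D (d.gi hM (h.pS z)))]
    rw [d.pS_D_gi]
  have h3 : d.D (h.p2 z) = d.kap h z + (h.p2 z + d.de h z) := by
    rw [d.kap_apply, d.de_apply, ← add_assoc (h.p2 z), add_comm (h.p2 z), add_assoc _ (h.p2 z),
      add_selfLA, add_zero, h.pS_add_p2]
  rw [h1, h2, h3]
  abel

include hM in
/-- G1 -/
lemma Data.G1 (hG2 : InQW B (fun z => qF B F (h.p2 (d.D z + z)))) :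
    InQW B (fun z => beF B F z (d.de h z) + qF B F (d.kap h z)) := by
  have hA : InQW B (fun z => qF B F (d.D (d.gi hM z))) := by
    obtain ⟨A, hA⟩ := d.qgi hM
    refine ⟨d.Θ ∘ₗ A, fun z => ?_⟩
    beta_reduce
    rw [d.D2, LinearMap.comp_apply, ← hA]
  have key : ∀ z, beF B F z (d.de h z) + qF B F (d.kap h z) =
      qF B F (d.D (d.gi hM z)) + qF B F z + qF B F (d.rho hM z) + qF B F (d.de h z) := by
    intro z
    rw [d.Dgi hM, qF_add, qF_add, qF_add, qF_add]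
    have e1 : beF B F (h.pS z + d.kap h z) (d.rho hM z + (h.p2 z + d.de h z)) = 0 := by
      have e2 : h.pS z + d.kap h z = h.pS (z + d.D (h.p2 z)) := by rw [map_add, d.kap_apply]
      have e3 : d.rho hM z + (h.p2 z + d.de h z) = h.p2 (d.rho hM z + (z + d.de h z)) := by
        rw [map_add, map_add, d.rho_p2, d.de_p2]
      rw [e2, e3, h.orth]
    have e4 : beF B F (d.rho hM z) (h.p2 z + d.de h z) = beF B F (d.rho hM z) z := by
      rw [map_add, d.rf_de (d.rho_RF hM z) (d.rho_p2 hM z), add_zero]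
      rw [← d.rho_p2 hM z, ← h.be_p2]
    have e5 : beF B F (h.p2 z) (d.de h z) = beF B F z (d.de h z) := by
      rw [beF_comm, beF_comm B F z, ← d.de_p2, ← h.be_p2]
    rw [e1, e4, e5, d.F6 hM, h.qF_split z]
    have := add_selfLA (qF B F (h.pS z))
    have h2 := add_selfLA (qF B F (h.p2 z))
    have h3 := add_selfLA (qF B F (d.rho hM z))
    have h4 := add_selfLA (qF B F (d.de h z))
    have h5 := add_selfLA (beF B F (d.rho hM z) z)
    calc beF B F z (d.de h z) + qF B F (d.kap h z) = beF B F z (d.de h z) + qF B F (d.kap h z) +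
          (qF B F (h.pS z) + qF B F (h.pS z)) + (qF B F (h.p2 z) + qF B F (h.p2 z)) +
          (qF B F (d.rho hM z) + qF B F (d.rho hM z)) + (qF B F (d.de h z) + qF B F (d.de h z)) +
          (beF B F (d.rho hM z) z + beF B F (d.rho hM z) z) := by
            rw [this, h2, h3, h4, h5]; simp
      _ = _ := by abel
  refine InQW.congr ?_ key
  exact ((hA.add InQW.self).add (d.G3 hM)).add (d.G2 hM hG2)

end asm

end Pool.Agent.T2H54.Mip2
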