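import Mathlib
import Pool.Agent.T2H54.Mip2.Defs

set_option autoImplicit false
set_option linter.unusedSectionVars false

/-! # Polynomial paths of automorphisms -/

namespace Pool.Agent.T2H54.Mip2

open Matrix Pool.Agent.R691.Mip Polynomial

variable {n m : ℕ} (B : Fin m → Matrix (Fin n) (Fin n) (ZMod 2))
  {F : Type*} [Field F] [Algebra (ZMod 2) F]

/-- the form over `F[X]` -/
noncomputable def BX (F : Type*) [Field F] [Algebra (ZMod 2) F] :
    Fin m → Matrix (Fin n) (Fin n) F[X] := fun l => (BF B F l).map (Polynomial.C)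

/-- polynomial families of endomorphisms compatible with the quadratic map -/
def PolyAut (Dp : Matrix (Fin n) (Fin n) F[X]) : Prop :=
  ∃ Θp : Matrix (Fin m) (Fin m) F[X], ∀ y : Fin n → F[X],
    bil (BX B F) (Dp *ᵥ y) (Dp *ᵥ y) = Θp *ᵥ bil (BX B F) y y

/-- `g` is joined to `1` by a polynomial path -/
def Pth (g : Matrix (Fin n) (Fin n) F) : Prop :=
  ∃ Dp : Matrix (Fin n) (Fin n) F[X], PolyAut B Dp ∧ Dp.map (eval 1) = g ∧ Dp.map (eval 0) = 1

end Pool.Agent.T2H54.Mip2
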