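import Mathlib
import Pool.Agent.T2H54.Mip2.PathDefs

set_option autoImplicit false
set_option linter.unusedSectionVars false

/-! # The path lemma -/

universe u

namespace Pool.Agent.T2H54.Mip2

open Matrix Pool.Agent.R691.Mip Polynomial

section val
variable {K : Type*} [Field K] [CharP K 2] [Algebra (ZMod 2) K]
  {Γ : Type*} [LinearOrderedCommGroupWithZero Γ] (v : Valuation K Γ)

lemma v_zmod (c : ZMod 2) : v (algebraMap (ZMod 2) K c) ≤ 1 := by
  have h : c = 0 ∨ c = 1 := by revert c; decide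
  rcases h with rfl | rfl <;> simp

lemma p5_bdd {k : ℕ} (E : Matrix (Fin k) (Fin k) K) (hE : ∀ i j, v (E i j) ≤ 1)
    (x : Fin k → K) (hx : frv 2 x = E *ᵥ x) (i : Fin k) : v (x i) ≤ 1 := by
  obtain ⟨i0, _, h0⟩ := Finset.exists_max_image Finset.univ (fun i => v (x i))
    ⟨i, Finset.mem_univ _⟩
  have h1 : v (x i0) ^ 2 ≤ v (x i0) := by
    have h2 := congrFun hx i0
    change x i0 ^ 2 = _ at h2
    rw [← map_pow, h2]
    change v (∑ j, E i0 j * x j) ≤ _
    apply v.map_sum_le
    intro j _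
    rw [map_mul]
    calc v (E i0 j) * v (x j) ≤ 1 * v (x i0) :=
          mul_le_mul' (hE _ _) (h0 j (Finset.mem_univ _))
      _ = _ := one_mul _
  refine (h0 i (Finset.mem_univ _)).trans ?_
  by_contra hcon
  push Not at hcon
  have h3 : v (x i0) ≠ 0 := (zero_lt_one.trans hcon).ne'
  have h4 : v (x i0) * v (x i0) ≤ 1 * v (x i0) := by rw [one_mul, ← pow_two]; exact h1
  have h5 := le_of_mul_le_mul_right h4 (zero_lt_iff.2 h3)
  exact absurd h5 (not_le.2 hcon)

lemma p5_small {k : ℕ} (E : Matrix (Fin k) (Fin k) K)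
    (hE : ∀ i j, v (E i j - (1 : Matrix (Fin k) (Fin k) K) i j) < 1)
    (x : Fin k → K) (hx : frv 2 x = E *ᵥ x) (hs : ∀ i, v (x i) < 1) : x = 0 := by
  by_contra hne
  obtain ⟨i1, hi1⟩ : ∃ i, x i ≠ 0 := by
    by_contra hcon
    push Not at hcon
    exact hne (funext hcon)
  obtain ⟨i0, _, h0⟩ := Finset.exists_max_image Finset.univ (fun i => v (x i))
    ⟨i1, Finset.mem_univ _⟩
  have h3 : v (x i0) ≠ 0 := by
    have h4 : 0 < v (x i1) := zero_lt_iff.2 ((v.ne_zero_iff).2 hi1)
    exact (h4.trans_le (h0 i1 (Finset.mem_univ _))).ne'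
  have h2 := congrFun hx i0
  change x i0 ^ 2 = _ at h2
  have h5 : (E *ᵥ x) i0 = x i0 + ((E - 1) *ᵥ x) i0 := by
    rw [Matrix.sub_mulVec, Matrix.one_mulVec, Pi.sub_apply]; ring
  have h6 : v (((E - 1) *ᵥ x) i0) < v (x i0) := by
    change v (∑ j, (E - 1) i0 j * x j) < _
    apply v.map_sum_lt h3
    intro j _
    rw [map_mul]
    have h7 : v (x j) ≤ v (x i0) := h0 j (Finset.mem_univ _)
    calc v ((E - 1) i0 j) * v (x j) ≤ v ((E - 1) i0 j) * v (x i0) := by gcongr
      _ < 1 * v (x i0) := by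
          apply mul_lt_mul_of_pos_right _ (zero_lt_iff.2 h3)
          rw [Matrix.sub_apply]; exact hE _ _
      _ = _ := one_mul _
  have h8 : v (x i0) ^ 2 = v (x i0) := by
    rw [← map_pow, h2, h5, Valuation.map_add_eq_of_lt_left v h6]
  have h9 : v (x i0) = 1 := by
    have : v (x i0) * v (x i0) = 1 * v (x i0) := by rw [one_mul, ← pow_two]; exact h8
    exact mul_right_cancel₀ h3 this
  exact absurd h9 (hs i0).ne

end val

section bilmap

lemma bil_map {R S : Type*} [CommRing R] [CommRing S] (φ : R →+* S) {n m : ℕ}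
    (B : Fin m → Matrix (Fin n) (Fin n) R) (v w : Fin n → R) :
    bil (fun l => (B l).map φ) (φ ∘ v) (φ ∘ w) = φ ∘ bil B v w := by
  funext l
  simp [bil, dotProduct, mulVec, map_sum]

lemma alt_zero {R : Type*} [CommRing R] {n : ℕ} (P : Matrix (Fin n) (Fin n) R)
    (h1 : ∀ i, P i i = 0) (h2 : ∀ i j, P i j + P j i = 0) (y : Fin n → R) :
    y ⬝ᵥ P *ᵥ y = 0 := by
  have h3 : y ⬝ᵥ P *ᵥ y = ∑ ij : Fin n × Fin n, y ij.1 * (P ij.1 ij.2 * y ij.2) := by
    rw [Fintype.sum_prod_type]
    simp [dotProduct, mulVec, Finset.mul_sum]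
  rw [h3]
  refine Finset.sum_involution (fun ij _ => (ij.2, ij.1)) ?_ ?_ ?_ ?_
  · rintro ⟨i, j⟩ _
    have := h2 i j
    simp only
    linear_combination (y i * y j) * this
  · rintro ⟨i, j⟩ _ hne heq
    simp only [Prod.mk.injEq] at heq
    obtain ⟨h4, -⟩ := heq
    apply hne
    simp only [h4, h1]
    ring
  · intro ij _; exact Finset.mem_univ _
  · rintro ⟨i, j⟩ _; rfl

/-- a polynomial family satisfies its identity after every base change -/
lemma polyAut_map {S R : Type*} [CommRing S] [CommRing R] {n m : ℕ}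
    (B : Fin m → Matrix (Fin n) (Fin n) S) (D : Matrix (Fin n) (Fin n) S)
    (Θ : Matrix (Fin m) (Fin m) S)
    (h : ∀ y : Fin n → S, bil B (D *ᵥ y) (D *ᵥ y) = Θ *ᵥ bil B y y) (φ : S →+* R)
    (y : Fin n → R) :
    bil (fun l => (B l).map φ) (D.map φ *ᵥ y) (D.map φ *ᵥ y) =
      Θ.map φ *ᵥ bil (fun l => (B l).map φ) y y := by
  funext l
  set P : Matrix (Fin n) (Fin n) S := Dᵀ * B l * D - ∑ k, Θ l k • B k with hP
  have hP0 : ∀ y : Fin n → S, y ⬝ᵥ P *ᵥ y = 0 := by
    intro y
    have h1 := congrFun (h y) l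
    rw [hP, Matrix.sub_mulVec, dotProduct_sub, sub_eq_zero]
    have h2 : y ⬝ᵥ (Dᵀ * B l * D) *ᵥ y = bil B (D *ᵥ y) (D *ᵥ y) l := by
      simp only [bil]
      rw [← Matrix.mulVec_mulVec, ← Matrix.mulVec_mulVec, Matrix.dotProduct_mulVec,
        Matrix.vecMul_transpose]
    rw [h2, h1]
    simp only [bil, mulVec, dotProduct, Matrix.sum_apply, Matrix.smul_apply, smul_eq_mul]
    simp only [Finset.mul_sum, Finset.sum_mul]
    rw [Finset.sum_comm]
    refine Finset.sum_congr rfl fun i _ => ?_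
    rw [Finset.sum_comm]
    refine Finset.sum_congr rfl fun j _ => ?_
    refine Finset.sum_congr rfl fun k _ => ?_
    ring
  have hd : ∀ i, P i i = 0 := by
    intro i
    have := hP0 (Pi.single i 1)
    simpa [Matrix.mulVec_single_one] using this
  have ho : ∀ i j, P i j + P j i = 0 := by
    intro i j
    have := hP0 (Pi.single i 1 + Pi.single j 1)
    simp [Matrix.mulVec_add, hd] at this
    linear_combination this
  have h3 := alt_zero (P.map φ) (fun i => by simp [hd]) (fun i j => by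
    rw [Matrix.map_apply, Matrix.map_apply, ← map_add, ho, map_zero]) y
  have h4 : P.map φ = (D.map φ)ᵀ * (B l).map φ * D.map φ - ∑ k, φ (Θ l k) • (B k).map φ := by
    rw [hP]
    ext i j
    simp [Matrix.mul_apply, Matrix.sum_apply, map_sum]
  rw [h4, Matrix.sub_mulVec, dotProduct_sub, sub_eq_zero] at h3
  have h2 : y ⬝ᵥ ((D.map φ)ᵀ * (B l).map φ * D.map φ) *ᵥ y =
      bil (fun l => (B l).map φ) (D.map φ *ᵥ y) (D.map φ *ᵥ y) l := by
    simp only [bil]
    rw [← Matrix.mulVec_mulVec, ← Matrix.mulVec_mulVec, Matrix.dotProduct_mulVec,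
      Matrix.vecMul_transpose]
  rw [← h2, h3]
  simp only [bil, mulVec, dotProduct, Matrix.sum_apply, Matrix.smul_apply, smul_eq_mul]
  simp only [Finset.mul_sum, Finset.sum_mul]
  symm
  rw [Finset.sum_comm]
  refine Finset.sum_congr rfl fun i _ => ?_
  rw [Finset.sum_comm]
  refine Finset.sum_congr rfl fun j _ => ?_
  refine Finset.sum_congr rfl fun k _ => ?_
  simp only [Matrix.map_apply]
  ring

end bilmap

section core
variable {n m : ℕ} {B : Fin m → Matrix (Fin n) (Fin n) (ZMod 2)}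
  {K : Type*} [Field K] [CharP K 2] [Algebra (ZMod 2) K]
  {Γ : Type*} [LinearOrderedCommGroupWithZero Γ] (v : Valuation K Γ)

lemma frv_add2 {k : ℕ} (x y : Fin k → K) : frv 2 (x + y) = frv 2 x + frv 2 y := by
  funext i
  simp only [frv, Pi.add_apply]
  exact CharTwo.add_sq _ _

lemma frv_zero2 {k : ℕ} : frv 2 (0 : Fin k → K) = 0 := by
  funext i
  simp [frv]

lemma frv_smul2 {k : ℕ} (c : ZMod 2) (x : Fin k → K) : frv 2 (c • x) = c • frv 2 x := by
  have h : c = 0 ∨ c = 1 := by revert c; decide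
  rcases h with rfl | rfl
  · rw [zero_smul, zero_smul, frv_zero2]
  · rw [one_smul, one_smul]

lemma frv_sum2 {ι : Type*} (s : Finset ι) {k : ℕ} (x : ι → Fin k → K) :
    frv 2 (∑ i ∈ s, x i) = ∑ i ∈ s, frv 2 (x i) := by
  classical
  induction s using Finset.induction_on with
  | empty => simp [frv_zero2]
  | insert a s ha ih => rw [Finset.sum_insert ha, Finset.sum_insert ha, frv_add2, ih]

lemma v_mulVec_lt {k l : ℕ} (E : Matrix (Fin k) (Fin l) K) (x : Fin l → K)
    (h : ∀ i j, v (E i j * x j) < 1) (i : Fin k) : v ((E *ᵥ x) i) < 1 := by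
  change v (∑ j, E i j * x j) < _
  exact v.map_sum_lt one_ne_zero fun j _ => h i j

lemma v_bil_lt (x y : Fin n → K) (h : ∀ i j, v (x i * y j) < 1) (l : Fin m) :
    v (bil (BF B K) x y l) < 1 := by
  change v (∑ i, x i * ∑ j, BF B K l i j * y j) < _
  apply v.map_sum_lt one_ne_zero
  intro i _
  rw [Finset.mul_sum]
  apply v.map_sum_lt one_ne_zero
  intro j _
  have h1 : x i * (BF B K l i j * y j) = BF B K l i j * (x i * y j) := by ring
  rw [h1, map_mul]
  exact mul_lt_one_of_nonneg_of_lt_one_right (v_zmod v _) zero_le (h i j)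

/-- The valuation theoretic core. -/
theorem core (M : Matrix (Fin n) (Fin n) K) (hM : IsUnit M.det)
    (D : Matrix (Fin n) (Fin n) K) (Θ : Matrix (Fin m) (Fin m) K)
    (hD : ∀ i j, v (D i j - (1 : Matrix (Fin n) (Fin n) K) i j) < 1)
    (hΘ : ∀ i j, v (Θ i j - (1 : Matrix (Fin m) (Fin m) K) i j) < 1)
    (hDM : fr 2 M = D * M)
    (hq : ∀ y, qF B K (D *ᵥ y) = Θ *ᵥ qF B K y) : Iso2 B M := by
  classical
  have hone : ∀ {k : ℕ} (i j : Fin k), v ((1 : Matrix (Fin k) (Fin k) K) i j) ≤ 1 := by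
    intro k i j
    by_cases h : i = j
    · subst h
      rw [Matrix.one_apply_eq, map_one]
    · rw [Matrix.one_apply_ne h, map_zero]
      exact zero_le
  have hD1 : ∀ i j, v (D i j) ≤ 1 := by
    intro i j
    have h1 : D i j = (D i j - (1 : Matrix (Fin n) (Fin n) K) i j) +
      (1 : Matrix (Fin n) (Fin n) K) i j := by ring
    rw [h1]
    exact (v.map_add _ _).trans (max_le (hD i j).le (hone i j))
  have hMv : ∀ y : Fin n → K, frv 2 (M *ᵥ y) = D *ᵥ (M *ᵥ frv 2 y) := by
    intro y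
    rw [frv_mulVec, Matrix.mulVec_mulVec, ← hDM]
  have hMz : ∀ z : Fin n → ZMod 2, frv 2 (M *ᵥ vx K z) = D *ᵥ (M *ᵥ vx K z) := by
    intro z
    rw [hMv, frv_vx]
  -- entries of `M`
  have hcol : ∀ j, frv 2 (fun i => M i j) = D *ᵥ (fun i => M i j) := by
    intro j
    funext i
    exact congrFun (congrFun hDM i) j
  have hM1 : ∀ i j, v (M i j) ≤ 1 := fun i j => p5_bdd v D hD1 (fun i => M i j) (hcol j) i
  have hN : ∀ i j, ∃ z : ZMod 2, v (M i j - algebraMap (ZMod 2) K z) < 1 := by
    intro i j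
    have h1 : M i j * (M i j - 1) = ((D - 1) *ᵥ (fun i => M i j)) i := by
      have h2 := congrFun (hcol j) i
      change M i j ^ 2 = _ at h2
      rw [Matrix.sub_mulVec, Matrix.one_mulVec, Pi.sub_apply, ← h2]
      ring
    have h2 : v (M i j * (M i j - 1)) < 1 := by
      rw [h1]
      apply v_mulVec_lt v
      intro i k
      rw [map_mul]
      refine mul_lt_one_of_nonneg_of_lt_one_left zero_le ?_ (hM1 k j)
      exact hD i k
    rw [map_mul] at h2
    by_cases h3 : v (M i j) < 1
    · exact ⟨0, by simpa using h3⟩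
    · refine ⟨1, ?_⟩
      rw [map_one]
      by_contra h4
      push Not at h3 h4
      exact absurd h2 (not_lt.2 (one_le_mul h3 h4))
  choose N hN using hN
  have hMN : ∀ (z : Fin n → ZMod 2) i,
      v ((M *ᵥ vx K z) i - vx K ((Matrix.of N) *ᵥ z) i) < 1 := by
    intro z i
    have h1 : (M *ᵥ vx K z) i - vx K ((Matrix.of N) *ᵥ z) i =
        ((M - ex 2 K (Matrix.of N)) *ᵥ vx K z) i := by
      rw [Matrix.sub_mulVec, Pi.sub_apply]
      congr 1
      simp [vx, mulVec, dotProduct]
    rw [h1]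
    apply v_mulVec_lt v
    intro i j
    rw [map_mul]
    exact mul_lt_one_of_nonneg_of_lt_one_left zero_le (hN i j) (v_zmod v _)
  have hMz1 : ∀ (z : Fin n → ZMod 2) i, v ((M *ᵥ vx K z) i) ≤ 1 := by
    intro z i
    exact p5_bdd v D hD1 _ (hMz z) i
  -- `N` is invertible
  have hinj : Function.Injective ((Matrix.of N).mulVecLin) := by
    rw [injective_iff_map_eq_zero]
    intro z hz
    have hz' : (Matrix.of N) *ᵥ z = 0 := hz
    have h1 : M *ᵥ vx K z = 0 := by
      apply p5_small v D hD _ (hMz z)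
      intro i
      have := hMN z i
      rw [hz', vx_zero] at this
      simpa using this
    have h2 : vx K z = 0 := by
      have := congrArg (fun y => M⁻¹ *ᵥ y) h1
      simpa [Matrix.mulVec_mulVec, Matrix.nonsing_inv_mul M hM] using this
    apply vx_injective (F := K)
    rw [h2, vx_zero]
  have hbij : Function.Bijective ((Matrix.of N).mulVecLin) :=
    Finite.injective_iff_bijective.1 hinj
  let e : (Fin n → ZMod 2) ≃ₗ[ZMod 2] (Fin n → ZMod 2) := LinearEquiv.ofBijective _ hbij
  have he : ∀ z, e z = (Matrix.of N) *ᵥ z := fun z => rfl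
  refine ⟨e.symm.toAddEquiv, fun c hc => ?_⟩
  -- the vector is small and satisfies the Frobenius equation
  apply p5_small v Θ hΘ
  · rw [frv_sum2, Matrix.mulVec_sum]
    refine Finset.sum_congr rfl fun z _ => ?_
    rw [frv_smul2, Matrix.mulVec_smul]
    congr 1
    change frv 2 (bil (BF B K) _ _) = _
    rw [← hq]
    rw [frv_bil (p := 2) (B := B), hMz]
    rfl
  · intro l
    have h1 : (∑ z, c z • qF B K (M *ᵥ vx K (e.symm.toAddEquiv z))) =
        ∑ z, c z • (qF B K (M *ᵥ vx K (e.symm.toAddEquiv z)) - vx K (bil B z z)) := by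
      simp only [smul_sub, Finset.sum_sub_distrib]
      have h2 : ∑ z, c z • vx K (bil B z z) = 0 := by
        have h3 : vx K (∑ z, c z • bil B z z) = ∑ z, c z • vx K (bil B z z) := by
          funext l
          simp [vx, Finset.sum_apply, Algebra.smul_def]
        rw [← h3, hc, vx_zero]
      rw [h2, sub_zero]
    rw [h1, Finset.sum_apply]
    apply v.map_sum_lt one_ne_zero
    intro z _
    rw [Pi.smul_apply, Algebra.smul_def, map_mul]
    refine mul_lt_one_of_nonneg_of_lt_one_right (v_zmod v _) zero_le ?_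
    set z' := e.symm z with hz'
    have hzz : z = (Matrix.of N) *ᵥ z' := by rw [← he, hz', LinearEquiv.apply_symm_apply]
    change v ((bil (BF B K) (M *ᵥ vx K z') (M *ᵥ vx K z') - vx K (bil B z z)) l) < 1
    rw [← bil_vx, hzz]
    have h4 : bil (BF B K) (M *ᵥ vx K z') (M *ᵥ vx K z') -
        bil (BF B K) (vx K ((Matrix.of N) *ᵥ z')) (vx K ((Matrix.of N) *ᵥ z')) =
        bil (BF B K) (M *ᵥ vx K z' - vx K ((Matrix.of N) *ᵥ z')) (M *ᵥ vx K z') +
        bil (BF B K) (vx K ((Matrix.of N) *ᵥ z')) (M *ᵥ vx K z' - vx K ((Matrix.of N) *ᵥ z')) := by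
      simp only [sub_eq_add_neg, bil_add_left, bil_add_right, bil_neg_left, bil_neg_right]
      abel
    rw [h4, Pi.add_apply]
    apply v.map_add_lt
    · apply v_bil_lt
      intro i j
      rw [map_mul]
      exact mul_lt_one_of_nonneg_of_lt_one_left zero_le (hMN z' i) (hMz1 z' j)
    · apply v_bil_lt
      intro i j
      rw [map_mul]
      exact mul_lt_one_of_nonneg_of_lt_one_right (v_zmod v _) zero_le (hMN z' j)

end core

section series
variable {n : ℕ} {F : Type*} [Field F] [CharP F 2]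

/-- the coefficients of the solution -/
noncomputable def yy (gi : Matrix (Fin n) (Fin n) F) (Dc : ℕ → Matrix (Fin n) (Fin n) F)
    (M : Matrix (Fin n) (Fin n) F) : ℕ → Matrix (Fin n) (Fin n) F
  | 0 => M
  | (k + 1) => gi * ((if Even (k + 1) then fr 2 (yy gi Dc M ((k + 1) / 2)) else 0) -
      ∑ j : Fin (k + 1), Dc (k + 1 - j) * yy gi Dc M j)
termination_by k => k
decreasing_by
  · omega
  · exact j.2

lemma coeff_sq (f : PowerSeries F) (k : ℕ) :
    PowerSeries.coeff k (f ^ 2) = if Even k then (PowerSeries.coeff (k / 2) f) ^ 2 else 0 := by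
  rw [pow_two, PowerSeries.coeff_mul]
  by_cases hk : Even k
  · obtain ⟨r, rfl⟩ := hk
    rw [if_pos ⟨r, rfl⟩]
    have hmem : (r, r) ∈ Finset.HasAntidiagonal.antidiagonal (r + r) := by simp
    rw [← Finset.add_sum_erase _ _ hmem]
    have h0 : ∑ x ∈ (Finset.HasAntidiagonal.antidiagonal (r + r)).erase (r, r),
        PowerSeries.coeff x.1 f * PowerSeries.coeff x.2 f = 0 := by
      refine Finset.sum_involution (fun x _ => (x.2, x.1)) ?_ ?_ ?_ ?_
      · rintro ⟨a, b⟩ _
        simp only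
        rw [mul_comm (PowerSeries.coeff b f)]
        exact CharTwo.add_self_eq_zero _
      · rintro ⟨a, b⟩ hab _ heq
        simp only [Finset.mem_erase, Finset.HasAntidiagonal.mem_antidiagonal, ne_eq, Prod.mk.injEq] at hab heq
        apply hab.1
        omega
      · rintro ⟨a, b⟩ hab
        simp only [Finset.mem_erase, Finset.HasAntidiagonal.mem_antidiagonal, ne_eq, Prod.mk.injEq] at hab ⊢
        omega
      · rintro ⟨a, b⟩ _; rfl
    rw [h0, add_zero]
    have h2 : (r + r) / 2 = r := by omega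
    rw [h2, pow_two]
  · rw [if_neg hk]
    refine Finset.sum_involution (fun x _ => (x.2, x.1)) ?_ ?_ ?_ ?_
    · rintro ⟨a, b⟩ _
      simp only
      rw [mul_comm (PowerSeries.coeff b f)]
      exact CharTwo.add_self_eq_zero _
    · rintro ⟨a, b⟩ hab _ heq
      simp only [Finset.HasAntidiagonal.mem_antidiagonal, Prod.mk.injEq] at hab heq
      exact hk ⟨a, by omega⟩
    · rintro ⟨a, b⟩ hab
      simp only [Finset.HasAntidiagonal.mem_antidiagonal] at hab ⊢
      omega
    · rintro ⟨a, b⟩ _; rfl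

/-- solution of `fr y = D y` in power series with given constant term -/
theorem exists_series (D : Matrix (Fin n) (Fin n) (PowerSeries F))
    (g M : Matrix (Fin n) (Fin n) F) (hg : IsUnit g.det)
    (hD : D.map (PowerSeries.constantCoeff (R := F)) = g) (hgM : fr 2 M = g * M) :
    ∃ Y : Matrix (Fin n) (Fin n) (PowerSeries F),
      Y.map (PowerSeries.constantCoeff (R := F)) = M ∧ Y.map (fun a => a ^ 2) = D * Y := by
  set Dc : ℕ → Matrix (Fin n) (Fin n) F := fun k => D.map (PowerSeries.coeff k) with hDc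
  have hDc0 : Dc 0 = g := by
    rw [← hD]
    ext i j
    simp [hDc]
  set y := yy g⁻¹ Dc M with hy
  have hy0 : y 0 = M := by rw [hy, yy]
  have hyk : ∀ k, g * y (k + 1) + ∑ j : Fin (k + 1), Dc (k + 1 - j) * y j =
      if Even (k + 1) then fr 2 (y ((k + 1) / 2)) else 0 := by
    intro k
    have h1 : y (k + 1) = g⁻¹ * ((if Even (k + 1) then fr 2 (y ((k + 1) / 2)) else 0) -
        ∑ j : Fin (k + 1), Dc (k + 1 - j) * y j) := by
      rw [hy, yy]
    rw [h1, ← mul_assoc, Matrix.mul_nonsing_inv g hg, one_mul, sub_add_cancel]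
  have hall : ∀ k, ∑ x ∈ Finset.HasAntidiagonal.antidiagonal k, Dc x.1 * y x.2 =
      if Even k then fr 2 (y (k / 2)) else 0 := by
    intro k
    rcases k with _ | k
    · simp [hDc0, hy0, hgM]
    · rw [← hyk]
      calc ∑ x ∈ Finset.HasAntidiagonal.antidiagonal (k + 1), Dc x.1 * y x.2
          = ∑ x ∈ Finset.HasAntidiagonal.antidiagonal (k + 1), Dc x.2 * y x.1 := by
            rw [← Finset.Nat.sum_antidiagonal_swap]
            rfl
        _ = ∑ j ∈ Finset.range (k + 2), Dc (k + 1 - j) * y j :=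
            Finset.Nat.sum_antidiagonal_eq_sum_range_succ (fun i j => Dc j * y i) (k + 1)
        _ = _ := by
            rw [Finset.sum_range_succ, Nat.sub_self, hDc0, add_comm, Finset.sum_range]
  refine ⟨Matrix.of fun i j => PowerSeries.mk fun k => y k i j, ?_, ?_⟩
  · ext i j
    simp [hy0]
  · ext i j k
    rw [Matrix.map_apply, coeff_sq, Matrix.mul_apply, map_sum]
    simp only [PowerSeries.coeff_mul, Matrix.of_apply, PowerSeries.coeff_mk]
    rw [Finset.sum_comm]
    have h1 := congrFun (congrFun (hall k) i) j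
    rw [Matrix.sum_apply] at h1
    simp only [Matrix.mul_apply, hDc, Matrix.map_apply] at h1
    rw [h1]
    split_ifs <;> simp

end series

section final
variable {n m : ℕ} {B : Fin m → Matrix (Fin n) (Fin n) (ZMod 2)}

/-- the sums in the conclusion, over any ring -/
def QS {S : Type*} [CommRing S] (B : Fin m → Matrix (Fin n) (Fin n) (ZMod 2)) (j : ZMod 2 →+* S)
    (Y : Matrix (Fin n) (Fin n) S) (c : (Fin n → ZMod 2) → ZMod 2)
    (w : (Fin n → ZMod 2) → (Fin n → ZMod 2)) : Fin m → S :=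
  ∑ z, j (c z) • bil (fun l => (B l).map j) (Y *ᵥ (j ∘ w z)) (Y *ᵥ (j ∘ w z))

lemma QS_map {S S' : Type*} [CommRing S] [CommRing S'] (j : ZMod 2 →+* S) (θ : S →+* S')
    (Y : Matrix (Fin n) (Fin n) S) (c : (Fin n → ZMod 2) → ZMod 2)
    (w : (Fin n → ZMod 2) → (Fin n → ZMod 2)) :
    θ ∘ QS B j Y c w = QS B (θ.comp j) (Y.map θ) c w := by
  funext l
  simp only [QS, Function.comp_apply, Finset.sum_apply, map_sum, Pi.smul_apply, smul_eq_mul,
    map_mul, RingHom.comp_apply]
  refine Finset.sum_congr rfl fun z _ => ?_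
  congr 1
  have h1 : Y.map θ *ᵥ ((θ.comp j) ∘ w z) = θ ∘ (Y *ᵥ (j ∘ w z)) := by
    funext i
    simp [mulVec, dotProduct, map_sum]
  have h2 := congrFun (bil_map θ (fun l => (B l).map j) (Y *ᵥ (j ∘ w z)) (Y *ᵥ (j ∘ w z))) l
  simp only [Function.comp_apply] at h2
  rw [← h2, h1]
  rfl

lemma QS_F {S : Type*} [Field S] [Algebra (ZMod 2) S] (j : ZMod 2 →+* S)
    (Y : Matrix (Fin n) (Fin n) S) (c : (Fin n → ZMod 2) → ZMod 2)
    (w : (Fin n → ZMod 2) → (Fin n → ZMod 2)) :
    QS B j Y c w = ∑ z, c z • qF B S (Y *ᵥ vx S (w z)) := by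
  have hj : j = algebraMap (ZMod 2) S := Subsingleton.elim _ _
  subst hj
  funext l
  simp only [QS, Finset.sum_apply, Algebra.smul_def]
  rfl

lemma nd_F (hnd : Nd B) {F : Type*} [Field F] [Algebra (ZMod 2) F] (c : Fin m → F)
    (h : ∀ v, c ⬝ᵥ vx F (bil B v v) = 0) : c = 0 := by
  funext l
  rw [Pi.zero_apply, ← Module.forall_dual_apply_eq_zero_iff (ZMod 2)]
  intro τ
  have h1 : (fun l => τ (c l)) = (0 : Fin m → ZMod 2) := by
    apply hnd
    intro v
    have h2 := congrArg τ (h v)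
    rw [map_zero] at h2
    rw [← h2]
    simp only [dotProduct, map_sum]
    refine Finset.sum_congr rfl fun i _ => ?_
    change τ (c i) * bil B v v i = τ (c i * algebraMap (ZMod 2) F (bil B v v i))
    rw [mul_comm (c i), ← Algebra.smul_def, map_smul, smul_eq_mul, mul_comm]
  exact congrFun h1 l

lemma theta_zero (hnd : Nd B) {F : Type*} [Field F] [Algebra (ZMod 2) F]
    (Θ : Matrix (Fin m) (Fin m) F) (h : ∀ y, qF B F y = Θ *ᵥ qF B F y) : Θ = 1 := by
  have h1 : Θ - 1 = 0 := by
    ext i j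
    have h2 : (Θ - 1) i = 0 := by
      apply nd_F hnd
      intro v
      have h3 := h (vx F v)
      rw [qF_vx] at h3
      have h4 := congrFun h3 i
      change ((Θ - 1) *ᵥ vx F (bil B v v)) i = 0
      rw [Matrix.sub_mulVec, Matrix.one_mulVec, Pi.sub_apply, ← h4, sub_self]
    exact congrFun h2 j
  exact sub_eq_zero.1 h1

/-- `X ↦ 1 + T` -/
noncomputable def ph (F : Type*) [Field F] : F[X] →+* PowerSeries F :=
  (Polynomial.coeToPowerSeries.ringHom).comp (Polynomial.compRingHom (X + C 1))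

lemma ph_apply {F : Type*} [Field F] (p : F[X]) : ph F p = ((p.comp (X + C 1) : F[X]) : PowerSeries F) :=
  rfl

lemma ph_inj (F : Type*) [Field F] : Function.Injective (ph F) := by
  intro p q h
  rw [ph_apply, ph_apply] at h
  have h1 := Polynomial.coe_injective _ h
  exact Polynomial.taylor_injective (1 : F) h1

lemma ph_const {F : Type*} [Field F] (p : F[X]) :
    PowerSeries.constantCoeff (R := F) (ph F p) = eval 1 p := by
  rw [ph_apply, ← PowerSeries.coeff_zero_eq_constantCoeff_apply, Polynomial.coeff_coe,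
    Polynomial.coeff_zero_eq_eval_zero, eval_comp]
  simp

lemma exists_val {F K : Type*} [Field F] [Field K] (φ : F[X] →+* K) (hφ : Function.Injective φ) :
    ∃ O : ValuationSubring K, (∀ p, O.valuation (φ p) ≤ 1) ∧
      ∀ p : F[X], eval 0 p = 0 → O.valuation (φ p) < 1 := by
  set x : φ.range := ⟨φ X, X, rfl⟩ with hx
  have hI : Ideal.span {x} ≠ ⊤ := by
    intro h
    rw [Ideal.eq_top_iff_one, Ideal.mem_span_singleton'] at h
    obtain ⟨⟨_, p, rfl⟩, hp⟩ := h
    have h1 := congrArg Subtype.val hp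
    change φ p * φ X = 1 at h1
    rw [← map_mul, ← map_one φ] at h1
    have h2 := congrArg (eval 0) (hφ h1)
    simp at h2
  obtain ⟨O, hO1, hO2⟩ := Ideal.image_subset_nonunits_valuationSubring _ hI
  have h1 : ∀ p, O.valuation (φ p) ≤ 1 := by
    intro p
    have : φ p ∈ O := hO1 ⟨p, rfl⟩
    exact O.valuation_le_one ⟨_, this⟩
  refine ⟨O, h1, fun p hp => ?_⟩
  have h2 : O.valuation (φ X) < 1 := by
    rw [← ValuationSubring.mem_nonunits_iff]
    apply hO2
    exact ⟨x, Ideal.subset_span rfl, rfl⟩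
  have h3 : p.coeff 0 = 0 := by rwa [Polynomial.coeff_zero_eq_eval_zero]
  obtain ⟨q, rfl⟩ := Polynomial.X_dvd_iff.2 h3
  rw [map_mul, map_mul]
  exact mul_lt_one_of_nonneg_of_lt_one_left zero_le h2 (h1 q)

/-- the path lemma -/
theorem P5 {F : Type u} [Field F] [CharP F 2] [Algebra (ZMod 2) F]
    (hnd : Nd B) (M : Matrix (Fin n) (Fin n) F) (hM : IsUnit M.det)
    (g : Matrix (Fin n) (Fin n) F) (hg : Pth B g) (hgM : fr 2 M = g * M) : Iso2 B M := by
  classical
  obtain ⟨Dp, ⟨Θp, hΘp⟩, hD1, hD0⟩ := hg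
  have hΘ0 : Θp.map (eval 0) = 1 := by
    apply theta_zero hnd
    intro y
    have h1 := polyAut_map (BX B F) Dp Θp hΘp (evalRingHom (0 : F)) y
    have h2 : (fun l => (BX B F l).map (evalRingHom (0 : F))) = BF B F := by
      funext l
      ext i j
      simp [BX]
    have h3 : Dp.map (evalRingHom (0 : F)) = 1 := hD0
    rw [h2, h3, Matrix.one_mulVec] at h1
    exact h1
  have hgdet : IsUnit g.det := by
    rw [isUnit_iff_ne_zero]
    intro h0
    have h1 : (fr 2 M).det = M.det ^ 2 := by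
      have := RingHom.map_det (frobenius F 2) M
      rw [frobenius_def] at this
      rw [this]
      rfl
    rw [hgM, Matrix.det_mul, h0, zero_mul] at h1
    exact hM.ne_zero (pow_eq_zero_iff (two_ne_zero)|>.1 h1.symm)
  obtain ⟨Y, hY0, hY⟩ := exists_series (Dp.map (ph F)) g M hgdet (by
    ext i j
    rw [Matrix.map_apply, Matrix.map_apply, ph_const, ← hD1]
    rfl) hgM
  let K := FractionRing (PowerSeries F)
  let ι : PowerSeries F →+* K := algebraMap _ _
  have hι : Function.Injective ι := IsFractionRing.injective _ _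
  have hC : CharP K 2 := by
    have h1 : Function.Injective (ι.comp (PowerSeries.C (R := F))) := RingHom.injective _
    exact charP_of_injective_ringHom h1 2
  let algK : Algebra (ZMod 2) K := ZMod.algebra K 2
  set φ : F[X] →+* K := ι.comp (ph F) with hφ
  obtain ⟨O, hO1, hO2⟩ := exists_val φ (hι.comp (ph_inj F))
  have hB : (fun l => (BX B F l).map φ) = BF B K := by
    funext l
    ext i j
    simp only [BX, BF, Matrix.map_apply, ex_apply]
    exact RingHom.congr_fun (Subsingleton.elim ((φ.comp C).comp (algebraMap (ZMod 2) F))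
      (algebraMap (ZMod 2) K)) (B l i j)
  have hsm : ∀ {k : ℕ} (E : Matrix (Fin k) (Fin k) F[X]), E.map (eval 0) = 1 →
      ∀ i j, O.valuation ((E.map φ) i j - (1 : Matrix (Fin k) (Fin k) K) i j) < 1 := by
    intro k E hE i j
    have h1 : (E.map φ) i j - (1 : Matrix (Fin k) (Fin k) K) i j =
        φ (E i j - C ((1 : Matrix (Fin k) (Fin k) F) i j)) := by
      rw [map_sub, Matrix.map_apply]
      congr 1
      by_cases h : i = j
      · subst h; simp
      · simp [Matrix.one_apply_ne h]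
    rw [h1]
    apply hO2
    rw [eval_sub, eval_C, ← hE, Matrix.map_apply, sub_self]
  have hcore : Iso2 B (Y.map ι) := by
    refine core O.valuation (Y.map ι) ?_ (Dp.map φ) (Θp.map φ) (hsm Dp hD0) (hsm Θp hΘ0) ?_ ?_
    · rw [isUnit_iff_ne_zero]
      have h1 : (Y.map ι).det = ι Y.det := (RingHom.map_det ι Y).symm
      rw [h1]
      intro h2
      have h3 : Y.det = 0 := hι (by rw [h2, map_zero])
      have h4 := RingHom.map_det (PowerSeries.constantCoeff (R := F)) Y
      have h5 : (PowerSeries.constantCoeff (R := F)).mapMatrix Y = M := hY0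
      rw [h5, h3, map_zero] at h4
      exact hM.ne_zero h4.symm
    · ext i j
      have h1 := congrArg ι (congrFun (congrFun hY i) j)
      rw [Matrix.map_apply, map_pow] at h1
      rw [fr_apply, Matrix.map_apply, h1, Matrix.mul_apply, Matrix.mul_apply, map_sum]
      refine Finset.sum_congr rfl fun k _ => ?_
      rw [map_mul]
      rfl
    · intro y
      have h1 := polyAut_map (BX B F) Dp Θp hΘp φ y
      rw [hB] at h1
      exact h1
  obtain ⟨ψ, hψ⟩ := hcore
  refine ⟨ψ, fun c hc => ?_⟩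
  let j : ZMod 2 →+* PowerSeries F := (PowerSeries.C (R := F)).comp (algebraMap (ZMod 2) F)
  have h1 := hψ c hc
  rw [← QS_F (ι.comp j), ← QS_map j ι] at h1
  have h2 : QS B j Y c ψ = 0 := by
    funext l
    apply hι
    have := congrFun h1 l
    rw [Pi.zero_apply, map_zero]
    exact this
  have h3 := QS_map (B := B) j (PowerSeries.constantCoeff (R := F)) Y c ψ
  rw [h2, QS_F, hY0] at h3
  rw [← h3]
  funext l
  simp

end final

end Pool.Agent.T2H54.Mip2
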