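import Mathlib
import Pool.Agent.T2H54.Mip2.Defs

set_option autoImplicit false
set_option linter.unusedSectionVars false

/-! # Symplectic bases over the prime field, and quadratic extension of identities -/

namespace Pool.Agent.T2H54.Mip2.H94

open Matrix Pool.Agent.R691.Mip

section darboux

variable {F : Type*} [Field F] [CharP F 2] {E : Type*} [AddCommGroup E] [Module F E]

/-- A symplectic basis lemma for a subgroup `X` of a vector space in characteristic two with a
form taking two values `0, θ` on `X`. -/
theorem darboux [Module.Finite F E] (ω : E →ₗ[F] E →ₗ[F] F) (hc : ∀ y z, ω y z = ω z y)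
    (h2 : ∀ y : E, y + y = 0)
    (X : AddSubgroup E) (θ : F) (hθ : θ ≠ 0) (halt : ∀ y ∈ X, ω y y = 0)
    (hX : ∀ y ∈ X, ∀ z ∈ X, ω y z = 0 ∨ ω y z = θ)
    (hnd : ∀ y ∈ X, y ≠ 0 → ∃ z ∈ X, ω y z ≠ 0) {ι : Type*} [DecidableEq ι] (I : Finset ι)
    (hI : 2 * I.card ≤ Module.finrank F (Submodule.span F (X : Set E))) :
    ∃ s t : ι → E, (∀ i, s i ∈ X ∧ t i ∈ X) ∧ ∀ i ∈ I, ∀ j ∈ I,
      ω (s i) (t j) = (if i = j then θ else 0) ∧ ω (s i) (s j) = 0 ∧ ω (t i) (t j) = 0 := by
  classical
  induction I using Finset.induction_on with
  | empty => exact ⟨fun _ => 0, fun _ => 0, fun _ => ⟨X.zero_mem, X.zero_mem⟩, by simp⟩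
  | insert a I ha ih =>
    rw [Finset.card_insert_of_notMem ha] at hI
    obtain ⟨s, t, hst, hf⟩ := ih (by omega)
    -- the projection
    let pr : E → E := fun z => z + ∑ i ∈ I, ((ω z (t i) / θ) • s i + (ω z (s i) / θ) • t i)
    have hcoef : ∀ z ∈ X, ∀ y ∈ X, ∀ x ∈ X, (ω z y / θ) • x ∈ X := by
      intro z hz y hy x hx
      rcases hX z hz y hy with h | h
      · rw [h, zero_div, zero_smul]; exact X.zero_mem
      · rw [h, div_self hθ, one_smul]; exact hx
    have hprX : ∀ z ∈ X, pr z ∈ X := by
      intro z hz
      refine X.add_mem hz (X.sum_mem fun i _ => X.add_mem ?_ ?_)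
      · exact hcoef z hz _ (hst i).2 _ (hst i).1
      · exact hcoef z hz _ (hst i).1 _ (hst i).2
    have hprt : ∀ z, ∀ j ∈ I, ω (pr z) (t j) = 0 := by
      intro z j hj
      simp only [pr, map_add, map_sum, LinearMap.add_apply, LinearMap.sum_apply, map_smul,
        LinearMap.smul_apply, smul_eq_mul]
      have h1 : ∑ i ∈ I, (ω z (t i) / θ * ω (s i) (t j) + ω z (s i) / θ * ω (t i) (t j)) =
          ∑ i ∈ I, if i = j then ω z (t j) else 0 := by
        refine Finset.sum_congr rfl fun i hi => ?_
        rw [(hf i hi j hj).1, (hf i hi j hj).2.2]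
        by_cases hij : i = j
        · subst hij; simp only [if_true, mul_zero, add_zero]; field_simp
        · simp [hij]
      rw [h1, Finset.sum_ite_eq' I j, if_pos hj]
      exact CharTwo.add_self_eq_zero _
    have hprs : ∀ z, ∀ j ∈ I, ω (pr z) (s j) = 0 := by
      intro z j hj
      simp only [pr, map_add, map_sum, LinearMap.add_apply, LinearMap.sum_apply, map_smul,
        LinearMap.smul_apply, smul_eq_mul]
      have h1 : ∑ i ∈ I, (ω z (t i) / θ * ω (s i) (s j) + ω z (s i) / θ * ω (t i) (s j)) =
          ∑ i ∈ I, if i = j then ω z (s j) else 0 := by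
        refine Finset.sum_congr rfl fun i hi => ?_
        rw [(hf i hi j hj).2.1, hc (t i) (s j), (hf j hj i hi).1]
        by_cases hij : i = j
        · subst hij; simp only [if_true, mul_zero, zero_add]; field_simp
        · simp [hij, Ne.symm hij]
      rw [h1, Finset.sum_ite_eq' I j, if_pos hj]
      exact CharTwo.add_self_eq_zero _
    -- an element outside
    let N : Submodule F E := Submodule.span F (((I.image s ∪ I.image t : Finset E)) : Set E)
    have hN : Module.finrank F N ≤ 2 * I.card := by
      refine (finrank_span_finset_le_card _).trans ?_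
      refine (Finset.card_union_le _ _).trans ?_
      have h1 := Finset.card_image_le (s := I) (f := s)
      have h2 := Finset.card_image_le (s := I) (f := t)
      omega
    have hsN : ∀ i ∈ I, s i ∈ N := fun i hi => Submodule.subset_span (by
      simp only [Finset.coe_union, Finset.coe_image, Set.mem_union, Set.mem_image,
        Finset.mem_coe]
      exact Or.inl ⟨i, hi, rfl⟩)
    have htN : ∀ i ∈ I, t i ∈ N := fun i hi => Submodule.subset_span (by
      simp only [Finset.coe_union, Finset.coe_image, Set.mem_union, Set.mem_image,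
        Finset.mem_coe]
      exact Or.inr ⟨i, hi, rfl⟩)
    obtain ⟨y, hy, hyN⟩ : ∃ y ∈ X, y ∉ N := by
      by_contra hcon
      push Not at hcon
      have h1 : Submodule.span F (X : Set E) ≤ N := Submodule.span_le.2 hcon
      have h3 := Submodule.finrank_mono h1
      omega
    have hy0 : pr y ≠ 0 := by
      intro h
      apply hyN
      have h1 : y = ∑ i ∈ I, ((ω y (t i) / θ) • s i + (ω y (s i) / θ) • t i) := by
        have h3 : y + ∑ i ∈ I, ((ω y (t i) / θ) • s i + (ω y (s i) / θ) • t i) = 0 := h
        refine (eq_neg_of_add_eq_zero_left h3).trans ?_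
        rw [neg_eq_iff_add_eq_zero]
        exact h2 _
      rw [h1]
      exact N.sum_mem fun i hi => N.add_mem (N.smul_mem _ (hsN i hi)) (N.smul_mem _ (htN i hi))
    obtain ⟨z, hz, hyz⟩ := hnd _ (hprX y hy) hy0
    have hyz2 : ω (pr y) (pr z) = θ := by
      have h1 : ω (pr y) (pr z) = ω (pr y) z := by
        change ω (pr y) (z + ∑ i ∈ I, ((ω z (t i) / θ) • s i + (ω z (s i) / θ) • t i)) = _
        rw [map_add, map_sum]
        have h3 : ∀ i ∈ I, ω (pr y) ((ω z (t i) / θ) • s i + (ω z (s i) / θ) • t i) = 0 := by
          intro i hi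
          rw [map_add, map_smul, map_smul, hprs y i hi, hprt y i hi]; simp
        rw [Finset.sum_eq_zero h3, add_zero]
      rw [h1]
      rcases hX _ (hprX y hy) z hz with h | h
      · exact absurd h hyz
      · exact h
    refine ⟨Function.update s a (pr y), Function.update t a (pr z), ?_, ?_⟩
    · intro i
      by_cases hi : i = a
      · subst hi; simp only [Function.update_self]; exact ⟨hprX y hy, hprX z hz⟩
      · simp only [Function.update_of_ne hi]; exact hst i
    · have hne : ∀ i ∈ I, i ≠ a := fun i hi h => ha (h ▸ hi)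
      intro i hi j hj
      rw [Finset.mem_insert] at hi hj
      rcases hi with rfl | hi <;> rcases hj with rfl | hj
      · simp only [Function.update_self, if_true]
        exact ⟨hyz2, halt _ (hprX y hy), halt _ (hprX z hz)⟩
      · simp only [Function.update_self, Function.update_of_ne (hne j hj),
          if_neg (hne j hj).symm]
        exact ⟨hprt y j hj, hprs y j hj, hprt z j hj⟩
      · simp only [Function.update_self, Function.update_of_ne (hne i hi), if_neg (hne i hi)]
        refine ⟨?_, ?_, ?_⟩
        · rw [hc]; exact hprs z i hi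
        · rw [hc]; exact hprs y i hi
        · rw [hc]; exact hprt z i hi
      · simp only [Function.update_of_ne (hne j hj), Function.update_of_ne (hne i hi)]
        exact hf i hi j hj

end darboux

section quad

variable {n m : ℕ} {F : Type*} [Field F] [Algebra (ZMod 2) F]

/-- linear maps agreeing on the rational points agree -/
lemma lin_ext {X : Type*} [AddCommGroup X] [Module F X] (f g : (Fin n → F) →ₗ[F] X)
    (h : ∀ v : Fin n → ZMod 2, f (vx F v) = g (vx F v)) : f = g := by
  apply LinearMap.ext_on_range (v := (vx F : (Fin n → ZMod 2) → (Fin n → F)))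
  · exact span_vx
  · exact h

/-- a quadratic identity which holds on the rational points holds everywhere -/
lemma quad_ext {X : Type*} [AddCommGroup X] [Module F X]
    (f : (Fin n → F) →ₗ[F] (Fin n → F) →ₗ[F] X)
    (h : ∀ v : Fin n → ZMod 2, f (vx F v) (vx F v) = 0) (y : Fin n → F) : f y y = 0 := by
  have hp : f + f.flip = 0 := by
    apply lin_ext
    intro v
    apply lin_ext
    intro w
    have h1 := h (v + w)
    rw [vx_add] at h1
    simp only [map_add, LinearMap.add_apply, h v, h w] at h1
    simp only [LinearMap.add_apply, LinearMap.flip_apply, LinearMap.zero_apply]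
    rw [zero_add, add_zero] at h1
    rw [add_comm]
    exact h1
  have hp' : ∀ y z, f y z + f z y = 0 := by
    intro y z
    have := congrArg (fun g => g y z) hp
    simpa using this
  have hy : y ∈ Submodule.span F (Set.range (vx F : (Fin n → ZMod 2) → (Fin n → F))) := by
    rw [span_vx]; trivial
  induction hy using Submodule.span_induction with
  | mem x hx => obtain ⟨v, rfl⟩ := hx; exact h v
  | zero => simp
  | add x y _ _ hx hy =>
    simp only [map_add, LinearMap.add_apply, hx, hy, zero_add, add_zero]
    rw [add_comm]
    exact hp' x y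
  | smul a x _ hx => simp [hx]

variable (B : Fin m → Matrix (Fin n) (Fin n) (ZMod 2)) (F)

/-- the bilinear map as a linear map -/
def bilL : (Fin n → F) →ₗ[F] (Fin n → F) →ₗ[F] (Fin m → F) :=
  LinearMap.mk₂ F (fun y z => bil (BF B F) y z)
    (by intro a b c; simp only [bil_add_left])
    (by intro a b c; simp only [bil_smul_left])
    (by intro a b c; simp only [bil_add_right])
    (by intro a b c; simp only [bil_smul_right])

lemma bilL_apply (y z : Fin n → F) : bilL F B y z = bil (BF B F) y z := rfl

lemma bilL_self (y : Fin n → F) : bilL F B y y = qF B F y := rfl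

end quad

end Pool.Agent.T2H54.Mip2.H94
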