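import Mathlib
import Pool.Agent.T2H54.Mip2.P10a

set_option autoImplicit false
set_option linter.unusedSectionVars false

/-! # The final classification over one field -/

namespace Pool.Agent.T2H54.Mip2.H94

open Matrix Pool.Agent.R691.Mip

variable {n m : ℕ} {B : Fin m → Matrix (Fin n) (Fin n) (ZMod 2)}
  {F : Type*} [Field F] [CharP F 2] [Algebra (ZMod 2) F]

lemma vadd_self {E : Type*} [AddCommGroup E] [Module F E] (y : E) : y + y = 0 := by
  rw [← two_smul F y, CharTwo.two_eq_zero, zero_smul]

lemma frv_add {k : ℕ} (y z : Fin k → F) : frv 2 (y + z) = frv 2 y + frv 2 z := by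
  funext i; simp only [frv, Pi.add_apply]; exact add_pow_char _ _ 2

lemma frv_smul {k : ℕ} (c : F) (y : Fin k → F) : frv 2 (c • y) = c ^ 2 • frv 2 y := by
  funext i; simp only [frv, Pi.smul_apply, smul_eq_mul, mul_pow]

lemma frv_zero {k : ℕ} : frv 2 (0 : Fin k → F) = 0 := by
  funext i; simp [frv]

lemma frv_sum {k : ℕ} {ι : Type*} (s : Finset ι) (f : ι → Fin k → F) :
    frv 2 (∑ i ∈ s, f i) = ∑ i ∈ s, frv 2 (f i) := by
  classical
  induction s using Finset.induction_on with
  | empty => simp [frv_zero]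
  | insert a s ha ih => rw [Finset.sum_insert ha, Finset.sum_insert ha, frv_add, ih]

lemma frv_beF (y z : Fin n → F) : frv 2 (beF B F y z) = beF B F (frv 2 y) (frv 2 z) := by
  rw [beF_apply, frv_add, frv_bil, frv_bil, beF_apply]

lemma frv_qF (y : Fin n → F) : frv 2 (qF B F y) = qF B F (frv 2 y) := by
  simp only [qF, frv_bil]

/-- polarisation of `q (C y) = A (q y)` -/
lemma beF_of_qF (C : (Fin n → F) →ₗ[F] (Fin n → F)) (A : (Fin m → F) →ₗ[F] (Fin m → F))
    (h0 : ∀ y, qF B F (C y) = A (qF B F y)) (y z : Fin n → F) :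
    beF B F (C y) (C z) = A (beF B F y z) := by
  have h1 := h0 (y + z)
  rw [map_add, qF_add, qF_add, h0, h0, map_add, map_add] at h1
  exact add_left_cancel h1

/-- the quadratic form on a hyperbolic sum -/
lemma qF_hyp {ι : Type*} [DecidableEq ι] (I : Finset ι) (a b : ι → Fin n → F) (c : ι → Fin m → F)
    (hab : ∀ i j, beF B F (a i) (b j) = if i = j then c i else 0)
    (haa : ∀ i j, beF B F (a i) (a j) = 0) (hbb : ∀ i j, beF B F (b i) (b j) = 0)
    (u : Fin n → F) (hua : ∀ i, beF B F u (a i) = 0) (hub : ∀ i, beF B F u (b i) = 0)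
    (ξ ξ' : ι → F) :
    qF B F (u + ∑ i ∈ I, (ξ i • a i + ξ' i • b i)) = qF B F u +
      ∑ i ∈ I, ((ξ i) ^ 2 • qF B F (a i) + (ξ' i) ^ 2 • qF B F (b i) + (ξ i * ξ' i) • c i) := by
  induction I using Finset.induction_on with
  | empty => simp
  | insert x I hx ih =>
    rw [Finset.sum_insert hx, Finset.sum_insert hx,
      show u + (ξ x • a x + ξ' x • b x + ∑ i ∈ I, (ξ i • a i + ξ' i • b i)) =
        (u + ∑ i ∈ I, (ξ i • a i + ξ' i • b i)) + (ξ x • a x + ξ' x • b x) by abel,
      qF_add, ih]
    have h1 : beF B F (u + ∑ i ∈ I, (ξ i • a i + ξ' i • b i)) (ξ x • a x + ξ' x • b x) = 0 := by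
      simp only [map_add, LinearMap.add_apply, map_smul, hua, hub, map_sum,
        LinearMap.sum_apply, LinearMap.smul_apply]
      rw [Finset.sum_eq_zero, Finset.sum_eq_zero]
      · simp
      · intro i hi
        have hne : i ≠ x := fun h => hx (h ▸ hi)
        rw [hab, if_neg hne, hbb]; simp
      · intro i hi
        have hne : i ≠ x := fun h => hx (h ▸ hi)
        rw [haa, beF_comm (B := B) (F := F) (b i), hab, if_neg hne.symm]; simp
    rw [h1, add_zero, qF_add, qF_smul, qF_smul]
    have h2 : beF B F (ξ x • a x) (ξ' x • b x) = (ξ x * ξ' x) • c x := by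
      simp only [map_smul, LinearMap.smul_apply, hab, if_true, smul_smul]
      rw [mul_comm]
    rw [h2]
    abel

lemma van_of (M0 : Matrix (Fin n) (Fin n) F) (hM0 : IsUnit M0.det) {X : Type*} [AddCommGroup X]
    [Module F X] (g : (Fin n → F) →ₗ[F] X)
    (hg : ∀ z : Fin n → ZMod 2, g (M0 *ᵥ vx F z) = 0) (y : Fin n → F) : g y = 0 := by
  have hM0' : M0 * M0⁻¹ = 1 := Matrix.mul_nonsing_inv _ hM0
  have h1 : g ∘ₗ M0.mulVecLin = 0 := by
    apply lin_ext
    intro v
    rw [LinearMap.comp_apply, Matrix.mulVecLin_apply, hg]; rfl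
  have h2 : y = M0 *ᵥ (M0⁻¹ *ᵥ y) := by rw [Matrix.mulVec_mulVec, hM0', Matrix.one_mulVec]
  have h3 := congrArg (fun f => f (M0⁻¹ *ᵥ y)) h1
  simp only [LinearMap.comp_apply, Matrix.mulVecLin_apply, LinearMap.zero_apply] at h3
  rw [h2]; exact h3

theorem core
    (C : (Fin n → F) →ₗ[F] (Fin n → F)) (A : (Fin m → F) →ₗ[F] (Fin m → F))
    (h0 : ∀ y, qF B F (C y) = A (qF B F y)) (hinj : Function.Injective C)
    {k : ℕ} (s t : Fin k → (Fin n → ZMod 2)) (w : Fin k → (Fin m → ZMod 2)) (hw : ∀ i, w i ≠ 0)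
    (hst : ∀ i j, be B (s i) (t j) = if i = j then w i else 0)
    (hss : ∀ i j, be B (s i) (s j) = 0) (htt : ∀ i j, be B (t i) (t j) = 0)
    (x x' : Fin k → (Fin n → F) →ₗ[F] F)
    (hx : ∀ i y, beF B F (vx F (t i)) y = x i y • vx F (w i))
    (hx' : ∀ i y, beF B F (vx F (s i)) y = x' i y • vx F (w i))
    (θ : Fin k → F) (hθ : ∀ i, A (vx F (w i)) = θ i • vx F (w i))
    (c1 : ∀ v : Fin n → ZMod 2, (∀ i, be B (s i) v = 0) → (∀ i, be B (t i) v = 0) →
      C (vx F v) = vx F v)
    (c2 : ∀ i, C (vx F (s i)) ∈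
      Submodule.span F {y | ∃ j, w j = w i ∧ (y = vx F (s j) ∨ y = vx F (t j))})
    (c2' : ∀ i, C (vx F (t i)) ∈
      Submodule.span F {y | ∃ j, w j = w i ∧ (y = vx F (s j) ∨ y = vx F (t j))})
    (c3 : ∀ i, ∃ lam : (Fin m → F) →ₗ[F] F, ∀ y, (x i y) ^ 2 = lam (qF B F y))
    (c3' : ∀ i, ∃ lam : (Fin m → F) →ₗ[F] F, ∀ y, (x' i y) ^ 2 = lam (qF B F y))
    (c4 : ∀ i, θ i = 1 ∨ ∃ lam : (Fin m → F) →ₗ[F] F, ∀ y, x i y * x' i y = lam (qF B F y))
    (M0 : Matrix (Fin n) (Fin n) F) (hM0 : IsUnit M0.det)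
    (hfix : ∀ z : Fin n → ZMod 2, C (M0 *ᵥ vx F z) = frv 2 (M0 *ᵥ vx F z)) :
    ∃ ψ : (Fin n → ZMod 2) ≃+ (Fin n → ZMod 2), ∀ c : (Fin n → ZMod 2) → ZMod 2,
      ∑ z, c z • bil B z z = 0 → ∑ z, c z • qF B F (M0 *ᵥ vx F (ψ z)) = 0 := by
  classical
  -- nonzero coordinates of `w i`
  have hvw : ∀ i, vx F (w i) ≠ 0 := by
    intro i h
    exact hw i (vx_injective (F := F) (by rw [h, vx_zero]))
  have hwl : ∀ i, ∃ l, w i l = 1 := by
    intro i
    by_contra hcon
    push Not at hcon
    apply hw i
    funext l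
    have := hcon l
    have h01 : ∀ a : ZMod 2, a = 0 ∨ a = 1 := by decide
    rcases h01 (w i l) with h | h
    · exact h
    · exact absurd h this
  -- the coordinate functionals on the `s`, `t`
  have hxs : ∀ i j, x i (vx F (s j)) = if i = j then 1 else 0 := by
    intro i j
    have h1 := hx i (vx F (s j))
    rw [beF_vx, be_comm, hst] at h1
    by_cases h : i = j
    · subst h
      rw [if_pos rfl] at h1 ⊢
      have h2 : (x i (vx F (s i)) - 1) • vx F (w i) = 0 := by
        rw [sub_smul, one_smul, ← h1, sub_self]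
      rcases smul_eq_zero.1 h2 with h3 | h3
      · exact sub_eq_zero.1 h3
      · exact absurd h3 (hvw i)
    · rw [if_neg (Ne.symm h), vx_zero] at h1
      rw [if_neg h]
      rcases smul_eq_zero.1 h1.symm with h3 | h3
      · exact h3
      · exact absurd h3 (hvw i)
  have hxt : ∀ i j, x i (vx F (t j)) = 0 := by
    intro i j
    have h1 := hx i (vx F (t j))
    rw [beF_vx, htt, vx_zero] at h1
    rcases smul_eq_zero.1 h1.symm with h3 | h3
    · exact h3
    · exact absurd h3 (hvw i)
  have hxt' : ∀ i j, x' i (vx F (t j)) = if i = j then 1 else 0 := by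
    intro i j
    have h1 := hx' i (vx F (t j))
    rw [beF_vx, hst] at h1
    by_cases h : i = j
    · subst h
      rw [if_pos rfl] at h1 ⊢
      have h2 : (x' i (vx F (t i)) - 1) • vx F (w i) = 0 := by
        rw [sub_smul, one_smul, ← h1, sub_self]
      rcases smul_eq_zero.1 h2 with h3 | h3
      · exact sub_eq_zero.1 h3
      · exact absurd h3 (hvw i)
    · rw [if_neg h, vx_zero] at h1
      rw [if_neg h]
      rcases smul_eq_zero.1 h1.symm with h3 | h3
      · exact h3
      · exact absurd h3 (hvw i)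
  have hxs' : ∀ i j, x' i (vx F (s j)) = 0 := by
    intro i j
    have h1 := hx' i (vx F (s j))
    rw [beF_vx, hss, vx_zero] at h1
    rcases smul_eq_zero.1 h1.symm with h3 | h3
    · exact h3
    · exact absurd h3 (hvw i)
  -- frobenius
  have hxf : ∀ i y, x i (frv 2 y) = (x i y) ^ 2 := by
    intro i y
    have h1 := congrArg (frv 2) (hx i y)
    rw [frv_beF, frv_vx, frv_smul, frv_vx, hx] at h1
    have h2 : (x i (frv 2 y) - (x i y) ^ 2) • vx F (w i) = 0 := by rw [sub_smul, h1, sub_self]
    rcases smul_eq_zero.1 h2 with h3 | h3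
    · exact sub_eq_zero.1 h3
    · exact absurd h3 (hvw i)
  have hxf' : ∀ i y, x' i (frv 2 y) = (x' i y) ^ 2 := by
    intro i y
    have h1 := congrArg (frv 2) (hx' i y)
    rw [frv_beF, frv_vx, frv_smul, frv_vx, hx'] at h1
    have h2 : (x' i (frv 2 y) - (x' i y) ^ 2) • vx F (w i) = 0 := by rw [sub_smul, h1, sub_self]
    rcases smul_eq_zero.1 h2 with h3 | h3
    · exact sub_eq_zero.1 h3
    · exact absurd h3 (hvw i)
  -- the projections to the classes
  let S : (Fin m → ZMod 2) → Submodule F (Fin n → F) := fun c =>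
    Submodule.span F {y | ∃ j, w j = c ∧ (y = vx F (s j) ∨ y = vx F (t j))}
  have hsS : ∀ i, vx F (s i) ∈ S (w i) := fun i => Submodule.subset_span ⟨i, rfl, Or.inl rfl⟩
  have htS : ∀ i, vx F (t i) ∈ S (w i) := fun i => Submodule.subset_span ⟨i, rfl, Or.inr rfl⟩
  let pp : (Fin m → ZMod 2) → (Fin n → F) →ₗ[F] (Fin n → F) := fun c =>
    ∑ i ∈ Finset.univ.filter (fun i => w i = c),
      ((x i).smulRight (vx F (s i)) + (x' i).smulRight (vx F (t i)))
  have hpp : ∀ c y, pp c y = ∑ i ∈ Finset.univ.filter (fun i => w i = c),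
      (x i y • vx F (s i) + x' i y • vx F (t i)) := by
    intro c y
    simp [pp, LinearMap.sum_apply]
  have hppS : ∀ c y, pp c y ∈ S c := by
    intro c y
    rw [hpp]
    refine Submodule.sum_mem _ fun i hi => ?_
    have hi' := (Finset.mem_filter.1 hi).2
    exact Submodule.add_mem _ (Submodule.smul_mem _ _ (hi' ▸ hsS i))
      (Submodule.smul_mem _ _ (hi' ▸ htS i))
  have hpps : ∀ c j, pp c (vx F (s j)) = if w j = c then vx F (s j) else 0 := by
    intro c j
    rw [hpp]
    simp only [hxs, hxs', zero_smul, add_zero, ite_smul, one_smul]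
    rw [Finset.sum_ite_eq']
    simp
  have hppt : ∀ c j, pp c (vx F (t j)) = if w j = c then vx F (t j) else 0 := by
    intro c j
    rw [hpp]
    simp only [hxt, hxt', zero_smul, zero_add, ite_smul, one_smul]
    rw [Finset.sum_ite_eq']
    simp
  have hppid : ∀ c, ∀ y ∈ S c, pp c y = y := by
    intro c y hy
    induction hy using Submodule.span_induction with
    | mem y hy =>
      obtain ⟨j, hj, rfl | rfl⟩ := hy
      · rw [hpps, if_pos hj]
      · rw [hppt, if_pos hj]
    | zero => simp
    | add y z _ _ hy hz => rw [map_add, hy, hz]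
    | smul a y _ hy => rw [map_smul, hy]
  have hpp0 : ∀ c c', c ≠ c' → ∀ y ∈ S c', pp c y = 0 := by
    intro c c' hne y hy
    induction hy using Submodule.span_induction with
    | mem y hy =>
      obtain ⟨j, hj, rfl | rfl⟩ := hy
      · rw [hpps, if_neg (by rw [hj]; exact hne.symm)]
      · rw [hppt, if_neg (by rw [hj]; exact hne.symm)]
    | zero => simp
    | add y z _ _ hy hz => rw [map_add, hy, hz, add_zero]
    | smul a y _ hy => rw [map_smul, hy, smul_zero]
  -- rational coordinates
  have hrat : ∀ i (v : Fin n → ZMod 2), ∃ a : ZMod 2, x i (vx F v) = algebraMap (ZMod 2) F a := by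
    intro i v
    have h1 := hxf i (vx F v)
    rw [frv_vx] at h1
    obtain ⟨a, ha⟩ := exists_of_pow_eq (p := 2) h1.symm
    exact ⟨a, ha.symm⟩
  have hrat' : ∀ i (v : Fin n → ZMod 2),
      ∃ a : ZMod 2, x' i (vx F v) = algebraMap (ZMod 2) F a := by
    intro i v
    have h1 := hxf' i (vx F v)
    rw [frv_vx] at h1
    obtain ⟨a, ha⟩ := exists_of_pow_eq (p := 2) h1.symm
    exact ⟨a, ha.symm⟩
  choose r hr using hrat
  choose r' hr' using hrat'
  -- decomposition `y = u y + ∑ ...`
  let u : (Fin n → F) →ₗ[F] (Fin n → F) :=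
    LinearMap.id + ∑ i, ((x i).smulRight (vx F (s i)) + (x' i).smulRight (vx F (t i)))
  have hu : ∀ y, u y = y + ∑ i, (x i y • vx F (s i) + x' i y • vx F (t i)) := by
    intro y
    simp [u, LinearMap.sum_apply]
  have hyu : ∀ y, y = u y + ∑ i, (x i y • vx F (s i) + x' i y • vx F (t i)) := by
    intro y
    rw [hu, add_assoc, vadd_self (F := F), add_zero]
  have hxu : ∀ j y, x j (u y) = 0 := by
    intro j y
    rw [hu, map_add, map_sum]
    simp only [map_add, map_smul, hxs, hxt, smul_eq_mul, mul_zero, add_zero, mul_ite, mul_one]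
    rw [Finset.sum_ite_eq]
    simp only [Finset.mem_univ, if_true]
    exact CharTwo.add_self_eq_zero _
  have hxu' : ∀ j y, x' j (u y) = 0 := by
    intro j y
    rw [hu, map_add, map_sum]
    simp only [map_add, map_smul, hxs', hxt', smul_eq_mul, mul_zero, zero_add, mul_ite, mul_one]
    rw [Finset.sum_ite_eq]
    simp only [Finset.mem_univ, if_true]
    exact CharTwo.add_self_eq_zero _
  have hurat : ∀ v : Fin n → ZMod 2, ∃ v2 : Fin n → ZMod 2, u (vx F v) = vx F v2 ∧
      (∀ i, be B (s i) v2 = 0) ∧ (∀ i, be B (t i) v2 = 0) := by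
    intro v
    have h1 : u (vx F v) = vx F (v + ∑ i, (r i v • s i + r' i v • t i)) := by
      rw [hu, vx_add]
      congr 1
      have h2 : ∀ (I : Finset (Fin k)), vx F (∑ i ∈ I, (r i v • s i + r' i v • t i)) =
          ∑ i ∈ I, (x i (vx F v) • vx F (s i) + x' i (vx F v) • vx F (t i)) := by
        intro I
        induction I using Finset.induction_on with
        | empty => simp
        | insert a I ha ih =>
          rw [Finset.sum_insert ha, Finset.sum_insert ha, vx_add, ih, vx_add, vx_smul, vx_smul,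
            hr, hr', algebraMap_smul, algebraMap_smul]
      exact (h2 _).symm
    refine ⟨_, h1, ?_, ?_⟩
    · intro i
      apply vx_injective (F := F)
      rw [← beF_vx, ← h1, hx', hxu', zero_smul, vx_zero]
    · intro i
      apply vx_injective (F := F)
      rw [← beF_vx, ← h1, hx, hxu, zero_smul, vx_zero]
  have hCu : ∀ y, C (u y) = u y := by
    intro y
    have : C ∘ₗ u = u := by
      apply lin_ext
      intro v
      obtain ⟨v2, h1, h2, h3⟩ := hurat v
      rw [LinearMap.comp_apply, h1, c1 v2 h2 h3]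
    exact congrArg (fun g => g y) this
  -- `C` commutes with the projections
  have hCy : ∀ y, C y = u y + ∑ i, (x i y • C (vx F (s i)) + x' i y • C (vx F (t i))) := by
    intro y
    conv_lhs => rw [hyu y]
    rw [map_add, hCu, map_sum]
    simp only [map_add, map_smul]
  have hCpp : ∀ c y, pp c (C y) = C (pp c y) := by
    intro c y
    rw [hCy y, map_add, map_sum]
    have h1 : pp c (u y) = 0 := by
      rw [hpp]
      simp [hxu, hxu']
    rw [h1, zero_add, hpp, map_sum, Finset.sum_filter]
    refine Finset.sum_congr rfl fun i _ => ?_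
    simp only [map_add, map_smul]
    by_cases h : w i = c
    · rw [if_pos h, hppid c _ (h ▸ c2 i), hppid c _ (h ▸ c2' i)]
    · rw [if_neg h, hpp0 c (w i) (Ne.symm h) _ (c2 i), hpp0 c (w i) (Ne.symm h) _ (c2' i)]
      simp
  have hfpp : ∀ c y, frv 2 (pp c y) = pp c (frv 2 y) := by
    intro c y
    rw [hpp, hpp, frv_sum]
    refine Finset.sum_congr rfl fun i _ => ?_
    rw [frv_add, frv_smul, frv_smul, frv_vx, frv_vx, hxf, hxf']
  -- the fixed points
  let V0 : AddSubgroup (Fin n → F) :=
    { carrier := {y | frv 2 y = C y}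
      add_mem' := by
        intro y z hy hz
        change frv 2 (y + z) = C (y + z)
        rw [frv_add, map_add]
        exact congrArg₂ (· + ·) hy hz
      zero_mem' := by
        change frv 2 (0 : Fin n → F) = C 0
        rw [frv_zero, map_zero]
      neg_mem' := by
        intro y hy
        change frv 2 (-y) = C (-y)
        have h1 : -y = y := by
          rw [neg_eq_iff_add_eq_zero]; exact vadd_self (F := F) y
        rw [h1]; exact hy }
  have hV0 : ∀ y, y ∈ V0 ↔ frv 2 y = C y := fun _ => Iff.rfl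
  have hM0' : M0 * M0⁻¹ = 1 := Matrix.mul_nonsing_inv _ hM0
  have hM0'' : M0⁻¹ * M0 = 1 := Matrix.nonsing_inv_mul _ hM0
  have hMz : ∀ z : Fin n → ZMod 2, M0 *ᵥ vx F z ∈ V0 := fun z => (hfix z).symm
  have hVM : ∀ y ∈ V0, ∃ z : Fin n → ZMod 2, y = M0 *ᵥ vx F z := by
    intro y hy
    have h2 : y = M0 *ᵥ (M0⁻¹ *ᵥ y) := by rw [Matrix.mulVec_mulVec, hM0', Matrix.one_mulVec]
    set c := M0⁻¹ *ᵥ y with hc
    have h3 : C ∘ₗ M0.mulVecLin = (fr 2 M0).mulVecLin := by
      apply lin_ext
      intro v
      rw [LinearMap.comp_apply, Matrix.mulVecLin_apply, Matrix.mulVecLin_apply, hfix,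
        frv_mulVec, frv_vx]
    have h4 : ∀ d, C (M0 *ᵥ d) = fr 2 M0 *ᵥ d := by
      intro d
      exact congrArg (fun g => g d) h3
    have h5 : frv 2 c = c := by
      have h6 : C (M0 *ᵥ frv 2 c) = C (M0 *ᵥ c) := by
        rw [h4, ← frv_mulVec, ← h2]
        exact (hV0 y).1 hy
      have h7 := hinj h6
      have h8 := congrArg (fun v => M0⁻¹ *ᵥ v) h7
      simp only [Matrix.mulVec_mulVec, hM0'', Matrix.one_mulVec] at h8
      exact h8
    have h6 : ∀ i, ∃ a : ZMod 2, algebraMap (ZMod 2) F a = c i := by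
      intro i
      exact exists_of_pow_eq (p := 2) (congrFun h5 i)
    choose a ha using h6
    refine ⟨a, ?_⟩
    rw [h2]
    congr 1
    funext i
    exact (ha i).symm
  have hppV : ∀ c, ∀ y ∈ V0, pp c y ∈ V0 := by
    intro c y hy
    rw [hV0] at hy ⊢
    rw [hfpp, hy, hCpp]
  -- the form on a class
  have hform : ∀ c l, vx F c l = 1 → ∀ y ∈ S c, ∀ z, beF B F y z = (beF B F y z l) • vx F c := by
    intro c l hl y hy z
    induction hy using Submodule.span_induction with
    | mem y hy =>
      obtain ⟨j, hj, rfl | rfl⟩ := hy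
      · rw [hx', hj, Pi.smul_apply, hl, smul_eq_mul, mul_one]
      · rw [hx, hj, Pi.smul_apply, hl, smul_eq_mul, mul_one]
    | zero => simp
    | add y y' _ _ hy hy' =>
      rw [map_add, LinearMap.add_apply, Pi.add_apply, add_smul, ← hy, ← hy']
    | smul a y _ hy =>
      rw [map_smul, LinearMap.smul_apply, Pi.smul_apply, smul_eq_mul, mul_smul, ← hy]
  have horth : ∀ c c', c ≠ c' → ∀ y ∈ S c, ∀ z ∈ S c', beF B F y z = 0 := by
    intro c c' hne y hy z hz
    have h1 : ∀ i, w i ≠ c' → x i z = 0 ∧ x' i z = 0 := by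
      intro i hi
      have h3 : beF B F (vx F (t i)) z = 0 ∧ beF B F (vx F (s i)) z = 0 := by
        clear hy
        induction hz using Submodule.span_induction with
        | mem z hz =>
          obtain ⟨j, hj, rfl | rfl⟩ := hz
          · have hij : j ≠ i := fun h => hi (h ▸ hj)
            rw [beF_vx, beF_vx, hss, be_comm, hst, if_neg hij, vx_zero]
            exact ⟨rfl, rfl⟩
          · have hij : j ≠ i := fun h => hi (h ▸ hj)
            rw [beF_vx, beF_vx, htt, hst, if_neg (Ne.symm hij), vx_zero]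
            exact ⟨rfl, rfl⟩
        | zero => simp
        | add y y' _ _ hy hy' =>
          rw [map_add, map_add, hy.1, hy.2, hy'.1, hy'.2]; simp
        | smul a y _ hy => rw [map_smul, map_smul, hy.1, hy.2]; simp
      rw [hx, hx'] at h3
      exact ⟨(smul_eq_zero.1 h3.1).resolve_right (hvw i),
        (smul_eq_zero.1 h3.2).resolve_right (hvw i)⟩
    induction hy using Submodule.span_induction with
    | mem y hy =>
      obtain ⟨j, hj, rfl | rfl⟩ := hy
      · rw [hx', (h1 j (hj ▸ hne)).2, zero_smul]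
      · rw [hx, (h1 j (hj ▸ hne)).1, zero_smul]
    | zero => simp
    | add y y' _ _ hy hy' => rw [map_add, LinearMap.add_apply, hy, hy', add_zero]
    | smul a y _ hy => rw [map_smul, LinearMap.smul_apply, hy, smul_zero]
  -- the multipliers
  have hCsurj : Function.Surjective C := LinearMap.injective_iff_surjective.1 hinj
  have hθ0 : ∀ a, θ a ≠ 0 := by
    let U : Submodule F (Fin m → F) := Submodule.span F (Set.range (qF B F))
    have hAU : ∀ x ∈ U, A x ∈ U := by
      intro x hx
      induction hx using Submodule.span_induction with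
      | mem x hx => obtain ⟨y, rfl⟩ := hx; rw [← h0]; exact Submodule.subset_span ⟨_, rfl⟩
      | zero => simp
      | add x y _ _ hx hy => rw [map_add]; exact U.add_mem hx hy
      | smul a x _ hx => rw [map_smul]; exact U.smul_mem _ hx
    have hsurj : Function.Surjective (A.restrict hAU) := by
      rintro ⟨u, hu⟩
      have h1 : ∃ u' ∈ U, A u' = u := by
        induction hu using Submodule.span_induction with
        | mem x hx =>
          obtain ⟨y, rfl⟩ := hx
          obtain ⟨y', rfl⟩ := hCsurj y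
          exact ⟨qF B F y', Submodule.subset_span ⟨_, rfl⟩, (h0 y').symm⟩
        | zero => exact ⟨0, U.zero_mem, map_zero _⟩
        | add x y _ _ hx hy =>
          obtain ⟨a, ha, ha'⟩ := hx
          obtain ⟨b, hb, hb'⟩ := hy
          exact ⟨a + b, U.add_mem ha hb, by rw [map_add, ha', hb']⟩
        | smul c x _ hx =>
          obtain ⟨a, ha, ha'⟩ := hx
          exact ⟨c • a, U.smul_mem _ ha, by rw [map_smul, ha']⟩
      obtain ⟨u', hu', h3⟩ := h1
      exact ⟨⟨u', hu'⟩, Subtype.ext h3⟩
    have hinjA : Function.Injective (A.restrict hAU) :=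
      LinearMap.injective_iff_surjective.2 hsurj
    intro a ha
    have h1 : vx F (w a) ∈ U := by
      have h3 := qF_add B F (vx F (s a)) (vx F (t a))
      rw [beF_vx, hst, if_pos rfl] at h3
      have h4 : vx F (w a) = qF B F (vx F (s a) + vx F (t a)) - qF B F (vx F (s a)) -
          qF B F (vx F (t a)) := by rw [h3]; abel
      rw [h4]
      exact U.sub_mem (U.sub_mem (Submodule.subset_span ⟨_, rfl⟩) (Submodule.subset_span ⟨_, rfl⟩))
        (Submodule.subset_span ⟨_, rfl⟩)
    have h3 : A.restrict hAU ⟨_, h1⟩ = 0 := by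
      apply Subtype.ext
      change A (vx F (w a)) = 0
      rw [hθ, ha, zero_smul]
    have h4 := hinjA (h3.trans (map_zero _).symm)
    exact hvw a (congrArg Subtype.val h4)
  have hθc : ∀ i j, w i = w j → θ i = θ j := by
    intro i j hij
    have h1 := hθ i
    rw [hij, hθ j] at h1
    have h2 : (θ j - θ i) • vx F (w j) = 0 := by rw [sub_smul, h1, sub_self]
    exact (sub_eq_zero.1 ((smul_eq_zero.1 h2).resolve_right (hvw j))).symm
  -- symplectic bases of the classes
  have hclass : ∀ c : Fin m → ZMod 2, ∃ s0 t0 : Fin k → (Fin n → F), ∀ a, w a = c →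
      (∀ i, (s0 i ∈ V0 ∧ s0 i ∈ S c) ∧ (t0 i ∈ V0 ∧ t0 i ∈ S c)) ∧
      ∀ i j, w i = c → w j = c →
        beF B F (s0 i) (t0 j) = (if i = j then θ i • vx F (w i) else 0) ∧
        beF B F (s0 i) (s0 j) = 0 ∧ beF B F (t0 i) (t0 j) = 0 := by
    intro c
    by_cases hca : ∃ a, w a = c
    swap
    · exact ⟨0, 0, fun a ha => absurd ⟨a, ha⟩ hca⟩
    obtain ⟨a, rfl⟩ := hca
    obtain ⟨l, hl⟩ := hwl a
    have hl' : vx F (w a) l = 1 := by
      change algebraMap (ZMod 2) F (w a l) = 1
      rw [hl, map_one]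
    let ω : (Fin n → F) →ₗ[F] (Fin n → F) →ₗ[F] F :=
      (beF B F).compr₂ (LinearMap.proj l)
    have hω : ∀ y z, ω y z = beF B F y z l := fun _ _ => rfl
    let X : AddSubgroup (Fin n → F) := V0 ⊓ (S (w a)).toAddSubgroup
    have hXm : ∀ y, y ∈ X ↔ (frv 2 y = C y ∧ y ∈ S (w a)) := fun _ => Iff.rfl
    have hppX : ∀ y ∈ V0, pp (w a) y ∈ X := fun y hy => ⟨hppV _ _ hy, hppS _ _⟩
    -- values
    have hval : ∀ y ∈ X, ∀ z ∈ X, ω y z = 0 ∨ ω y z = θ a := by
      intro y hy z hz
      have h1 : frv 2 (beF B F y z) = A (beF B F y z) := by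
        rw [frv_beF, ((hXm y).1 hy).1, ((hXm z).1 hz).1, beF_of_qF C A h0]
      rw [hform _ l hl' y hy.2 z, frv_smul, frv_vx, map_smul, hθ] at h1
      have h3 := congrFun h1 l
      simp only [Pi.smul_apply, smul_eq_mul, hl', mul_one] at h3
      rw [← hω] at h3
      have h4 : ω y z * (ω y z - θ a) = 0 := by
        rw [mul_sub, ← h3]; ring
      rcases mul_eq_zero.1 h4 with h5 | h5
      · exact Or.inl h5
      · exact Or.inr (sub_eq_zero.1 h5)
    have hnd : ∀ y ∈ X, y ≠ 0 → ∃ z ∈ X, ω y z ≠ 0 := by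
      intro y hy hy0
      by_contra hcon
      push Not at hcon
      have h1 : ∀ z, ω y (pp (w a) z) = 0 := by
        intro z
        have := van_of M0 hM0 (ω y ∘ₗ pp (w a)) (fun v => hcon _ (hppX _ (hMz v))) z
        exact this
      apply hy0
      rw [← hppid _ y hy.2, hpp]
      refine Finset.sum_eq_zero fun i hi => ?_
      have hi' := (Finset.mem_filter.1 hi).2
      have h3 := h1 (vx F (s i))
      have h4 := h1 (vx F (t i))
      rw [hpps, if_pos hi', hω, beF_comm, hx', hi', Pi.smul_apply, hl', smul_eq_mul, mul_one] at h3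
      rw [hppt, if_pos hi', hω, beF_comm, hx, hi', Pi.smul_apply, hl', smul_eq_mul, mul_one] at h4
      rw [h3, h4]; simp
    have hSX : S (w a) ≤ Submodule.span F (X : Set (Fin n → F)) := by
      intro y hy
      have h1 := van_of M0 hM0 ((Submodule.span F (X : Set (Fin n → F))).mkQ ∘ₗ pp (w a))
        (fun v => by
          rw [LinearMap.comp_apply, Submodule.mkQ_apply, Submodule.Quotient.mk_eq_zero]
          exact Submodule.subset_span (hppX _ (hMz v))) y
      rw [LinearMap.comp_apply, Submodule.mkQ_apply, Submodule.Quotient.mk_eq_zero,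
        hppid _ y hy] at h1
      exact h1
    let I : Finset (Fin k) := Finset.univ.filter (fun i => w i = w a)
    have hI : 2 * I.card ≤ Module.finrank F (Submodule.span F (X : Set (Fin n → F))) := by
      let v : {i // w i = w a} ⊕ {i // w i = w a} → (Fin n → F) :=
        Sum.elim (fun i => vx F (s i)) (fun i => vx F (t i))
      have hli : LinearIndependent F v := by
        rw [Fintype.linearIndependent_iff]
        intro g hg
        rw [Fintype.sum_sum_type] at hg
        simp only [v, Sum.elim_inl, Sum.elim_inr] at hg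
        rintro (i | i)
        · have h1 := congrArg (x i) hg
          rw [map_add, map_sum, map_sum, map_zero] at h1
          simp only [map_smul, hxs, hxt, smul_eq_mul, mul_zero, Finset.sum_const_zero, add_zero,
            mul_ite, mul_one] at h1
          rw [← h1]
          rw [Finset.sum_eq_single i]
          · simp
          · intro b _ hb
            rw [if_neg]
            intro h; exact hb (Subtype.ext h.symm)
          · intro h; exact absurd (Finset.mem_univ _) h
        · have h1 := congrArg (x' i) hg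
          rw [map_add, map_sum, map_sum, map_zero] at h1
          simp only [map_smul, hxs', hxt', smul_eq_mul, mul_zero, Finset.sum_const_zero, zero_add,
            mul_ite, mul_one] at h1
          rw [← h1]
          rw [Finset.sum_eq_single i]
          · simp
          · intro b _ hb
            rw [if_neg]
            intro h; exact hb (Subtype.ext h.symm)
          · intro h; exact absurd (Finset.mem_univ _) h
      have h1 := finrank_span_eq_card hli
      rw [Fintype.card_sum, Fintype.card_subtype] at h1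
      have h2 : Submodule.span F (Set.range v) ≤ Submodule.span F (X : Set (Fin n → F)) := by
        rw [Submodule.span_le]
        rintro _ ⟨i | i, rfl⟩
        · apply hSX
          have := hsS i
          rw [i.2] at this
          exact this
        · apply hSX
          have := htS i
          rw [i.2] at this
          exact this
      have h3 := Submodule.finrank_mono h2
      rw [h1] at h3
      change 2 * (Finset.univ.filter (fun i => w i = w a)).card ≤ _
      omega
    obtain ⟨s0, t0, hst0, hf⟩ := darboux ω (fun y z => by rw [hω, hω, beF_comm])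
      (fun y => vadd_self (F := F) y) X (θ a) (hθ0 a)
      (fun y _ => by rw [hω, beF_apply, vadd_self (F := F)]; rfl) hval hnd I hI
    refine ⟨s0, t0, fun b _ => ⟨fun i => ⟨(hst0 i).1, (hst0 i).2⟩, ?_⟩⟩
    intro i j hi hj
    obtain ⟨h1, h2, h3⟩ := hf i (Finset.mem_filter.2 ⟨Finset.mem_univ _, hi⟩) j
      (Finset.mem_filter.2 ⟨Finset.mem_univ _, hj⟩)
    rw [hω] at h1 h2 h3
    rw [hform _ l hl' _ (hst0 i).1.2, hform _ l hl' _ (hst0 i).1.2 (s0 j),
      hform _ l hl' _ (hst0 i).2.2, h1, h2, h3, zero_smul]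
    refine ⟨?_, rfl, rfl⟩
    by_cases h : i = j
    · subst h
      rw [if_pos rfl, if_pos rfl, hi, hθc i a hi]
    · rw [if_neg h, if_neg h, zero_smul]
  choose s1 t1 h1 using hclass
  let S0 : Fin k → (Fin n → F) := fun i => s1 (w i) i
  let T0 : Fin k → (Fin n → F) := fun i => t1 (w i) i
  have hS0 : ∀ i, S0 i ∈ V0 ∧ S0 i ∈ S (w i) := fun i => ((h1 (w i) i rfl).1 i).1
  have hT0 : ∀ i, T0 i ∈ V0 ∧ T0 i ∈ S (w i) := fun i => ((h1 (w i) i rfl).1 i).2
  have hS0T0 : ∀ i j, beF B F (S0 i) (T0 j) = if i = j then θ i • vx F (w i) else 0 := by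
    intro i j
    by_cases hij : w i = w j
    · have h2 := ((h1 (w i) i rfl).2 i j rfl hij.symm).1
      change beF B F (s1 (w i) i) (t1 (w j) j) = _
      rw [← hij]; exact h2
    · rw [if_neg (fun h : i = j => hij (by rw [h]))]
      exact horth _ _ hij _ (hS0 i).2 _ (hT0 j).2
  have hS0S0 : ∀ i j, beF B F (S0 i) (S0 j) = 0 := by
    intro i j
    by_cases hij : w i = w j
    · have h2 := ((h1 (w i) i rfl).2 i j rfl hij.symm).2.1
      change beF B F (s1 (w i) i) (s1 (w j) j) = _
      rw [← hij]; exact h2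
    · exact horth _ _ hij _ (hS0 i).2 _ (hS0 j).2
  have hT0T0 : ∀ i j, beF B F (T0 i) (T0 j) = 0 := by
    intro i j
    by_cases hij : w i = w j
    · have h2 := ((h1 (w i) i rfl).2 i j rfl hij.symm).2.2
      change beF B F (t1 (w i) i) (t1 (w j) j) = _
      rw [← hij]; exact h2
    · exact horth _ _ hij _ (hT0 i).2 _ (hT0 j).2
  -- `u y` is orthogonal to the classes
  have huS : ∀ y c, ∀ z ∈ S c, beF B F (u y) z = 0 := by
    intro y c z hz
    induction hz using Submodule.span_induction with
    | mem z hz =>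
      obtain ⟨j, hj, rfl | rfl⟩ := hz
      · rw [beF_comm, hx', hxu', zero_smul]
      · rw [beF_comm, hx, hxu, zero_smul]
    | zero => simp
    | add z z' _ _ h h' => rw [map_add, h, h', add_zero]
    | smul a z _ h => rw [map_smul, h, smul_zero]
  -- the map `α`
  let α : (Fin n → F) →ₗ[F] (Fin n → F) :=
    u + ∑ i, ((x i).smulRight (S0 i) + (x' i).smulRight (T0 i))
  have hα : ∀ y, α y = u y + ∑ i, (x i y • S0 i + x' i y • T0 i) := by
    intro y
    simp [α, LinearMap.sum_apply]
  have hαinj : ∀ y, α y = 0 → y = 0 := by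
    intro y hy
    have hxy : ∀ j, x j y = 0 := by
      intro j
      have h3 : beF B F (α y) (T0 j) = (x j y * θ j) • vx F (w j) := by
        rw [hα, map_add, LinearMap.add_apply, huS y _ _ (hT0 j).2, zero_add, map_sum,
          LinearMap.sum_apply]
        simp only [map_add, LinearMap.add_apply, map_smul, LinearMap.smul_apply, hS0T0, hT0T0,
          smul_zero, add_zero, smul_ite]
        rw [Finset.sum_ite_eq' Finset.univ j]
        simp only [Finset.mem_univ, if_true, smul_smul]
      rw [hy, map_zero, LinearMap.zero_apply] at h3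
      have h4 := (smul_eq_zero.1 h3.symm).resolve_right (hvw j)
      exact (mul_eq_zero.1 h4).resolve_right (hθ0 j)
    have hxy' : ∀ j, x' j y = 0 := by
      intro j
      have h3 : beF B F (α y) (S0 j) = (x' j y * θ j) • vx F (w j) := by
        rw [hα, map_add, LinearMap.add_apply, huS y _ _ (hS0 j).2, zero_add, map_sum,
          LinearMap.sum_apply]
        have h5 : ∀ i, beF B F (T0 i) (S0 j) = if i = j then θ j • vx F (w j) else 0 := by
          intro i
          rw [beF_comm, hS0T0]
          by_cases h : i = j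
          · rw [if_pos h, if_pos h.symm]
          · rw [if_neg h, if_neg (Ne.symm h)]
        simp only [map_add, LinearMap.add_apply, map_smul, LinearMap.smul_apply, h5, hS0S0,
          smul_zero, zero_add, smul_ite]
        rw [Finset.sum_ite_eq' Finset.univ j]
        simp only [Finset.mem_univ, if_true, smul_smul]
      rw [hy, map_zero, LinearMap.zero_apply] at h3
      have h4 := (smul_eq_zero.1 h3.symm).resolve_right (hvw j)
      exact (mul_eq_zero.1 h4).resolve_right (hθ0 j)
    have h3 := hα y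
    simp only [hxy, hxy', zero_smul, add_zero, Finset.sum_const_zero] at h3
    rw [hyu y, ← h3, hy]
    simp [hxy, hxy']
  have hαV : ∀ v : Fin n → ZMod 2, α (vx F v) ∈ V0 := by
    intro v
    rw [hV0, hα, map_add, hCu, map_sum, frv_add, frv_sum]
    congr 1
    · obtain ⟨v2, h3, _, _⟩ := hurat v
      rw [h3, frv_vx]
    · refine Finset.sum_congr rfl fun i _ => ?_
      have h3 := hxf i (vx F v)
      have h4 := hxf' i (vx F v)
      rw [frv_vx] at h3 h4
      rw [frv_add, frv_smul, frv_smul, ← h3, ← h4, map_add, map_smul, map_smul,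
        ← (hV0 _).1 (hS0 i).1, ← (hV0 _).1 (hT0 i).1]
  have hMinj : ∀ z z' : Fin n → ZMod 2, M0 *ᵥ vx F z = M0 *ᵥ vx F z' → z = z' := by
    intro z z' h
    apply vx_injective (F := F)
    have h8 := congrArg (fun v => M0⁻¹ *ᵥ v) h
    simp only [Matrix.mulVec_mulVec, hM0'', Matrix.one_mulVec] at h8
    exact h8
  choose ψ hψ using fun v => hVM _ (hαV v)
  have hψadd : ∀ v v', ψ (v + v') = ψ v + ψ v' := by
    intro v v'
    apply hMinj
    rw [← hψ, vx_add, map_add, hψ v, hψ v', vx_add, Matrix.mulVec_add]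
  have hψinj : Function.Injective (AddMonoidHom.mk' ψ hψadd) := by
    rw [injective_iff_map_eq_zero]
    intro v hv
    have hv' : ψ v = 0 := hv
    have h3 := hψ v
    rw [hv', vx_zero, Matrix.mulVec_zero] at h3
    apply vx_injective (F := F)
    rw [hαinj _ h3, vx_zero]
  let Ψ : (Fin n → ZMod 2) ≃+ (Fin n → ZMod 2) :=
    AddEquiv.ofBijective (AddMonoidHom.mk' ψ hψadd) (Finite.injective_iff_bijective.1 hψinj)
  have hΨ : ∀ v, Ψ v = ψ v := fun _ => rfl
  -- the quadratic form
  choose l3 hl3 using c3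
  choose l3' hl3' using c3'
  have c4' : ∀ i, ∃ lam : (Fin m → F) →ₗ[F] F, ∀ y,
      ((x i y * x' i y) * (θ i + 1)) = lam (qF B F y) := by
    intro i
    rcases c4 i with h | ⟨lam, h⟩
    · refine ⟨0, fun y => ?_⟩
      rw [h, CharTwo.add_self_eq_zero]; simp
    · refine ⟨(θ i + 1) • lam, fun y => ?_⟩
      rw [h, LinearMap.smul_apply, smul_eq_mul, mul_comm]
  choose l4 hl4 using c4'
  let L : (Fin m → F) →ₗ[F] (Fin m → F) := LinearMap.id +
    ∑ i, ((l3 i).smulRight (qF B F (S0 i) + qF B F (vx F (s i))) +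
      (l3' i).smulRight (qF B F (T0 i) + qF B F (vx F (t i))) + (l4 i).smulRight (vx F (w i)))
  have hq1 : ∀ y, qF B F (α y) = qF B F (u y) + ∑ i, ((x i y) ^ 2 • qF B F (S0 i) +
      (x' i y) ^ 2 • qF B F (T0 i) + (x i y * x' i y) • (θ i • vx F (w i))) := by
    intro y
    rw [hα]
    exact qF_hyp Finset.univ S0 T0 (fun i => θ i • vx F (w i)) hS0T0 hS0S0 hT0T0 (u y)
      (fun i => huS y _ _ (hS0 i).2) (fun i => huS y _ _ (hT0 i).2) _ _
  have hq2 : ∀ y, qF B F y = qF B F (u y) + ∑ i, ((x i y) ^ 2 • qF B F (vx F (s i)) +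
      (x' i y) ^ 2 • qF B F (vx F (t i)) + (x i y * x' i y) • vx F (w i)) := by
    intro y
    conv_lhs => rw [hyu y]
    refine qF_hyp Finset.univ (fun i => vx F (s i)) (fun i => vx F (t i)) (fun i => vx F (w i))
      ?_ ?_ ?_ (u y) (fun i => huS y _ _ (hsS i)) (fun i => huS y _ _ (htS i)) _ _
    · intro i j
      rw [beF_vx, hst]
      split_ifs <;> simp
    · intro i j
      rw [beF_vx, hss, vx_zero]
    · intro i j
      rw [beF_vx, htt, vx_zero]
  have hq3 : ∀ y, qF B F (α y) = L (qF B F y) := by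
    intro y
    have h3 : L (qF B F y) = qF B F y + ∑ i, ((x i y) ^ 2 • (qF B F (S0 i) +
        qF B F (vx F (s i))) + (x' i y) ^ 2 • (qF B F (T0 i) + qF B F (vx F (t i))) +
        ((x i y * x' i y) * (θ i + 1)) • vx F (w i)) := by
      simp only [L, LinearMap.add_apply, LinearMap.sum_apply, LinearMap.smulRight_apply,
        LinearMap.id_apply, hl3, hl3', hl4]
    rw [h3, hq1]
    conv_rhs => rw [hq2 y]
    rw [add_assoc, ← Finset.sum_add_distrib]
    congr 1
    refine Finset.sum_congr rfl fun i _ => ?_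
    have h5 : ∀ (a b c d e f : Fin m → F), d + d = 0 → e + e = 0 → f + f = 0 →
        a + b + c = d + e + f + (a + d + (b + e) + (c + f)) := by
      intro a b c d e f hd he hf
      have : d + e + f + (a + d + (b + e) + (c + f)) =
        a + b + c + ((d + d) + (e + e) + (f + f)) := by abel
      rw [this, hd, he, hf]; simp
    have h6 := vadd_self (F := F) ((x i y) ^ 2 • qF B F (vx F (s i)))
    have h7 := vadd_self (F := F) ((x' i y) ^ 2 • qF B F (vx F (t i)))
    have h8 := vadd_self (F := F) ((x i y * x' i y) • vx F (w i))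
    rw [smul_add, smul_add, mul_add, mul_one, add_smul, smul_smul]
    exact h5 _ _ _ _ _ _ h6 h7 h8
  refine ⟨Ψ, fun c hc => ?_⟩
  have h3 : ∀ z, qF B F (M0 *ᵥ vx F (Ψ z)) = L (vx F (bil B z z)) := by
    intro z
    rw [hΨ, ← hψ, hq3, qF_vx]
  simp only [h3]
  have h4 : ∀ (I : Finset (Fin n → ZMod 2)), ∑ z ∈ I, c z • L (vx F (bil B z z)) =
      L (vx F (∑ z ∈ I, c z • bil B z z)) := by
    intro I
    induction I using Finset.induction_on with
    | empty => simp
    | insert a I ha ih =>
      rw [Finset.sum_insert ha, Finset.sum_insert ha, vx_add, map_add, ih, vx_smul]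
      congr 1
      rw [← algebraMap_smul F (c a) (L _), ← algebraMap_smul F (c a) (vx F _), map_smul]
  rw [h4, hc, vx_zero, map_zero]

end Pool.Agent.T2H54.Mip2.H94
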