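import Mathlib
import Pool.Agent.T2H54.Mip2.PathDefs
import Pool.Agent.T2H54.Mip2.P10b

set_option autoImplicit false
set_option linter.unusedSectionVars false

/-! # Closure of the polynomial paths under products, quadratic paths -/

universe u

namespace Pool.Agent.T2H54.Mip2.H94

open Matrix Pool.Agent.R691.Mip Polynomial

/-- a quadratic identity over a ring extension can be checked on the constant vectors -/
lemma quad_ext_ring {F R : Type*} [Field F] [CommRing R] (φ : F →+* R) {n : ℕ} {E : Type*}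
    [AddCommGroup E] [Module R E] (f : (Fin n → R) →ₗ[R] (Fin n → R) →ₗ[R] E)
    (h : ∀ y : Fin n → F, f (fun i => φ (y i)) (fun i => φ (y i)) = 0) (y : Fin n → R) :
    f y y = 0 := by
  classical
  have hs : ∀ i : Fin n, (fun j => φ ((Pi.single i 1 : Fin n → F) j)) = (Pi.single i 1 : Fin n → R) := by
    intro i
    funext j
    by_cases hj : j = i
    · subst hj; simp
    · simp [Pi.single_eq_of_ne hj]
  have hpol : ∀ y z : Fin n → F, f (fun i => φ (y i)) (fun i => φ (z i)) +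
      f (fun i => φ (z i)) (fun i => φ (y i)) = 0 := by
    intro y z
    have h1 := h (y + z)
    have h2 : (fun i => φ ((y + z) i)) = (fun i => φ (y i)) + (fun i => φ (z i)) := by
      funext i; simp
    rw [h2] at h1
    simp only [map_add, LinearMap.add_apply, h y, h z] at h1
    rw [zero_add, add_zero] at h1
    rw [add_comm]
    exact h1
  have hp : f + f.flip = 0 := by
    apply LinearMap.pi_ext'
    intro i
    apply LinearMap.ext_ring
    apply LinearMap.pi_ext'
    intro j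
    apply LinearMap.ext_ring
    have h3 := hpol (Pi.single i 1) (Pi.single j 1)
    rw [hs, hs] at h3
    simpa using h3
  have hp' : ∀ y z, f y z + f z y = 0 := by
    intro y z
    have := congrArg (fun g => g y z) hp
    simpa using this
  have hsum : ∀ I : Finset (Fin n), f (∑ i ∈ I, y i • (Pi.single i 1 : Fin n → R))
      (∑ i ∈ I, y i • (Pi.single i 1 : Fin n → R)) = 0 := by
    intro I
    induction I using Finset.induction_on with
    | empty => simp
    | insert a I ha ih =>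
      rw [Finset.sum_insert ha]
      simp only [map_add, LinearMap.add_apply, ih, add_zero]
      have h4 := h (Pi.single a 1)
      rw [hs] at h4
      have h5 : f (y a • (Pi.single a 1 : Fin n → R)) (y a • (Pi.single a 1 : Fin n → R)) = 0 := by
        rw [map_smul, map_smul, LinearMap.smul_apply, h4, smul_zero, smul_zero]
      rw [h5, zero_add, add_comm]
      exact hp' _ _
  have hy : y = ∑ i, y i • (Pi.single i 1 : Fin n → R) := by
    funext j
    simp [Finset.sum_apply, Pi.single_apply]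
  rw [hy]
  exact hsum _

variable {n m : ℕ} {B : Fin m → Matrix (Fin n) (Fin n) (ZMod 2)}
  {F : Type u} [Field F] [CharP F 2] [Algebra (ZMod 2) F]

theorem Pth.mul {g g' : Matrix (Fin n) (Fin n) F} (hg : Pth B g) (hg' : Pth B g') :
    Pth B (g * g') := by
  obtain ⟨D, ⟨Θ, hΘ⟩, h1, h0⟩ := hg
  obtain ⟨D', ⟨Θ', hΘ'⟩, h1', h0'⟩ := hg'
  refine ⟨D * D', ⟨Θ * Θ', fun y => ?_⟩, ?_, ?_⟩
  · rw [← Matrix.mulVec_mulVec, hΘ, hΘ', Matrix.mulVec_mulVec]
  · have : (D * D').map (eval 1) = D.map (eval 1) * D'.map (eval 1) :=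
      Matrix.map_mul (f := evalRingHom (1 : F))
    rw [this, h1, h1']
  · have : (D * D').map (eval 0) = D.map (eval 0) * D'.map (eval 0) :=
      Matrix.map_mul (f := evalRingHom (0 : F))
    rw [this, h0, h0', one_mul]

/-- constant vectors -/
noncomputable def cv {a : ℕ} (y : Fin a → F) : Fin a → F[X] := fun i => C (y i)

lemma cv_mulVec {a b : ℕ} (M : Matrix (Fin a) (Fin b) F) (y : Fin b → F) :
    (M.map C) *ᵥ cv y = cv (M *ᵥ y) := by
  funext i
  exact (RingHom.map_mulVec (C : F →+* F[X]) M y i).symm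

lemma cv_bil (y z : Fin n → F) : bil (BX B F) (cv y) (cv z) = cv (bil (BF B F) y z) := by
  funext l
  change cv y ⬝ᵥ ((BF B F l).map C *ᵥ cv z) = C (y ⬝ᵥ (BF B F l *ᵥ z))
  rw [cv_mulVec]
  exact (RingHom.map_dotProduct (C : F →+* F[X]) _ _).symm

lemma cv_add {a : ℕ} (y z : Fin a → F) : cv (y + z) = cv y + cv z := by
  funext i; simp [cv]

/-- the bilinear map over `F[X]` -/
noncomputable def bilX (B : Fin m → Matrix (Fin n) (Fin n) (ZMod 2)) (F : Type u) [Field F]
    [Algebra (ZMod 2) F] : (Fin n → F[X]) →ₗ[F[X]] (Fin n → F[X]) →ₗ[F[X]] (Fin m → F[X]) :=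
  LinearMap.mk₂ F[X] (fun y z => bil (BX B F) y z)
    (by intro a b c; simp only [bil_add_left])
    (by intro a b c; simp only [bil_smul_left])
    (by intro a b c; simp only [bil_add_right])
    (by intro a b c; simp only [bil_smul_right])

theorem Pth.quad (C1 C2 : Matrix (Fin n) (Fin n) F)
    (A1 A2 A3 A4 : (Fin m → F) →ₗ[F] (Fin m → F))
    (h1 : ∀ y, beF B F y (C1 *ᵥ y) = A1 (qF B F y))
    (h2 : ∀ y, qF B F (C1 *ᵥ y) + beF B F y (C2 *ᵥ y) = A2 (qF B F y))
    (h3 : ∀ y, beF B F (C1 *ᵥ y) (C2 *ᵥ y) = A3 (qF B F y))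
    (h4 : ∀ y, qF B F (C2 *ᵥ y) = A4 (qF B F y)) : Pth B (1 + C1 + C2) := by
  classical
  let Cf : F →+* F[X] := C
  let Dp : Matrix (Fin n) (Fin n) F[X] := 1 + (X : F[X]) • C1.map Cf + (X : F[X]) ^ 2 • C2.map Cf
  let Θp : Matrix (Fin m) (Fin m) F[X] := 1 + (X : F[X]) • (LinearMap.toMatrix' A1).map Cf +
    (X : F[X]) ^ 2 • (LinearMap.toMatrix' A2).map Cf +
    (X : F[X]) ^ 3 • (LinearMap.toMatrix' A3).map Cf +
    (X : F[X]) ^ 4 • (LinearMap.toMatrix' A4).map Cf
  have hcm : ∀ {a b : ℕ} (M : Matrix (Fin a) (Fin b) F) (y : Fin b → F),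
    (M.map Cf) *ᵥ cv y = cv (M *ᵥ y) := fun M y => cv_mulVec M y
  have hD : ∀ y : Fin n → F, Dp *ᵥ cv y =
      cv y + (X : F[X]) • cv (C1 *ᵥ y) + (X : F[X]) ^ 2 • cv (C2 *ᵥ y) := by
    intro y
    simp only [Dp, Matrix.add_mulVec, Matrix.one_mulVec, Matrix.smul_mulVec, hcm]
  have hΘ : ∀ y : Fin m → F, Θp *ᵥ cv y = cv y + (X : F[X]) • cv (A1 y) +
      (X : F[X]) ^ 2 • cv (A2 y) + (X : F[X]) ^ 3 • cv (A3 y) + (X : F[X]) ^ 4 • cv (A4 y) := by
    intro y
    simp only [Θp, Matrix.add_mulVec, Matrix.one_mulVec, Matrix.smul_mulVec, hcm,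
      LinearMap.toMatrix'_mulVec]
  refine ⟨Dp, ⟨Θp, fun y => ?_⟩, ?_, ?_⟩
  · have hq := quad_ext_ring (C : F →+* F[X])
      (((bilX B F).compl₁₂ Dp.mulVecLin Dp.mulVecLin) - (bilX B F).compr₂ Θp.mulVecLin)
      (fun y => by
        change bil (BX B F) (Dp *ᵥ cv y) (Dp *ᵥ cv y) - Θp *ᵥ bil (BX B F) (cv y) (cv y) = 0
        have e1 : bil (BF B F) y (C1 *ᵥ y) + bil (BF B F) (C1 *ᵥ y) y = A1 (bil (BF B F) y y) :=
          h1 y
        have e2 : bil (BF B F) (C1 *ᵥ y) (C1 *ᵥ y) + (bil (BF B F) y (C2 *ᵥ y) +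
          bil (BF B F) (C2 *ᵥ y) y) = A2 (bil (BF B F) y y) := h2 y
        have e3 : bil (BF B F) (C1 *ᵥ y) (C2 *ᵥ y) + bil (BF B F) (C2 *ᵥ y) (C1 *ᵥ y) =
          A3 (bil (BF B F) y y) := h3 y
        have e4 : bil (BF B F) (C2 *ᵥ y) (C2 *ᵥ y) = A4 (bil (BF B F) y y) := h4 y
        rw [cv_bil, hΘ, hD, ← e1, ← e2, ← e3, ← e4]
        simp only [bil_add_left, bil_add_right, bil_smul_left, bil_smul_right, cv_bil, cv_add,
          smul_add, smul_smul]
        rw [sub_eq_zero]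
        have p2 : (X : F[X]) * X = X ^ 2 := by ring
        have p3 : (X : F[X]) * X ^ 2 = X ^ 3 := by ring
        have p3' : (X : F[X]) ^ 2 * X = X ^ 3 := by ring
        have p4 : (X : F[X]) ^ 2 * X ^ 2 = X ^ 4 := by ring
        rw [p2, p3, p3', p4]
        abel) y
    exact sub_eq_zero.1 hq
  · ext i j
    by_cases hij : i = j
    · subst hij; simp [Dp, Cf, Matrix.map_apply]
    · simp [Dp, Cf, Matrix.map_apply, Matrix.one_apply_ne hij]
  · ext i j
    by_cases hij : i = j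
    · subst hij; simp [Dp, Cf, Matrix.map_apply]
    · simp [Dp, Cf, Matrix.map_apply, Matrix.one_apply_ne hij]

end Pool.Agent.T2H54.Mip2.H94
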