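import Mathlib
import Pool.Agent.T2H54.Mip2.PAa

set_option autoImplicit false
set_option linter.unusedSectionVars false

/-! # The transvection lemma -/

universe u

namespace Pool.Agent.T2H54.Mip2.H94

open Matrix Pool.Agent.R691.Mip Polynomial

variable {n m : ℕ} {B : Fin m → Matrix (Fin n) (Fin n) (ZMod 2)}
  {F : Type u} [Field F] [CharP F 2] [Algebra (ZMod 2) F]

lemma beF_self (y : Fin n → F) : beF B F y y = 0 := by
  rw [beF_apply]; exact vadd_self (F := F) _

/-- a quadratic path in terms of linear maps with vanishing second coefficient -/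
lemma Pth.lin (N : (Fin n → F) →ₗ[F] (Fin n → F)) (A1 A2 : (Fin m → F) →ₗ[F] (Fin m → F))
    (h1 : ∀ y, beF B F y (N y) = A1 (qF B F y))
    (h2 : ∀ y, qF B F (N y) = A2 (qF B F y)) :
    Pth B (LinearMap.toMatrix' (LinearMap.id + N)) := by
  have h := Pth.quad (B := B) (LinearMap.toMatrix' N) 0 A1 A2 0 0
    (by intro y; rw [LinearMap.toMatrix'_mulVec]; exact h1 y)
    (by intro y; rw [LinearMap.toMatrix'_mulVec, Matrix.zero_mulVec, map_zero, add_zero]; exact h2 y)
    (by intro y; rw [Matrix.zero_mulVec, map_zero]; rfl)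
    (by intro y; rw [Matrix.zero_mulVec, qF_zero]; rfl)
  rw [add_zero] at h
  rw [map_add, LinearMap.toMatrix'_id]
  exact h

theorem PA {k : ℕ} (s t : Fin k → (Fin n → ZMod 2)) (w : Fin k → (Fin m → ZMod 2))
    (hw : ∀ i, w i ≠ 0)
    (hst : ∀ i j, be B (s i) (t j) = if i = j then w i else 0)
    (hss : ∀ i j, be B (s i) (s j) = 0) (htt : ∀ i j, be B (t i) (t j) = 0)
    (x x' : Fin k → (Fin n → F) →ₗ[F] F)
    (hx : ∀ i y, beF B F (vx F (t i)) y = x i y • vx F (w i))
    (hx' : ∀ i y, beF B F (vx F (s i)) y = x' i y • vx F (w i))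
    (c3 : ∀ i, ∃ lam : (Fin m → F) →ₗ[F] F, ∀ y, (x i y) ^ 2 = lam (qF B F y))
    (c3' : ∀ i, ∃ lam : (Fin m → F) →ₗ[F] F, ∀ y, (x' i y) ^ 2 = lam (qF B F y))
    (g : (Fin n → F) →ₗ[F] (Fin n → F))
    (hiso : ∀ y z, beF B F (g y) (g z) = beF B F y z)
    (c1 : ∀ y, (∀ i, x i y = 0) → (∀ i, x' i y = 0) → g y = y)
    (c2 : ∀ i, g (vx F (s i)) ∈
      Submodule.span F {y | ∃ j, w j = w i ∧ (y = vx F (s j) ∨ y = vx F (t j))})
    (c2' : ∀ i, g (vx F (t i)) ∈
      Submodule.span F {y | ∃ j, w j = w i ∧ (y = vx F (s j) ∨ y = vx F (t j))}) :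
    Pth B (LinearMap.toMatrix' g) := by
  classical
  have hvw : ∀ i, vx F (w i) ≠ 0 := by
    intro i h
    exact hw i (vx_injective (F := F) (by rw [h, vx_zero]))
  have hwl : ∀ i, ∃ l, w i l = 1 := by
    intro i
    by_contra hcon
    push Not at hcon
    apply hw i
    funext l
    have := hcon l
    have h01 : ∀ a : ZMod 2, a = 0 ∨ a = 1 := by decide
    rcases h01 (w i l) with h | h
    · exact h
    · exact absurd h this
  -- the coordinate functionals on the `s`, `t`
  have hxs : ∀ i j, x i (vx F (s j)) = if i = j then 1 else 0 := by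
    intro i j
    have h1 := hx i (vx F (s j))
    rw [beF_vx, be_comm, hst] at h1
    by_cases h : i = j
    · subst h
      rw [if_pos rfl] at h1 ⊢
      have h2 : (x i (vx F (s i)) - 1) • vx F (w i) = 0 := by
        rw [sub_smul, one_smul, ← h1, sub_self]
      rcases smul_eq_zero.1 h2 with h3 | h3
      · exact sub_eq_zero.1 h3
      · exact absurd h3 (hvw i)
    · rw [if_neg (Ne.symm h), vx_zero] at h1
      rw [if_neg h]
      rcases smul_eq_zero.1 h1.symm with h3 | h3
      · exact h3
      · exact absurd h3 (hvw i)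
  have hxt : ∀ i j, x i (vx F (t j)) = 0 := by
    intro i j
    have h1 := hx i (vx F (t j))
    rw [beF_vx, htt, vx_zero] at h1
    rcases smul_eq_zero.1 h1.symm with h3 | h3
    · exact h3
    · exact absurd h3 (hvw i)
  have hxt' : ∀ i j, x' i (vx F (t j)) = if i = j then 1 else 0 := by
    intro i j
    have h1 := hx' i (vx F (t j))
    rw [beF_vx, hst] at h1
    by_cases h : i = j
    · subst h
      rw [if_pos rfl] at h1 ⊢
      have h2 : (x' i (vx F (t i)) - 1) • vx F (w i) = 0 := by
        rw [sub_smul, one_smul, ← h1, sub_self]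
      rcases smul_eq_zero.1 h2 with h3 | h3
      · exact sub_eq_zero.1 h3
      · exact absurd h3 (hvw i)
    · rw [if_neg h, vx_zero] at h1
      rw [if_neg h]
      rcases smul_eq_zero.1 h1.symm with h3 | h3
      · exact h3
      · exact absurd h3 (hvw i)
  have hxs' : ∀ i j, x' i (vx F (s j)) = 0 := by
    intro i j
    have h1 := hx' i (vx F (s j))
    rw [beF_vx, hss, vx_zero] at h1
    rcases smul_eq_zero.1 h1.symm with h3 | h3
    · exact h3
    · exact absurd h3 (hvw i)
  let S : (Fin m → ZMod 2) → Submodule F (Fin n → F) := fun c =>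
    Submodule.span F {y | ∃ j, w j = c ∧ (y = vx F (s j) ∨ y = vx F (t j))}
  have hsS : ∀ i, vx F (s i) ∈ S (w i) := fun i => Submodule.subset_span ⟨i, rfl, Or.inl rfl⟩
  have htS : ∀ i, vx F (t i) ∈ S (w i) := fun i => Submodule.subset_span ⟨i, rfl, Or.inr rfl⟩
  -- the part orthogonal to the classes
  let u : (Fin n → F) →ₗ[F] (Fin n → F) :=
    LinearMap.id + ∑ i, ((x i).smulRight (vx F (s i)) + (x' i).smulRight (vx F (t i)))
  have hu : ∀ y, u y = y + ∑ i, (x i y • vx F (s i) + x' i y • vx F (t i)) := by
    intro y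
    simp [u, LinearMap.sum_apply]
  have hyu : ∀ y, y = u y + ∑ i, (x i y • vx F (s i) + x' i y • vx F (t i)) := by
    intro y
    rw [hu, add_assoc, vadd_self (F := F), add_zero]
  have hxu : ∀ j y, x j (u y) = 0 := by
    intro j y
    rw [hu, map_add, map_sum]
    simp only [map_add, map_smul, hxs, hxt, smul_eq_mul, mul_zero, add_zero, mul_ite, mul_one]
    rw [Finset.sum_ite_eq]
    simp only [Finset.mem_univ, if_true]
    exact CharTwo.add_self_eq_zero _
  have hxu' : ∀ j y, x' j (u y) = 0 := by
    intro j y
    rw [hu, map_add, map_sum]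
    simp only [map_add, map_smul, hxs', hxt', smul_eq_mul, mul_zero, zero_add, mul_ite, mul_one]
    rw [Finset.sum_ite_eq]
    simp only [Finset.mem_univ, if_true]
    exact CharTwo.add_self_eq_zero _
  -- the form on a class
  have hform : ∀ c l, vx F c l = 1 → ∀ y ∈ S c, ∀ z, beF B F y z = (beF B F y z l) • vx F c := by
    intro c l hl y hy z
    induction hy using Submodule.span_induction with
    | mem y hy =>
      obtain ⟨j, hj, rfl | rfl⟩ := hy
      · rw [hx', hj, Pi.smul_apply, hl, smul_eq_mul, mul_one]
      · rw [hx, hj, Pi.smul_apply, hl, smul_eq_mul, mul_one]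
    | zero => simp
    | add y y' _ _ hy hy' =>
      rw [map_add, LinearMap.add_apply, Pi.add_apply, add_smul, ← hy, ← hy']
    | smul a y _ hy =>
      rw [map_smul, LinearMap.smul_apply, Pi.smul_apply, smul_eq_mul, mul_smul, ← hy]
  have hSu : ∀ c, ∀ y ∈ S c, ∀ z, (∀ i, x i z = 0) → (∀ i, x' i z = 0) → beF B F y z = 0 := by
    intro c y hy z hz hz'
    induction hy using Submodule.span_induction with
    | mem y hy =>
      obtain ⟨j, hj, rfl | rfl⟩ := hy
      · rw [hx', hz', zero_smul]
      · rw [hx, hz, zero_smul]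
    | zero => simp
    | add y y' _ _ hy hy' => rw [map_add, LinearMap.add_apply, hy, hy', add_zero]
    | smul a y _ hy => rw [map_smul, LinearMap.smul_apply, hy, smul_zero]
  have horth : ∀ c c', c ≠ c' → ∀ y ∈ S c, ∀ z ∈ S c', beF B F y z = 0 := by
    intro c c' hne y hy z hz
    have h1 : ∀ i, w i ≠ c' → x i z = 0 ∧ x' i z = 0 := by
      intro i hi
      clear hy
      induction hz using Submodule.span_induction with
      | mem z hz =>
        obtain ⟨j, hj, rfl | rfl⟩ := hz
        · have hij : i ≠ j := fun h => hi (h ▸ hj)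
          rw [hxs, if_neg hij, hxs']
          exact ⟨rfl, rfl⟩
        · have hij : i ≠ j := fun h => hi (h ▸ hj)
          rw [hxt, hxt', if_neg hij]
          exact ⟨rfl, rfl⟩
      | zero => simp
      | add y y' _ _ hy hy' =>
        rw [map_add, map_add, hy.1, hy.2, hy'.1, hy'.2]; simp
      | smul a y _ hy => rw [map_smul, map_smul, hy.1, hy.2]; simp
    induction hy using Submodule.span_induction with
    | mem y hy =>
      obtain ⟨j, hj, rfl | rfl⟩ := hy
      · rw [hx', (h1 j (hj ▸ hne)).2, zero_smul]
      · rw [hx, (h1 j (hj ▸ hne)).1, zero_smul]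
    | zero => simp
    | add y y' _ _ hy hy' => rw [map_add, LinearMap.add_apply, hy, hy', add_zero]
    | smul a y _ hy => rw [map_smul, LinearMap.smul_apply, hy, smul_zero]
  -- squares of the functionals `beF u · l`
  have hsq : ∀ c l, vx F c l = 1 → ∀ y ∈ S c, ∃ lam : (Fin m → F) →ₗ[F] F,
      ∀ z, (beF B F y z l) ^ 2 = lam (qF B F z) := by
    intro c l hl y hy
    induction hy using Submodule.span_induction with
    | mem y hy =>
      obtain ⟨j, hj, rfl | rfl⟩ := hy
      · obtain ⟨lam, h⟩ := c3' j
        refine ⟨lam, fun z => ?_⟩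
        rw [hx', hj, Pi.smul_apply, hl, smul_eq_mul, mul_one, h]
      · obtain ⟨lam, h⟩ := c3 j
        refine ⟨lam, fun z => ?_⟩
        rw [hx, hj, Pi.smul_apply, hl, smul_eq_mul, mul_one, h]
    | zero => exact ⟨0, fun z => by simp⟩
    | add y y' _ _ hy hy' =>
      obtain ⟨lam, h⟩ := hy
      obtain ⟨lam', h'⟩ := hy'
      refine ⟨lam + lam', fun z => ?_⟩
      rw [map_add, LinearMap.add_apply, Pi.add_apply, add_pow_char _ _ 2, h, h',
        LinearMap.add_apply]
    | smul a y _ hy =>
      obtain ⟨lam, h⟩ := hy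
      refine ⟨a ^ 2 • lam, fun z => ?_⟩
      rw [map_smul, LinearMap.smul_apply, Pi.smul_apply, smul_eq_mul, mul_pow, h,
        LinearMap.smul_apply, smul_eq_mul]
  -- decomposition of a vector by classes
  let pc : (Fin m → ZMod 2) → (Fin n → F) → (Fin n → F) := fun c y =>
    ∑ i ∈ Finset.univ.filter (fun i => w i = c), (x i y • vx F (s i) + x' i y • vx F (t i))
  have hpcS : ∀ c y, pc c y ∈ S c := by
    intro c y
    refine Submodule.sum_mem _ fun i hi => ?_
    have hi' := (Finset.mem_filter.1 hi).2
    exact Submodule.add_mem _ (Submodule.smul_mem _ _ (hi' ▸ hsS i))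
      (Submodule.smul_mem _ _ (hi' ▸ htS i))
  have hdec : ∀ y, y = u y + ∑ c, pc c y := by
    intro y
    conv_lhs => rw [hyu y]
    rw [Finset.sum_fiberwise]
  -- induction
  clear hw
  induction hN : n - Module.finrank F (LinearMap.ker (g - LinearMap.id)) using
    Nat.strong_induction_on generalizing g with
  | _ d ih =>
  have hgS : ∀ c, ∀ y ∈ S c, g y ∈ S c := by
    intro c y hy
    induction hy using Submodule.span_induction with
    | mem y hy =>
      obtain ⟨j, hj, rfl | rfl⟩ := hy
      · have := c2 j; rw [hj] at this; exact this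
      · have := c2' j; rw [hj] at this; exact this
    | zero => simp
    | add y y' _ _ hy hy' => rw [map_add]; exact Submodule.add_mem _ hy hy'
    | smul a y _ hy => rw [map_smul]; exact Submodule.smul_mem _ _ hy
  by_cases hcase : ∃ c, ∃ y ∈ S c, beF B F (g y) y ≠ 0
  · -- transvection
    obtain ⟨c, y, hy, hne⟩ := hcase
    have hci : ∃ i, w i = c := by
      by_contra hcon
      push Not at hcon
      apply hne
      have : y = 0 := by
        have h1 : {y : Fin n → F | ∃ j, w j = c ∧ (y = vx F (s j) ∨ y = vx F (t j))} = ∅ := by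
          ext z
          simp only [Set.mem_ofPred_eq, Set.mem_empty_iff_false, iff_false, not_exists]
          rintro j ⟨hj, _⟩
          exact hcon j hj
        have h2 : y ∈ Submodule.span F
          {y : Fin n → F | ∃ j, w j = c ∧ (y = vx F (s j) ∨ y = vx F (t j))} := hy
        rw [h1, Submodule.span_empty] at h2
        exact h2
      rw [this]; simp
    obtain ⟨i0, rfl⟩ := hci
    obtain ⟨l, hl⟩ := hwl i0
    have hl' : vx F (w i0) l = 1 := by
      change algebraMap (ZMod 2) F (w i0 l) = 1
      rw [hl, map_one]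
    set v := g y + y with hv
    have hvS : v ∈ S (w i0) := Submodule.add_mem _ (hgS _ _ hy) hy
    have hgy : g y = y + v := by
      rw [hv, add_comm (g y) y, ← add_assoc, vadd_self (F := F), zero_add]
    -- `b = ω(u,y)`
    have hbv : beF B F v y = beF B F (g y) y := by
      rw [hv, map_add, LinearMap.add_apply, beF_self, add_zero]
    set b := beF B F v y l with hb
    have hb0 : b ≠ 0 := by
      intro h
      apply hne
      rw [← hbv, hform _ l hl' v hvS y, ← hb, h, zero_smul]
    let om : (Fin n → F) →ₗ[F] F := LinearMap.proj l ∘ₗ beF B F v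
    have hom : ∀ z, om z = beF B F v z l := fun _ => rfl
    have hvz : ∀ z, beF B F v z = om z • vx F (w i0) := fun z => hform _ l hl' v hvS z
    have homv : om v = 0 := by rw [hom, beF_self]; rfl
    let N : (Fin n → F) →ₗ[F] (Fin n → F) := om.smulRight (b⁻¹ • v)
    have hNz : ∀ z, N z = (om z * b⁻¹) • v := by
      intro z
      rw [mul_smul]; rfl
    let T : (Fin n → F) →ₗ[F] (Fin n → F) := LinearMap.id + N
    have hT : ∀ z, T z = z + N z := fun _ => rfl
    have homN : ∀ z, om (N z) = 0 := by
      intro z; rw [hNz, map_smul, homv, smul_zero]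
    have hNN : ∀ z, N (N z) = 0 := by
      intro z; rw [hNz (N z), homN, zero_mul, zero_smul]
    have hTT : ∀ z, T (T z) = z := by
      intro z
      rw [hT (T z), hT z, map_add, hNN, add_zero, add_assoc, vadd_self (F := F), add_zero]
    have hTy : T y = g y := by
      rw [hT, hNz, hgy]
      congr 1
      rw [hom, ← hb, mul_inv_cancel₀ hb0, one_smul]
    have hTiso : ∀ z z', beF B F (T z) (T z') = beF B F z z' := by
      intro z z'
      rw [hT, hT]
      simp only [map_add, LinearMap.add_apply, hNz, map_smul, LinearMap.smul_apply]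
      rw [beF_self, smul_zero, add_zero, beF_comm (B := B) (F := F) z v, hvz, hvz, add_assoc,
        smul_smul, smul_smul, show om z * b⁻¹ * om z' = om z' * b⁻¹ * om z by ring,
        vadd_self (F := F), add_zero]
    have hTfix : ∀ z, (∀ i, x i z = 0) → (∀ i, x' i z = 0) → T z = z := by
      intro z hz hz'
      rw [hT, hNz, hom, hSu _ v hvS z hz hz']
      simp
    have hTg : ∀ z, g z = z → T z = z := by
      intro z hz
      have h1 : beF B F v z = 0 := by
        rw [hv, map_add, LinearMap.add_apply]
        conv_lhs => rw [← hiso y z, hz]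
        exact vadd_self (F := F) _
      rw [hT, hNz, hom, h1]
      simp
    have hTS : ∀ c, ∀ z ∈ S c, T z ∈ S c := by
      intro c z hz
      rw [hT]
      refine Submodule.add_mem _ hz ?_
      by_cases hc : w i0 = c
      · rw [hNz]; exact Submodule.smul_mem _ _ (hc ▸ hvS)
      · rw [hNz, hom, horth _ _ hc v hvS z hz]
        simp
    -- the transvection is in the path component
    have hTP : Pth B (LinearMap.toMatrix' T) := by
      obtain ⟨lam, hlam⟩ := hsq _ l hl' v hvS
      refine Pth.lin N ((b⁻¹ • lam).smulRight (vx F (w i0)))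
        (((b⁻¹) ^ 2 • lam).smulRight (qF B F v)) ?_ ?_
      · intro z
        rw [hNz, map_smul, beF_comm, hvz, smul_smul, LinearMap.smulRight_apply,
          LinearMap.smul_apply, ← hlam, smul_eq_mul, hom]
        congr 1; ring
      · intro z
        rw [hNz, qF_smul, LinearMap.smulRight_apply, LinearMap.smul_apply, ← hlam, smul_eq_mul,
          hom]
        congr 1; ring
    -- apply the induction hypothesis to `T g`
    have hlt : n - Module.finrank F (LinearMap.ker (T ∘ₗ g - LinearMap.id)) < d := by
      rw [← hN]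
      have h1 : LinearMap.ker (g - LinearMap.id) < LinearMap.ker (T ∘ₗ g - LinearMap.id) := by
        refine lt_of_le_of_ne ?_ ?_
        · intro z hz
          rw [LinearMap.mem_ker, LinearMap.sub_apply, LinearMap.id_apply, sub_eq_zero] at hz
          rw [LinearMap.mem_ker, LinearMap.sub_apply, LinearMap.id_apply, sub_eq_zero,
            LinearMap.comp_apply, hz, hTg z hz]
        · intro h
          have h2 : y ∈ LinearMap.ker (T ∘ₗ g - LinearMap.id) := by
            rw [LinearMap.mem_ker, LinearMap.sub_apply, LinearMap.id_apply, sub_eq_zero,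
              LinearMap.comp_apply, ← hTy, hTT]
          rw [← h, LinearMap.mem_ker, LinearMap.sub_apply, LinearMap.id_apply, sub_eq_zero] at h2
          apply hne
          rw [h2, beF_self]
      have h2 := Submodule.finrank_lt_finrank_of_lt h1
      have h3 := Submodule.finrank_le (LinearMap.ker (T ∘ₗ g - LinearMap.id))
      rw [Module.finrank_fin_fun] at h3
      omega
    have h1 := ih _ hlt (T ∘ₗ g) ?_ ?_ ?_ ?_ rfl
    · have h2 := Pth.mul hTP h1
      rw [← LinearMap.toMatrix'_comp] at h2
      have h3 : T ∘ₗ T ∘ₗ g = g := by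
        apply LinearMap.ext
        intro z
        exact hTT (g z)
      rw [h3] at h2
      exact h2
    · intro z z'
      rw [LinearMap.comp_apply, LinearMap.comp_apply, hTiso, hiso]
    · intro z hz hz'
      rw [LinearMap.comp_apply, c1 z hz hz', hTfix z hz hz']
    · intro i
      exact hTS _ _ (c2 i)
    · intro i
      exact hTS _ _ (c2' i)
  · push Not at hcase
    let N : (Fin n → F) →ₗ[F] (Fin n → F) := g + LinearMap.id
    have hNz : ∀ z, N z = g z + z := fun _ => rfl
    have hgN : ∀ z, g z = z + N z := by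
      intro z
      rw [hNz, add_comm (g z) z, ← add_assoc, vadd_self (F := F), zero_add]
    have hNS : ∀ c, ∀ y ∈ S c, N y ∈ S c := fun c y hy =>
      Submodule.add_mem _ (hgS c y hy) hy
    have hNu : ∀ z, N (u z) = 0 := by
      intro z
      rw [hNz, c1 (u z) (fun i => hxu i z) (fun i => hxu' i z)]
      exact vadd_self (F := F) _
    have hNdec : ∀ z, N z = ∑ c, N (pc c z) := by
      intro z
      conv_lhs => rw [hdec z]
      rw [map_add, hNu, zero_add, map_sum]
    have h1 : ∀ z, beF B F z (N z) = 0 := by
      intro z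
      have e0 : beF B F z = beF B F (u z) + ∑ c, beF B F (pc c z) := by
        conv_lhs => rw [hdec z]
        rw [map_add, map_sum]
      rw [hNdec z, e0, LinearMap.add_apply, map_sum, LinearMap.sum_apply]
      have e1 : ∑ c, beF B F (u z) (N (pc c z)) = 0 := by
        refine Finset.sum_eq_zero fun c _ => ?_
        rw [beF_comm]
        exact hSu c _ (hNS c _ (hpcS c z)) _ (fun i => hxu i z) (fun i => hxu' i z)
      rw [e1, zero_add]
      refine Finset.sum_eq_zero fun c _ => ?_
      rw [map_sum]
      refine Finset.sum_eq_zero fun c' _ => ?_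
      by_cases hcc : c = c'
      · subst hcc
        rw [hNz, map_add, beF_self, add_zero, beF_comm]
        exact hcase c _ (hpcS c z)
      · exact horth c c' hcc _ (hpcS c z) _ (hNS c' _ (hpcS c' z))
    have h12 : ∀ z z', beF B F (N z) (N z') = 0 := by
      intro z z'
      have e1 := h1 (z + z')
      rw [N.map_add, (beF B F).map_add, LinearMap.add_apply, (beF B F z).map_add,
        (beF B F z').map_add, h1 z, h1 z', zero_add, add_zero] at e1
      have e2 := hiso z z'
      rw [hgN z, hgN z', (beF B F).map_add, LinearMap.add_apply, (beF B F z).map_add,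
        (beF B F (N z)).map_add, beF_comm (B := B) (F := F) (N z) z'] at e2
      have e3 : beF B F z z' + beF B F z (N z') + (beF B F z' (N z) + beF B F (N z) (N z')) =
          beF B F z z' + (beF B F z (N z') + beF B F z' (N z)) + beF B F (N z) (N z') := by abel
      rw [e3, e1, add_zero] at e2
      exact add_eq_left.1 e2
    choose l3 hl3 using c3
    choose l3' hl3' using c3'
    have h2 : ∀ z, qF B F (N z) = (∑ i, ((l3 i).smulRight (qF B F (N (vx F (s i)))) +
        (l3' i).smulRight (qF B F (N (vx F (t i)))))) (qF B F z) := by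
      intro z
      have e1 : N z = 0 + ∑ i, (x i z • N (vx F (s i)) + x' i z • N (vx F (t i))) := by
        conv_lhs => rw [hyu z]
        rw [map_add, hNu, map_sum]
        simp only [map_add, map_smul]
      have e2 := qF_hyp (B := B) (F := F) Finset.univ (fun i => N (vx F (s i)))
        (fun i => N (vx F (t i))) (fun _ => 0)
        (by intro i j; rw [h12]; split_ifs <;> rfl) (by intro i j; exact h12 _ _)
        (by intro i j; exact h12 _ _) 0 (by intro i; simp) (by intro i; simp)
        (fun i => x i z) (fun i => x' i z)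
      rw [e1, e2, qF_zero, zero_add]
      simp only [smul_zero, add_zero, LinearMap.sum_apply, LinearMap.add_apply,
        LinearMap.smulRight_apply, hl3, hl3']
    have h3 := Pth.lin (B := B) N 0 _ (fun z => by rw [h1]; rfl) h2
    have h4 : LinearMap.id + N = g := by
      apply LinearMap.ext
      intro z
      exact (hgN z).symm
    rw [h4] at h3
    exact h3

end Pool.Agent.T2H54.Mip2.H94
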