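import Mathlib
import Pool.Agent.T2H54.Mip2.LA6
import Pool.Agent.T2H54.Mip2.PA
import Pool.Agent.T2H54.Mip2.P5

set_option autoImplicit false
set_option linter.unusedSectionVars false
set_option linter.unusedVariables false

/-! # Linear algebra, part 8: the path -/

universe u

namespace Pool.Agent.T2H54.Mip2

open Matrix Pool.Agent.R691.Mip

section path
variable {n m : ℕ} {B : Fin m → Matrix (Fin n) (Fin n) (ZMod 2)}
  {F : Type u} [Field F] [CharP F 2] [Algebra (ZMod 2) F]

lemma Data.pth_g (d : Data B F) {h : Hyp B F} (hM : h.Max) :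
    Pth B (LinearMap.toMatrix' (d.g h)) := by
  refine H94.PA h.s h.t h.w (fun i => (h.hF i).1) h.hst h.hss h.htt h.x h.x' h.hx h.hx'
    (fun i => h.x_NN i) (fun i => h.x'_NN i) (d.g h) (fun y z => d.g_iso hM y z)
    (fun y h1 h2 => d.g_fix h h1 h2) ?_ ?_
  · intro i
    exact d.g_block h (h.hF i) (h.hs i) (h.pS_s i)
  · intro i
    exact d.g_block h (h.hF i) (h.ht i) (h.pS_t i)

lemma Data.pth_D (d : Data B F) {h : Hyp B F} (hM : h.Max)
    (hG2 : InQW B (fun z => qF B F (h.p2 (d.D z + z)))) :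
    Pth B (LinearMap.toMatrix' d.D) := by
  let C1 : (Fin n → F) →ₗ[F] (Fin n → F) := d.kap h + d.rho hM + d.de h + d.mu hM
  let C2 : (Fin n → F) →ₗ[F] (Fin n → F) := d.mu hM
  have hC1 : ∀ z, C1 z = d.kap h z + d.rho hM z + d.de h z + d.mu hM z := fun z => rfl
  have hC2 : ∀ z, C2 z = d.mu hM z := fun z => rfl
  have c1 : ∀ z, d.kap h z = h.pS (d.kap h z) := by
    intro z; rw [d.kap_apply, h.pS_pS]
  have krf : ∀ z r, h.p2 r = r → beF B F (d.kap h z) r = 0 := by
    intro z r hr; rw [c1, ← hr, h.orth]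
  have rr : ∀ {x y : Fin n → F}, x ∈ RF B F → y ∈ RF B F → beF B F x y = 0 :=
    fun hx hy => RF_TF hx (RF_le hy)
  have mu_de : ∀ z, beF B F (d.mu hM z) (d.de h z) = 0 := fun z =>
    d.rf_de (d.mu_RF hM z) (d.mu_p2 hM z) z
  have rho_de : ∀ z, beF B F (d.rho hM z) (d.de h z) = 0 := fun z =>
    d.rf_de (d.rho_RF hM z) (d.rho_p2 hM z) z
  -- the four conditions
  obtain ⟨A1, hA1⟩ : InQW B (fun z => beF B F z (C1 z)) := by
    refine ((d.G1 hM hG2).add (d.G5 hM)).congr fun z => ?_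
    have e1 : beF B F z (d.kap h z) = beF B F (d.rho hM z) z := by
      rw [← d.F6 hM, beF_comm, c1, h.be_pS, beF_comm]
    rw [hC1, map_add, map_add, map_add, e1, beF_comm B F z (d.rho hM z), add_selfLA, zero_add]
    have := add_selfLA (qF B F (d.kap h z))
    calc beF B F z (d.de h z) + beF B F z (d.mu hM z) =
          beF B F z (d.de h z) + beF B F z (d.mu hM z) +
          (qF B F (d.kap h z) + qF B F (d.kap h z)) := by rw [this, add_zero]
      _ = _ := by abel
  obtain ⟨A2, hA2⟩ : InQW B (fun z => qF B F (C1 z) + beF B F z (C2 z)) := by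
    refine ((((d.G5 hM).add (d.G3 hM)).add (d.G2 hM hG2)).add (d.G4 hM)).congr fun z => ?_
    rw [hC1, hC2, qF_add, qF_add, qF_add]
    have e1 : beF B F (d.kap h z + d.rho hM z + d.de h z) (d.mu hM z) = 0 := by
      simp only [map_add, LinearMap.add_apply]
      rw [krf z _ (d.mu_p2 hM z), rr (d.rho_RF hM z) (d.mu_RF hM z), beF_comm, mu_de]
      simp
    have e2 : beF B F (d.kap h z + d.rho hM z) (d.de h z) = 0 := by
      simp only [map_add, LinearMap.add_apply]
      rw [krf z _ (d.de_p2 z), rho_de, add_zero]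
    rw [e1, e2, krf z _ (d.rho_p2 hM z)]
    abel
  obtain ⟨A4, hA4⟩ : InQW B (fun z => qF B F (C2 z)) := d.G4 hM
  have h3 : ∀ z, beF B F (C1 z) (C2 z) = 0 := by
    intro z
    rw [hC1, hC2]
    simp only [map_add, LinearMap.add_apply]
    rw [krf z _ (d.mu_p2 hM z), rr (d.rho_RF hM z) (d.mu_RF hM z), beF_comm, mu_de,
      rr (d.mu_RF hM z) (d.mu_RF hM z)]
    simp
  have hp := H94.Pth.quad (B := B) (LinearMap.toMatrix' C1) (LinearMap.toMatrix' C2) A1 A2 0 A4
    (by intro y; rw [LinearMap.toMatrix'_mulVec]; exact hA1 y)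
    (by intro y; rw [LinearMap.toMatrix'_mulVec, LinearMap.toMatrix'_mulVec]; exact hA2 y)
    (by intro y; rw [LinearMap.toMatrix'_mulVec, LinearMap.toMatrix'_mulVec]; exact h3 y)
    (by intro y; rw [LinearMap.toMatrix'_mulVec]; exact hA4 y)
  have hDgi : d.D ∘ₗ d.gi hM = LinearMap.id + C1 + C2 := by
    apply LinearMap.ext
    intro z
    change d.D (d.gi hM z) = z + C1 z + C2 z
    rw [d.Dgi hM, hC1, hC2]
    conv_rhs => rw [← h.pS_add_p2 z]
    have := add_selfLA (d.mu hM z)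
    have e : h.pS z + h.p2 z + (d.kap h z + d.rho hM z + d.de h z + d.mu hM z) + d.mu hM z =
      h.pS z + d.kap h z + (d.rho hM z + (h.p2 z + d.de h z)) + (d.mu hM z + d.mu hM z) := by abel
    rw [this, add_zero, h.pS_add_p2] at e
    rw [h.pS_add_p2]
    exact e.symm
  have hD : d.D = (LinearMap.id + C1 + C2) ∘ₗ d.g h := by
    rw [← hDgi]
    apply LinearMap.ext
    intro z
    rw [LinearMap.comp_apply, LinearMap.comp_apply, d.gi_g]
  rw [hD, LinearMap.toMatrix'_comp, map_add, map_add, LinearMap.toMatrix'_id]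
  exact H94.Pth.mul hp (d.pth_g hM)

theorem LA_of_G2' (hnd : Nd B) (d : Data B F) {h : Hyp B F} (hM : h.Max)
    (hG2 : InQW B (fun z => qF B F (h.p2 (d.D z + z)))) : Iso2 B d.M := by
  apply P5 hnd d.M d.hM (LinearMap.toMatrix' d.D) (d.pth_D hM hG2)
  ext i j
  have h2 := congrFun (d.hD (Pi.single j 1)) i
  have h3 : vx F (Pi.single j 1 : Fin n → ZMod 2) = Pi.single j (1 : F) := by
    funext i
    by_cases hi : i = j
    · subst hi; simp [vx]
    · simp [vx, hi]
  rw [h3, mulVec_single_one] at h2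
  have h4 : d.D (d.M.col j) i = (LinearMap.toMatrix' d.D *ᵥ d.M.col j) i := by
    rw [LinearMap.toMatrix'_mulVec]
  rw [h4] at h2
  exact h2.symm

end path

end Pool.Agent.T2H54.Mip2
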