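import Mathlib
import Pool.Agent.T2H54.Mip2.Defs

set_option autoImplicit false
set_option linter.unusedSectionVars false

/-! # Package P1: counting, and basic facts on the coefficients `cc` -/

namespace Pool.Agent.T2H54.Mip2

open Matrix Pool.Agent.R691.Mip MonoidAlgebra

section count2
variable {n m : ℕ} {B : Fin m → Matrix (Fin n) (Fin n) (ZMod 2)}
  {F : Type*} [Field F] [CharP F 2] [Algebra (ZMod 2) F] {H : Type*} [Group H]

lemma qF_nd (hnd : Nd B) (c : Fin m → F) (hc : ∀ y, c ⬝ᵥ qF B F y = 0) : c = 0 := by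
  funext l
  rw [Pi.zero_apply, ← Module.forall_dual_apply_eq_zero_iff (ZMod 2)]
  intro τ
  have h1 : (fun l => τ (c l)) = 0 := by
    apply hnd
    intro v
    have h2 := hc (vx F v)
    rw [qF_vx] at h2
    have h3 := congrArg τ h2
    rw [map_zero, dotProduct, map_sum] at h3
    rw [← h3, dotProduct]
    refine Finset.sum_congr rfl fun l _ => ?_
    change τ (c l) * bil B v v l = τ (c l * algebraMap (ZMod 2) F (bil B v v l))
    rw [mul_comm (c l), ← Algebra.smul_def, map_smul, smul_eq_mul, mul_comm]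
  exact congrFun h1 l

lemma addF2 {N : ℕ} (v : Fin N → F) : v + v = 0 := by
  funext i; exact CharTwo.add_self_eq_zero _

variable (P : H → Fin n → F) (T : H → Fin m → F)
  (hP : ∀ h k, P (h * k) = P h + P k)
  (hT : ∀ h k, T (h * k) = T h + T k + bil (BF B F) (P h) (P k))

variable (B) in
/-- the span of the values of the quadratic map -/
def V0 (P : H → Fin n → F) : Submodule (ZMod 2) (Fin m → F) :=
  Submodule.span (ZMod 2) {t | ∃ a : H, t = qF B F (P a)}

lemma V0_le : V0 B P ≤ UU P T hP hT := by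
  rw [V0, Submodule.span_le]
  rintro _ ⟨a, rfl⟩
  refine ⟨a * a, ?_, ?_⟩
  · rw [hP, addF2]
  · rw [hT, addF2, zero_add]; rfl

include hP in
lemma V0_span (hnd : Nd B) (hspan : Submodule.span F (Set.range P) = ⊤) :
    Submodule.span F (V0 B P : Set (Fin m → F)) = ⊤ := by
  classical
  by_contra hcon
  obtain ⟨f, hf0, hf⟩ := Submodule.exists_le_ker_of_lt_top _ (lt_top_iff_ne_top.2 hcon)
  apply hf0
  have hf0 : ∀ a : H, f (qF B F (P a)) = 0 := by
    intro a
    apply hf
    apply Submodule.subset_span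
    exact Submodule.subset_span ⟨a, rfl⟩
  have hf1 : ∀ a b : H, f (beF B F (P a) (P b)) = 0 := by
    intro a b
    have h1 := hf0 (a * b)
    rw [hP, qF_add, map_add, map_add, hf0, hf0, zero_add, zero_add] at h1
    exact h1
  have hf2 : ∀ (v : Fin n → F) (b : H), f (beF B F v (P b)) = 0 := by
    intro v b
    have hv : v ∈ Submodule.span F (Set.range P) := by rw [hspan]; trivial
    induction hv using Submodule.span_induction with
    | mem x hx => obtain ⟨a, rfl⟩ := hx; exact hf1 a b
    | zero => simp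
    | add x y _ _ hx hy => rw [map_add, LinearMap.add_apply, map_add, hx, hy, add_zero]
    | smul c x _ hx => rw [map_smul, LinearMap.smul_apply, map_smul, hx, smul_zero]
  have hf3 : ∀ (v w : Fin n → F), f (beF B F v w) = 0 := by
    intro v w
    have hw : w ∈ Submodule.span F (Set.range P) := by rw [hspan]; trivial
    induction hw using Submodule.span_induction with
    | mem x hx => obtain ⟨a, rfl⟩ := hx; exact hf2 v a
    | zero => simp
    | add x y _ _ hx hy => rw [map_add, map_add, hx, hy, add_zero]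
    | smul c x _ hx => rw [map_smul, map_smul, hx, smul_zero]
  have hf4 : ∀ v : Fin n → F, f (qF B F v) = 0 := by
    intro v
    have hw : v ∈ Submodule.span F (Set.range P) := by rw [hspan]; trivial
    induction hw using Submodule.span_induction with
    | mem x hx => obtain ⟨a, rfl⟩ := hx; exact hf0 a
    | zero => simp
    | add x y _ _ hx hy => rw [qF_add, map_add, map_add, hx, hy, hf3, add_zero, add_zero]
    | smul c x _ hx => rw [qF_smul, map_smul, hx, smul_zero]
  have hfc : ∀ t, f t = (fun l => f (Pi.single l 1)) ⬝ᵥ t := by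
    intro t
    rw [LinearMap.pi_apply_eq_sum_univ f t, dotProduct]
    refine Finset.sum_congr rfl fun l _ => ?_
    have : (fun j => if l = j then (1 : F) else 0) = Pi.single l (1 : F) := by
      funext k
      simp [Pi.single_apply, eq_comm]
    rw [this, smul_eq_mul, mul_comm]
  have h1 := qF_nd hnd (fun l => f (Pi.single l 1)) (by
    intro v
    rw [← hfc]
    exact hf4 v)
  ext t
  rw [h1] at hfc
  simp [hfc]

theorem counting2 (hnd : Nd B) (hspan : Submodule.span F (Set.range P) = ⊤)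
    (hP : ∀ h k, P (h * k) = P h + P k)
    (hT : ∀ h k, T (h * k) = T h + T k + bil (BF B F) (P h) (P k))
    (hcard : Nat.card H = 2 ^ n * 2 ^ m) :
    (∀ h, P h = 0 → T h = 0 → h = 1) ∧
    (∃ M : Matrix (Fin n) (Fin n) F, IsUnit M.det ∧
      (∀ z : Fin n → ZMod 2, ∃ h, P h = M *ᵥ vx F z) ∧
      (∀ h, ∃ z : Fin n → ZMod 2, P h = M *ᵥ vx F z)) ∧
    (∃ M : Matrix (Fin m) (Fin m) F, IsUnit M.det ∧
      (∀ z : Fin m → ZMod 2, ∃ h, P h = 0 ∧ T h = M *ᵥ vx F z) ∧
      (∀ h, P h = 0 → ∃ z : Fin m → ZMod 2, T h = M *ᵥ vx F z)) ∧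
    (∀ h, P h = 0 → T h ∈ V0 B P) := by
  have hHpos : 0 < Nat.card H := by rw [hcard]; positivity
  have hfin : Finite H := (Nat.card_pos_iff.1 hHpos).2
  have hfPH : Finite (PHs (p := 2) P hP) := by
    have : Function.Surjective (fun h : H => (⟨P h, h, rfl⟩ : PHs (p := 2) P hP)) := by
      rintro ⟨x, h, rfl⟩
      exact ⟨h, rfl⟩
    exact Finite.of_surjective _ this
  let φ : H →* Multiplicative (PHs (p := 2) P hP) :=
    { toFun := fun h => Multiplicative.ofAdd ⟨P h, h, rfl⟩
      map_one' := by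
        have : (⟨P 1, 1, rfl⟩ : PHs (p := 2) P hP) = 0 := Subtype.ext (P_one P hP)
        rw [this]; rfl
      map_mul' := fun a b => by
        have : (⟨P (a * b), a * b, rfl⟩ : PHs (p := 2) P hP) =
          ⟨P a, a, rfl⟩ + ⟨P b, b, rfl⟩ := Subtype.ext (hP a b)
        rw [this]; rfl }
  have hφs : Function.Surjective φ := by
    intro x
    obtain ⟨h, hh⟩ := (Multiplicative.toAdd x).2
    refine ⟨h, ?_⟩
    change Multiplicative.ofAdd (⟨P h, h, rfl⟩ : PHs (p := 2) P hP) = x
    have : (⟨P h, h, rfl⟩ : PHs (p := 2) P hP) = Multiplicative.toAdd x := Subtype.ext hh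
    rw [this]; rfl
  have hφk : ∀ h, h ∈ φ.ker ↔ P h = 0 := by
    intro h
    rw [MonoidHom.mem_ker]
    constructor
    · intro hh
      exact congrArg (fun x => ((Multiplicative.toAdd x : PHs (p := 2) P hP) : Fin n → F)) hh
    · intro hh
      change Multiplicative.ofAdd (⟨P h, h, rfl⟩ : PHs (p := 2) P hP) = 1
      have : (⟨P h, h, rfl⟩ : PHs (p := 2) P hP) = 0 := Subtype.ext hh
      rw [this]; rfl
  have hcount : Nat.card φ.ker * Nat.card (PHs (p := 2) P hP) = 2 ^ n * 2 ^ m := by
    rw [← hcard, ← Subgroup.card_mul_index φ.ker, Subgroup.index_ker,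
      MonoidHom.range_eq_top.2 hφs]
    congr 1
    rw [Nat.card_congr (Subgroup.topEquiv (G := Multiplicative (PHs (p := 2) P hP))).toEquiv]
    exact (Nat.card_congr Multiplicative.toAdd).symm
  -- the kernel
  let τ : φ.ker → UU P T hP hT := fun h => ⟨T h.1, h.1, (hφk _).1 h.2, rfl⟩
  have hτ : Function.Surjective τ := by
    rintro ⟨x, h, hh, rfl⟩
    exact ⟨⟨h, (hφk h).2 hh⟩, rfl⟩
  have hfU : Finite (UU P T hP hT) := Finite.of_surjective _ hτ
  have hU1 : Nat.card (UU P T hP hT) ≤ Nat.card φ.ker := Nat.card_le_card_of_surjective _ hτ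
  have hle := V0_le P T hP hT
  have hinc := Submodule.inclusion_injective hle
  have hfU0 : Finite (V0 B P) := Finite.of_injective _ hinc
  have hU2 : Nat.card (V0 B P) ≤ Nat.card (UU P T hP hT) := Nat.card_le_card_of_injective _ hinc
  have hU3 : 2 ^ m ≤ Nat.card (V0 B P) := form_card _ (V0_span P hP hnd hspan)
  have hspanP : Submodule.span F ((PHs (p := 2) P hP : Submodule (ZMod 2) (Fin n → F)) :
      Set (Fin n → F)) = ⊤ := hspan
  have hP1 : 2 ^ n ≤ Nat.card (PHs (p := 2) P hP) := form_card _ hspanP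
  have hpn : 0 < 2 ^ n := by positivity
  have hpm : 0 < 2 ^ m := by positivity
  have hk : Nat.card φ.ker = 2 ^ m := by
    apply le_antisymm
    · by_contra hcon
      push Not at hcon
      have : 2 ^ m * 2 ^ n < Nat.card φ.ker * Nat.card (PHs (p := 2) P hP) :=
        Nat.mul_lt_mul_of_lt_of_le hcon hP1 (by omega)
      rw [hcount, mul_comm] at this
      exact lt_irrefl _ this
    · omega
  have hPc : Nat.card (PHs (p := 2) P hP) = 2 ^ n := by
    rw [hk, mul_comm] at hcount
    exact Nat.eq_of_mul_eq_mul_right hpm hcount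
  have hUc : Nat.card (UU P T hP hT) = 2 ^ m := by omega
  have hU0c : Nat.card (V0 B P) = 2 ^ m := by omega
  have hτb : Function.Bijective τ := by
    rw [Nat.bijective_iff_surjective_and_card]
    exact ⟨hτ, by rw [hk, hUc]⟩
  have hUU0 : UU P T hP hT ≤ V0 B P := by
    have hb : Function.Bijective (Submodule.inclusion hle) := by
      rw [Nat.bijective_iff_injective_and_card]
      exact ⟨hinc, by rw [hU0c, hUc]⟩
    intro x hx
    obtain ⟨y, hy⟩ := hb.2 ⟨x, hx⟩
    have := congrArg Subtype.val hy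
    rw [← show (y : Fin m → F) = x from this]
    exact y.2
  have hUspan : Submodule.span F ((UU P T hP hT : Submodule (ZMod 2) (Fin m → F)) :
      Set (Fin m → F)) = ⊤ := by
    rw [eq_top_iff, ← V0_span P hP hnd hspan]
    exact Submodule.span_mono hle
  refine ⟨?_, ?_, ?_, ?_⟩
  · intro h h0 h1
    have h3 : (⟨h, (hφk h).2 h0⟩ : φ.ker) = ⟨1, (hφk 1).2 (P_one P hP)⟩ := by
      apply hτb.1
      apply Subtype.ext
      change T h = T 1
      rw [h1, T_one P T hP hT]
    exact congrArg Subtype.val h3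
  · obtain ⟨M, hM, hM1, hM2⟩ := form_basis _ hspanP hPc
    exact ⟨M, hM, fun z => (mem_PHs P hP _).1 (hM1 z), fun h => hM2 _ ⟨h, rfl⟩⟩
  · obtain ⟨M, hM, hM1, hM2⟩ := form_basis _ hUspan hUc
    exact ⟨M, hM, fun z => (mem_UU P T hP hT _).1 (hM1 z), fun h h0 => hM2 _ ⟨h, h0, rfl⟩⟩
  · intro h h0
    exact hUU0 ⟨h, h0, rfl⟩

end count2

section alg
variable {n m : ℕ} {B : Fin m → Matrix (Fin n) (Fin n) (ZMod 2)}
  {F : Type*} [Field F] [CharP F 2] [Algebra (ZMod 2) F] {H : Type*} [Group H]

lemma HS.P_mul (d : HS B F H) (h k : H) : d.P (h * k) = d.P h + d.P k := by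
  rw [HS.P, map_mul, cP_mul, d.haug, d.haug, one_smul, one_smul]; rfl

lemma HS.T_mul (d : HS B F H) (h k : H) :
    d.T (h * k) = d.T h + d.T k + bil (BF B F) (d.P h) (d.P k) := by
  rw [HS.T, map_mul, cT_mul, d.haug, d.haug, one_smul, one_smul]; rfl

lemma HS.span_P (d : HS B F H) : Submodule.span F (Set.range d.P) = ⊤ := by
  have h1 : Set.range d.P = (cP B F) '' (Set.range d.u) := by
    rw [← Set.range_comp]; rfl
  rw [h1, Submodule.span_image, d.hspan, Submodule.map_top, LinearMap.range_eq_top]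
  intro y
  classical
  refine ⟨∑ i, single (⟨Pi.single i 1, 0⟩ : Heis B) (y i), ?_⟩
  rw [map_sum]
  funext j
  rw [Finset.sum_apply]
  simp only [cP_single, Pi.smul_apply, vx, smul_eq_mul]
  rw [Finset.sum_eq_single j]
  · simp
  · intro b _ hb
    rw [Pi.single_apply, if_neg hb.symm, map_zero, mul_zero]
  · intro h; exact absurd (Finset.mem_univ j) h

theorem P1 (hnd : Nd B) (d : HS B F H) : Nonempty (HC d) := by
  have hcard : Nat.card H = 2 ^ n * 2 ^ m := by
    rw [d.hcard, Nat.card_congr Heis.equivProd, Nat.card_prod, Nat.card_fun, Nat.card_fun,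
      Nat.card_zmod, Nat.card_fin, Nat.card_fin]
  obtain ⟨h1, ⟨M, hM, hM1, hM2⟩, ⟨MU, hMU, hMU1, hMU2⟩, h4⟩ :=
    counting2 d.P d.T hnd d.span_P d.P_mul d.T_mul hcard
  choose z hz using hM2
  exact ⟨{ inj := h1, M := M, hM := hM, hM1 := hM1, z := z, hz := hz, MU := MU, hMU := hMU,
           hMU1 := hMU1, hMU2 := hMU2, hU := h4 }⟩

end alg

end Pool.Agent.T2H54.Mip2
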