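import Mathlib
import Pool.Agent.T2H54.Mip2.P1

set_option autoImplicit false
set_option linter.unusedSectionVars false

/-! # Package P1 prime: basic facts on the coefficients `cc` -/

namespace Pool.Agent.T2H54.Mip2

open Matrix Pool.Agent.R691.Mip MonoidAlgebra

section alg
variable {n m : ℕ} {B : Fin m → Matrix (Fin n) (Fin n) (ZMod 2)}
  {F : Type*} [Field F] [CharP F 2] [Algebra (ZMod 2) F] {H : Type*} [Group H]

lemma conv_add_left (c c' d : (Fin n → ZMod 2) → F) : conv (c + c') d = conv c d + conv c' d := by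
  funext x
  simp only [conv, Pi.add_apply, add_mul, Finset.sum_add_distrib]

lemma conv_add_right (c d d' : (Fin n → ZMod 2) → F) : conv c (d + d') = conv c d + conv c d' := by
  funext x
  simp only [conv, Pi.add_apply, mul_add, Finset.sum_add_distrib]

@[simp] lemma conv_zero_left (d : (Fin n → ZMod 2) → F) : conv 0 d = 0 := by
  funext x; simp [conv]

@[simp] lemma conv_zero_right (d : (Fin n → ZMod 2) → F) : conv d 0 = 0 := by
  funext x; simp [conv]

lemma eq_iff_add2 (x g h : Fin n → ZMod 2) : x + g = h ↔ x = g + h := by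
  constructor
  · intro e
    rw [← e, add_comm x g, ← add_assoc, add_self2, zero_add]
  · intro e
    rw [e, add_assoc, add_comm h g, ← add_assoc, add_self2, zero_add]

lemma conv_single (g h : Fin n → ZMod 2) (a b : F) :
    conv (a • Pi.single g (1 : F)) (b • Pi.single h (1 : F)) =
      (a * b) • (Pi.single (g + h) (1 : F) : (Fin n → ZMod 2) → F) := by
  classical
  funext x
  simp only [conv, Pi.smul_apply, smul_eq_mul]
  rw [Finset.sum_eq_single g]
  · rw [Pi.single_eq_same, mul_one]
    by_cases hx : x = g + h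
    · rw [hx, Pi.single_eq_same]
      have : g + h + g = h := (eq_iff_add2 _ _ _).2 rfl
      rw [this, Pi.single_eq_same]
      ring
    · rw [Pi.single_eq_of_ne hx, Pi.single_eq_of_ne (fun e => hx ((eq_iff_add2 _ _ _).1 e))]
      ring
  · intro v _ hv
    rw [Pi.single_eq_of_ne hv]; ring
  · intro hg; exact absurd (Finset.mem_univ g) hg

@[simp] lemma cV_single (g : Heis B) (a : F) :
    cV B F (single g a) = a • (Pi.single g.v (1 : F) : (Fin n → ZMod 2) → F) := by
  simp [cV]

theorem cV_mul (x y : MonoidAlgebra F (Heis B)) :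
    cV B F (x * y) = conv (cV B F x) (cV B F y) := by
  induction x using MonoidAlgebra.induction_linear with
  | zero => simp
  | add x x' hx hx' => rw [add_mul, map_add, map_add, hx, hx', conv_add_left]
  | single g a =>
    induction y using MonoidAlgebra.induction_linear with
    | zero => simp
    | add y y' hy hy' => rw [mul_add, map_add, map_add, hy, hy', conv_add_right]
    | single h b =>
      rw [single_mul_single, cV_single, cV_single, cV_single, conv_single, Heis.mul_v]

lemma cV_sum (x : MonoidAlgebra F (Heis B)) : ∑ v, cV B F x v = aug F _ x := by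
  classical
  induction x using MonoidAlgebra.induction_linear with
  | zero => simp
  | add x x' hx hx' =>
    rw [map_add, map_add, ← hx, ← hx', ← Finset.sum_add_distrib]; rfl
  | single g a =>
    rw [cV_single, aug_single]
    simp only [Pi.smul_apply, smul_eq_mul]
    rw [Finset.sum_eq_single g.v]
    · rw [Pi.single_eq_same, mul_one]
    · intro v _ hv
      rw [Pi.single_eq_of_ne hv, mul_zero]
    · intro hg; exact absurd (Finset.mem_univ _) hg

lemma cV_P (x : MonoidAlgebra F (Heis B)) : ∑ v, cV B F x v • vx F v = cP B F x := by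
  classical
  induction x using MonoidAlgebra.induction_linear with
  | zero => simp
  | add x x' hx hx' =>
    rw [map_add, map_add, ← hx, ← hx', ← Finset.sum_add_distrib]
    refine Finset.sum_congr rfl fun v _ => ?_
    rw [Pi.add_apply, add_smul]
  | single g a =>
    rw [cV_single, cP_single]
    simp only [Pi.smul_apply, smul_eq_mul]
    rw [Finset.sum_eq_single g.v]
    · rw [Pi.single_eq_same, mul_one]
    · intro v _ hv
      rw [Pi.single_eq_of_ne hv, mul_zero, zero_smul]
    · intro hg; exact absurd (Finset.mem_univ _) hg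

theorem cc_mul (d : HS B F H) (h k : H) : d.cc (h * k) = conv (d.cc h) (d.cc k) := by
  rw [HS.cc, map_mul, cV_mul]; rfl

theorem cc_sum (d : HS B F H) (h : H) : ∑ v, d.cc h v = 1 := by
  rw [HS.cc, cV_sum, d.haug]

theorem cc_P (d : HS B F H) (h : H) : ∑ v, d.cc h v • vx F v = d.P h := by
  rw [HS.cc, cV_P]; rfl

theorem cc_sq (d : HS B F H) (h : H) : ∑ v, d.cc h v ^ 2 = 1 := by
  have h1 := cc_sum d h
  have h2 : (∑ v, d.cc h v) ^ 2 = 1 := by rw [h1, one_pow]
  rwa [CharTwo.sum_sq] at h2

/-- in characteristic two the square of a function is its value at zero -/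
lemma conv_self (c : (Fin n → ZMod 2) → F) :
    conv c c = (∑ v, c v ^ 2) • (Pi.single 0 (1 : F) : (Fin n → ZMod 2) → F) := by
  classical
  funext x
  simp only [conv, Pi.smul_apply, smul_eq_mul]
  by_cases hx : x = 0
  · subst hx
    rw [Pi.single_eq_same, mul_one]
    refine Finset.sum_congr rfl fun v _ => ?_
    rw [zero_add, pow_two]
  · rw [Pi.single_eq_of_ne hx, mul_zero]
    apply Finset.sum_involution (fun v _ => x + v)
    · intro v _
      have : x + (x + v) = v := by rw [← add_assoc, add_self2, zero_add]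
      rw [this, mul_comm (c (x + v)), CharTwo.add_self_eq_zero]
    · intro v _ _ h
      exact hx (by simpa using h)
    · intro v _
      exact Finset.mem_univ _
    · intro v _
      rw [← add_assoc, add_self2, zero_add]

lemma cc_self (d : HS B F H) (h : H) : d.cc (h * h) = Pi.single 0 1 := by
  rw [cc_mul, conv_self, cc_sq, one_smul]

@[simp] lemma conv_delta (c : (Fin n → ZMod 2) → F) : conv c (Pi.single 0 1) = c := by
  classical
  funext x
  simp only [conv]
  rw [Finset.sum_eq_single x]
  · rw [add_self2, Pi.single_eq_same, mul_one]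
  · intro v _ hv
    rw [Pi.single_eq_of_ne, mul_zero]
    intro h
    apply hv
    have h2 := (eq_iff_add2 x v 0).1 h
    rw [add_zero] at h2
    exact h2.symm
  · intro hg; exact absurd (Finset.mem_univ _) hg

/-- the trivial class -/
lemma cc_unit (d : HS B F H) : d.cc 1 = Pi.single 0 1 := by
  have := cc_self d 1
  rwa [mul_one] at this

/-- kernel elements become trivial -/
theorem cc_one (d : HS B F H) (c : HC d) (h : H) (h0 : d.P h = 0) : d.cc h = Pi.single 0 1 := by
  have key : ∀ t ∈ Submodule.span (ZMod 2) {t | ∃ a : H, t = qF B F (d.P a)},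
      ∃ g : H, d.P g = 0 ∧ d.T g = t ∧ d.cc g = Pi.single 0 1 := by
    intro t ht
    induction ht using Submodule.span_induction with
    | mem x hx =>
      obtain ⟨a, rfl⟩ := hx
      refine ⟨a * a, ?_, ?_, cc_self d a⟩
      · rw [d.P_mul, addF2]
      · rw [d.T_mul, addF2, zero_add]; rfl
    | zero =>
      refine ⟨1, P_one d.P d.P_mul, T_one d.P d.T d.P_mul d.T_mul, cc_unit d⟩
    | add x y _ _ hx hy =>
      obtain ⟨g, g1, g2, g3⟩ := hx
      obtain ⟨k, k1, k2, k3⟩ := hy
      refine ⟨g * k, ?_, ?_, ?_⟩
      · rw [d.P_mul, g1, k1, add_zero]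
      · rw [d.T_mul, g1, g2, k2, bil_zero_left, add_zero]
      · rw [cc_mul, g3, k3, conv_delta]
    | smul r x _ hx =>
      obtain ⟨g, g1, g2, g3⟩ := hx
      have hr : r = 0 ∨ r = 1 := by
        revert r; decide
      rcases hr with rfl | rfl
      · refine ⟨1, P_one d.P d.P_mul, ?_, cc_unit d⟩
        rw [T_one d.P d.T d.P_mul d.T_mul, zero_smul]
      · exact ⟨g, g1, by rw [g2, one_smul], g3⟩
  obtain ⟨g, g1, g2, g3⟩ := key _ (c.hU h h0)
  have h1 : h * g⁻¹ = 1 := by
    apply c.inj
    · rw [d.P_mul, P_inv d.P d.P_mul, h0, g1, neg_zero, add_zero]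
    · rw [d.T_mul, T_inv_of d.P d.T d.P_mul d.T_mul g g1, g2, h0, bil_zero_left, add_zero,
        add_neg_cancel]
  have h2 : h = g := mul_inv_eq_one.1 h1
  rw [h2, g3]

theorem cc_span (d : HS B F H) : Submodule.span F (Set.range d.cc) = ⊤ := by
  classical
  have h1 : Set.range d.cc = (cV B F) '' (Set.range d.u) := by
    rw [← Set.range_comp]; rfl
  rw [h1, Submodule.span_image, d.hspan, Submodule.map_top, LinearMap.range_eq_top]
  intro y
  refine ⟨∑ v, single (⟨v, 0⟩ : Heis B) (y v), ?_⟩
  rw [map_sum]
  funext w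
  rw [Finset.sum_apply]
  simp only [cV_single, Pi.smul_apply, smul_eq_mul]
  rw [Finset.sum_eq_single w]
  · rw [Pi.single_eq_same, mul_one]
  · intro b _ hb
    rw [Pi.single_eq_of_ne hb.symm, mul_zero]
  · intro h; exact absurd (Finset.mem_univ w) h

/-- `cc h` depends only on the class of `h` -/
theorem cc_congr (d : HS B F H) (c : HC d) (h k : H) (hk : d.P h = d.P k) : d.cc h = d.cc k := by
  have h1 : d.P (k⁻¹ * h) = 0 := by
    rw [d.P_mul, P_inv d.P d.P_mul, hk, neg_add_cancel]
  have h2 := cc_one d c _ h1
  have h3 := cc_mul d k (k⁻¹ * h)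
  rw [mul_inv_cancel_left, h2, conv_delta] at h3
  exact h3

/-- linear independence of the classes: a function on `V` is a unique combination -/
theorem cc_basis (d : HS B F H) (c : HC d) (hh : (Fin n → ZMod 2) → H)
    (hz : ∀ z, c.z (hh z) = z) :
    LinearIndependent F (fun z => d.cc (hh z)) ∧
    Submodule.span F (Set.range fun z => d.cc (hh z)) = ⊤ := by
  classical
  have hs : Submodule.span F (Set.range fun z => d.cc (hh z)) = ⊤ := by
    rw [eq_top_iff, ← cc_span d]
    apply Submodule.span_mono
    rintro _ ⟨h, rfl⟩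
    refine ⟨c.z h, ?_⟩
    apply cc_congr d c
    rw [c.hz, c.hz h, hz]
  refine ⟨?_, hs⟩
  apply linearIndependent_of_top_le_span_of_card_eq_finrank
  · rw [hs]
  · rw [Module.finrank_fintype_fun_eq_card]

end alg

end Pool.Agent.T2H54.Mip2
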