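import Mathlib
import Pool.Agent.T2H54.Mip2.P1b

set_option autoImplicit false
set_option linter.unusedSectionVars false

/-! # The identities D1, D2, D3 -/

namespace Pool.Agent.T2H54.Mip2

open Matrix Pool.Agent.R691.Mip

section gen
variable {n m : ℕ} {F : Type*} [Field F] [CharP F 2] [Algebra (ZMod 2) F]

lemma add_self_mod {X : Type*} [AddCommGroup X] [Module F X] (x : X) : x + x = 0 := by
  rw [← two_smul F x, CharTwo.two_eq_zero, zero_smul]

lemma eq_of_add_eq_zero2 {X : Type*} [AddCommGroup X] [Module F X] {x y : X} (h : x + y = 0) :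
    x = y := by
  have h1 := add_self_mod (F := F) y
  have h2 : x + y = y + y := by rw [h, h1]
  exact add_right_cancel h2

lemma add_ext2 {X : Type*} [AddCommMonoid X] {g h : (Fin n → ZMod 2) →+ X}
    (H : ∀ i, g (Pi.single i 1) = h (Pi.single i 1)) : g = h := by
  apply AddMonoidHom.functions_ext
  intro i x
  have hx : x = 0 ∨ x = 1 := by revert x; decide
  rcases hx with rfl | rfl
  · simp
  · exact H i

/-- symmetric sums over `V` vanish -/
lemma sum_pair {X : Type*} [AddCommGroup X] [Module F X] (s : Fin n → ZMod 2) (hs : s ≠ 0)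
    (g : (Fin n → ZMod 2) → X) (hg : ∀ v, g (v + s) = g v) : ∑ v, g v = 0 := by
  refine Finset.sum_involution (fun v _ => v + s) ?_ ?_ ?_ ?_
  · intro v _
    rw [hg]; exact add_self_mod (F := F) _
  · intro v _ _ h
    exact hs (by simpa using h)
  · intro v _; exact Finset.mem_univ _
  · intro v _
    rw [add_assoc, add_self2, add_zero]

lemma sum_shift {X : Type*} [AddCommMonoid X] (s : Fin n → ZMod 2)
    (g : (Fin n → ZMod 2) → X) : ∑ v, g (v + s) = ∑ v, g v :=
  Fintype.sum_equiv (Equiv.addRight s) _ _ (fun _ => rfl)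

lemma sum_shift' {X : Type*} [AddCommMonoid X] (s : Fin n → ZMod 2)
    (g : (Fin n → ZMod 2) → X) : ∑ v, g (s + v) = ∑ v, g v :=
  Fintype.sum_equiv (Equiv.addLeft s) _ _ (fun _ => rfl)

omit [CharP F 2] in
lemma conv_comm (c d : (Fin n → ZMod 2) → F) : conv c d = conv d c := by
  funext x
  change ∑ v, c v * d (x + v) = ∑ v, d v * c (x + v)
  rw [← sum_shift' x (fun v => c v * d (x + v))]
  refine Finset.sum_congr rfl fun v _ => ?_
  rw [← add_assoc, add_self2, zero_add, mul_comm]

omit [CharP F 2] in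
lemma conv_assoc (a b c : (Fin n → ZMod 2) → F) : conv (conv a b) c = conv a (conv b c) := by
  funext x
  change ∑ v, (∑ u, a u * b (v + u)) * c (x + v) = ∑ u, a u * ∑ v, b v * c (x + u + v)
  simp only [Finset.sum_mul, Finset.mul_sum]
  rw [Finset.sum_comm]
  refine Finset.sum_congr rfl fun u _ => ?_
  rw [← sum_shift u (fun v => a u * (b v * c (x + u + v)))]
  refine Finset.sum_congr rfl fun v _ => ?_
  have : x + u + (v + u) = x + v := by
    have := add_self2 u
    calc x + u + (v + u) = x + v + (u + u) := by abel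
      _ = x + v := by rw [this, add_zero]
  rw [this, mul_assoc]

omit [CharP F 2] in
lemma conv_addl2 (a b c : (Fin n → ZMod 2) → F) : conv (a + b) c = conv a c + conv b c := by
  funext x
  simp [conv, add_mul, Finset.sum_add_distrib]

omit [CharP F 2] in
lemma conv_delta0 (a : (Fin n → ZMod 2) → F) : conv a (Pi.single 0 1) = a := by
  funext x
  change ∑ v, a v * (Pi.single 0 1 : (Fin n → ZMod 2) → F) (x + v) = a x
  rw [Finset.sum_eq_single x]
  · rw [add_self2]; simp
  · intro v _ hv
    have : x + v ≠ 0 := by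
      intro h
      apply hv
      have h2 := add_self2 v
      exact (add_right_cancel (h.trans h2.symm)).symm
    simp [this]
  · simp

/-- the derivation `m_j` -/
def mj (j : Fin n) (c : (Fin n → ZMod 2) → F) : (Fin n → ZMod 2) → F :=
  fun v => algebraMap (ZMod 2) F (v j) * c v

omit [CharP F 2] in
lemma mj_conv (j : Fin n) (c d : (Fin n → ZMod 2) → F) :
    mj j (conv c d) = conv (mj j c) d + conv c (mj j d) := by
  funext x
  change algebraMap (ZMod 2) F (x j) * ∑ v, c v * d (x + v) =
    ∑ v, (algebraMap (ZMod 2) F (v j) * c v) * d (x + v) +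
      ∑ v, c v * (algebraMap (ZMod 2) F ((x + v) j) * d (x + v))
  rw [Finset.mul_sum, ← Finset.sum_add_distrib]
  refine Finset.sum_congr rfl fun v _ => ?_
  have h : algebraMap (ZMod 2) F (x j) =
      algebraMap (ZMod 2) F (v j) + algebraMap (ZMod 2) F ((x + v) j) := by
    rw [← map_add]
    congr 1
    have : v j + (x + v) j = x j + (v j + v j) := by simp [Pi.add_apply]; ring
    rw [this, CharTwo.add_self_eq_zero, add_zero]
  rw [h]; ring

lemma conv_self0 (c : (Fin n → ZMod 2) → F) (hc : ∑ v, c v ^ 2 = 1) :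
    conv c c = Pi.single 0 1 := by
  funext x
  change ∑ v, c v * c (x + v) = _
  by_cases hx : x = 0
  · subst hx
    simp only [zero_add, Pi.single_eq_same]
    rw [← hc]
    refine Finset.sum_congr rfl fun v _ => (pow_two _).symm
  · rw [Pi.single_eq_of_ne hx]
    apply sum_pair (F := F) x hx
    intro v
    have : x + (v + x) = v := by
      calc x + (v + x) = v + (x + x) := by abel
        _ = v := by rw [add_self2, add_zero]
    rw [this, add_comm x v, mul_comm]

/-- the numbers `A_s(c)_j` -/
def As (c : (Fin n → ZMod 2) → F) (s : Fin n → ZMod 2) (j : Fin n) : F :=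
  ∑ v, c v * c (v + s) * algebraMap (ZMod 2) F (v j)

omit [CharP F 2] in
lemma As_eq_conv (c : (Fin n → ZMod 2) → F) (s : Fin n → ZMod 2) (j : Fin n) :
    As c s j = conv (mj j c) c s := by
  change ∑ v, c v * c (v + s) * algebraMap (ZMod 2) F (v j) =
    ∑ v, (algebraMap (ZMod 2) F (v j) * c v) * c (s + v)
  refine Finset.sum_congr rfl fun v _ => ?_
  rw [add_comm v s]; ring

lemma As_conv (c d : (Fin n → ZMod 2) → F) (hc : ∑ v, c v ^ 2 = 1) (hd : ∑ v, d v ^ 2 = 1)
    (s : Fin n → ZMod 2) (j : Fin n) : As (conv c d) s j = As c s j + As d s j := by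
  rw [As_eq_conv, As_eq_conv, As_eq_conv, mj_conv, conv_addl2]
  have h1 : conv (conv (mj j c) d) (conv c d) = conv (mj j c) c := by
    rw [conv_comm c d, conv_assoc, ← conv_assoc d d c, conv_self0 d hd, conv_comm (Pi.single 0 1) c,
      conv_delta0]
  have h2 : conv (conv c (mj j d)) (conv c d) = conv (mj j d) d := by
    rw [conv_comm c (mj j d), conv_assoc, ← conv_assoc c c d, conv_self0 c hc,
      conv_comm (Pi.single 0 1) d, conv_delta0]
  rw [h1, h2]; rfl

lemma zmod2_ne {x : ZMod 2} (h : x ≠ 0) : x = 1 := by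
  revert x; decide

lemma As_eq (c : (Fin n → ZMod 2) → F) (s : Fin n → ZMod 2) (i : Fin n) (hi : s i ≠ 0)
    (j : Fin n) : As c s j = As c s i * algebraMap (ZMod 2) F (s j) := by
  have hs : s ≠ 0 := by
    rintro rfl; exact hi rfl
  have hsym : ∀ v : Fin n → ZMod 2, c (v + s) * c (v + s + s) = c v * c (v + s) := by
    intro v
    rw [add_assoc, add_self2, add_zero, mul_comm]
  have hi1 := zmod2_ne hi
  by_cases hj : s j = 0
  · rw [hj, map_zero, mul_zero]
    apply sum_pair (F := F) s hs
    intro v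
    rw [hsym, Pi.add_apply, hj, add_zero]
  · have hj1 := zmod2_ne hj
    rw [hj1, map_one, mul_one]
    apply eq_of_add_eq_zero2 (F := F)
    unfold As
    rw [← Finset.sum_add_distrib]
    apply sum_pair (F := F) s hs
    intro v
    rw [hsym, Pi.add_apply, Pi.add_apply, hj1, hi1, map_add, map_add, map_one]
    have h2 : (1 : F) + 1 = 0 := CharTwo.add_self_eq_zero _
    linear_combination (c v * c (v + s)) * h2

lemma As_vx (c : (Fin n → ZMod 2) → F) (s : Fin n → ZMod 2) (i : Fin n) (hi : s i ≠ 0) :
    ∑ v, (c v * c (v + s)) • vx F v = As c s i • vx F s := by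
  funext j
  rw [Finset.sum_apply]
  simp only [Pi.smul_apply, smul_eq_mul, vx]
  exact As_eq c s i hi j

omit [CharP F 2] in
lemma sum_As (c : (Fin n → ZMod 2) → F) (hc : ∑ v, c v = 1) :
    ∑ s, ∑ v, (c v * c (v + s)) • vx F v = ∑ v, c v • vx F v := by
  rw [Finset.sum_comm]
  refine Finset.sum_congr rfl fun v _ => ?_
  rw [← Finset.sum_smul, ← Finset.mul_sum, sum_shift' v c, hc, mul_one]

lemma frv_add (v w : Fin n → F) : frv 2 (v + w) = frv 2 v + frv 2 w := by
  funext i
  simp only [frv, Pi.add_apply]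
  exact CharTwo.add_sq _ _

lemma frv_sum {ι : Type*} (t : Finset ι) (f : ι → Fin n → F) :
    frv 2 (∑ i ∈ t, f i) = ∑ i ∈ t, frv 2 (f i) := by
  classical
  induction t using Finset.induction_on with
  | empty => funext i; simp [frv]
  | insert a t ha ih => rw [Finset.sum_insert ha, Finset.sum_insert ha, frv_add, ih]

omit [CharP F 2] in
lemma frv_smul (c : F) (v : Fin n → F) : frv 2 (c • v) = c ^ 2 • frv 2 v := by
  funext i
  simp [frv, mul_pow]

end gen

section hs
variable {n m : ℕ} {B : Fin m → Matrix (Fin n) (Fin n) (ZMod 2)}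
  {F : Type*} [Field F] [CharP F 2] [Algebra (ZMod 2) F] {H : Type*} [Group H]

lemma HS.P_one (d : HS B F H) : d.P 1 = 0 := by
  have := d.P_mul 1 1
  rw [mul_one] at this
  exact left_eq_add.1 this

lemma HS.P_inv (d : HS B F H) (h : H) : d.P h⁻¹ = d.P h := by
  have h1 := d.P_mul h h⁻¹
  rw [mul_inv_cancel, d.P_one] at h1
  exact (eq_of_add_eq_zero2 (F := F) h1.symm).symm

lemma HS.T_one (d : HS B F H) : d.T 1 = 0 := by
  have := d.T_mul 1 1
  rw [mul_one, d.P_one, bil_zero_left, add_zero] at this
  exact left_eq_add.1 this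

lemma HS.P_sq (d : HS B F H) (h : H) : d.P (h * h) = 0 := by
  rw [d.P_mul]; exact add_self_mod (F := F) _

lemma HS.T_sq (d : HS B F H) (h : H) : d.T (h * h) = qF B F (d.P h) := by
  rw [d.T_mul, add_self_mod (F := F), zero_add]; rfl

lemma HS.cc_mul (d : HS B F H) (h k : H) : d.cc (h * k) = conv (d.cc h) (d.cc k) := by
  simp only [HS.cc]
  rw [map_mul, cV_mul]

/-- additive functions of `h` that factor through `P` are linear functions of `P h` -/
lemma factor (d : HS B F H) (c : HC d) {X : Type*} [AddCommGroup X] [Module F X] (f : H → X)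
    (hf : ∀ h k, f (h * k) = f h + f k) (h0 : ∀ h, d.P h = 0 → f h = 0) :
    ∃ ft : (Fin n → F) →ₗ[F] X, ∀ h, ft (d.P h) = f h := by
  classical
  have hfP : ∀ h k, d.P h = d.P k → f h = f k := by
    intro h k hk
    have h1 : d.P (h * k) = 0 := by rw [d.P_mul, hk]; exact add_self_mod (F := F) _
    have h2 := h0 _ h1
    rw [hf] at h2
    exact eq_of_add_eq_zero2 (F := F) h2
  choose hh hh1 using c.hM1
  let ft : (Fin n → F) →ₗ[F] X :=
    (LinearMap.lsum F (fun _ : Fin n => F) F
      (fun i => (LinearMap.id : F →ₗ[F] F).smulRight (f (hh (Pi.single i 1))))).comp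
      (Matrix.mulVecLin c.M⁻¹)
  have hft : ∀ x : Fin n → F, ft (c.M *ᵥ x) = ∑ i, x i • f (hh (Pi.single i 1)) := by
    intro x
    simp only [ft, LinearMap.comp_apply, Matrix.mulVecLin_apply, mulVec_mulVec,
      Matrix.nonsing_inv_mul _ c.hM, one_mulVec]
    simp [LinearMap.lsum_apply]
  refine ⟨ft, fun h => ?_⟩
  let g1 : (Fin n → ZMod 2) →+ X :=
    { toFun := fun z => f (hh z)
      map_zero' := h0 _ (by rw [hh1, vx_zero, mulVec_zero])
      map_add' := by
        intro z z'
        rw [← hf]
        apply hfP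
        rw [hh1, d.P_mul, hh1, hh1, vx_add, mulVec_add] }
  let g2 : (Fin n → ZMod 2) →+ X :=
    { toFun := fun z => ft (c.M *ᵥ vx F z)
      map_zero' := by rw [vx_zero, mulVec_zero, map_zero]
      map_add' := by
        intro z z'
        rw [vx_add, mulVec_add, map_add] }
  have hg : g2 = g1 := by
    apply add_ext2
    intro i
    change ft (c.M *ᵥ vx F (Pi.single i 1)) = f (hh (Pi.single i 1))
    rw [hft, Finset.sum_eq_single i]
    · simp [vx]
    · intro j _ hj
      simp [vx, hj]
    · simp
  have h3 := DFunLike.congr_fun hg (c.z h)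
  change ft (c.M *ᵥ vx F (c.z h)) = f (hh (c.z h)) at h3
  rw [c.hz h, h3]
  apply hfP
  rw [hh1, c.hz h]

/-- additive functions on the kernel of `P` are linear functions of `T h` -/
lemma factorT (d : HS B F H) (c : HC d) {X : Type*} [AddCommGroup X] [Module F X] (f : H → X)
    (hf : ∀ h k, d.P h = 0 → d.P k = 0 → f (h * k) = f h + f k) :
    ∃ ft : (Fin m → F) →ₗ[F] X, ∀ h, d.P h = 0 → ft (d.T h) = f h := by
  classical
  have hT : ∀ h k, d.P h = 0 → d.P k = 0 → d.T h = d.T k → h = k := by
    intro h k hh hk hTT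
    have h1 : d.P (h * k) = 0 := by rw [d.P_mul, hh, hk, add_zero]
    have h2 : d.T (h * k) = 0 := by
      rw [d.T_mul, hh, bil_zero_left, hTT, add_zero]; exact add_self_mod (F := F) _
    have h3 : d.P (k * k) = 0 := by rw [d.P_mul, hk, add_zero]
    have h4 : d.T (k * k) = 0 := by
      rw [d.T_mul, hk, bil_zero_left, add_zero]; exact add_self_mod (F := F) _
    have h5 := c.inj _ h1 h2
    have h6 := c.inj _ h3 h4
    exact mul_right_cancel (h5.trans h6.symm)
  choose hh hh1 hh2 using c.hMU1
  have hhadd : ∀ z z', hh (z + z') = hh z * hh z' := by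
    intro z z'
    apply hT _ _ (hh1 _) (by rw [d.P_mul, hh1, hh1, add_zero])
    rw [d.T_mul, hh1 z, bil_zero_left, add_zero, hh2, hh2, hh2, vx_add, mulVec_add]
  let ft : (Fin m → F) →ₗ[F] X :=
    (LinearMap.lsum F (fun _ : Fin m => F) F
      (fun i => (LinearMap.id : F →ₗ[F] F).smulRight (f (hh (Pi.single i 1))))).comp
      (Matrix.mulVecLin c.MU⁻¹)
  have hft : ∀ x : Fin m → F, ft (c.MU *ᵥ x) = ∑ i, x i • f (hh (Pi.single i 1)) := by
    intro x
    simp only [ft, LinearMap.comp_apply, Matrix.mulVecLin_apply, mulVec_mulVec,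
      Matrix.nonsing_inv_mul _ c.hMU, one_mulVec]
    simp [LinearMap.lsum_apply]
  refine ⟨ft, fun h hP => ?_⟩
  have f1 : f 1 = 0 := by
    have := hf 1 1 d.P_one d.P_one
    rw [mul_one] at this
    exact left_eq_add.1 this
  let g1 : (Fin m → ZMod 2) →+ X :=
    { toFun := fun z => f (hh z)
      map_zero' := by
        have : hh 0 = 1 := by
          apply c.inj _ (hh1 _)
          rw [hh2, vx_zero, mulVec_zero]
        rw [this, f1]
      map_add' := by
        intro z z'
        rw [hhadd, hf _ _ (hh1 _) (hh1 _)] }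
  let g2 : (Fin m → ZMod 2) →+ X :=
    { toFun := fun z => ft (c.MU *ᵥ vx F z)
      map_zero' := by rw [vx_zero, mulVec_zero, map_zero]
      map_add' := by
        intro z z'
        rw [vx_add, mulVec_add, map_add] }
  have hg : g2 = g1 := by
    apply add_ext2
    intro i
    change ft (c.MU *ᵥ vx F (Pi.single i 1)) = f (hh (Pi.single i 1))
    rw [hft, Finset.sum_eq_single i]
    · simp [vx]
    · intro j _ hj
      simp [vx, hj]
    · simp
  obtain ⟨z, hz⟩ := c.hMU2 h hP
  have h3 := DFunLike.congr_fun hg z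
  change ft (c.MU *ᵥ vx F z) = f (hh z) at h3
  rw [hz, h3]
  rw [hT (hh z) h (hh1 _) hP (by rw [hh2, hz])]

lemma HC.P_span {d : HS B F H} (c : HC d) : Submodule.span F (Set.range d.P) = ⊤ := by
  rw [eq_top_iff]
  intro y _
  have h1 : y = c.M *ᵥ (c.M⁻¹ *ᵥ y) := by
    rw [mulVec_mulVec, Matrix.mul_nonsing_inv _ c.hM, one_mulVec]
  rw [h1]
  generalize c.M⁻¹ *ᵥ y = x
  have h2 : x ∈
      Submodule.span F (Set.range (vx F : (Fin n → ZMod 2) → (Fin n → F))) := by
    rw [span_vx]; trivial
  induction h2 using Submodule.span_induction with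
  | mem y hy =>
    obtain ⟨z, rfl⟩ := hy
    obtain ⟨h, hh⟩ := c.hM1 z
    rw [← hh]
    exact Submodule.subset_span ⟨h, rfl⟩
  | zero => rw [mulVec_zero]; exact Submodule.zero_mem _
  | add y y' _ _ hy hy' => rw [mulVec_add]; exact Submodule.add_mem _ hy hy'
  | smul a y _ hy => rw [mulVec_smul]; exact Submodule.smul_mem _ _ hy

/-- quadratic identities on `P(H)` extend to `F^n` -/
lemma quad_ext {d : HS B F H} (c : HC d) {X : Type*} [AddCommGroup X] [Module F X]
    (Bf : (Fin n → F) →ₗ[F] (Fin n → F) →ₗ[F] X) (hB : ∀ h, Bf (d.P h) (d.P h) = 0)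
    (y : Fin n → F) : Bf y y = 0 := by
  have h1 : ∀ h k, Bf (d.P h) (d.P k) + Bf (d.P k) (d.P h) = 0 := by
    intro h k
    have h2 := hB (h * k)
    rw [d.P_mul, map_add, map_add, LinearMap.add_apply, LinearMap.add_apply, hB, hB, zero_add,
      add_zero] at h2
    rw [add_comm]; exact h2
  have h2 : ∀ h y, Bf (d.P h) y + Bf y (d.P h) = 0 := by
    intro h y
    have hy : y ∈ Submodule.span F (Set.range d.P) := by rw [c.P_span]; trivial
    induction hy using Submodule.span_induction with
    | mem y hy => obtain ⟨k, rfl⟩ := hy; exact h1 h k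
    | zero => simp
    | add y y' _ _ hy hy' =>
      rw [map_add, map_add, LinearMap.add_apply]
      calc _ = (Bf (d.P h) y + Bf y (d.P h)) + (Bf (d.P h) y' + Bf y' (d.P h)) := by abel
        _ = 0 := by rw [hy, hy', add_zero]
    | smul a y _ hy =>
      rw [map_smul, map_smul, LinearMap.smul_apply, ← smul_add, hy, smul_zero]
  have h3 : ∀ x y, Bf x y + Bf y x = 0 := by
    intro x y
    have hx : x ∈ Submodule.span F (Set.range d.P) := by rw [c.P_span]; trivial
    induction hx using Submodule.span_induction with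
    | mem x hx => obtain ⟨k, rfl⟩ := hx; exact h2 k y
    | zero => simp
    | add x x' _ _ hx hx' =>
      rw [map_add, map_add, LinearMap.add_apply]
      calc _ = (Bf x y + Bf y x) + (Bf x' y + Bf y x') := by abel
        _ = 0 := by rw [hx, hx', add_zero]
    | smul a x _ hx =>
      rw [map_smul, map_smul, LinearMap.smul_apply, ← smul_add, hx, smul_zero]
  have hy : y ∈ Submodule.span F (Set.range d.P) := by rw [c.P_span]; trivial
  induction hy using Submodule.span_induction with
  | mem y hy => obtain ⟨k, rfl⟩ := hy; exact hB k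
  | zero => simp
  | add y y' _ _ hy hy' =>
    rw [map_add, map_add, LinearMap.add_apply, LinearMap.add_apply, hy, hy', zero_add, add_zero,
      add_comm]
    exact h3 y y'
  | smul a y _ hy => rw [map_smul, map_smul, LinearMap.smul_apply, hy, smul_zero, smul_zero]

/-! ### `D3` -/

variable (B F) in
/-- part of the second coordinate at weight `0` -/
noncomputable def k0 : MonoidAlgebra F (Heis B) →ₗ[F] (Fin m → F) :=
  lin (fun g => if g.v = 0 then vx F g.t else 0)

variable (B F) in
/-- part of the second coordinate at weight `v` -/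
noncomputable def tw (v : Fin n → ZMod 2) : MonoidAlgebra F (Heis B) →ₗ[F] (Fin m → F) :=
  lin (fun g => if g.v = v then vx F g.t else 0)

lemma cV_sing2 (g : Heis B) (a : F) : cV B F (MonoidAlgebra.single g a) = a • Pi.single g.v 1 := by
  simp [cV]

lemma k0_mul (x y : MonoidAlgebra F (Heis B)) :
    k0 B F (x * y) = ∑ v, (cV B F x v • tw B F v y + cV B F y v • tw B F v x +
      (cV B F x v * cV B F y v) • vx F (bil B v v)) := by
  induction x using MonoidAlgebra.induction_linear with
  | zero => simp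
  | add x x' hx hx' =>
    rw [add_mul, map_add, hx, hx', ← Finset.sum_add_distrib]
    refine Finset.sum_congr rfl fun v _ => ?_
    rw [map_add, map_add, Pi.add_apply, add_smul, smul_add, add_mul, add_smul]
    abel
  | single g a =>
    induction y using MonoidAlgebra.induction_linear with
    | zero => simp
    | add y y' hy hy' =>
      rw [mul_add, map_add, hy, hy', ← Finset.sum_add_distrib]
      refine Finset.sum_congr rfl fun v _ => ?_
      rw [map_add, map_add, Pi.add_apply, add_smul, smul_add, mul_add, add_smul]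
      abel
    | single h b =>
      rw [MonoidAlgebra.single_mul_single]
      simp only [k0, tw, lin_single, cV_sing2, Heis.mul_v, Heis.mul_t, Pi.smul_apply, smul_eq_mul]
      rw [Finset.sum_eq_single g.v]
      · by_cases hgh : h.v = g.v
        · rw [if_pos (by rw [hgh]; exact add_self2 _), if_pos hgh, if_pos rfl, hgh]
          simp only [Pi.single_eq_same, mul_one, vx_add, smul_add, smul_smul]
          rw [mul_comm b a]
          abel
        · rw [if_neg, if_neg hgh, if_pos rfl, Pi.single_eq_of_ne (Ne.symm hgh)]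
          · simp
          · intro h0
            apply hgh
            have h2 := add_self2 h.v
            exact (add_right_cancel (h0.trans h2.symm)).symm
      · intro v _ hv
        rw [if_neg (Ne.symm hv), Pi.single_eq_of_ne hv]
        simp
      · simp

lemma k0_ker (x y : MonoidAlgebra F (Heis B)) (hx : cV B F x = Pi.single 0 1)
    (hy : cV B F y = Pi.single 0 1) : k0 B F (x * y) = k0 B F x + k0 B F y := by
  rw [k0_mul, hx, hy, Finset.sum_eq_single 0]
  · simp only [Pi.single_eq_same, one_smul, mul_one, bil_zero_left, vx_zero, add_zero]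
    rw [add_comm]
    rfl
  · intro v _ hv
    rw [Pi.single_eq_of_ne hv]; simp
  · simp

/-- the central identity -/
lemma sq_sum_identity (c : (Fin n → ZMod 2) → F) (hc : ∑ v, c v = 1)
    (N : (Fin n → ZMod 2) → F) (hN0 : N 0 = 0)
    (hN : ∀ s, s ≠ 0 → ∃ i, s i ≠ 0 ∧ N s = As c s i) :
    ∑ v, (c v) ^ 2 • vx F (bil B v v) =
      qF B F (∑ v, (c v) ^ 2 • vx F v) + ∑ s, (N s) ^ 2 • vx F (bil B s s) := by
  set d : (Fin n → ZMod 2) → F := fun v => (c v) ^ 2 with hd
  have hd1 : ∑ v, d v = 1 := by
    have h1 := congrArg (fun x : F => x ^ 2) hc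
    simp only [one_pow] at h1
    rw [← h1, sum_pow_char]
  have hNd : ∀ s, s ≠ 0 → ∀ i, s i ≠ 0 → N s = As c s i → (N s) ^ 2 = As d s i := by
    intro s _ i _ h1
    rw [h1, As, As, sum_pow_char]
    refine Finset.sum_congr rfl fun v _ => ?_
    have h2 : (algebraMap (ZMod 2) F (v i)) ^ 2 = algebraMap (ZMod 2) F (v i) := by
      rw [← map_pow, ZMod.pow_card]
    rw [mul_pow, mul_pow, h2]
  have hL : ∑ v, d v • vx F (bil B v v) =
      ∑ s, ∑ v, (d v * d (v + s)) • vx F (bil B v v) := by
    rw [Finset.sum_comm]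
    refine Finset.sum_congr rfl fun v _ => ?_
    rw [← Finset.sum_smul, ← Finset.mul_sum, sum_shift' v d, hd1, mul_one]
  have hR : qF B F (∑ v, d v • vx F v) =
      ∑ s, ∑ v, (d v * d (v + s)) • (vx F (bil B v v) + vx F (bil B v s)) := by
    rw [qF, bil_sum_left, Finset.sum_comm]
    refine Finset.sum_congr rfl fun v _ => ?_
    rw [bil_smul_left, bil_sum_right, Finset.smul_sum, ← sum_shift' v]
    refine Finset.sum_congr rfl fun s _ => ?_
    rw [bil_smul_right, bil_vx, bil_add_right, vx_add, smul_smul]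
  rw [hL, hR, ← Finset.sum_add_distrib]
  refine Finset.sum_congr rfl fun s _ => ?_
  simp only [smul_add, Finset.sum_add_distrib]
  rw [add_assoc]
  have h3 : ∑ v, (d v * d (v + s)) • vx F (bil B v s) = (N s) ^ 2 • vx F (bil B s s) := by
    by_cases hs : s = 0
    · subst hs
      rw [hN0]; simp
    · obtain ⟨i, hi, hNi⟩ := hN s hs
      have h4 := As_vx d s i hi
      have h5 := congrArg (fun x => bil (BF B F) x (vx F s)) h4
      simp only [bil_sum_left, bil_smul_left, bil_vx] at h5
      rw [hNd s hs i hi hNi]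
      exact h5
  rw [h3, add_self_mod (F := F), add_zero]

variable (B F) in
/-- the bilinear map over `F` -/
def bilL : (Fin n → F) →ₗ[F] (Fin n → F) →ₗ[F] (Fin m → F) :=
  LinearMap.mk₂ F (bil (BF B F)) (bil_add_left _) (bil_smul_left _) (bil_add_right _)
    (fun c y z => bil_smul_right _ c y z)

lemma bilL_apply (y z : Fin n → F) : bilL B F y z = bil (BF B F) y z := rfl

/-- linear identities on `P(H)` extend to `F^n` -/
lemma lin_ext {d : HS B F H} (c : HC d) {X : Type*} [AddCommGroup X] [Module F X]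
    (f g : (Fin n → F) →ₗ[F] X) (h : ∀ h, f (d.P h) = g (d.P h)) : f = g := by
  apply LinearMap.ext_on c.P_span
  rintro _ ⟨k, rfl⟩
  exact h k

theorem P2 (_hnd : Nd B) (d : HS B F H) (c : HC d) :
    ∃ (D : (Fin n → F) →ₗ[F] (Fin n → F)) (Θ K : (Fin m → F) →ₗ[F] (Fin m → F))
      (a : (Fin n → ZMod 2) → (Fin n → F) →ₗ[F] F),
      (∀ h, D (d.P h) = frv 2 (d.P h)) ∧ Function.Injective Θ ∧ a 0 = 0 ∧
      (∀ y, D y = y + ∑ s, a s y • vx F s) ∧ (∀ y, qF B F (D y) = Θ (qF B F y)) ∧
      (∀ y, ∑ s, (a s y) ^ 2 • vx F (bil B s s) = K (qF B F y)) ∧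
      (∀ s ≠ 0, ∀ i, s i ≠ 0 → ∀ h, a s (d.P h) =
        ∑ v, d.cc h v * d.cc h (v + s) * algebraMap (ZMod 2) F (v i)) := by
  classical
  obtain ⟨D, hD⟩ := factor d c (fun h => frv 2 (d.P h))
    (by intro h k; rw [d.P_mul, frv_add]) (by intro h hh; rw [hh]; funext i; simp [frv])
  obtain ⟨Θ, hΘ⟩ := factorT d c (fun h => frv 2 (d.T h))
    (by intro h k hh hk; rw [d.T_mul, hh, bil_zero_left, add_zero, frv_add])
  have hΘ2 : ∀ y : Fin m → F, Θ (c.MU *ᵥ y) = fr 2 c.MU *ᵥ y := by
    intro y
    have hy : y ∈ Submodule.span F (Set.range (vx F : (Fin m → ZMod 2) → (Fin m → F))) := by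
      rw [span_vx]; trivial
    induction hy using Submodule.span_induction with
    | mem y hy =>
      obtain ⟨z, rfl⟩ := hy
      obtain ⟨h, hh1, hh2⟩ := c.hMU1 z
      rw [← hh2, hΘ h hh1, hh2, frv_mulVec, frv_vx]
    | zero => simp
    | add y y' _ _ hy hy' => rw [mulVec_add, map_add, hy, hy', mulVec_add]
    | smul a y _ hy => rw [mulVec_smul, map_smul, hy, mulVec_smul]
  have hdet : IsUnit (fr 2 c.MU).det := by
    have h1 : fr 2 c.MU = (frobenius F 2).mapMatrix c.MU := by
      ext i j; simp [fr, frobenius_def]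
    rw [h1, ← RingHom.map_det]
    exact c.hMU.map _
  have hΘinj : Function.Injective Θ := by
    rw [injective_iff_map_eq_zero]
    intro y hy
    have h1 : y = c.MU *ᵥ (c.MU⁻¹ *ᵥ y) := by
      rw [mulVec_mulVec, Matrix.mul_nonsing_inv _ c.hMU, one_mulVec]
    rw [h1, hΘ2] at hy
    have h2 := congrArg (fun t => (fr 2 c.MU)⁻¹ *ᵥ t) hy
    simp only [mulVec_mulVec, mulVec_zero] at h2
    rw [Matrix.nonsing_inv_mul_cancel_left _ _ hdet] at h2
    rw [h1, h2, mulVec_zero]
  have hTsq : ∀ h, Θ (qF B F (d.P h)) = frv 2 (qF B F (d.P h)) := by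
    intro h
    rw [← d.T_sq, hΘ _ (d.P_sq h)]
  have hD2 : ∀ y, qF B F (D y) = Θ (qF B F y) := by
    intro y
    have h1 := quad_ext c ((bilL B F).compl₁₂ D D - (bilL B F).compr₂ Θ) (by
      intro h
      rw [LinearMap.sub_apply, LinearMap.sub_apply, LinearMap.compl₁₂_apply,
        LinearMap.compr₂_apply, bilL_apply, bilL_apply, sub_eq_zero]
      change qF B F (D (d.P h)) = Θ (qF B F (d.P h))
      rw [hTsq, hD, qF, qF, frv_bil]) y
    rw [LinearMap.sub_apply, LinearMap.sub_apply, LinearMap.compl₁₂_apply,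
        LinearMap.compr₂_apply, bilL_apply, bilL_apply, sub_eq_zero] at h1
    exact h1
  -- the functionals
  have hNex : ∀ s : Fin n → ZMod 2, ∃ a : (Fin n → F) →ₗ[F] F, (s = 0 → a = 0) ∧
      ∀ i, s i ≠ 0 → ∀ h, a (d.P h) = As (d.cc h) s i := by
    intro s
    by_cases hs : s = 0
    · refine ⟨0, fun _ => rfl, ?_⟩
      intro i hi
      rw [hs] at hi
      exact absurd rfl hi
    · obtain ⟨i, hi⟩ : ∃ i, s i ≠ 0 := by
        by_contra hcon
        push Not at hcon
        exact hs (funext hcon)
      obtain ⟨a, ha⟩ := factor d c (fun h => As (d.cc h) s i)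
        (by
          intro h k
          rw [d.cc_mul, As_conv _ _ (cc_sq d h) (cc_sq d k)])
        (by
          intro h hh
          rw [cc_one d c h hh]
          unfold As
          apply Finset.sum_eq_zero
          intro v _
          by_cases hv : v = 0
          · subst hv; simp
          · rw [Pi.single_eq_of_ne hv]; simp)
      refine ⟨a, fun h => absurd h hs, ?_⟩
      intro j hj h
      rw [ha, As_eq (d.cc h) s i hi j, zmod2_ne hj, map_one, mul_one]
  choose a ha0 ha using hNex
  have hA : ∀ h s, s ≠ 0 → ∑ v, (d.cc h v * d.cc h (v + s)) • vx F v = a s (d.P h) • vx F s := by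
    intro h s hs
    obtain ⟨i, hi⟩ : ∃ i, s i ≠ 0 := by
      by_contra hcon
      push Not at hcon
      exact hs (funext hcon)
    rw [ha s i hi, As_vx _ _ _ hi]
  have hfrvP : ∀ h, frv 2 (d.P h) = ∑ v, (d.cc h v) ^ 2 • vx F v := by
    intro h
    rw [← cc_P d h, frv_sum]
    refine Finset.sum_congr rfl fun v _ => ?_
    rw [frv_smul, frv_vx]
  have hD1 : ∀ y, D y = y + ∑ s, a s y • vx F s := by
    intro y
    have h1 : D = LinearMap.id + ∑ s, (a s).smulRight (vx F s) := by
      apply lin_ext c
      intro h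
      rw [LinearMap.add_apply, LinearMap.id_apply, LinearMap.sum_apply]
      simp only [LinearMap.smulRight_apply]
      have h2 := sum_As (d.cc h) (cc_sum d h)
      rw [cc_P] at h2
      rw [← Finset.add_sum_erase _ _ (Finset.mem_univ (0 : Fin n → ZMod 2))] at h2
      rw [← Finset.add_sum_erase _ _ (Finset.mem_univ (0 : Fin n → ZMod 2)), vx_zero, smul_zero,
        zero_add]
      have h3 : ∑ s ∈ Finset.univ.erase (0 : Fin n → ZMod 2),
          ∑ v, (d.cc h v * d.cc h (v + s)) • vx F v =
          ∑ s ∈ Finset.univ.erase (0 : Fin n → ZMod 2), a s (d.P h) • vx F s := by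
        refine Finset.sum_congr rfl fun s hs => ?_
        exact hA h s (Finset.ne_of_mem_erase hs)
      rw [h3] at h2
      have h4 : ∑ v, (d.cc h v * d.cc h (v + 0)) • vx F v = D (d.P h) := by
        rw [hD, hfrvP]
        refine Finset.sum_congr rfl fun v _ => ?_
        rw [add_zero, pow_two]
      rw [h4] at h2
      calc D (d.P h) = D (d.P h) + (∑ s ∈ Finset.univ.erase (0 : Fin n → ZMod 2),
            a s (d.P h) • vx F s + ∑ s ∈ Finset.univ.erase (0 : Fin n → ZMod 2),
            a s (d.P h) • vx F s) := by rw [add_self_mod (F := F), add_zero]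
        _ = d.P h + ∑ s ∈ Finset.univ.erase (0 : Fin n → ZMod 2),
            a s (d.P h) • vx F s := by rw [← add_assoc, h2]
    have h2 := LinearMap.congr_fun h1 y
    rw [h2, LinearMap.add_apply, LinearMap.id_apply, LinearMap.sum_apply]
    rfl
  -- `K`
  obtain ⟨Kt, hKt⟩ := factorT d c (fun h => k0 B F (d.u h))
    (by
      intro h k hh hk
      rw [map_mul]
      exact k0_ker _ _ (cc_one d c h hh) (cc_one d c k hk))
  have hk0 : ∀ h, k0 B F (d.u (h * h)) = ∑ v, (d.cc h v) ^ 2 • vx F (bil B v v) := by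
    intro h
    rw [map_mul, k0_mul]
    refine Finset.sum_congr rfl fun v _ => ?_
    rw [add_self_mod (F := F), zero_add, pow_two]
    rfl
  refine ⟨D, Θ, Kt + Θ, a, hD, hΘinj, ha0 0 rfl, hD1, hD2, ?_, ?_⟩
  · intro y
    have h1 := quad_ext c ((∑ s, ((LinearMap.mul F F).compl₁₂ (a s) (a s)).compr₂
      ((LinearMap.id : F →ₗ[F] F).smulRight (vx F (bil B s s)))) - (bilL B F).compr₂ (Kt + Θ)) (by
        intro h
        rw [LinearMap.sub_apply, LinearMap.sub_apply, sub_eq_zero, LinearMap.sum_apply,
          LinearMap.sum_apply]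
        simp only [LinearMap.compr₂_apply, LinearMap.compl₁₂_apply, LinearMap.mul_apply',
          LinearMap.smulRight_apply, LinearMap.id_apply, bilL_apply]
        change _ = (Kt + Θ) (qF B F (d.P h))
        rw [LinearMap.add_apply, ← d.T_sq, hKt _ (d.P_sq h), hk0, d.T_sq, ← hD2, hD, hfrvP,
          sq_sum_identity (d.cc h) (cc_sum d h) (fun s => a s (d.P h)) (by rw [ha0 0 rfl]; rfl) (by
            intro s hs
            obtain ⟨i, hi⟩ : ∃ i, s i ≠ 0 := by
              by_contra hcon
              push Not at hcon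
              exact hs (funext hcon)
            exact ⟨i, hi, ha s i hi h⟩)]
        rw [add_comm (qF B F _), add_assoc, add_self_mod (F := F), add_zero]
        refine Finset.sum_congr rfl fun s _ => ?_
        rw [pow_two]) y
    rw [LinearMap.sub_apply, LinearMap.sub_apply, sub_eq_zero, LinearMap.sum_apply,
          LinearMap.sum_apply] at h1
    simp only [LinearMap.compr₂_apply, LinearMap.compl₁₂_apply, LinearMap.mul_apply',
          LinearMap.smulRight_apply, LinearMap.id_apply, bilL_apply] at h1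
    rw [show qF B F y = bil (BF B F) y y from rfl, ← h1]
    refine Finset.sum_congr rfl fun s _ => ?_
    rw [pow_two]
  · intro s _ i hi h
    exact ha s i hi h

end hs

end Pool.Agent.T2H54.Mip2
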