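import Mathlib
import Pool.Agent.T2H54.Mip2.P1b

set_option autoImplicit false
set_option linter.unusedSectionVars false

/-! # Package P3: derivations -/

namespace Pool.Agent.T2H54.Mip2

open Matrix Pool.Agent.R691.Mip MonoidAlgebra

section alg
variable {n m : ℕ} {B : Fin m → Matrix (Fin n) (Fin n) (ZMod 2)}
  {F : Type*} [Field F] [CharP F 2] [Algebra (ZMod 2) F] {H : Type*} [Group H]

lemma HS.finiteH (d : HS B F H) : Finite H := by
  apply Nat.finite_of_card_ne_zero
  rw [d.hcard]
  exact Nat.card_pos.ne'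

lemma exists_der (d : HS B F H) (zz : H → F) (hz : ∀ h k, zz (h * k) = zz h + zz k) :
    ∃ dd : MonoidAlgebra F (Heis B) →ₗ[F] MonoidAlgebra F (Heis B),
      (∀ h, dd (d.u h) = zz h • d.u h) ∧ ∀ x y, dd (x * y) = dd x * y + x * dd y := by
  classical
  have := d.finiteH
  have := Fintype.ofFinite H
  have := Fintype.ofFinite (Heis B)
  have hcard : Fintype.card H = Module.finrank F (MonoidAlgebra F (Heis B)) := by
    rw [Module.finrank_eq_card_basis (gbasis F (Heis B)), ← Nat.card_eq_fintype_card,
      ← Nat.card_eq_fintype_card, d.hcard]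
  let b := basisOfTopLeSpanOfCardEqFinrank (fun h => d.u h) d.hspan.ge hcard
  have hb : ∀ h, b h = d.u h := fun h => by
    simp [b, coe_basisOfTopLeSpanOfCardEqFinrank]
  refine ⟨b.constr F (fun h => zz h • d.u h), ?_, ?_⟩
  · intro h
    rw [← hb, Module.Basis.constr_basis, hb]
  · set dd := b.constr F (fun h => zz h • d.u h) with hdd
    have h0 : ∀ h, dd (d.u h) = zz h • d.u h := by
      intro h
      rw [← hb, hdd, Module.Basis.constr_basis, hb]
    intro x y
    have hx : x ∈ Submodule.span F (Set.range d.u) := by rw [d.hspan]; trivial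
    have hy : y ∈ Submodule.span F (Set.range d.u) := by rw [d.hspan]; trivial
    induction hx using Submodule.span_induction with
    | zero => simp
    | add x x' _ _ h h' => rw [add_mul, map_add, map_add, h, h', add_mul, add_mul]; abel
    | smul a x _ h => rw [smul_mul_assoc, map_smul, map_smul, h, smul_add, smul_mul_assoc,
        smul_mul_assoc]
    | mem x hx =>
      obtain ⟨h, rfl⟩ := hx
      induction hy using Submodule.span_induction with
      | zero => simp
      | add x x' _ _ h h' => rw [mul_add, map_add, map_add, h, h', mul_add, mul_add]; abel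
      | smul a x _ h => rw [mul_smul_comm, map_smul, map_smul, h, smul_add, mul_smul_comm,
          mul_smul_comm]
      | mem y hy =>
        obtain ⟨k, rfl⟩ := hy
        rw [← map_mul, h0, h0, h0, hz, map_mul, smul_mul_assoc, mul_smul_comm, add_smul]

lemma conv_single_r (c : (Fin n → ZMod 2) → F) (x h : Fin n → ZMod 2) :
    conv c (Pi.single h (1 : F)) (x + h) = c x := by
  classical
  simp only [conv]
  rw [Finset.sum_eq_single x]
  · have : x + h + x = h := by rw [add_comm x h, add_assoc, add_self2, add_zero]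
    rw [this, Pi.single_eq_same, mul_one]
  · intro v _ hv
    have : x + h + v ≠ h := by
      intro h1
      apply hv
      have h2 : x + v = 0 := by
        have : x + h + v + h = 0 := by rw [h1, add_self2]
        rw [← this]
        have h3 : x + h + v + h = x + v + (h + h) := by abel
        rw [h3, add_self2, add_zero]
      have h4 : v = x + (x + v) := by rw [← add_assoc, add_self2, zero_add]
      rw [h4, h2, add_zero]
    rw [Pi.single_eq_of_ne this, mul_zero]
  · intro h; exact absurd (Finset.mem_univ _) h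

lemma conv_single_l (c : (Fin n → ZMod 2) → F) (x h : Fin n → ZMod 2) :
    conv (Pi.single h (1 : F)) c (x + h) = c x := by
  classical
  simp only [conv]
  rw [Finset.sum_eq_single h]
  · rw [add_assoc, add_self2, add_zero, Pi.single_eq_same, one_mul]
  · intro v _ hv
    rw [Pi.single_eq_of_ne hv, zero_mul]
  · intro h; exact absurd (Finset.mem_univ _) h

lemma cV_mul_single (X : MonoidAlgebra F (Heis B)) (h : Heis B) (x : Fin n → ZMod 2) :
    cV B F (X * single h 1) (x + h.v) = cV B F X x := by
  rw [cV_mul, cV_single, one_smul, conv_single_r]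

lemma cV_single_mul (X : MonoidAlgebra F (Heis B)) (h : Heis B) (x : Fin n → ZMod 2) :
    cV B F (single h 1 * X) (x + h.v) = cV B F X x := by
  rw [cV_mul, cV_single, one_smul, conv_single_l]

/-- additive functions are linear -/
lemma add_lin {k : ℕ} (μ : (Fin k → ZMod 2) → F) (hμ : ∀ s t, μ (s + t) = μ s + μ t) :
    ∃ L : (Fin k → F) →ₗ[F] F, ∀ t, L (vx F t) = μ t := by
  refine ⟨Fintype.linearCombination F (fun l => μ (fun j => if l = j then 1 else 0)), fun t => ?_⟩
  let μ' : (Fin k → ZMod 2) →ₗ[ZMod 2] F := AddMonoidHom.toZModLinearMap 2 (AddMonoidHom.mk' μ hμ)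
  have h1 : μ t = μ' t := rfl
  rw [h1, LinearMap.pi_apply_eq_sum_univ μ' t, Fintype.linearCombination_apply]
  refine Finset.sum_congr rfl fun l _ => ?_
  rw [← algebraMap_smul F (t l)]
  rfl

lemma ndF3 (hnd : Nd B) (c : Fin m → F)
    (h : ∀ v, c ⬝ᵥ vx F (bil B v v) = 0) : c = 0 := by
  funext l
  rw [Pi.zero_apply, ← Module.forall_dual_apply_eq_zero_iff (ZMod 2)]
  intro τ
  have h1 : (fun l => τ (c l)) = (0 : Fin m → ZMod 2) := by
    apply hnd
    intro v
    have h2 := congrArg τ (h v)
    rw [map_zero] at h2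
    rw [← h2]
    simp only [dotProduct, map_sum]
    refine Finset.sum_congr rfl fun i _ => ?_
    change τ (c i) * bil B v v i = τ (c i * algebraMap (ZMod 2) F (bil B v v i))
    rw [mul_comm (c i), ← Algebra.smul_def, map_smul, smul_eq_mul, mul_comm]
  exact congrFun h1 l

/-- additive functions on `W` vanishing on the values of `q` vanish -/
lemma add_zero_of_q (hnd : Nd B) (μ : (Fin m → ZMod 2) → F)
    (hμ : ∀ s t, μ (s + t) = μ s + μ t) (h : ∀ v, μ (bil B v v) = 0) (t : Fin m → ZMod 2) :
    μ t = 0 := by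
  obtain ⟨L, hL⟩ := add_lin μ hμ
  have h1 : (fun l => L (Pi.single l 1)) = (0 : Fin m → F) := by
    apply ndF3 hnd
    intro v
    rw [← h v, ← hL, LinearMap.pi_apply_eq_sum_univ L]
    simp only [dotProduct, smul_eq_mul]
    refine Finset.sum_congr rfl fun l _ => ?_
    rw [mul_comm]
    congr 2
    funext j
    simp [Pi.single_apply, eq_comm]
  rw [← hL, LinearMap.pi_apply_eq_sum_univ L]
  refine Finset.sum_eq_zero fun l _ => ?_
  have h2 := congrFun h1 l
  simp only [Pi.zero_apply] at h2
  have h3 : (fun j => if l = j then (1 : F) else 0) = Pi.single l 1 := by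
    funext j
    simp [Pi.single_apply, eq_comm]
  rw [h3, h2, smul_zero]

section der
variable (dd : MonoidAlgebra F (Heis B) →ₗ[F] MonoidAlgebra F (Heis B))

/-- the functional of a derivation -/
noncomputable def EE (s : Fin n → ZMod 2) (g : Heis B) : F :=
  cV B F (dd (single g 1)) (g.v + s)

/-- the second coordinates over `x` -/
noncomputable def tp (B : Fin m → Matrix (Fin n) (Fin n) (ZMod 2)) (F : Type*) [Field F]
    [Algebra (ZMod 2) F] (x : Fin n → ZMod 2) : MonoidAlgebra F (Heis B) →ₗ[F] (Fin m → F) :=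
  lin (fun g => if g.v = x then vx F g.t else 0)

@[simp] lemma tp_single (x : Fin n → ZMod 2) (g : Heis B) (a : F) :
    tp B F x (single g a) = a • (if g.v = x then vx F g.t else 0) := by
  simp [tp]

lemma tp_mul_single (X : MonoidAlgebra F (Heis B)) (h : Heis B) (x : Fin n → ZMod 2) :
    tp B F (x + h.v) (X * single h 1) =
      tp B F x X + cV B F X x • (vx F h.t + vx F (bil B x h.v)) := by
  induction X using MonoidAlgebra.induction_linear with
  | zero => simp
  | add X Y hX hY =>
    rw [add_mul, map_add, map_add, map_add, hX, hY, Pi.add_apply, add_smul]; abel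
  | single g a =>
    rw [single_mul_single, mul_one, tp_single, tp_single, cV_single]
    by_cases hg : g.v = x
    · subst hg
      rw [if_pos rfl, if_pos (by rw [Heis.mul_v]), Heis.mul_t, vx_add, vx_add, Pi.smul_apply,
        Pi.single_eq_same, smul_eq_mul, mul_one, smul_add, smul_add, smul_add, add_assoc]
    · have : (g * h).v ≠ x + h.v := by
        rw [Heis.mul_v]
        intro h1
        exact hg (add_right_cancel h1)
      rw [if_neg hg, if_neg this, Pi.smul_apply, Pi.single_eq_of_ne (Ne.symm hg)]
      simp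

lemma tp_single_mul (X : MonoidAlgebra F (Heis B)) (h : Heis B) (x : Fin n → ZMod 2) :
    tp B F (x + h.v) (single h 1 * X) =
      tp B F x X + cV B F X x • (vx F h.t + vx F (bil B h.v x)) := by
  induction X using MonoidAlgebra.induction_linear with
  | zero => simp
  | add X Y hX hY =>
    rw [mul_add, map_add, map_add, map_add, hX, hY, Pi.add_apply, add_smul]; abel
  | single g a =>
    rw [single_mul_single, one_mul, tp_single, tp_single, cV_single]
    by_cases hg : g.v = x
    · subst hg
      rw [if_pos rfl, if_pos (by rw [Heis.mul_v, add_comm]), Heis.mul_t, vx_add, vx_add,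
        Pi.smul_apply, Pi.single_eq_same, smul_eq_mul, mul_one, smul_add, smul_add, smul_add]
      abel
    · have : (h * g).v ≠ x + h.v := by
        rw [Heis.mul_v, add_comm]
        intro h1
        exact hg (add_right_cancel h1)
      rw [if_neg hg, if_neg this, Pi.smul_apply, Pi.single_eq_of_ne (Ne.symm hg)]
      simp

/-- the corrected second coordinates -/
noncomputable def KK (s : Fin n → ZMod 2) (g : Heis B) : Fin m → F :=
  tp B F (g.v + s) (dd (single g 1)) + EE dd s g • vx F g.t

/-- coefficients -/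
noncomputable def co (g : Heis B) : MonoidAlgebra F (Heis B) →ₗ[F] F := by
  classical exact lin (fun g' => if g' = g then 1 else 0)

lemma co_single (g g' : Heis B) (a : F) [Decidable (g' = g)] :
    co g (single g' a) = if g' = g then a else 0 := by
  classical
  rw [co, lin_single]
  by_cases h : g' = g
  · simp [h]
  · simp [h]

lemma co_mul_single (X : MonoidAlgebra F (Heis B)) (g h : Heis B) :
    co (g * h) (X * single h 1) = co g X := by
  classical
  induction X using MonoidAlgebra.induction_linear with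
  | zero => simp
  | add X Y hX hY => rw [add_mul, map_add, map_add, hX, hY]
  | single g' a =>
    rw [single_mul_single, mul_one, co_single, co_single]
    by_cases hg : g' = g
    · simp [hg]
    · simp [hg]

lemma co_single_mul (X : MonoidAlgebra F (Heis B)) (g h : Heis B) :
    co (h * g) (single h 1 * X) = co g X := by
  classical
  induction X using MonoidAlgebra.induction_linear with
  | zero => simp
  | add X Y hX hY => rw [mul_add, map_add, map_add, hX, hY]
  | single g' a =>
    rw [single_mul_single, one_mul, co_single, co_single]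
    by_cases hg : g' = g
    · simp [hg]
    · simp [hg]

lemma tp_eq_sum (X : MonoidAlgebra F (Heis B)) (s : Fin n → ZMod 2) :
    tp B F s X = ∑ t : Fin m → ZMod 2, co ⟨s, t⟩ X • vx F t := by
  classical
  induction X using MonoidAlgebra.induction_linear with
  | zero => simp
  | add X Y hX hY =>
    rw [map_add, hX, hY, ← Finset.sum_add_distrib]
    refine Finset.sum_congr rfl fun t _ => ?_
    rw [map_add, add_smul]
  | single g a =>
    rw [tp_single]
    by_cases hg : g.v = s
    · rw [if_pos hg, Finset.sum_eq_single g.t]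
      · rw [co_single, if_pos (by ext1; exacts [hg, rfl])]
      · intro t _ ht
        rw [co_single, if_neg (fun h => ht (by rw [h])), zero_smul]
      · intro h; exact absurd (Finset.mem_univ _) h
    · rw [if_neg hg, smul_zero]
      symm
      apply Finset.sum_eq_zero
      intro t _
      rw [co_single, if_neg (fun h => hg (by rw [h])), zero_smul]

lemma co_central (X : MonoidAlgebra F (Heis B))
    (hX : ∀ y : Heis B, single y (1 : F) * X = X * single y 1) (s y : Fin n → ZMod 2)
    (t : Fin m → ZMod 2) : co ⟨s, t + be B s y⟩ X = co ⟨s, t⟩ X := by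
  have h1 := co_single_mul X ⟨s, t⟩ ⟨y, 0⟩
  have h2 := co_mul_single X ⟨s, t + be B s y⟩ ⟨y, 0⟩
  rw [← h1, ← h2, hX]
  congr 2
  ext1
  · simp only [Heis.mul_v, add_comm]
  · simp only [Heis.mul_t, be]
    have h3 : bil B s y + bil B s y = 0 := add_self2 _
    calc t + (bil B s y + bil B y s) + 0 + bil B s y
        = 0 + t + bil B y s + (bil B s y + bil B s y) := by abel
      _ = _ := by rw [h3, add_zero]

lemma pairing (f ξ : (Fin m → ZMod 2) → F) (w : Fin m → ZMod 2) (hw : w ≠ 0)
    (hf : ∀ t, f (t + w) = f t) (hξ : ∀ t, ξ (t + w) = ξ t) : ∑ t, f t * ξ t = 0 := by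
  refine Finset.sum_involution (fun t _ => t + w) ?_ ?_ ?_ ?_
  · intro t _
    rw [hf, hξ]
    exact CharTwo.add_self_eq_zero _
  · intro t _ _ h
    exact hw (left_eq_add.1 h.symm)
  · intro t _; exact Finset.mem_univ _
  · intro t _
    rw [add_assoc, add_self2, add_zero]

variable {dd} (hdd : ∀ x y, dd (x * y) = dd x * y + x * dd y)
include hdd

lemma EE_mul (s : Fin n → ZMod 2) (g h : Heis B) :
    EE dd s (g * h) = EE dd s g + EE dd s h := by
  have h1 : (single (g * h) 1 : MonoidAlgebra F (Heis B)) = single g 1 * single h 1 := by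
    rw [single_mul_single, mul_one]
  simp only [EE]
  rw [h1, hdd, map_add, Pi.add_apply, Heis.mul_v]
  have h2 : g.v + h.v + s = g.v + s + h.v := by abel
  have h3 : g.v + h.v + s = h.v + s + g.v := by abel
  conv_lhs => rw [h2]
  rw [cV_mul_single, ← h2, h3, cV_single_mul]

lemma EE_zero (hnd : Nd B) (s : Fin n → ZMod 2) (t : Fin m → ZMod 2) :
    EE dd s ⟨0, t⟩ = 0 := by
  apply add_zero_of_q hnd (fun t => EE dd s ⟨0, t⟩)
  · intro t t'
    have : (⟨0, t + t'⟩ : Heis B) = ⟨0, t⟩ * ⟨0, t'⟩ := by
      ext1 <;> simp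
    simp only [this]
    exact EE_mul hdd s _ _
  · intro v
    have : (⟨0, bil B v v⟩ : Heis B) = ⟨v, 0⟩ * ⟨v, 0⟩ := by
      ext1
      · simp [add_self2]
      · simp
    simp only [this]
    rw [EE_mul hdd]
    exact CharTwo.add_self_eq_zero _

lemma EE_eq (hnd : Nd B) (s : Fin n → ZMod 2) (g : Heis B) :
    EE dd s g = EE dd s ⟨g.v, 0⟩ := by
  have : g = ⟨g.v, 0⟩ * ⟨0, g.t⟩ := by
    ext1 <;> simp
  conv_lhs => rw [this]
  rw [EE_mul hdd, EE_zero hdd hnd, add_zero]

lemma EE_add (hnd : Nd B) (s v v' : Fin n → ZMod 2) :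
    EE dd s ⟨v + v', 0⟩ = EE dd s ⟨v, 0⟩ + EE dd s ⟨v', 0⟩ := by
  rw [← EE_mul hdd, EE_eq hdd hnd s (⟨v, 0⟩ * ⟨v', 0⟩)]
  rfl

lemma KK_mul (s : Fin n → ZMod 2) (g h : Heis B) :
    KK dd s (g * h) = KK dd s g + KK dd s h + EE dd s g • vx F (bil B s h.v) +
      EE dd s h • vx F (bil B g.v s) := by
  have h1 : (single (g * h) 1 : MonoidAlgebra F (Heis B)) = single g 1 * single h 1 := by
    rw [single_mul_single, mul_one]
  simp only [KK]
  rw [EE_mul hdd, h1, hdd, map_add, Heis.mul_v, Heis.mul_t]
  have h2 : g.v + h.v + s = g.v + s + h.v := by abel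
  have h3 : g.v + h.v + s = h.v + s + g.v := by abel
  have h4 : tp B F (g.v + h.v + s) (dd (single g 1) * single h 1) =
      tp B F (g.v + s) (dd (single g 1)) +
        EE dd s g • (vx F h.t + vx F (bil B (g.v + s) h.v)) := by
    rw [h2, tp_mul_single]; rfl
  have h5 : tp B F (g.v + h.v + s) (single g 1 * dd (single h 1)) =
      tp B F (h.v + s) (dd (single h 1)) +
        EE dd s h • (vx F g.t + vx F (bil B g.v (h.v + s))) := by
    rw [h3, tp_single_mul]; rfl
  rw [h4, h5, bil_add_left, bil_add_right, vx_add, vx_add, vx_add, vx_add]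
  have h6 : ∀ (a : F) (x : Fin m → F), a • x + a • x = 0 := by
    intro a x
    funext i
    exact CharTwo.add_self_eq_zero _
  have e1 := h6 (EE dd s g) (vx F h.t)
  have e2 := h6 (EE dd s g) (vx F (bil B g.v h.v))
  have e3 := h6 (EE dd s h) (vx F g.t)
  have e4 := h6 (EE dd s h) (vx F (bil B g.v h.v))
  simp only [smul_add, add_smul]
  linear_combination (exp := 1) e1 + e2 + e3 + e4

lemma central_dd (t : Fin m → ZMod 2) (y : Heis B) :
    single y (1 : F) * dd (single ⟨0, t⟩ 1) = dd (single ⟨0, t⟩ 1) * single y 1 := by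
  have hc : ∀ X : MonoidAlgebra F (Heis B),
      (MonoidAlgebra.single (⟨0, t⟩ : Heis B) (1 : F)) * X =
        X * (MonoidAlgebra.single (⟨0, t⟩ : Heis B) (1 : F)) := by
    intro X
    induction X using MonoidAlgebra.induction_linear with
    | zero => simp
    | add X Y hX hY => rw [mul_add, add_mul, hX, hY]
    | single g a =>
      rw [single_mul_single, single_mul_single, mul_one, one_mul]
      congr 1
      ext1
      · simp
      · simp [add_comm]
  have h1 := hdd (single y 1) (single ⟨0, t⟩ 1)
  rw [← hc, hdd, hc] at h1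
  have h2 : dd (single ⟨0, t⟩ 1) * single y 1 = single y 1 * dd (single ⟨0, t⟩ 1) := by
    rw [add_comm] at h1
    exact add_left_cancel h1
  exact h2.symm

lemma tp_central (s y : Fin n → ZMod 2) (hy : be B s y ≠ 0) (t : Fin m → ZMod 2)
    (l : Fin m → ZMod 2) (hl : l ⬝ᵥ be B s y = 0) :
    ∑ i, algebraMap (ZMod 2) F (l i) * tp B F s (dd (single ⟨0, t⟩ 1)) i = 0 := by
  rw [tp_eq_sum]
  have h1 := pairing (fun t' => co ⟨s, t'⟩ (dd (single ⟨0, t⟩ 1)))
    (fun t' => algebraMap (ZMod 2) F (l ⬝ᵥ t')) (be B s y) hy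
    (fun t' => co_central _ (central_dd hdd t) s y t')
    (fun t' => by
      rw [dotProduct_add, hl, add_zero])
  rw [← h1]
  simp only [Finset.sum_apply, Pi.smul_apply, smul_eq_mul, Finset.mul_sum]
  rw [Finset.sum_comm]
  refine Finset.sum_congr rfl fun t' _ => ?_
  rw [dotProduct, map_sum, Finset.mul_sum]
  refine Finset.sum_congr rfl fun i _ => ?_
  rw [map_mul]
  simp only [vx]
  ring

lemma KK_q (s v : Fin n → ZMod 2) : KK dd s (⟨0, bil B v v⟩ : Heis B) =
    EE dd s ⟨v, 0⟩ • vx F (be B s v) := by
  have : (⟨0, bil B v v⟩ : Heis B) = ⟨v, 0⟩ * ⟨v, 0⟩ := by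
    ext1
    · simp [add_self2]
    · simp
  rw [this, KK_mul hdd, be, vx_add, smul_add]
  have h6 : ∀ x : Fin m → F, x + x = 0 := by
    intro x
    funext i
    exact CharTwo.add_self_eq_zero _
  rw [h6, zero_add]

lemma KK_W (hnd : Nd B) (s : Fin n → ZMod 2) (t : Fin m → ZMod 2) :
    KK dd s (⟨0, t⟩ : Heis B) = tp B F s (dd (single ⟨0, t⟩ 1)) := by
  simp only [KK]
  rw [EE_zero hdd hnd, zero_smul, add_zero, zero_add]

lemma KK_W_add (hnd : Nd B) (s : Fin n → ZMod 2) (t t' : Fin m → ZMod 2) :
    KK dd s (⟨0, t + t'⟩ : Heis B) = KK dd s (⟨0, t⟩ : Heis B) + KK dd s (⟨0, t'⟩ : Heis B) := by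
  have : (⟨0, t + t'⟩ : Heis B) = ⟨0, t⟩ * ⟨0, t'⟩ := by
    ext1 <;> simp
  rw [this, KK_mul hdd, EE_zero hdd hnd, EE_zero hdd hnd]
  simp

omit hdd in
lemma vx_ne_zero {k : ℕ} {w : Fin k → ZMod 2} (hw : w ≠ 0) : vx F w ≠ 0 := by
  intro h
  apply hw
  apply vx_injective (F := F)
  rw [h, vx_zero]

theorem E1a (hnd : Nd B) (s : Fin n → ZMod 2)
    (hs : ∀ w, ∃ y, be B s y ≠ 0 ∧ be B s y ≠ w) (v : Fin n → ZMod 2) :
    EE dd s ⟨v, 0⟩ = 0 := by
  obtain ⟨y1, hy1, -⟩ := hs 0
  obtain ⟨y2, hy2, hy12⟩ := hs (be B s y1)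
  have htp : ∀ t, tp B F s (dd (single ⟨0, t⟩ 1)) = 0 := by
    intro t
    funext l
    have key : ∀ y, be B s y ≠ 0 → be B s y l = 0 →
        tp B F s (dd (single ⟨0, t⟩ 1)) l = 0 := by
      intro y hy h0
      have h1 := tp_central hdd s y hy t (Pi.single l 1) (by simp [h0])
      rw [Finset.sum_eq_single l] at h1
      · simpa using h1
      · intro i _ hi
        rw [Pi.single_eq_of_ne hi, map_zero, zero_mul]
      · intro h; exact absurd (Finset.mem_univ _) h
    have h01 : ∀ c : ZMod 2, c = 0 ∨ c = 1 := by decide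
    rcases h01 (be B s y1 l) with h1 | h1
    · exact key y1 hy1 h1
    rcases h01 (be B s y2 l) with h2 | h2
    · exact key y2 hy2 h2
    apply key (y1 + y2)
    · rw [be_add_right]
      intro h3
      apply hy12
      have h4 : be B s y2 = be B s y1 + (be B s y1 + be B s y2) := by
        rw [← add_assoc, add_self2, zero_add]
      rw [h4, h3, add_zero]
    · rw [be_add_right, Pi.add_apply, h1, h2]
      decide
  have hz : ∀ v, be B s v ≠ 0 → EE dd s ⟨v, 0⟩ = 0 := by
    intro v hv
    have h1 := KK_q hdd s v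
    rw [KK_W hdd hnd, htp] at h1
    exact (smul_eq_zero.1 h1.symm).resolve_right (vx_ne_zero hv)
  by_cases hv : be B s v = 0
  · have h1 := hz y1 hy1
    have h2 := hz (v + y1) (by rw [be_add_right, hv, zero_add]; exact hy1)
    rw [EE_add hdd hnd, h1, add_zero] at h2
    exact h2
  · exact hz v hv

theorem E1b (hnd : Nd B) (s : Fin n → ZMod 2) (w : Fin m → ZMod 2) (hw : w ≠ 0)
    (hs : ∀ y, be B s y = 0 ∨ be B s y = w) : ∃ lam : (Fin m → F) →ₗ[F] F,
      ∀ v, EE dd s ⟨v, 0⟩ • vx F (be B s v) = lam (vx F (bil B v v)) • vx F w := by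
  by_cases hall : ∀ y, be B s y = 0
  · refine ⟨0, fun v => ?_⟩
    rw [hall, vx_zero, smul_zero, LinearMap.zero_apply, zero_smul]
  · push Not at hall
    obtain ⟨y, hy⟩ := hall
    have hyw : be B s y = w := (hs y).resolve_left hy
    obtain ⟨l0, hl0⟩ : ∃ l, w l ≠ 0 := by
      by_contra hcon
      push Not at hcon
      exact hw (funext hcon)
    have h01 : ∀ c : ZMod 2, c = 0 ∨ c = 1 := by decide
    have hl1 : w l0 = 1 := (h01 _).resolve_left hl0
    have htp : ∀ t, tp B F s (dd (single ⟨0, t⟩ 1)) =
        tp B F s (dd (single ⟨0, t⟩ 1)) l0 • vx F w := by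
      intro t
      funext l
      have h1 := tp_central hdd s y hy t (Pi.single l 1 + w l • Pi.single l0 1) (by
        rw [add_dotProduct, smul_dotProduct, single_dotProduct, single_dotProduct, hyw, hl1]
        simp only [one_mul, smul_eq_mul, mul_one]
        exact CharTwo.add_self_eq_zero _)
      have h2 : ∑ i, algebraMap (ZMod 2) F
          ((Pi.single l 1 + w l • Pi.single l0 1 : Fin m → ZMod 2) i) *
          tp B F s (dd (single ⟨0, t⟩ 1)) i =
          tp B F s (dd (single ⟨0, t⟩ 1)) l + algebraMap (ZMod 2) F (w l) *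
          tp B F s (dd (single ⟨0, t⟩ 1)) l0 := by
        simp only [Pi.add_apply, Pi.smul_apply, smul_eq_mul, map_add, map_mul, add_mul,
          Finset.sum_add_distrib]
        congr 1
        · rw [Finset.sum_eq_single l]
          · simp
          · intro i _ hi
            rw [Pi.single_eq_of_ne hi, map_zero, zero_mul]
          · intro h; exact absurd (Finset.mem_univ _) h
        · rw [Finset.sum_eq_single l0]
          · simp
          · intro i _ hi
            rw [Pi.single_eq_of_ne hi, map_zero, mul_zero, zero_mul]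
          · intro h; exact absurd (Finset.mem_univ _) h
      rw [h2] at h1
      rw [Pi.smul_apply, smul_eq_mul]
      have h3 := CharTwo.add_eq_zero.1 h1
      rw [h3, mul_comm]
      rfl
    obtain ⟨lam, hlam⟩ := add_lin (fun t => KK dd s (⟨0, t⟩ : Heis B) l0) (fun t t' => by
      simp only [KK_W_add hdd hnd]; rfl)
    refine ⟨lam, fun v => ?_⟩
    rw [hlam, ← KK_q hdd, KK_W hdd hnd, htp]
    congr 1
    rw [Pi.smul_apply, smul_eq_mul]
    simp only [vx, hl1, map_one, mul_one]

end der

/-- quadratic identities extend from rational vectors -/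
lemma quad_zero (P : Matrix (Fin n) (Fin n) F)
    (h : ∀ v : Fin n → ZMod 2, vx F v ⬝ᵥ P *ᵥ vx F v = 0) (y : Fin n → F) :
    y ⬝ᵥ P *ᵥ y = 0 := by
  have hs : ∀ i, vx F (Pi.single i 1 : Fin n → ZMod 2) = Pi.single i 1 := by
    intro i
    funext j
    by_cases hj : j = i
    · subst hj; simp [vx]
    · simp [vx, Pi.single_eq_of_ne hj]
  have hd : ∀ i, P i i = 0 := by
    intro i
    have := h (Pi.single i 1)
    rw [hs] at this
    simpa [Matrix.mulVec_single_one] using this
  have ho : ∀ i j, P i j + P j i = 0 := by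
    intro i j
    have := h (Pi.single i 1 + Pi.single j 1)
    rw [vx_add, hs, hs] at this
    simp [Matrix.mulVec_add, hd] at this
    linear_combination this
  have h3 : y ⬝ᵥ P *ᵥ y = ∑ ij : Fin n × Fin n, y ij.1 * (P ij.1 ij.2 * y ij.2) := by
    rw [Fintype.sum_prod_type]
    simp [dotProduct, mulVec, Finset.mul_sum]
  rw [h3]
  refine Finset.sum_involution (fun ij _ => (ij.2, ij.1)) ?_ ?_ ?_ ?_
  · rintro ⟨i, j⟩ _
    have := ho i j
    simp only
    linear_combination (y i * y j) * this
  · rintro ⟨i, j⟩ _ hne heq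
    simp only [Prod.mk.injEq] at heq
    obtain ⟨h4, -⟩ := heq
    apply hne
    simp only [h4, hd]
    ring
  · intro ij _; exact Finset.mem_univ _
  · rintro ⟨i, j⟩ _; rfl

theorem P3 (hnd : Nd B) (d : HS B F H) (c : HC d) :
    ∃ e : Fin n → (Fin n → ZMod 2) → (Fin n → F) →ₗ[F] F,
      (∀ h j x, ∑ v, d.cc h v * e j (x + v) (vx F v) =
        algebraMap (ZMod 2) F (c.z h j) * d.cc h x) ∧
      (∀ s, (∀ w, ∃ y, be B s y ≠ 0 ∧ be B s y ≠ w) → ∀ j, e j s = 0) ∧
      (∀ s w, w ≠ 0 → (∀ y, be B s y = 0 ∨ be B s y = w) →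
        ∀ j, ∃ lam : (Fin m → F) →ₗ[F] F, ∀ y,
          e j s y • beF B F (vx F s) y = lam (qF B F y) • vx F w) := by
  classical
  have hz : ∀ h k, c.z (h * k) = c.z h + c.z k := by
    intro h k
    apply vx_injective (F := F)
    have h1 := c.hz (h * k)
    rw [d.P_mul, c.hz, c.hz, ← Matrix.mulVec_add, ← vx_add] at h1
    have h2 := congrArg (fun y => c.M⁻¹ *ᵥ y) h1
    simpa [Matrix.mulVec_mulVec, Matrix.nonsing_inv_mul c.M c.hM] using h2.symm
  have hder : ∀ j : Fin n, ∃ dd : MonoidAlgebra F (Heis B) →ₗ[F] MonoidAlgebra F (Heis B),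
      (∀ h, dd (d.u h) = algebraMap (ZMod 2) F (c.z h j) • d.u h) ∧
      ∀ x y, dd (x * y) = dd x * y + x * dd y := fun j =>
    exists_der d (fun h => algebraMap (ZMod 2) F (c.z h j)) (fun h k => by
      simp only [hz, Pi.add_apply, map_add])
  choose dd hdd1 hdd2 using hder
  have he : ∀ (j : Fin n) (s : Fin n → ZMod 2), ∃ e : (Fin n → F) →ₗ[F] F,
      ∀ v, e (vx F v) = EE (dd j) s ⟨v, 0⟩ := fun j s =>
    add_lin (fun v => EE (dd j) s ⟨v, 0⟩) (fun v v' => EE_add (hdd2 j) hnd s v v')
  choose e he using he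
  refine ⟨e, ?_, ?_, ?_⟩
  · intro h j x
    have key : ∀ X : MonoidAlgebra F (Heis B),
        cV B F (dd j X) x = ∑ v, cV B F X v * e j (x + v) (vx F v) := by
      intro X
      induction X using MonoidAlgebra.induction_linear with
      | zero => simp
      | add X Y hX hY =>
        rw [map_add, map_add, Pi.add_apply, hX, hY, map_add, ← Finset.sum_add_distrib]
        refine Finset.sum_congr rfl fun v _ => ?_
        rw [Pi.add_apply, add_mul]
      | single g a =>
        have h1 : (single g a : MonoidAlgebra F (Heis B)) = a • single g 1 := by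
          simp
        rw [h1, map_smul, map_smul, map_smul, cV_single, one_smul, Finset.sum_eq_single g.v]
        · rw [he, ← EE_eq (hdd2 j) hnd]
          simp only [EE, Pi.smul_apply, smul_eq_mul, Pi.single_eq_same, mul_one]
          congr 2
          have h2 : g.v + (x + g.v) = x + (g.v + g.v) := by abel
          rw [h2, add_self2, add_zero]
        · intro v _ hv
          rw [Pi.smul_apply, Pi.single_eq_of_ne hv, smul_zero, zero_mul]
        · intro h; exact absurd (Finset.mem_univ _) h
    have h1 := key (d.u h)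
    rw [hdd1, map_smul, Pi.smul_apply, smul_eq_mul] at h1
    exact h1.symm
  · intro s hs j
    apply LinearMap.ext
    intro y
    rw [LinearMap.pi_apply_eq_sum_univ (e j s) y, LinearMap.zero_apply]
    refine Finset.sum_eq_zero fun l _ => ?_
    have h1 : (fun k => if l = k then (1 : F) else 0) =
        vx F (fun k => if l = k then (1 : ZMod 2) else 0) := by
      funext k
      simp only [vx]
      split_ifs <;> simp
    rw [h1, he, E1a (hdd2 j) hnd s hs, smul_zero]
  · intro s w hw hs j
    obtain ⟨lam, hlam⟩ := E1b (hdd2 j) hnd s w hw hs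
    refine ⟨lam, fun y => ?_⟩
    funext l
    set P : Matrix (Fin n) (Fin n) F := Matrix.vecMulVec (fun i => e j s (Pi.single i 1))
      (fun i => beF B F (vx F s) (Pi.single i 1) l) -
      vx F w l • ∑ k, lam (Pi.single k 1) • BF B F k with hP
    have hsum : ∀ (f : (Fin n → F) →ₗ[F] F) (y : Fin n → F), f y = ∑ i, y i * f (Pi.single i 1) := by
      intro f y
      rw [LinearMap.pi_apply_eq_sum_univ f y]
      refine Finset.sum_congr rfl fun i _ => ?_
      rw [smul_eq_mul]
      congr 2
      funext k
      simp [Pi.single_apply, eq_comm]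
    have hsum' : ∀ (f : (Fin m → F) →ₗ[F] F) (y : Fin m → F), f y = ∑ i, y i * f (Pi.single i 1) := by
      intro f y
      rw [LinearMap.pi_apply_eq_sum_univ f y]
      refine Finset.sum_congr rfl fun i _ => ?_
      rw [smul_eq_mul]
      congr 2
      funext k
      simp [Pi.single_apply, eq_comm]
    have hPy : ∀ y, y ⬝ᵥ P *ᵥ y =
        e j s y * beF B F (vx F s) y l - lam (qF B F y) * vx F w l := by
      intro y
      rw [hP, Matrix.sub_mulVec, dotProduct_sub]
      congr 1
      · rw [hsum (e j s) y]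
        have h2 : beF B F (vx F s) y l = ∑ i, y i * beF B F (vx F s) (Pi.single i 1) l :=
          hsum ((LinearMap.proj l).comp (beF B F (vx F s))) y
        rw [h2]
        simp only [dotProduct, mulVec, vecMulVec_apply, Finset.sum_mul, Finset.mul_sum]
        rw [Finset.sum_comm]
        refine Finset.sum_congr rfl fun i _ => ?_
        refine Finset.sum_congr rfl fun k _ => ?_
        ring
      · rw [Matrix.smul_mulVec, dotProduct_smul, smul_eq_mul, mul_comm]
        congr 1
        rw [hsum' lam (qF B F y)]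
        simp only [qF, bil, dotProduct, mulVec, Matrix.sum_apply, Matrix.smul_apply,
          smul_eq_mul, Finset.sum_mul, Finset.mul_sum]
        symm
        rw [Finset.sum_comm]
        refine Finset.sum_congr rfl fun i _ => ?_
        rw [Finset.sum_comm]
        refine Finset.sum_congr rfl fun j _ => ?_
        refine Finset.sum_congr rfl fun k _ => ?_
        ring
    have h0 := quad_zero P (fun v => by
      rw [hPy, he]
      have h1 := congrFun (hlam v) l
      rw [Pi.smul_apply, Pi.smul_apply, smul_eq_mul, smul_eq_mul] at h1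
      rw [beF_vx, qF_vx, h1, sub_self]) y
    rw [hPy, sub_eq_zero] at h0
    exact h0

end alg

end Pool.Agent.T2H54.Mip2
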