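import Mathlib
import Pool.Agent.T2H54.Mip2.P2
import Pool.Agent.T2H54.Mip2.P3

set_option autoImplicit false
set_option linter.unusedSectionVars false

/-! # The properties E2, E3, E4 and the assembly of the data -/

namespace Pool.Agent.T2H54.Mip2

open Matrix Pool.Agent.R691.Mip

section eig
variable {n : ℕ} {F : Type*} [Field F] [CharP F 2] [Algebra (ZMod 2) F]
  {X : Type*} [AddCommGroup X] [Module F X] (b : (Fin n → ZMod 2) → X)
  (L : Fin n → X →ₗ[F] X) (hL : ∀ j z, L j (b z) = algebraMap (ZMod 2) F (z j) • b z)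

include hL in
lemma stab (S : Submodule F X) (hS : ∀ j, ∀ f ∈ S, L j f ∈ S) (κ : (Fin n → ZMod 2) → F)
    (hf : ∑ z, κ z • b z ∈ S) (ζ : Fin n → ZMod 2) : κ ζ • b ζ ∈ S := by
  classical
  have key : ∀ T : Finset (Fin n), ∑ z, (if ∀ j ∈ T, z j = ζ j then κ z else 0) • b z ∈ S := by
    intro T
    induction T using Finset.induction_on with
    | empty => simpa using hf
    | insert j T hj ih =>
      have h1 := S.add_mem (hS j _ ih) (S.smul_mem (algebraMap (ZMod 2) F (ζ j) + 1) ih)
      have h2 : L j (∑ z, (if ∀ j ∈ T, z j = ζ j then κ z else 0) • b z) +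
          (algebraMap (ZMod 2) F (ζ j) + 1) •
            (∑ z, (if ∀ j ∈ T, z j = ζ j then κ z else 0) • b z) =
          ∑ z, (if ∀ i ∈ insert j T, z i = ζ i then κ z else 0) • b z := by
        rw [map_sum, Finset.smul_sum, ← Finset.sum_add_distrib]
        refine Finset.sum_congr rfl fun z _ => ?_
        rw [map_smul, hL, smul_smul, smul_smul, ← add_smul]
        congr 1
        by_cases hT : ∀ i ∈ T, z i = ζ i
        · rw [if_pos hT]
          by_cases hz : z j = ζ j
          · rw [if_pos (by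
              intro i hi
              rcases Finset.mem_insert.1 hi with rfl | hi
              · exact hz
              · exact hT i hi), hz]
            have h3 : (2 : F) = 0 := CharTwo.two_eq_zero
            linear_combination (κ z * algebraMap (ZMod 2) F (ζ j)) * h3
          · rw [if_neg (fun h => hz (h j (Finset.mem_insert_self _ _)))]
            have h3 : z j + ζ j = 1 := by
              revert hz
              generalize z j = x
              generalize ζ j = y
              revert x y
              decide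
            have h4 : algebraMap (ZMod 2) F (z j) + algebraMap (ZMod 2) F (ζ j) = 1 := by
              rw [← map_add, h3, map_one]
            have h5 : (2 : F) = 0 := CharTwo.two_eq_zero
            linear_combination (κ z) * h4 + (κ z) * h5
        · rw [if_neg hT, if_neg (fun h => hT (fun i hi => h i (Finset.mem_insert_of_mem hi)))]
          ring
      rw [h2] at h1
      exact h1
  have h1 := key Finset.univ
  rw [Finset.sum_eq_single ζ] at h1
  · simpa using h1
  · intro z _ hz
    rw [if_neg, zero_smul]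
    intro h
    exact hz (funext fun i => h i (Finset.mem_univ i))
  · simp

include hL in
lemma eigen (_hli : LinearIndependent F b) (hsp : Submodule.span F (Set.range b) = ⊤) (f : X)
    (ζ : Fin n → ZMod 2) (hf : ∀ j, L j f = algebraMap (ZMod 2) F (ζ j) • f) :
    ∃ κ : F, f = κ • b ζ := by
  classical
  obtain ⟨κ, hκ⟩ : ∃ κ : (Fin n → ZMod 2) → F, ∑ z, κ z • b z = f := by
    apply (Submodule.mem_span_range_iff_exists_fun F).1
    rw [hsp]; trivial
  refine ⟨κ ζ, ?_⟩
  rw [← hκ, Finset.sum_eq_single ζ]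
  · intro z _ hz
    by_contra hne
    have hκz : κ z ≠ 0 := fun h => hne (by rw [h, zero_smul])
    have hS : ∀ j, ∀ g ∈ Submodule.span F {f}, L j g ∈ Submodule.span F {f} := by
      intro j g hg
      obtain ⟨a, rfl⟩ := Submodule.mem_span_singleton.1 hg
      rw [map_smul, hf]
      exact Submodule.smul_mem _ _ (Submodule.smul_mem _ _ (Submodule.mem_span_singleton_self f))
    have h1 := stab b L hL (Submodule.span F {f}) hS κ
      (by rw [hκ]; exact Submodule.mem_span_singleton_self f) z
    obtain ⟨a, ha⟩ := Submodule.mem_span_singleton.1 h1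
    have h2 : ∀ j, z j = ζ j := by
      intro j
      have h3 := congrArg (L j) ha
      rw [map_smul, map_smul, hf, hL, smul_comm a, ha, smul_comm (κ z)] at h3
      have h4 : algebraMap (ZMod 2) F (ζ j) = algebraMap (ZMod 2) F (z j) := by
        have h5 : (algebraMap (ZMod 2) F (ζ j) - algebraMap (ZMod 2) F (z j)) • (κ z • b z) = 0 := by
          rw [sub_smul, h3, sub_self]
        rcases smul_eq_zero.1 h5 with h6 | h6
        · exact sub_eq_zero.1 h6
        · exact absurd h6 hne
      exact ((algebraMap (ZMod 2) F).injective h4).symm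
    exact hz (funext h2)
  · simp

end eig

section dbar
variable {n m : ℕ} {B : Fin m → Matrix (Fin n) (Fin n) (ZMod 2)}
  {F : Type*} [Field F] [CharP F 2] [Algebra (ZMod 2) F]

/-- the operator attached to a family of functionals -/
def dbar (e : (Fin n → ZMod 2) → (Fin n → F) →ₗ[F] F) :
    ((Fin n → ZMod 2) → F) →ₗ[F] ((Fin n → ZMod 2) → F) where
  toFun f := fun x => ∑ v, f v * e (x + v) (vx F v)
  map_add' f g := by
    funext x
    simp [add_mul, Finset.sum_add_distrib]
  map_smul' a f := by
    funext x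
    simp [Finset.mul_sum, mul_assoc]

lemma dbar_apply (e : (Fin n → ZMod 2) → (Fin n → F) →ₗ[F] F) (f : (Fin n → ZMod 2) → F)
    (x : Fin n → ZMod 2) : dbar e f x = ∑ v, f v * e (x + v) (vx F v) := rfl

/-- functions supported in `Y` -/
def supp (F : Type*) [Field F] (Y : Set (Fin n → ZMod 2)) : Submodule F ((Fin n → ZMod 2) → F) where
  carrier := {f | ∀ v, v ∉ Y → f v = 0}
  add_mem' := by
    intro f g hf hg v hv
    rw [Pi.add_apply, hf v hv, hg v hv, add_zero]
  zero_mem' := fun v _ => rfl
  smul_mem' := by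
    intro a f hf v hv
    rw [Pi.smul_apply, hf v hv, smul_zero]

lemma mem_supp {Y : Set (Fin n → ZMod 2)} {f : (Fin n → ZMod 2) → F} :
    f ∈ supp F Y ↔ ∀ v, v ∉ Y → f v = 0 := Iff.rfl

lemma supp_stab (e : Fin n → (Fin n → ZMod 2) → (Fin n → F) →ₗ[F] F) (Y : Set (Fin n → ZMod 2))
    (hY : ClosedE e Y) (j : Fin n) (f : (Fin n → ZMod 2) → F) (hf : f ∈ supp F Y) :
    dbar (e j) f ∈ supp F Y := by
  intro x hx
  rw [dbar_apply]
  apply Finset.sum_eq_zero
  intro v _
  by_cases hv : v ∈ Y
  · have h1 : e j (x + v) (vx F v) = 0 := by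
      by_contra hne
      apply hx
      have h2 := hY v hv j (x + v) hne
      have h3 : v + (x + v) = x := by
        calc v + (x + v) = x + (v + v) := by abel
          _ = x := by rw [add_self2, add_zero]
      rwa [h3] at h2
    rw [h1, mul_zero]
  · rw [hf v hv, zero_mul]

end dbar

section hs
variable {n m : ℕ} {B : Fin m → Matrix (Fin n) (Fin n) (ZMod 2)}
  {F : Type*} [Field F] [CharP F 2] [Algebra (ZMod 2) F] {H : Type*} [Group H]

/-- injectivity of `M` on rational vectors -/
lemma HC.z_eq {d : HS B F H} (c : HC d) {h k : H} (hk : d.P h = d.P k) : c.z h = c.z k := by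
  rw [c.hz h, c.hz k] at hk
  have h1 := congrArg (fun t => c.M⁻¹ *ᵥ t) hk
  simp only [mulVec_mulVec, Matrix.nonsing_inv_mul _ c.hM, one_mulVec] at h1
  exact vx_injective h1

lemma HC.z_mul {d : HS B F H} (c : HC d) (h k : H) : c.z (h * k) = c.z h + c.z k := by
  have h1 := d.P_mul h k
  rw [c.hz h, c.hz k, c.hz (h * k), ← mulVec_add, ← vx_add] at h1
  have h2 := congrArg (fun t => c.M⁻¹ *ᵥ t) h1
  simp only [mulVec_mulVec, Matrix.nonsing_inv_mul _ c.hM, one_mulVec] at h2
  exact vx_injective h2

/-- a system of representatives -/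
lemma HC.exists_hh {d : HS B F H} (c : HC d) :
    ∃ hh : (Fin n → ZMod 2) → H, ∀ z, c.z (hh z) = z := by
  choose hh hh1 using c.hM1
  refine ⟨hh, fun z => ?_⟩
  have h1 := hh1 z
  rw [c.hz (hh z)] at h1
  have h2 := congrArg (fun t => c.M⁻¹ *ᵥ t) h1
  simp only [mulVec_mulVec, Matrix.nonsing_inv_mul _ c.hM, one_mulVec] at h2
  exact vx_injective h2

lemma cc_hh (d : HS B F H) (c : HC d) (hh : (Fin n → ZMod 2) → H)
    (hz : ∀ z, c.z (hh z) = z) (h : H) : d.cc (hh (c.z h)) = d.cc h := by
  apply cc_congr d c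
  rw [c.hz, c.hz h, hz]

variable (d : HS B F H) (c : HC d) (e : Fin n → (Fin n → ZMod 2) → (Fin n → F) →ₗ[F] F)
  (hDB : ∀ h j x, ∑ v, d.cc h v * e j (x + v) (vx F v) =
        algebraMap (ZMod 2) F (c.z h j) * d.cc h x)

include hDB in
lemma dbar_cc (h : H) (j : Fin n) : dbar (e j) (d.cc h) =
    algebraMap (ZMod 2) F (c.z h j) • d.cc h := by
  funext x
  rw [dbar_apply, hDB]; rfl

include hDB in
lemma closed_expand (hh : (Fin n → ZMod 2) → H) (hz : ∀ z, c.z (hh z) = z)
    (Y : Set (Fin n → ZMod 2)) (hY : ClosedE e Y) (v : Fin n → ZMod 2) (hv : v ∈ Y) :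
    ∃ κ : (Fin n → ZMod 2) → F, vx F v = ∑ z, κ z • d.P (hh z) ∧
      ∀ z, κ z ≠ 0 → d.cc (hh z) ∈ supp F Y := by
  classical
  obtain ⟨hli, hsp⟩ := cc_basis d c hh hz
  obtain ⟨κ, hκ⟩ : ∃ κ : (Fin n → ZMod 2) → F, ∑ z, κ z • d.cc (hh z) =
      (Pi.single v 1 : (Fin n → ZMod 2) → F) := by
    apply (Submodule.mem_span_range_iff_exists_fun F).1
    rw [hsp]; trivial
  refine ⟨κ, ?_, ?_⟩
  · have h1 : ∀ f : (Fin n → ZMod 2) → F, ∀ g : (Fin n → ZMod 2) → F, f = g →
        ∑ x, f x • vx F x = ∑ x, g x • vx F x := by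
      intro f g h; rw [h]
    have h2 := h1 _ _ hκ
    have h3 : ∑ x, (Pi.single v 1 : (Fin n → ZMod 2) → F) x • vx F x = vx F v := by
      rw [Finset.sum_eq_single v]
      · simp
      · intro x _ hx; rw [Pi.single_eq_of_ne hx, zero_smul]
      · simp
    rw [h3] at h2
    rw [← h2]
    simp only [Finset.sum_apply, Pi.smul_apply, smul_eq_mul, Finset.sum_smul]
    rw [Finset.sum_comm]
    refine Finset.sum_congr rfl fun z _ => ?_
    rw [← cc_P d (hh z), Finset.smul_sum]
    refine Finset.sum_congr rfl fun x _ => ?_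
    rw [smul_smul]
  · intro z hκz
    have h1 := stab (fun z => d.cc (hh z)) (fun j => dbar (e j))
      (by intro j z; rw [dbar_cc d c e hDB, hz]) (supp F Y) (fun j f hf => supp_stab e Y hY j f hf) κ
      (by
        rw [hκ]
        intro x hx
        rw [Pi.single_eq_of_ne]
        rintro rfl; exact hx hv) z
    have h2 := (supp F Y).smul_mem (κ z)⁻¹ h1
    rw [smul_smul, inv_mul_cancel₀ hκz, one_smul] at h2
    exact h2

variable (a : (Fin n → ZMod 2) → (Fin n → F) →ₗ[F] F) (ha0 : a 0 = 0)
  (ha : ∀ s ≠ 0, ∀ i, s i ≠ 0 → ∀ h, a s (d.P h) =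
        ∑ v, d.cc h v * d.cc h (v + s) * algebraMap (ZMod 2) F (v i))

lemma exists_ne {s : Fin n → ZMod 2} (hs : s ≠ 0) : ∃ i, s i ≠ 0 := by
  by_contra hcon
  push Not at hcon
  exact hs (funext hcon)

include hDB ha0 ha in
lemma E2' (Y : Set (Fin n → ZMod 2)) (hY : ClosedE e Y) (s : Fin n → ZMod 2)
    (hs : ∀ v ∈ Y, ∀ v' ∈ Y, v + v' ≠ s) (v : Fin n → ZMod 2) (hv : v ∈ Y) :
    a s (vx F v) = 0 := by
  by_cases hs0 : s = 0
  · rw [hs0, ha0]; rfl
  obtain ⟨hh, hz⟩ := c.exists_hh
  obtain ⟨κ, h1, h2⟩ := closed_expand d c e hDB hh hz Y hY v hv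
  obtain ⟨i, hi⟩ := exists_ne hs0
  rw [h1, map_sum]
  apply Finset.sum_eq_zero
  intro z _
  rw [map_smul]
  by_cases hκ : κ z = 0
  · rw [hκ, zero_smul]
  · rw [ha s hs0 i hi, Finset.sum_eq_zero, smul_zero]
    intro x _
    have h3 := h2 z hκ
    by_cases hx : x ∈ Y
    · by_cases hx2 : x + s ∈ Y
      · exfalso
        apply hs x hx (x + s) hx2
        rw [← add_assoc, add_self2, zero_add]
      · rw [h3 _ hx2]; ring
    · rw [h3 _ hx]; ring

include hDB ha in
lemma E3' (L : AddSubgroup (Fin n → ZMod 2)) (hL : ∀ j, ∀ s, s ∉ L → e j s = 0)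
    (s : Fin n → ZMod 2) (hs : s ∉ L) : a s = 0 := by
  classical
  have hs0 : s ≠ 0 := by
    rintro rfl; exact hs L.zero_mem
  obtain ⟨i, hi⟩ := exists_ne hs0
  obtain ⟨hh, hz⟩ := c.exists_hh
  obtain ⟨hli, hsp⟩ := cc_basis d c hh hz
  apply lin_ext c
  intro h
  rw [ha s hs0 i hi h, LinearMap.zero_apply]
  -- the support is in one coset
  have key : ∀ x0, d.cc h x0 ≠ 0 → ∀ x, d.cc h x ≠ 0 → x + x0 ∈ L := by
    intro x0 hx0 x hx
    by_contra hcon
    let f : (Fin n → ZMod 2) → F := fun y => if y + x0 ∈ L then d.cc h y else 0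
    have hf : ∀ j, dbar (e j) f = algebraMap (ZMod 2) F (c.z h j) • f := by
      intro j
      funext y
      rw [dbar_apply]
      change ∑ v, (if v + x0 ∈ L then d.cc h v else 0) * e j (y + v) (vx F v) =
        algebraMap (ZMod 2) F (c.z h j) * (if y + x0 ∈ L then d.cc h y else 0)
      by_cases hy : y + x0 ∈ L
      · rw [if_pos hy, ← hDB]
        refine Finset.sum_congr rfl fun v _ => ?_
        by_cases hv : v + x0 ∈ L
        · rw [if_pos hv]
        · rw [if_neg hv]
          have : y + v ∉ L := by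
            intro h1
            apply hv
            have h2 := L.add_mem h1 hy
            have h3 : y + v + (y + x0) = v + x0 := by
              calc y + v + (y + x0) = v + x0 + (y + y) := by abel
                _ = v + x0 := by rw [add_self2, add_zero]
            rwa [h3] at h2
          rw [hL j _ this]; simp
      · rw [if_neg hy, mul_zero]
        apply Finset.sum_eq_zero
        intro v _
        by_cases hv : v + x0 ∈ L
        · have : y + v ∉ L := by
            intro h1
            apply hy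
            have h2 := L.add_mem h1 hv
            have h3 : y + v + (v + x0) = y + x0 := by
              calc y + v + (v + x0) = y + x0 + (v + v) := by abel
                _ = y + x0 := by rw [add_self2, add_zero]
            rwa [h3] at h2
          rw [hL j _ this]; simp
        · rw [if_neg hv, zero_mul]
    obtain ⟨κ, hκ⟩ := eigen (fun z => d.cc (hh z)) (fun j => dbar (e j))
      (by intro j z; rw [dbar_cc d c e hDB, hz]) hli hsp f (c.z h) hf
    simp only [cc_hh d c hh hz h] at hκ
    have h1 := congrFun hκ x0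
    have h2 := congrFun hκ x
    have h3 : x0 + x0 ∈ L := by rw [add_self2]; exact L.zero_mem
    simp only [f, if_pos h3, if_neg hcon, Pi.smul_apply, smul_eq_mul] at h1 h2
    have h4 : κ = 1 := by
      have h5 : (κ - 1) * d.cc h x0 = 0 := by rw [sub_mul, ← h1, one_mul, sub_self]
      rcases mul_eq_zero.1 h5 with h6 | h6
      · exact sub_eq_zero.1 h6
      · exact absurd h6 hx0
    rw [h4, one_mul] at h2
    exact hx h2.symm
  apply Finset.sum_eq_zero
  intro v _
  by_cases hv : d.cc h v = 0
  · rw [hv]; ring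
  by_cases hv2 : d.cc h (v + s) = 0
  · rw [hv2]; ring
  exfalso
  apply hs
  have h1 := key v hv (v + s) hv2
  have h2 : v + s + v = s := by
    calc v + s + v = s + (v + v) := by abel
      _ = s := by rw [add_self2, add_zero]
  rwa [h2] at h1

end hs

section bracket
variable {n m : ℕ} (B : Fin m → Matrix (Fin n) (Fin n) (ZMod 2))
  (F : Type*) [Field F] [CharP F 2] [Algebra (ZMod 2) F]

/-- one coordinate of the polar form, in `F` -/
def om (l : Fin m) (u v : Fin n → ZMod 2) : F := algebraMap (ZMod 2) F (be B u v l)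

variable {F}
/-- the bracket -/
def br (l : Fin m) (f g : (Fin n → ZMod 2) → F) : (Fin n → ZMod 2) → F :=
  fun x => ∑ u, om B F l u x * f u * g (x + u)

variable {B}

lemma om_add_left (l : Fin m) (u v w : Fin n → ZMod 2) :
    om B F l (u + v) w = om B F l u w + om B F l v w := by
  simp [om, be_add_left]

lemma om_add_right (l : Fin m) (u v w : Fin n → ZMod 2) :
    om B F l u (v + w) = om B F l u v + om B F l u w := by
  simp [om, be_add_right]

lemma om_self (l : Fin m) (u : Fin n → ZMod 2) : om B F l u u = 0 := by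
  simp [om]

lemma om_comm (l : Fin m) (u v : Fin n → ZMod 2) : om B F l u v = om B F l v u := by
  simp [om, be_comm B u v]

lemma om_sq (l : Fin m) (u v : Fin n → ZMod 2) : om B F l u v ^ 2 = om B F l u v := by
  rw [om, ← map_pow, ZMod.pow_card]

lemma cancel2 (x u v : Fin n → ZMod 2) : x + u + (v + u) = x + v := by
  calc x + u + (v + u) = x + v + (u + u) := by abel
    _ = x + v := by rw [add_self2, add_zero]

lemma br_dbar (l : Fin m) (e : (Fin n → ZMod 2) → (Fin n → F) →ₗ[F] F)
    (Y : Set (Fin n → ZMod 2)) (f g : (Fin n → ZMod 2) → F) (hf : f ∈ supp F Y) (hg : g ∈ supp F Y)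
    (H : ∀ t, ∀ u ∈ Y, ∀ u' ∈ Y,
      om B F l t u' * e t (vx F u) = om B F l t u * e t (vx F u')) :
    dbar e (br B l f g) = br B l (dbar e f) g + br B l f (dbar e g) := by
  funext x
  rw [Pi.add_apply]
  have h1 : dbar e (br B l f g) x =
      ∑ u, ∑ u', f u * g u' * (om B F l u u' * e (x + u + u') (vx F (u + u'))) := by
    rw [dbar_apply]
    simp only [br, Finset.sum_mul]
    rw [Finset.sum_comm]
    refine Finset.sum_congr rfl fun u _ => ?_
    rw [← sum_shift u]
    refine Finset.sum_congr rfl fun v _ => ?_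
    have h2 : v + u + u = v := by rw [add_assoc, add_self2, add_zero]
    have h3 : x + (v + u) = x + u + v := by abel
    rw [h2, h3, om_add_right, om_self, add_zero, add_comm v u]
    ring
  have h2 : br B l (dbar e f) g x =
      ∑ u, ∑ u', f u * g u' * (om B F l (x + u') x * e (x + u + u') (vx F u)) := by
    simp only [br, dbar_apply, Finset.sum_mul, Finset.mul_sum]
    rw [Finset.sum_comm]
    refine Finset.sum_congr rfl fun u _ => ?_
    rw [← sum_shift' x]
    refine Finset.sum_congr rfl fun v _ => ?_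
    have h2 : x + (x + v) = v := by rw [← add_assoc, add_self2, zero_add]
    have h3 : x + v + u = x + u + v := by abel
    rw [h2, h3]
    ring
  have h3 : br B l f (dbar e g) x =
      ∑ u, ∑ u', f u * g u' * (om B F l u x * e (x + u + u') (vx F u')) := by
    simp only [br, dbar_apply, Finset.mul_sum]
    refine Finset.sum_congr rfl fun u _ => ?_
    refine Finset.sum_congr rfl fun v _ => ?_
    ring
  rw [h1, h2, h3, ← Finset.sum_add_distrib]
  refine Finset.sum_congr rfl fun u _ => ?_
  rw [← Finset.sum_add_distrib]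
  refine Finset.sum_congr rfl fun v _ => ?_
  by_cases hu : u ∈ Y
  · by_cases hv : v ∈ Y
    · have hx : x = (x + u + v) + (u + v) := by
        calc x = x + (u + u) + (v + v) := by rw [add_self2, add_self2, add_zero, add_zero]
          _ = (x + u + v) + (u + v) := by abel
      set t := x + u + v with ht
      have h4 : om B F l (x + v) x = om B F l t v + om B F l u v := by
        have h5 : x + v = t + u := by
          rw [ht]
          calc x + v = x + v + (u + u) := by rw [add_self2, add_zero]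
            _ = x + u + v + u := by abel
        rw [h5, hx]
        simp only [om_add_left, om_add_right, om_self]
        rw [om_comm l u t]
        have h6 : (2 : F) = 0 := CharTwo.two_eq_zero
        linear_combination (om B F l t u) * h6
      have h5 : om B F l u x = om B F l t u + om B F l u v := by
        rw [hx]
        simp only [om_add_right, om_self]
        rw [om_comm l u t]
        ring
      rw [h4, h5, vx_add, map_add]
      have h6 := H t u hu v hv
      have h7 : (2 : F) = 0 := CharTwo.two_eq_zero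
      linear_combination (-(f u * g v)) * h6 - (f u * g v * (om B F l t u) * (e t) (vx F v)) * h7
    · rw [hg v hv]; ring
  · rw [hf u hu]; ring

lemma br_sum (l : Fin m) (f g : (Fin n → ZMod 2) → F) :
    ∑ x, br B l f g x = beF B F (∑ u, f u • vx F u) (∑ u, g u • vx F u) l := by
  have hR : beF B F (∑ u, f u • vx F u) (∑ u, g u • vx F u) l =
      ∑ u, ∑ v, om B F l u v * f u * g v := by
    rw [map_sum (beF B F), LinearMap.sum_apply, Finset.sum_apply]
    refine Finset.sum_congr rfl fun u _ => ?_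
    rw [map_sum, Finset.sum_apply]
    refine Finset.sum_congr rfl fun v _ => ?_
    rw [map_smul, map_smul, LinearMap.smul_apply, beF_vx]
    simp only [om, vx, Pi.smul_apply, smul_eq_mul]
    ring
  rw [hR]
  simp only [br]
  rw [Finset.sum_comm]
  refine Finset.sum_congr rfl fun u _ => ?_
  rw [← sum_shift u (fun x => om B F l u x * f u * g (x + u))]
  refine Finset.sum_congr rfl fun v _ => ?_
  have h2 : v + u + u = v := by rw [add_assoc, add_self2, add_zero]
  rw [h2, om_add_right, om_self, add_zero]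

lemma half_sum (s : Fin n → ZMod 2) (i : Fin n) (hi : s i ≠ 0) (g : (Fin n → ZMod 2) → F) :
    ∑ u, g u = ∑ u : Fin n → ZMod 2, (1 + algebraMap (ZMod 2) F (u i)) * (g u + g (u + s)) := by
  have h1 : ∑ u : Fin n → ZMod 2, (1 + algebraMap (ZMod 2) F (u i)) * g (u + s) =
      ∑ u : Fin n → ZMod 2, algebraMap (ZMod 2) F (u i) * g u := by
    rw [← sum_shift s (fun u : Fin n → ZMod 2 => algebraMap (ZMod 2) F (u i) * g u)]
    refine Finset.sum_congr rfl fun u _ => ?_
    rw [Pi.add_apply, zmod2_ne hi, map_add, map_one]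
    ring
  have h2 : ∀ u : Fin n → ZMod 2, (1 + algebraMap (ZMod 2) F (u i)) * (g u + g (u + s)) =
      (g u + algebraMap (ZMod 2) F (u i) * g u) + (1 + algebraMap (ZMod 2) F (u i)) * g (u + s) := by
    intro u; ring
  simp only [h2]
  rw [Finset.sum_add_distrib, Finset.sum_add_distrib, h1, add_assoc, CharTwo.add_self_eq_zero,
    add_zero]

lemma br_sq (l : Fin m) (a b : (Fin n → ZMod 2) → F) :
    ∑ x, conv a b x * br B l a b x = ∑ x, (br B l a b x) ^ 2 := by
  classical
  have hR : ∀ x, (br B l a b x) ^ 2 = ∑ u, om B F l u x * (a u * b (x + u)) ^ 2 := by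
    intro x
    rw [br, CharTwo.sum_sq]
    refine Finset.sum_congr rfl fun u _ => ?_
    have := om_sq (B := B) (F := F) l u x
    linear_combination (a u * b (x + u)) ^ 2 * this
  have hL : ∀ x, conv a b x * br B l a b x =
      ∑ s, ∑ u, a u * b (x + u) * (a (u + s) * b (x + (u + s))) * om B F l (u + s) x := by
    intro x
    rw [conv, br, Finset.sum_mul, Finset.sum_comm]
    refine Finset.sum_congr rfl fun u _ => ?_
    rw [Finset.mul_sum, ← sum_shift' u]
    refine Finset.sum_congr rfl fun s _ => ?_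
    ring
  simp only [hR, hL]
  rw [Finset.sum_comm, ← Finset.add_sum_erase _ _ (Finset.mem_univ (0 : Fin n → ZMod 2))]
  have h0 : ∑ s ∈ Finset.univ.erase (0 : Fin n → ZMod 2), ∑ x,
      ∑ u, a u * b (x + u) * (a (u + s) * b (x + (u + s))) * om B F l (u + s) x = 0 := by
    apply Finset.sum_eq_zero
    intro s hs
    have hs0 : s ≠ 0 := Finset.ne_of_mem_erase hs
    obtain ⟨i, hi⟩ := exists_ne hs0
    have h1 : ∀ x, ∑ u, a u * b (x + u) * (a (u + s) * b (x + (u + s))) * om B F l (u + s) x =
        ∑ u : Fin n → ZMod 2, (1 + algebraMap (ZMod 2) F (u i)) *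
          (a u * b (x + u) * (a (u + s) * b (x + (u + s))) * om B F l s x) := by
      intro x
      rw [half_sum s i hi]
      refine Finset.sum_congr rfl fun u _ => ?_
      congr 1
      have h2 : u + s + s = u := by rw [add_assoc, add_self2, add_zero]
      rw [h2, om_add_left]
      have h7 : (2 : F) = 0 := CharTwo.two_eq_zero
      linear_combination (a u * b (x + u) * (a (u + s) * b (x + (u + s))) * om B F l u x) * h7
    simp only [h1]
    rw [Finset.sum_comm]
    apply Finset.sum_eq_zero
    intro u _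
    rw [← Finset.mul_sum]
    rw [sum_pair (F := F) s hs0, mul_zero]
    intro x
    have h3 : x + s + u = x + (u + s) := by abel
    have h4 : x + s + (u + s) = x + u := cancel2 x s u
    rw [h3, h4, om_add_right, om_self, add_zero]
    ring
  rw [h0, add_zero]
  refine Finset.sum_congr rfl fun x _ => ?_
  refine Finset.sum_congr rfl fun u _ => ?_
  rw [add_zero]
  ring

end bracket

section e4
variable {n m : ℕ} {B : Fin m → Matrix (Fin n) (Fin n) (ZMod 2)}
  {F : Type*} [Field F] [CharP F 2] [Algebra (ZMod 2) F] {H : Type*} [Group H]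

omit [CharP F 2] in
lemma br_smul_left (l : Fin m) (a : F) (f g : (Fin n → ZMod 2) → F) :
    br (B := B) l (a • f) g = a • br (B := B) l f g := by
  funext x
  simp only [br, Pi.smul_apply, smul_eq_mul, Finset.mul_sum]
  refine Finset.sum_congr rfl fun u _ => ?_
  ring

omit [CharP F 2] in
lemma br_smul_right (l : Fin m) (a : F) (f g : (Fin n → ZMod 2) → F) :
    br (B := B) l f (a • g) = a • br (B := B) l f g := by
  funext x
  simp only [br, Pi.smul_apply, smul_eq_mul, Finset.mul_sum]
  refine Finset.sum_congr rfl fun u _ => ?_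
  ring

lemma frv_beF (y z : Fin n → F) : beF B F (frv 2 y) (frv 2 z) = frv 2 (beF B F y z) := by
  rw [beF_apply, beF_apply, frv_add, frv_bil, frv_bil]

variable (d : HS B F H) (c : HC d) (e : Fin n → (Fin n → ZMod 2) → (Fin n → F) →ₗ[F] F)
  (hDB : ∀ h j x, ∑ v, d.cc h v * e j (x + v) (vx F v) =
        algebraMap (ZMod 2) F (c.z h j) * d.cc h x)

include hDB in
lemma E4' (D : (Fin n → F) →ₗ[F] (Fin n → F)) (hD : ∀ h, D (d.P h) = frv 2 (d.P h))
    (Y : AddSubgroup (Fin n → ZMod 2)) (hY : ClosedE e (Y : Set (Fin n → ZMod 2))) (l : Fin m)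
    (hYl : ∀ j, ∀ t ∈ Y, (∃ v ∈ Y, be B t v l ≠ 0) →
      ∃ c : F, ∀ v ∈ Y, e j t (vx F v) = c * algebraMap (ZMod 2) F (be B t v l)) :
    ∀ v ∈ Y, ∀ v' ∈ Y, beF B F (D (vx F v)) (D (vx F v')) l = beF B F (vx F v) (vx F v') l := by
  classical
  obtain ⟨hh, hz⟩ := c.exists_hh
  obtain ⟨hli, hsp⟩ := cc_basis d c hh hz
  have hH : ∀ j, ∀ t, ∀ u ∈ (Y : Set (Fin n → ZMod 2)), ∀ u' ∈ (Y : Set (Fin n → ZMod 2)),
      om B F l t u' * e j t (vx F u) = om B F l t u * e j t (vx F u') := by
    intro j t u hu u' hu'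
    by_cases ht : t ∈ Y
    · by_cases hex : ∃ v ∈ Y, be B t v l ≠ 0
      · obtain ⟨a, ha⟩ := hYl j t ht hex
        rw [ha u hu, ha u' hu']
        simp only [om]
        ring
      · push Not at hex
        rw [om, om, hex u hu, hex u' hu', map_zero]
        ring
    · have h0 : ∀ u ∈ (Y : Set (Fin n → ZMod 2)), e j t (vx F u) = 0 := by
        intro u hu
        by_contra hne
        apply ht
        have h1 := hY u hu j t hne
        have h2 := Y.add_mem hu h1
        rwa [← add_assoc, add_self2, zero_add] at h2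
      rw [h0 u hu, h0 u' hu', mul_zero, mul_zero]
  have key : ∀ h k, d.cc h ∈ supp F (Y : Set (Fin n → ZMod 2)) →
      d.cc k ∈ supp F (Y : Set (Fin n → ZMod 2)) →
      beF B F (D (d.P h)) (D (d.P k)) l = beF B F (d.P h) (d.P k) l := by
    intro h k hh1 hk1
    obtain ⟨γ, hγ⟩ := eigen (fun z => d.cc (hh z)) (fun j => dbar (e j))
      (by intro j z; rw [dbar_cc d c e hDB, hz]) hli hsp (br (B := B) l (d.cc h) (d.cc k))
      (c.z h + c.z k) (by
        intro j
        rw [br_dbar l (e j) (Y : Set (Fin n → ZMod 2)) _ _ hh1 hk1 (hH j), dbar_cc d c e hDB,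
          dbar_cc d c e hDB, br_smul_left, br_smul_right, ← add_smul, Pi.add_apply, map_add])
    have h1 : d.cc (hh (c.z h + c.z k)) = d.cc (h * k) := by
      rw [← c.z_mul, cc_hh d c hh hz]
    rw [h1] at hγ
    have h2 := br_sum (B := B) l (d.cc h) (d.cc k)
    rw [cc_P, cc_P, hγ] at h2
    simp only [Pi.smul_apply, smul_eq_mul] at h2
    rw [← Finset.mul_sum, cc_sum, mul_one] at h2
    have h3 := br_sq (B := B) l (d.cc h) (d.cc k)
    rw [← cc_mul, hγ] at h3
    simp only [Pi.smul_apply, smul_eq_mul, mul_pow] at h3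
    rw [← Finset.mul_sum, cc_sq, mul_one] at h3
    have h4 : ∑ x, d.cc (h * k) x * (γ * d.cc (h * k) x) = γ := by
      have : ∀ x, d.cc (h * k) x * (γ * d.cc (h * k) x) = γ * (d.cc (h * k) x) ^ 2 := by
        intro x; ring
      simp only [this]
      rw [← Finset.mul_sum, cc_sq, mul_one]
    rw [h4] at h3
    rw [hD, hD, frv_beF]
    change (beF B F (d.P h) (d.P k) l) ^ 2 = _
    rw [← h2, ← h3]
  intro v hv v' hv'
  obtain ⟨κ, h1, h2⟩ := closed_expand d c e hDB hh hz (Y : Set (Fin n → ZMod 2)) hY v hv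
  obtain ⟨κ', h1', h2'⟩ := closed_expand d c e hDB hh hz (Y : Set (Fin n → ZMod 2)) hY v' hv'
  have hexp : ∀ (L : (Fin n → F) →ₗ[F] (Fin n → F)),
      beF B F (L (vx F v)) (L (vx F v')) l =
      ∑ z, ∑ z', κ z * κ' z' * beF B F (L (d.P (hh z))) (L (d.P (hh z'))) l := by
    intro L
    rw [h1, h1', map_sum L, map_sum L, map_sum (beF B F), LinearMap.sum_apply, Finset.sum_apply]
    refine Finset.sum_congr rfl fun z _ => ?_
    rw [map_sum, Finset.sum_apply]
    refine Finset.sum_congr rfl fun z' _ => ?_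
    rw [map_smul, map_smul, map_smul, map_smul, LinearMap.smul_apply]
    simp only [Pi.smul_apply, smul_eq_mul]
    ring
  have e1 := hexp D
  have e2 := hexp LinearMap.id
  simp only [LinearMap.id_apply] at e2
  rw [e1, e2]
  refine Finset.sum_congr rfl fun z _ => ?_
  refine Finset.sum_congr rfl fun z' _ => ?_
  by_cases hκ : κ z = 0
  · rw [hκ]; ring
  by_cases hκ' : κ' z' = 0
  · rw [hκ']; ring
  rw [key _ _ (h2 z hκ) (h2' z' hκ')]

theorem P4 (hnd : Nd B) (d : HS B F H) : ∃ (c : HC d) (D : Data B F), D.M = c.M := by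
  obtain ⟨c⟩ := P1 hnd d
  obtain ⟨D, Θ, K, a, hD, hΘ, ha0, hD1, hD2, hD3, ha⟩ := P2 hnd d c
  obtain ⟨e, hDB, hE1a, hE1b⟩ := P3 hnd d c
  refine ⟨c, ⟨c.M, c.hM, D, ?_, Θ, hΘ, a, ha0, hD1, hD2, K, hD3, e, hE1a, hE1b, ?_, ?_, ?_⟩, rfl⟩
  · intro z
    obtain ⟨h, hh⟩ := c.hM1 z
    rw [← hh]
    exact hD h
  · intro Y hY s hs v hv
    exact E2' d c e hDB a ha0 ha Y hY s hs v hv
  · intro L hL s hs
    exact E3' d c e hDB a ha L hL s hs
  · intro Y hY l hYl
    exact E4' d c e hDB D hD Y hY l hYl

end e4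

end Pool.Agent.T2H54.Mip2
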