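import Mathlib
import Pool.Agent.T2H54.Mip2.Defs

set_option autoImplicit false
set_option linter.unusedSectionVars false

/-! # Package P6a: groups with `D_3(G) = 1`, `p = 2`, are given by quadratic maps -/

namespace Pool.Agent.T2H54.Mip2

open Matrix Pool.Agent.R691.Mip
open scoped commutatorElement

/-- `G` has central commutators of order two and exponent four -/
structure GD (G : Type*) [Group G] : Prop where
  hc : ∀ x y z : G, ⁅x, y⁆ * z = z * ⁅x, y⁆
  hc2 : ∀ x y : G, ⁅x, y⁆ ^ 2 = 1
  h4 : ∀ x : G, x ^ 4 = 1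

namespace GD

section
variable {G : Type*} [Group G] (D : GD G)

include D in
lemma sq_comm (x g : G) : x * x * g = g * (x * x) := by
  rw [← commutatorElement_eq_one_iff_mul_comm, cmul_left D.hc, ← pow_two, D.hc2]

/-- the subgroup generated by the squares -/
def Q (_D : GD G) : Subgroup G := Subgroup.closure {g | ∃ x, g = x * x}

lemma sq_mem (x : G) : x * x ∈ D.Q := Subgroup.subset_closure ⟨x, rfl⟩

lemma central {q : G} (hq : q ∈ D.Q) (g : G) : q * g = g * q := by
  have h : D.Q ≤ Subgroup.center G := by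
    rw [Q, Subgroup.closure_le]
    rintro _ ⟨x, rfl⟩
    rw [SetLike.mem_coe, Subgroup.mem_center_iff]
    intro g
    exact (D.sq_comm x g).symm
  exact (Subgroup.mem_center_iff.1 (h hq) g).symm

include D in
lemma comm_eq (x y : G) : (x * y) * (x * y) = ⁅x, y⁆ * ((x * x) * (y * y)) := by
  have h1 : ⁅x, y⁆ * ((x * x) * (y * y)) = x * y * x⁻¹ * (y⁻¹ * (x * x) * (y * y)) := by
    rw [commutatorElement_def]; group
  rw [h1, ← D.sq_comm x y⁻¹]
  group

lemma comm_mem (x y : G) : ⁅x, y⁆ ∈ D.Q := by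
  have h : ⁅x, y⁆ = (x * y) * (x * y) * ((x * x) * (y * y))⁻¹ := by
    rw [D.comm_eq, mul_inv_cancel_right]
  rw [h]
  exact D.Q.mul_mem (D.sq_mem _) (D.Q.inv_mem (D.Q.mul_mem (D.sq_mem _) (D.sq_mem _)))

lemma sq_one {q : G} (hq : q ∈ D.Q) : q * q = 1 := by
  unfold Q at hq
  induction hq using Subgroup.closure_induction with
  | mem x hx =>
    obtain ⟨a, rfl⟩ := hx
    have := D.h4 a
    rw [← this]
    simp only [pow_succ, pow_zero, one_mul, mul_assoc]
  | one => simp
  | mul x y hx hy ihx ihy =>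
    have h := D.central (q := x) hx y
    calc x * y * (x * y) = x * (y * x) * y := by group
      _ = x * (x * y) * y := by rw [h]
      _ = (x * x) * (y * y) := by group
      _ = 1 := by rw [ihx, ihy, one_mul]
  | inv x hx ihx =>
    rw [← _root_.mul_inv_rev, ihx, inv_one]

instance : D.Q.Normal := ⟨fun q hq g => by
  rw [← D.central hq g, mul_inv_cancel_right]; exact hq⟩

instance : CommGroup (G ⧸ D.Q) :=
  { (QuotientGroup.Quotient.group D.Q) with
    mul_comm := by
      intro a b
      induction a using QuotientGroup.induction_on with | _ x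
      induction b using QuotientGroup.induction_on with | _ y
      change ((x * y : G) : G ⧸ D.Q) = ((y * x : G) : G ⧸ D.Q)
      rw [QuotientGroup.eq]
      have : (x * y)⁻¹ * (y * x) = ⁅y⁻¹, x⁻¹⁆ := by
        rw [commutatorElement_def]; group
      rw [this]
      exact D.comm_mem _ _ }

instance : CommGroup D.Q :=
  { (inferInstance : Group D.Q) with
    mul_comm := by
      intro a b
      apply Subtype.ext
      exact D.central a.2 b }

/-- the first layer -/
abbrev V : Type _ := Additive (G ⧸ D.Q)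
/-- the second layer -/
abbrev W : Type _ := Additive D.Q

instance : Module (ZMod 2) D.V := AddCommGroup.zmodModule (n := 2) (by
  intro x
  obtain ⟨g, hg⟩ := QuotientGroup.mk_surjective (s := D.Q) (Additive.toMul x)
  change 2 • x = 0
  rw [two_nsmul]
  apply Additive.toMul.injective
  change Additive.toMul x * Additive.toMul x = 1
  rw [← hg]
  change ((g * g : G) : G ⧸ D.Q) = ((1 : G) : G ⧸ D.Q)
  rw [QuotientGroup.eq, mul_one]
  exact D.Q.inv_mem (D.sq_mem g))

lemma W_add_self (x : D.W) : x + x = 0 := by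
  apply Additive.toMul.injective
  apply Subtype.ext
  exact D.sq_one (Additive.toMul x).2

instance : Module (ZMod 2) D.W := AddCommGroup.zmodModule (n := 2) (by
  intro x
  rw [two_nsmul]
  exact D.W_add_self x)

/-- the class of an element -/
def cl (g : G) : D.V := Additive.ofMul (g : G ⧸ D.Q)

/-- an element of `Q` -/
def wq (g : G) (hg : g ∈ D.Q) : D.W := Additive.ofMul ⟨g, hg⟩

lemma cl_mul (g h : G) : D.cl (g * h) = D.cl g + D.cl h := rfl

lemma cl_eq_zero (g : G) : D.cl g = 0 ↔ g ∈ D.Q := by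
  constructor
  · intro h
    have h1 : ((g : G) : G ⧸ D.Q) = ((1 : G) : G ⧸ D.Q) := h
    rw [eq_comm, QuotientGroup.eq, inv_one, one_mul] at h1
    exact h1
  · intro h
    have h1 : ((g : G) : G ⧸ D.Q) = ((1 : G) : G ⧸ D.Q) := by
      rw [eq_comm, QuotientGroup.eq, inv_one, one_mul]
      exact h
    exact h1

lemma wq_mul (g h : G) (hg : g ∈ D.Q) (hh : h ∈ D.Q) :
    D.wq (g * h) (D.Q.mul_mem hg hh) = D.wq g hg + D.wq h hh := rfl

/-- a representative -/
noncomputable def rp (v : D.V) : G := (Additive.toMul v : G ⧸ D.Q).out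

lemma cl_rp (v : D.V) : D.cl (D.rp v) = v := by
  apply Additive.toMul.injective
  exact QuotientGroup.out_eq' _

lemma rp_cl (g : G) : ∃ q, q ∈ D.Q ∧ D.rp (D.cl g) = g * q := by
  obtain ⟨h, hh⟩ := QuotientGroup.mk_out_eq_mul D.Q g
  exact ⟨h, h.2, hh⟩

/-- the squaring map -/
noncomputable def sq (v : D.V) : D.W := D.wq (D.rp v * D.rp v) (D.sq_mem _)

lemma sq_cl (g : G) : D.sq (D.cl g) = D.wq (g * g) (D.sq_mem g) := by
  obtain ⟨q, hq, h⟩ := D.rp_cl g
  apply Additive.toMul.injective
  apply Subtype.ext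
  change D.rp (D.cl g) * D.rp (D.cl g) = g * g
  rw [h]
  calc g * q * (g * q) = g * (q * g) * q := by group
    _ = g * (g * q) * q := by rw [D.central hq]
    _ = g * g * (q * q) := by group
    _ = g * g := by rw [D.sq_one hq, mul_one]

/-- the commutator map -/
noncomputable def cm (u v : D.V) : D.W := D.wq ⁅D.rp u, D.rp v⁆ (D.comm_mem _ _)

include D in
lemma comm_one_left {q : G} (hq : q ∈ D.Q) (g : G) : ⁅q, g⁆ = 1 := by
  rw [commutatorElement_eq_one_iff_mul_comm]
  exact D.central hq g

lemma cm_cl (g h : G) : D.cm (D.cl g) (D.cl h) = D.wq ⁅g, h⁆ (D.comm_mem g h) := by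
  obtain ⟨q, hq, h1⟩ := D.rp_cl g
  obtain ⟨q', hq', h2⟩ := D.rp_cl h
  apply Additive.toMul.injective
  apply Subtype.ext
  change ⁅D.rp (D.cl g), D.rp (D.cl h)⁆ = ⁅g, h⁆
  have h3 : ⁅g * q, q'⁆ = 1 := by
    rw [commutatorElement_eq_one_iff_mul_comm]
    exact (D.central hq' _).symm
  rw [h1, h2, cmul_right D.hc, h3, mul_one, cmul_left D.hc, D.comm_one_left hq, mul_one]

lemma cm_add_left (u u' v : D.V) : D.cm (u + u') v = D.cm u v + D.cm u' v := by
  rw [← D.cl_rp u, ← D.cl_rp u', ← D.cl_rp v, ← cl_mul, cm_cl, cm_cl, cm_cl, ← wq_mul]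
  apply Additive.toMul.injective
  apply Subtype.ext
  exact cmul_left D.hc _ _ _

lemma cm_add_right (u v v' : D.V) : D.cm u (v + v') = D.cm u v + D.cm u v' := by
  rw [← D.cl_rp u, ← D.cl_rp v, ← D.cl_rp v', ← cl_mul, cm_cl, cm_cl, cm_cl, ← wq_mul]
  apply Additive.toMul.injective
  apply Subtype.ext
  exact cmul_right D.hc _ _ _

lemma sq_add (u v : D.V) : D.sq (u + v) = D.sq u + D.sq v + D.cm u v := by
  rw [← D.cl_rp u, ← D.cl_rp v, ← cl_mul, sq_cl, sq_cl, sq_cl, cm_cl, add_comm, ← wq_mul,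
    ← wq_mul]
  apply Additive.toMul.injective
  apply Subtype.ext
  exact D.comm_eq _ _

/-- the commutator as a bilinear map -/
noncomputable def cmB : D.V →ₗ[ZMod 2] D.V →ₗ[ZMod 2] D.W :=
  AddMonoidHom.toZModLinearMap 2
    { toFun := fun x => AddMonoidHom.toZModLinearMap 2
        { toFun := fun y => D.cm x y
          map_zero' := by
            have := D.cm_add_right x 0 0
            rw [add_zero] at this
            exact left_eq_add.1 this
          map_add' := fun y z => D.cm_add_right x y z }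
      map_zero' := by
        refine LinearMap.ext fun y => ?_
        have := D.cm_add_left 0 0 y
        rw [add_zero] at this
        exact left_eq_add.1 this
      map_add' := fun x y => LinearMap.ext fun z => D.cm_add_left x y z }

lemma sq_zero : D.sq 0 = 0 := by
  have h : D.cl 1 = 0 := (D.cl_eq_zero 1).2 D.Q.one_mem
  rw [← h, sq_cl]
  apply Additive.toMul.injective
  apply Subtype.ext
  exact one_mul 1

/-- the squaring map as a quadratic map -/
noncomputable def sqM : QuadraticMap (ZMod 2) D.V D.W where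
  toFun := D.sq
  toFun_smul a x := by
    have ha : a = 0 ∨ a = 1 := by
      revert a; decide
    rcases ha with rfl | rfl
    · rw [zero_smul, mul_zero, zero_smul, sq_zero]
    · rw [one_smul, mul_one, one_smul]
  exists_companion' := ⟨D.cmB, fun x y => D.sq_add x y⟩

lemma exists_bil : ∃ f : D.V →ₗ[ZMod 2] D.V →ₗ[ZMod 2] D.W, ∀ v, f v v = D.sq v := by
  obtain ⟨f, hf⟩ := LinearMap.BilinMap.toQuadraticMap_surjective D.sqM
  refine ⟨f, fun v => ?_⟩
  rw [← LinearMap.BilinMap.toQuadraticMap_apply, hf]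
  rfl

/-- a bilinear map with the given diagonal -/
noncomputable def f : D.V →ₗ[ZMod 2] D.V →ₗ[ZMod 2] D.W := D.exists_bil.choose

lemma f_self (v : D.V) : D.f v v = D.sq v := D.exists_bil.choose_spec v

/-- the underlying element of `G` -/
def tg (w : D.W) : G := ((Additive.toMul w : D.Q) : G)

lemma tg_mem (w : D.W) : D.tg w ∈ D.Q := (Additive.toMul w : D.Q).2

lemma tg_add (w w' : D.W) : D.tg (w + w') = D.tg w * D.tg w' := rfl

lemma tg_zero : D.tg 0 = 1 := rfl

lemma tg_wq (g : G) (hg : g ∈ D.Q) : D.tg (D.wq g hg) = g := rfl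

lemma tg_comm (w : D.W) (g : G) : D.tg w * g = g * D.tg w := D.central (D.tg_mem w) g

lemma tg_inj (w w' : D.W) (h : D.tg w = D.tg w') : w = w' := by
  apply Additive.toMul.injective
  apply Subtype.ext
  exact h

/-- the additive group attached to `G` -/
def X (_D : GD G) : Type _ := G

/-- to the additive group -/
def toX (x : G) : D.X := x
/-- from the additive group -/
def ofX (x : D.X) : G := x

noncomputable instance : Add D.X :=
  ⟨fun x y => D.toX (D.ofX x * D.ofX y * D.tg (D.f (D.cl (D.ofX x)) (D.cl (D.ofX y))))⟩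
instance : Zero D.X := ⟨D.toX 1⟩
instance : Neg D.X := ⟨fun x => x⟩

lemma ofX_add (x y : D.X) :
    D.ofX (x + y) = D.ofX x * D.ofX y * D.tg (D.f (D.cl (D.ofX x)) (D.cl (D.ofX y))) := rfl

lemma ofX_inj {x y : D.X} (h : D.ofX x = D.ofX y) : x = y := h

lemma cl_tg (w : D.W) : D.cl (D.tg w) = 0 := (D.cl_eq_zero _).2 (D.tg_mem w)

lemma cl_one : D.cl 1 = 0 := (D.cl_eq_zero 1).2 D.Q.one_mem

lemma cl_ofX_add (x y : D.X) : D.cl (D.ofX (x + y)) = D.cl (D.ofX x) + D.cl (D.ofX y) := by
  rw [ofX_add, cl_mul, cl_mul, cl_tg, add_zero]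

noncomputable instance : AddGroup D.X :=
  { add_assoc := by
      intro x y z
      apply D.ofX_inj
      rw [ofX_add, ofX_add D (x) (y + z), cl_ofX_add, cl_ofX_add, ofX_add, ofX_add]
      generalize D.ofX x = a
      generalize D.ofX y = b
      generalize D.ofX z = c
      rw [map_add, map_add, LinearMap.add_apply, tg_add, tg_add]
      calc a * b * D.tg (D.f (D.cl a) (D.cl b)) * c *
            (D.tg (D.f (D.cl a) (D.cl c)) * D.tg (D.f (D.cl b) (D.cl c)))
          = a * b * (D.tg (D.f (D.cl a) (D.cl b)) * (c *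
            (D.tg (D.f (D.cl a) (D.cl c)) * D.tg (D.f (D.cl b) (D.cl c))))) := by group
        _ = a * b * ((c *
            (D.tg (D.f (D.cl a) (D.cl c)) * D.tg (D.f (D.cl b) (D.cl c)))) *
              D.tg (D.f (D.cl a) (D.cl b))) := by rw [tg_comm D (D.f (D.cl a) (D.cl b))]
        _ = a * b * c * (D.tg (D.f (D.cl a) (D.cl c)) * D.tg (D.f (D.cl b) (D.cl c)) *
              D.tg (D.f (D.cl a) (D.cl b))) := by group
        _ = a * b * c * (D.tg (D.f (D.cl b) (D.cl c)) * (D.tg (D.f (D.cl a) (D.cl c)) *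
              D.tg (D.f (D.cl a) (D.cl b)))) := by
            rw [tg_comm D (D.f (D.cl a) (D.cl c)) (D.tg (D.f (D.cl b) (D.cl c)))]
            group
        _ = a * b * c * (D.tg (D.f (D.cl b) (D.cl c)) * (D.tg (D.f (D.cl a) (D.cl b)) *
              D.tg (D.f (D.cl a) (D.cl c)))) := by
            rw [tg_comm D (D.f (D.cl a) (D.cl c)) (D.tg (D.f (D.cl a) (D.cl b)))]
        _ = _ := by group
    zero_add := by
      intro x
      apply D.ofX_inj
      rw [ofX_add]
      change 1 * D.ofX x * D.tg (D.f (D.cl 1) (D.cl (D.ofX x))) = D.ofX x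
      rw [cl_one, map_zero, LinearMap.zero_apply, tg_zero, one_mul, mul_one]
    add_zero := by
      intro x
      apply D.ofX_inj
      rw [ofX_add]
      change D.ofX x * 1 * D.tg (D.f (D.cl (D.ofX x)) (D.cl 1)) = D.ofX x
      rw [cl_one, map_zero, tg_zero, mul_one, mul_one]
    nsmul := nsmulRec
    zsmul := zsmulRec
    neg_add_cancel := by
      intro x
      apply D.ofX_inj
      change D.ofX x * D.ofX x * D.tg (D.f (D.cl (D.ofX x)) (D.cl (D.ofX x))) = 1
      rw [f_self, sq_cl, tg_wq]
      exact D.sq_one (D.sq_mem _) }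

lemma X_add_self (x : D.X) : x + x = 0 := neg_add_cancel x

noncomputable instance : AddCommGroup D.X :=
  { (inferInstance : AddGroup D.X) with
    add_comm := by
      intro x y
      have h : x + y = -(x + y) := rfl
      rw [h, neg_add_rev]
      rfl }

noncomputable instance : Module (ZMod 2) D.X := AddCommGroup.zmodModule (n := 2) (by
  intro x
  rw [two_nsmul]
  exact D.X_add_self x)

/-- the inclusion of the second layer -/
noncomputable def inc : D.W →ₗ[ZMod 2] D.X := AddMonoidHom.toZModLinearMap 2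
  { toFun := fun w => D.toX (D.tg w)
    map_zero' := rfl
    map_add' := fun w w' => by
      apply D.ofX_inj
      rw [ofX_add]
      change D.tg (w + w') = D.tg w * D.tg w' * D.tg (D.f (D.cl (D.tg w)) (D.cl (D.tg w')))
      rw [cl_tg, cl_tg, map_zero, tg_zero, mul_one, tg_add] }

lemma inc_apply (w : D.W) : D.inc w = D.toX (D.tg w) := rfl

lemma inc_inj : LinearMap.ker D.inc = ⊥ := by
  rw [LinearMap.ker_eq_bot]
  intro w w' h
  exact D.tg_inj _ _ h

lemma exists_ret : ∃ r : D.X →ₗ[ZMod 2] D.W, ∀ w, r (D.toX (D.tg w)) = w := by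
  obtain ⟨r, hr⟩ := D.inc.exists_leftInverse_of_injective D.inc_inj
  exact ⟨r, fun w => LinearMap.congr_fun hr w⟩

/-- multiplication in terms of addition -/
lemma toX_mul (g h : G) :
    D.toX (g * h) = D.toX g + D.toX h + D.toX (D.tg (D.f (D.cl g) (D.cl h))) := by
  apply D.ofX_inj
  rw [ofX_add, ofX_add]
  change g * h = g * h * D.tg (D.f (D.cl g) (D.cl h)) * D.tg (D.f (D.cl g) (D.cl h)) *
    D.tg (D.f (D.cl (g * h * D.tg (D.f (D.cl g) (D.cl h))))
      (D.cl (D.tg (D.f (D.cl g) (D.cl h)))))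
  rw [cl_tg D, map_zero, tg_zero, mul_one, mul_assoc (g * h), D.sq_one (D.tg_mem _), mul_one]

end

end GD

theorem P6a {G : Type*} [Group G] [Finite G] (hc : ∀ x y z : G, ⁅x, y⁆ * z = z * ⁅x, y⁆)
    (hc2 : ∀ x y : G, ⁅x, y⁆ ^ 2 = 1) (h4 : ∀ x : G, x ^ 4 = 1) :
    ∃ (n m : ℕ) (B : Fin m → Matrix (Fin n) (Fin n) (ZMod 2)), Nd B ∧
      Nonempty (G ≃* Heis B) := by
  classical
  have D : GD G := ⟨hc, hc2, h4⟩
  have hfV : Finite D.V := inferInstanceAs (Finite (G ⧸ D.Q))
  have hfW : Finite D.W := inferInstanceAs (Finite D.Q)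
  have hmV : Module.Finite (ZMod 2) D.V := Module.Finite.of_finite
  have hmW : Module.Finite (ZMod 2) D.W := Module.Finite.of_finite
  set n := Module.finrank (ZMod 2) D.V with hn
  set m := Module.finrank (ZMod 2) D.W with hm
  let eV : D.V ≃ₗ[ZMod 2] (Fin n → ZMod 2) := (Module.finBasis (ZMod 2) _).equivFun
  let eW : D.W ≃ₗ[ZMod 2] (Fin m → ZMod 2) := (Module.finBasis (ZMod 2) _).equivFun
  obtain ⟨r, hr⟩ := D.exists_ret
  let Q : Fin m → (Fin n → ZMod 2) →ₗ[ZMod 2] (Fin n → ZMod 2) →ₗ[ZMod 2] ZMod 2 := fun l =>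
    (D.f.compl₁₂ eV.symm.toLinearMap eV.symm.toLinearMap).compr₂
      ((LinearMap.proj l).comp eW.toLinearMap)
  have hQ : ∀ l x y, Q l x y = eW (D.f (eV.symm x) (eV.symm y)) l := fun l x y => rfl
  let B : Fin m → Matrix (Fin n) (Fin n) (ZMod 2) := fun l => LinearMap.toMatrix₂' (ZMod 2) (Q l)
  have hB : ∀ v w, bil B v w = eW (D.f (eV.symm v) (eV.symm w)) := by
    intro v w
    funext l
    have h1 : Matrix.toLinearMap₂' (ZMod 2) (B l) = Q l := Matrix.toLinearMap₂'_toMatrix' _
    have h2 : Matrix.toLinearMap₂' (ZMod 2) (B l) v w = Q l v w := by rw [h1]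
    rw [← hQ, ← h2, Matrix.toLinearMap₂'_apply']
    rfl
  refine ⟨n, m, B, ?_, ?_⟩
  · intro c hcz
    let Λ : D.W →+ ZMod 2 :=
      { toFun := fun x => c ⬝ᵥ eW x
        map_zero' := by rw [map_zero, dotProduct_zero]
        map_add' := fun x y => by rw [map_add, dotProduct_add] }
    have h1 : ∀ g : G, Λ (D.wq (g * g) (D.sq_mem g)) = 0 := by
      intro g
      have h2 := hcz (eV (D.cl g))
      rw [hB, eV.symm_apply_apply, GD.f_self, GD.sq_cl] at h2
      exact h2
    have h3 : ∀ q (hq : q ∈ D.Q), Λ (D.wq q hq) = 0 := by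
      intro q hq
      have hq' := hq
      unfold GD.Q at hq'
      induction hq' using Subgroup.closure_induction with
      | mem x hx =>
        obtain ⟨a, rfl⟩ := hx
        exact h1 a
      | one => exact map_zero Λ
      | mul x y hx hy ihx ihy =>
        have e : D.wq (x * y) hq = D.wq x hx + D.wq y hy := rfl
        rw [e, map_add, ihx hx, ihy hy, add_zero]
      | inv x hx ihx =>
        have e : D.wq x⁻¹ hq = - D.wq x hx := rfl
        rw [e, map_neg, ihx hx, neg_zero]
    have h5 : ∀ t : Fin m → ZMod 2, c ⬝ᵥ t = 0 := by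
      intro t
      have h6 := h3 (D.tg (eW.symm t)) (D.tg_mem _)
      change c ⬝ᵥ eW (eW.symm t) = 0 at h6
      rwa [eW.apply_symm_apply] at h6
    funext i
    have := h5 (Pi.single i 1)
    simpa using this
  · let φ : G →* Heis B :=
      { toFun := fun g => ⟨eV (D.cl g), eW (r (D.toX g))⟩
        map_one' := by
          have h1 : D.toX (1 : G) = 0 := rfl
          have h2 : D.cl (1 : G) = 0 := rfl
          rw [h1, h2, map_zero, map_zero, map_zero]
          rfl
        map_mul' := fun g h => by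
          apply Heis.ext
          · change eV (D.cl (g * h)) = eV (D.cl g) + eV (D.cl h)
            rw [GD.cl_mul, map_add]
          · change eW (r (D.toX (g * h))) = eW (r (D.toX g)) + eW (r (D.toX h)) +
              bil B (eV (D.cl g)) (eV (D.cl h))
            rw [hB, eV.symm_apply_apply, eV.symm_apply_apply, GD.toX_mul, map_add, map_add, hr,
              map_add, map_add] }
    have hφ : ∀ g, φ g = ⟨eV (D.cl g), eW (r (D.toX g))⟩ := fun _ => rfl
    have hinj : Function.Injective φ := by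
      rw [injective_iff_map_eq_one]
      intro g hg
      rw [hφ] at hg
      have h1 : eV (D.cl g) = 0 := congrArg Heis.v hg
      have h2 : eW (r (D.toX g)) = 0 := congrArg Heis.t hg
      have h3 := (D.cl_eq_zero _).1 (eV.map_eq_zero_iff.1 h1)
      have h4 := eW.map_eq_zero_iff.1 h2
      have h5 := hr (D.wq g h3)
      rw [GD.tg_wq, h4] at h5
      have h6 := congrArg D.tg h5
      rw [GD.tg_zero, GD.tg_wq] at h6
      exact h6.symm
    have hcard : Nat.card G = Nat.card (Heis B) := by
      rw [Nat.card_congr Heis.equivProd, Nat.card_prod, ← Nat.card_congr eV.toEquiv,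
        ← Nat.card_congr eW.toEquiv]
      exact Subgroup.card_eq_card_quotient_mul_card_subgroup D.Q
    exact ⟨MulEquiv.ofBijective φ ((Nat.bijective_iff_injective_and_card _).2 ⟨hinj, hcard⟩)⟩

end Pool.Agent.T2H54.Mip2
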