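import Mathlib
import Pool.Agent.T2H54.Mip2.P1

set_option autoImplicit false
set_option linter.unusedSectionVars false

/-! # Package P6b: from the conclusion of the linear algebra part to the isomorphism of groups -/

namespace Pool.Agent.T2H54.Mip2

open Matrix Pool.Agent.R691.Mip

section alt
variable {n : ℕ} {N : Type*} [AddCommGroup N] [Module (ZMod 2) N]

lemma modN_add_self (x : N) : x + x = 0 := by
  have h : (2 : ZMod 2) • x = x + x := two_smul _ x
  rw [← h]
  have : (2 : ZMod 2) = 0 := by decide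
  rw [this, zero_smul]

/-- an alternating bilinear map is the polar form of a quadratic map -/
lemma alt_polar (f : (Fin n → ZMod 2) →ₗ[ZMod 2] (Fin n → ZMod 2) →ₗ[ZMod 2] N)
    (hf : ∀ v, f v v = 0) :
    ∃ g : (Fin n → ZMod 2) → N, ∀ v w, g (v + w) = g v + g w + f v w := by
  classical
  let e : Fin n → Fin n → ZMod 2 := fun i => Pi.single i 1
  have hsym : ∀ v w, f v w = f w v := by
    intro v w
    have h := hf (v + w)
    simp only [map_add, LinearMap.add_apply, hf, zero_add, add_zero] at h
    have h2 := congrArg (fun t => t + f v w) h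
    simp only [zero_add] at h2
    rw [add_assoc, modN_add_self, add_zero] at h2
    exact h2.symm
  have hexp : ∀ v w, f v w = ∑ i, ∑ j, (v i * w j) • f (e i) (e j) := by
    intro v w
    have hv : v = ∑ i, v i • e i := by
      funext k
      rw [Finset.sum_apply]
      simp [e, Pi.single_apply]
    have hw : w = ∑ i, w i • e i := by
      funext k
      rw [Finset.sum_apply]
      simp [e, Pi.single_apply]
    conv_lhs => rw [hv, hw]
    rw [map_sum f, LinearMap.sum_apply]
    refine Finset.sum_congr rfl fun i _ => ?_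
    rw [map_sum]
    refine Finset.sum_congr rfl fun j _ => ?_
    rw [map_smul, map_smul, LinearMap.smul_apply, smul_smul, mul_comm]
  refine ⟨fun v => ∑ i, ∑ j, if i < j then (v i * v j) • f (e i) (e j) else 0, fun v w => ?_⟩
  have h1 : f v w = (∑ i, ∑ j, if i < j then (v i * w j) • f (e i) (e j) else 0) +
      ∑ i, ∑ j, if i < j then (w i * v j) • f (e i) (e j) else 0 := by
    have h2 : (∑ i, ∑ j, if i < j then (w i * v j) • f (e i) (e j) else 0) =
        ∑ i, ∑ j, if j < i then (v i * w j) • f (e i) (e j) else 0 := by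
      rw [Finset.sum_comm]
      refine Finset.sum_congr rfl fun i _ => Finset.sum_congr rfl fun j _ => ?_
      rw [hsym (e j) (e i), mul_comm (w j)]
    rw [h2, hexp, ← Finset.sum_add_distrib]
    refine Finset.sum_congr rfl fun i _ => ?_
    rw [← Finset.sum_add_distrib]
    refine Finset.sum_congr rfl fun j _ => ?_
    rcases lt_trichotomy i j with h | h | h
    · rw [if_pos h, if_neg (not_lt_of_gt h), add_zero]
    · subst h
      rw [hf, smul_zero, if_neg (lt_irrefl i), add_zero]
    · rw [if_neg (not_lt_of_gt h), if_pos h, zero_add]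
  rw [h1, ← Finset.sum_add_distrib, ← Finset.sum_add_distrib, ← Finset.sum_add_distrib]
  refine Finset.sum_congr rfl fun i _ => ?_
  rw [← Finset.sum_add_distrib, ← Finset.sum_add_distrib, ← Finset.sum_add_distrib]
  refine Finset.sum_congr rfl fun j _ => ?_
  by_cases h : i < j
  · simp only [if_pos h, Pi.add_apply, ← add_smul]
    congr 1
    ring
  · simp only [if_neg h, add_zero]

end alt

section alg
variable {n m : ℕ} {B : Fin m → Matrix (Fin n) (Fin n) (ZMod 2)}
  {F : Type*} [Field F] [CharP F 2] [Algebra (ZMod 2) F] {H : Type*} [Group H]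

lemma HC.z_mul {d : HS B F H} (c : HC d) (h k : H) : c.z (h * k) = c.z h + c.z k := by
  have h1 := c.hz (h * k)
  rw [d.P_mul, c.hz h, c.hz k, ← mulVec_add, ← vx_add] at h1
  have h2 := Matrix.mulVec_injective_of_isUnit ((Matrix.isUnit_iff_isUnit_det _).2 c.hM) h1
  exact (vx_injective h2).symm

lemma HC.z_surj {d : HS B F H} (c : HC d) (v : Fin n → ZMod 2) : ∃ h, c.z h = v := by
  obtain ⟨h, hh⟩ := c.hM1 v
  refine ⟨h, ?_⟩
  rw [c.hz h] at hh
  have h2 := Matrix.mulVec_injective_of_isUnit ((Matrix.isUnit_iff_isUnit_det _).2 c.hM) hh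
  exact vx_injective h2

/-- the squares span `F_2^m` -/
lemma nd_surj (hnd : Nd B) :
    Submodule.span (ZMod 2) (Set.range fun v : Fin n → ZMod 2 => bil B v v) = ⊤ := by
  classical
  by_contra hcon
  obtain ⟨f, hf0, hf⟩ := Submodule.exists_le_ker_of_lt_top _ (lt_top_iff_ne_top.2 hcon)
  apply hf0
  have hfc : ∀ t, f t = (fun l => f (Pi.single l 1)) ⬝ᵥ t := by
    intro t
    rw [LinearMap.pi_apply_eq_sum_univ f t, dotProduct]
    refine Finset.sum_congr rfl fun l _ => ?_
    have : (fun j => if l = j then (1 : ZMod 2) else 0) = Pi.single l (1 : ZMod 2) := by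
      funext k
      simp [Pi.single_apply, eq_comm]
    rw [this, smul_eq_mul, mul_comm]
  have h1 := hnd (fun l => f (Pi.single l 1)) (by
    intro v
    rw [← hfc]
    apply hf
    exact Submodule.subset_span ⟨v, rfl⟩)
  ext t
  rw [h1] at hfc
  simp [hfc]

theorem P6b (hnd : Nd B) (d : HS B F H) (c : HC d) (h : Iso2 B c.M) :
    Nonempty (H ≃* Heis B) := by
  classical
  obtain ⟨ψ, hψ⟩ := h
  -- the linear maps from the space of functions on `V`
  let Φ : ((Fin n → ZMod 2) → ZMod 2) →ₗ[ZMod 2] (Fin m → ZMod 2) :=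
    ∑ z, LinearMap.smulRight (LinearMap.proj z) (bil B z z)
  let Ψ : ((Fin n → ZMod 2) → ZMod 2) →ₗ[ZMod 2] (Fin m → F) :=
    ∑ z, LinearMap.smulRight (LinearMap.proj z) (qF B F (c.M *ᵥ vx F (ψ z)))
  have hΦ : ∀ a, Φ a = ∑ z, a z • bil B z z := by
    intro a; simp [Φ, LinearMap.sum_apply]
  have hΨ : ∀ a, Ψ a = ∑ z, a z • qF B F (c.M *ᵥ vx F (ψ z)) := by
    intro a; simp [Ψ, LinearMap.sum_apply]
  have hΦs : ∀ z, Φ (Pi.single z 1) = bil B z z := by
    intro z
    rw [hΦ, Finset.sum_eq_single z]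
    · rw [Pi.single_eq_same, one_smul]
    · intro b _ hb; rw [Pi.single_eq_of_ne hb, zero_smul]
    · intro hz; exact absurd (Finset.mem_univ z) hz
  have hΨs : ∀ z, Ψ (Pi.single z 1) = qF B F (c.M *ᵥ vx F (ψ z)) := by
    intro z
    rw [hΨ, Finset.sum_eq_single z]
    · rw [Pi.single_eq_same, one_smul]
    · intro b _ hb; rw [Pi.single_eq_of_ne hb, zero_smul]
    · intro hz; exact absurd (Finset.mem_univ z) hz
  have hker : LinearMap.ker Φ ≤ LinearMap.ker Ψ := by
    intro a ha
    rw [LinearMap.mem_ker, hΦ] at ha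
    rw [LinearMap.mem_ker, hΨ]
    exact hψ a ha
  have hΦsurj : LinearMap.range Φ = ⊤ := by
    rw [eq_top_iff, ← nd_surj hnd, Submodule.span_le]
    rintro _ ⟨v, rfl⟩
    exact ⟨Pi.single v 1, hΦs v⟩
  obtain ⟨s, hs⟩ := Φ.exists_rightInverse_of_surjective hΦsurj
  have hs' : ∀ w, Φ (s w) = w := fun w => LinearMap.congr_fun hs w
  let γ : (Fin m → ZMod 2) →ₗ[ZMod 2] (Fin m → F) := Ψ.comp s
  have hγ : ∀ a, γ (Φ a) = Ψ a := by
    intro a
    have h1 : s (Φ a) - a ∈ LinearMap.ker Φ := by
      rw [LinearMap.mem_ker, map_sub, hs', sub_self]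
    have h2 := hker h1
    rw [LinearMap.mem_ker, map_sub, sub_eq_zero] at h2
    exact h2
  have hγq : ∀ z, γ (bil B z z) = qF B F (c.M *ᵥ vx F (ψ z)) := by
    intro z; rw [← hΦs, hγ, hΨs]
  -- the range of `γ`
  have hle : V0 B d.P ≤ LinearMap.range γ := by
    rw [V0, Submodule.span_le]
    rintro _ ⟨a, rfl⟩
    refine ⟨bil B (ψ.symm (c.z a)) (ψ.symm (c.z a)), ?_⟩
    rw [hγq, ψ.apply_symm_apply, ← c.hz a]
  have hγinj : Function.Injective γ := by
    have hfin : Finite (LinearMap.range γ) :=
      Finite.of_surjective _ (LinearMap.surjective_rangeRestrict γ)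
    have hfin0 : Finite (V0 B d.P) := Finite.of_injective _ (Submodule.inclusion_injective hle)
    have h1 : 2 ^ m ≤ Nat.card (V0 B d.P) := form_card _ (V0_span d.P d.P_mul hnd d.span_P)
    have h2 : Nat.card (V0 B d.P) ≤ Nat.card (LinearMap.range γ) :=
      Nat.card_le_card_of_injective _ (Submodule.inclusion_injective hle)
    have h3 : Nat.card (Fin m → ZMod 2) = 2 ^ m := by
      rw [Nat.card_fun, Nat.card_zmod, Nat.card_fin]
    have h4 : Nat.card (LinearMap.range γ) ≤ Nat.card (Fin m → ZMod 2) :=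
      Nat.card_le_card_of_surjective _ (LinearMap.surjective_rangeRestrict γ)
    have h5 : Function.Bijective γ.rangeRestrict := by
      rw [Nat.bijective_iff_surjective_and_card]
      exact ⟨LinearMap.surjective_rangeRestrict γ, by omega⟩
    intro a b hab
    exact h5.1 (Subtype.ext hab)
  obtain ⟨r, hr⟩ := γ.exists_leftInverse_of_injective (LinearMap.ker_eq_bot.2 hγinj)
  have hr' : ∀ w, r (γ w) = w := fun w => LinearMap.congr_fun hr w
  have hrq : ∀ z, r (qF B F (c.M *ᵥ vx F (ψ z))) = bil B z z := by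
    intro z; rw [← hγq, hr']
  -- the correction
  let L : (Fin n → ZMod 2) → (Fin n → F) := fun v => c.M *ᵥ vx F (ψ v)
  have hL : ∀ v w, L (v + w) = L v + L w := by
    intro v w
    change c.M *ᵥ vx F (ψ (v + w)) = c.M *ᵥ vx F (ψ v) + c.M *ᵥ vx F (ψ w)
    rw [map_add, vx_add, mulVec_add]
  have hL0 : L 0 = 0 := by
    have := hL 0 0
    rw [add_zero] at this
    exact left_eq_add.1 this
  let fv : (Fin n → ZMod 2) → (Fin n → ZMod 2) → (Fin m → ZMod 2) := fun v w =>
    r (bil (BF B F) (L v) (L w)) + bil B v w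
  have hf1 : ∀ u v w, fv (u + v) w = fv u w + fv v w := by
    intro u v w
    simp only [fv, hL, bil_add_left, map_add]; abel
  have hf2 : ∀ u v w, fv u (v + w) = fv u v + fv u w := by
    intro u v w
    simp only [fv, hL, bil_add_right, map_add]; abel
  have hf10 : ∀ w, fv 0 w = 0 := by
    intro w
    have := hf1 0 0 w
    rw [add_zero] at this
    exact left_eq_add.1 this
  have hf20 : ∀ w, fv w 0 = 0 := by
    intro w
    have := hf2 w 0 0
    rw [add_zero] at this
    exact left_eq_add.1 this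
  let f : (Fin n → ZMod 2) →ₗ[ZMod 2] (Fin n → ZMod 2) →ₗ[ZMod 2] (Fin m → ZMod 2) :=
    AddMonoidHom.toZModLinearMap 2
      { toFun := fun v => AddMonoidHom.toZModLinearMap 2
          { toFun := fun w => fv v w
            map_zero' := hf20 v
            map_add' := fun w w' => hf2 v w w' }
        map_zero' := LinearMap.ext fun w => hf10 w
        map_add' := fun v v' => LinearMap.ext fun w => hf1 v v' w }
  have hfv : ∀ v w, f v w = r (bil (BF B F) (L v) (L w)) + bil B v w := fun _ _ => rfl
  obtain ⟨g, hg⟩ := alt_polar f (by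
    intro v
    rw [hfv]
    have := hrq v
    rw [qF] at this
    change r (bil (BF B F) (c.M *ᵥ vx F (ψ v)) (c.M *ᵥ vx F (ψ v))) + _ = 0
    rw [this, add_self2])
  have hg0 : g 0 = 0 := by
    have := hg 0 0
    rw [add_zero, map_zero, add_zero] at this
    exact left_eq_add.1 this
  let x : H → (Fin n → ZMod 2) := fun h => ψ.symm (c.z h)
  have hx : ∀ h k, x (h * k) = x h + x k := by
    intro h k
    change ψ.symm (c.z (h * k)) = ψ.symm (c.z h) + ψ.symm (c.z k)
    rw [c.z_mul, map_add]
  have hLx : ∀ h, L (x h) = d.P h := by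
    intro h
    change c.M *ᵥ vx F (ψ (ψ.symm (c.z h))) = d.P h
    rw [ψ.apply_symm_apply, ← c.hz]
  have hx1 : x 1 = 0 := by
    have := hx 1 1
    rw [mul_one] at this
    exact left_eq_add.1 this
  let φ : H →* Heis B :=
    { toFun := fun h => ⟨x h, r (d.T h) + g (x h)⟩
      map_one' := by
        rw [T_one d.P d.T d.P_mul d.T_mul, hx1, map_zero, hg0, add_zero]; rfl
      map_mul' := fun h k => by
        apply Heis.ext
        · exact hx h k
        · change r (d.T (h * k)) + g (x (h * k)) = r (d.T h) + g (x h) + (r (d.T k) + g (x k)) +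
            bil B (x h) (x k)
          rw [d.T_mul, hx, hg, hfv, hLx, hLx, map_add, map_add]
          have e := add_self2 (r (bil (BF B F) (d.P h) (d.P k)))
          calc r (d.T h) + r (d.T k) + r (bil (BF B F) (d.P h) (d.P k)) +
                (g (x h) + g (x k) + (r (bil (BF B F) (d.P h) (d.P k)) + bil B (x h) (x k)))
              = r (d.T h) + g (x h) + (r (d.T k) + g (x k)) + bil B (x h) (x k) +
                (r (bil (BF B F) (d.P h) (d.P k)) + r (bil (BF B F) (d.P h) (d.P k))) := by abel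
            _ = _ := by rw [e, add_zero] }
  have hφ : ∀ h, φ h = ⟨x h, r (d.T h) + g (x h)⟩ := fun _ => rfl
  have hinj : Function.Injective φ := by
    rw [injective_iff_map_eq_one]
    intro h hh
    rw [hφ] at hh
    have h1 : x h = 0 := congrArg Heis.v hh
    have h2 : r (d.T h) + g (x h) = 0 := congrArg Heis.t hh
    rw [h1, hg0, add_zero] at h2
    have h3 : d.P h = 0 := by rw [← hLx, h1, hL0]
    obtain ⟨w, hw⟩ := hle (c.hU h h3)
    rw [← hw, hr'] at h2
    rw [h2, map_zero] at hw
    exact c.inj h h3 hw.symm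
  have hfinH : Finite (Heis B) := inferInstance
  have hpos : 0 < Nat.card H := by rw [d.hcard]; exact Nat.card_pos
  have hfH : Finite H := (Nat.card_pos_iff.1 hpos).2
  exact ⟨MulEquiv.ofBijective φ ((Nat.bijective_iff_injective_and_card _).2 ⟨hinj, d.hcard⟩)⟩

end alg

end Pool.Agent.T2H54.Mip2
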