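import Mathlib
import Pool.Agent.T2H54.Mip2.P6a
import Pool.Agent.T2H54.Mip2.P6b
import Pool.Agent.Results.MP_8bb7de_al.OddPrimeAllFields

set_option autoImplicit false
set_option linter.unusedSectionVars false

/-! # Package P6: reduction of the final theorem to the statement on spanning subgroups -/

universe u v w

namespace Pool.Agent.T2H54.Mip2

open Matrix Pool.Agent.R691.Mip MonoidAlgebra
open scoped commutatorElement
open Pool.Agent.Results.MP_8bb7de_al.OddPrimeAllFields (Delta D single_sub_mem Delta_mul_top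
  pow_mul_mem comm_mem comm_comm_mem)

/-- the group `H` of an isomorphism `F H = F (Heis B)` spans and has the right order -/
theorem hs_of_equiv {n m : ℕ} {B : Fin m → Matrix (Fin n) (Fin n) (ZMod 2)}
    {F : Type*} [Field F] [CharP F 2] [Algebra (ZMod 2) F] {H : Type*} [Group H]
    (e : MonoidAlgebra F H ≃ₐ[F] MonoidAlgebra F (Heis B)) : Nonempty (HS B F H) := by
  classical
  let b1 : Module.Basis H F (MonoidAlgebra F (Heis B)) := (gbasis F H).map e.toLinearEquiv
  let θ : H ≃ Heis B := b1.indexEquiv (gbasis F (Heis B))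
  have hcard : Nat.card H = Nat.card (Heis B) := Nat.card_congr θ
  let u : H →* MonoidAlgebra F (Heis B) := (e : MonoidAlgebra F H →* _).comp (of F H)
  have hspan : Submodule.span F (Set.range u) = ⊤ := by
    rw [← b1.span_eq]
    have : (u : H → MonoidAlgebra F (Heis B)) = b1 := by
      funext h
      rw [Module.Basis.map_apply, gbasis_apply]; rfl
    rw [this]
  have hc : Nat.card H = 2 ^ (n + m) := by
    rw [hcard, Nat.card_congr Heis.equivProd, Nat.card_prod, Nat.card_fun, Nat.card_fun,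
      Nat.card_zmod, Nat.card_fin, Nat.card_fin, pow_add]
  have haug : ∀ h, aug F _ (u h) = 1 := by
    intro h
    have h1 : h ^ (2 ^ (n + m)) = 1 := by rw [← hc]; exact pow_card_eq_one'
    have h3 : (aug F _ (u h)) ^ (2 ^ (n + m)) = 1 := by
      rw [← aug_pow, ← map_pow, h1, map_one, aug_one]
    haveI : ExpChar F 2 := ExpChar.prime Nat.prime_two
    have h4 := ExpChar.pow_prime_pow_mul_eq_one_iff 2 (n + m) 1 (aug F _ (u h))
    rw [mul_one, pow_one] at h4
    exact h4.1 h3
  exact ⟨{ u := u, haug := haug, hspan := hspan, hcard := hcard }⟩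

section dim
variable {F : Type*} [Field F] [CharP F 2] {G : Type*} [Group G]

lemma sq_sub (g : G) : single (g ^ 2) (1 : F) - 1 = (single g (1 : F) - 1) ^ 2 := by
  have hc : CharP (MonoidAlgebra F G) 2 := charP_of_injective_algebraMap
    (algebraMap F (MonoidAlgebra F G)).injective 2
  haveI : Fact (Nat.Prime 2) := ⟨Nat.prime_two⟩
  rw [sub_pow_char_of_commute _ (Commute.one_right _), one_pow, single_pow, one_pow]

lemma comm_sq_mem (a b : G) : single (⁅a, b⁆ ^ 2) (1 : F) - 1 ∈ Delta F G ^ 3 := by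
  rw [sq_sub, pow_two, pow_succ']
  have h1 : single ⁅a, b⁆ (1 : F) - 1 ∈ Delta F G := single_sub_mem _
  exact Submodule.mul_mem_mul h1 (comm_mem a b)

lemma four_mem (g : G) : single (g ^ 4) (1 : F) - 1 ∈ Delta F G ^ 3 := by
  have h1 : g ^ 4 = (g ^ 2) ^ 2 := by rw [← pow_mul]
  rw [h1, sq_sub, sq_sub, ← pow_mul]
  have h2 : (single g (1 : F) - 1) ^ (2 * 2) =
      (single g (1 : F) - 1) ^ 3 * (single g (1 : F) - 1) := by
    rw [← pow_succ]
  rw [h2]
  apply pow_mul_mem 2
  exact Submodule.pow_mem_pow _ (single_sub_mem g) 3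

end dim

/-- Reduction of the case `p = 2` to the statement `hmain` on spanning subgroups. -/
theorem final2 {G : Type u} [Group G] [Finite G]
    (K : Type v) [Field K] [CharP K 2] (hD : D K G 3 = {1})
    {F : Type w} [Field F] [CharP F 2] {H : Type*} [Group H]
    (hmain : ∀ (_ : Algebra (ZMod 2) F) (n m : ℕ) (B : Fin m → Matrix (Fin n) (Fin n) (ZMod 2)),
      Nd B → HS B F H → Nonempty (H ≃* Heis B))
    (e : Nonempty (MonoidAlgebra F G ≃ₐ[F] MonoidAlgebra F H)) : Nonempty (G ≃* H) := by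
  classical
  obtain ⟨e⟩ := e
  have hD1 : ∀ g : G, single g (1 : K) - 1 ∈ Delta K G ^ 3 → g = 1 := by
    intro g hg
    have : g ∈ D K G 3 := hg
    rwa [hD] at this
  obtain ⟨n, m, B, hnd, ⟨θ⟩⟩ := P6a (G := G)
    (fun x y z => commutatorElement_eq_one_iff_mul_comm.1 (hD1 _ (comm_comm_mem x y z)))
    (fun x y => hD1 _ (comm_sq_mem x y)) (fun x => hD1 _ (four_mem x))
  let alg : Algebra (ZMod 2) F := ZMod.algebra F 2
  have e1 : MonoidAlgebra F H ≃ₐ[F] MonoidAlgebra F (Heis B) :=
    e.symm.trans (MonoidAlgebra.domCongr F F θ)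
  obtain ⟨d⟩ := hs_of_equiv e1
  obtain ⟨f⟩ := hmain alg n m B hnd d
  exact ⟨θ.trans f.symm⟩

end Pool.Agent.T2H54.Mip2
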